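import Pool.Agent.WSatMon.Sand

/-! Evaluation of frames. -/

namespace Pool.Agent.WSatMon

open Finset

/-- evaluation with given values of the slots -/
def EvalSl (F : Frame) (sl val : F.Gate → Prop) : Prop :=
  (∀ h, F.isAnd h → (val h ↔ (∀ g, F.wire g h → val g) ∧ (F.slot h → sl h))) ∧
  ∀ h, ¬ F.isAnd h → (val h ↔ (∃ g, F.wire g h ∧ val g) ∨ (F.slot h ∧ sl h))

/-- weighted satisfiability with given values of the slots -/
def SlSat (F : Frame) (k : ℕ) (sl : Set F.Var → F.Gate → Prop) : Prop :=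
  ∃ S : Set F.Var, Nat.card S = k ∧ ∃ val, EvalSl F (sl S) val ∧ val F.out

open Classical in
/-- one step of the evaluation -/
noncomputable def step (F : Frame) (sl : F.Gate → Prop) (h : F.Gate)
    (v : (g : F.Gate) → F.wire g h → Prop) : Prop :=
  if F.isAnd h then (∀ g (hg : F.wire g h), v g hg) ∧ (F.slot h → sl h)
  else (∃ g, ∃ hg : F.wire g h, v g hg) ∨ (F.slot h ∧ sl h)

/-- the evaluation -/
noncomputable def evalF (F : Frame) (sl : F.Gate → Prop) : F.Gate → Prop :=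
  F.wf.fix (step F sl)

theorem evalF_eq (F : Frame) (sl : F.Gate → Prop) (h : F.Gate) :
    evalF F sl h = step F sl h fun g _ => evalF F sl g := F.wf.fix_eq _ _

theorem evalF_spec (F : Frame) (sl : F.Gate → Prop) : EvalSl F sl (evalF F sl) := by
  constructor
  · intro h hh
    rw [evalF_eq, step, if_pos hh]
  · intro h hh
    rw [evalF_eq, step, if_neg hh]
    simp only [exists_prop]

theorem EvalSl.mono {F : Frame} {sl sl' val val' : F.Gate → Prop} (h : EvalSl F sl val)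
    (h' : EvalSl F sl' val') (hs : ∀ g, sl g → sl' g) (g : F.Gate) : val g → val' g := by
  induction g using F.wf.induction with
  | _ g ih =>
    by_cases hg : F.isAnd g
    · rw [h.1 g hg, h'.1 g hg]
      exact fun ⟨h1, h2⟩ => ⟨fun a ha => ih a ha (h1 a ha), fun hsl => hs _ (h2 hsl)⟩
    · rw [h.2 g hg, h'.2 g hg]
      rintro (⟨a, ha, hv⟩ | ⟨h1, h2⟩)
      · exact Or.inl ⟨a, ha, ih a ha hv⟩
      · exact Or.inr ⟨h1, hs _ h2⟩

theorem EvalSl.unique {F : Frame} {sl val val' : F.Gate → Prop} (h : EvalSl F sl val)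
    (h' : EvalSl F sl val') (g : F.Gate) : val g ↔ val' g :=
  ⟨h.mono h' (fun _ h => h) g, h'.mono h (fun _ h => h) g⟩

theorem slSat_iff {F : Frame} {k : ℕ} {sl : Set F.Var → F.Gate → Prop} :
    SlSat F k sl ↔ ∃ S : Set F.Var, Nat.card S = k ∧ evalF F (sl S) F.out := by
  constructor
  · rintro ⟨S, h1, val, h2, h3⟩
    exact ⟨S, h1, (h2.unique (evalF_spec F _) _).1 h3⟩
  · rintro ⟨S, h1, h2⟩
    exact ⟨S, h1, _, evalF_spec F _, h2⟩

theorem SlSat.mono {F : Frame} {k : ℕ} {sl sl' : Set F.Var → F.Gate → Prop}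
    (h : ∀ S : Set F.Var, Nat.card S = k → ∀ g, sl S g → sl' S g) (hs : SlSat F k sl) :
    SlSat F k sl' := by
  rw [slSat_iff] at hs ⊢
  obtain ⟨S, h1, h2⟩ := hs
  exact ⟨S, h1, (evalF_spec F _).mono (evalF_spec F _) (h S h1) _ h2⟩

open Classical in
/-- the value of the slot of a gate -/
noncomputable def sl0 (F : Frame) {d : ℕ} (y : F.Bit d → Bool) (S : Set F.Var) (g : F.Gate) : Prop :=
  if F.isAnd g then ∀ D, y (g, D) = false → ∃ i, litTrue S (D i)
  else ∃ D, y (g, D) = true ∧ ∀ i, litTrue S (D i)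

theorem isEval_iff {F : Frame} {d : ℕ} {y : F.Bit d → Bool} {S : Set F.Var}
    {val : F.Gate → Prop} : IsEval F y S val ↔ EvalSl F (sl0 F y S) val := by
  constructor
  · rintro ⟨h1, h2⟩
    refine ⟨fun h hh => ?_, fun h hh => ?_⟩
    · rw [h1 h hh, sl0, if_pos hh]
    · rw [h2 h hh, sl0, if_neg hh]
  · rintro ⟨h1, h2⟩
    refine ⟨fun h hh => ?_, fun h hh => ?_⟩
    · rw [h1 h hh, sl0, if_pos hh]
    · rw [h2 h hh, sl0, if_neg hh]

theorem wsat_slSat {F : Frame} {d : ℕ} {y : F.Bit d → Bool} {k : ℕ} :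
    WSat F y k ↔ SlSat F k (sl0 F y) := by
  unfold WSat SlSat
  simp only [isEval_iff]

theorem wsat_iff {F : Frame} {d : ℕ} {y : F.Bit d → Bool} {k : ℕ} :
    WSat F y k ↔ ∃ S : Set F.Var, Nat.card S = k ∧ evalF F (sl0 F y S) F.out := by
  rw [wsat_slSat, slSat_iff]

section small

variable {Blk : Type}

theorem SmallMono.all {ι : Type} {q : ℕ} (I : Finset ι) (h : ι → (Blk → Bool) → Prop)
    (hh : ∀ i ∈ I, SmallMono q (h i)) : SmallMono (I.card * q) fun w => ∀ i ∈ I, h i w := by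
  classical
  constructor
  · choose! J hJ using fun i hi => (hh i hi).1
    refine ⟨I.biUnion J, Finset.card_biUnion_le_card_mul _ _ _ fun i hi => (hJ i hi).1, ?_⟩
    intro w w' hw
    apply forall_congr'
    intro i
    apply imp_congr_right
    intro hi
    exact (hJ i hi).2 w w' fun b hb => hw b (Finset.mem_biUnion.2 ⟨i, hi, hb⟩)
  · intro w w' hw h1 i hi
    exact (hh i hi).2 w w' hw (h1 i hi)

theorem SmallMono.any {ι : Type} {q : ℕ} (I : Finset ι) (h : ι → (Blk → Bool) → Prop)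
    (hh : ∀ i ∈ I, SmallMono q (h i)) : SmallMono (I.card * q) fun w => ∃ i ∈ I, h i w := by
  classical
  constructor
  · choose! J hJ using fun i hi => (hh i hi).1
    refine ⟨I.biUnion J, Finset.card_biUnion_le_card_mul _ _ _ fun i hi => (hJ i hi).1, ?_⟩
    intro w w' hw
    apply exists_congr
    intro i
    apply and_congr_right
    intro hi
    exact (hJ i hi).2 w w' fun b hb => hw b (Finset.mem_biUnion.2 ⟨i, hi, hb⟩)
  · rintro w w' hw ⟨i, hi, h1⟩
    exact ⟨i, hi, (hh i hi).2 w w' hw h1⟩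

theorem SmallMono.weaken {q q' : ℕ} {h : (Blk → Bool) → Prop} (hh : SmallMono q h)
    (hq : q ≤ q') : SmallMono q' h := by
  obtain ⟨⟨J, h1, h2⟩, h3⟩ := hh
  exact ⟨⟨J, h1.trans hq, h2⟩, h3⟩

end small

end Pool.Agent.WSatMon
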