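import Pool.Agent.WSatMon.Build
import Pool.Agent.WSatMon.Eval

/-! The chain of reductions. -/

namespace Pool.Agent.WSatMon

open Finset

section build

variable {V : Type}

theorem Buildable.const1 (b : Prop) : Buildable ([] : List ((V → Bool) → Prop)) 1 fun _ => b := by
  intro L2 h1 _
  exact ⟨[fun _ => b], Straight.const b h1, by simp, by simp⟩

theorem Buildable.input1 (v : V) :
    Buildable ([] : List ((V → Bool) → Prop)) 1 fun x => x v = true := by
  intro L2 h1 _
  exact ⟨[fun x => x v = true], Straight.input v h1, by simp, by simp⟩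

/-- every output bit is a constant or an input -/
theorem monComp_proj {W : Type} [Finite W] {M : (V → Bool) → (W → Bool)}
    (h : ∀ b, (∃ c : Prop, ∀ x, (M x b = true) = c) ∨ ∃ v, ∀ x, M x b = x v) {s : ℕ}
    (hs : Nat.card W ≤ s) : MonComp s M := by
  have : Fintype W := Fintype.ofFinite W
  obtain ⟨L3, h1, h2, h3⟩ := Buildable.multi (L := ([] : List ((V → Bool) → Prop)))
    Straight.nil (m := 1) (ι := W) (fun b x => M x b = true) (by
      intro b
      rcases h b with ⟨c, hc⟩ | ⟨v, hv⟩
      · have : (fun x => M x b = true) = fun _ => c := funext hc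
        rw [this]
        exact Buildable.const1 c
      · have : (fun x => M x b = true) = fun x => x v = true := by
          funext x
          rw [hv]
        rw [this]
        exact Buildable.input1 v)
  rw [List.append_nil] at h1
  refine ⟨L3, h1, ?_, fun b => ?_⟩
  · rw [Nat.card_eq_fintype_card] at hs
    omega
  · have := h3 b
    rwa [List.append_nil] at this

end build

/-- number of table positions -/
theorem card_Bit (F : Frame) (d : ℕ) :
    Nat.card (F.Bit d) = Nat.card F.Gate * (Nat.card F.Var * 2) ^ d := by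
  unfold Frame.Bit
  rw [Nat.card_prod, Nat.card_fun, Nat.card_prod, Nat.card_fin]
  simp

theorem card_Bit_le {F : Frame} {A : ℕ} (h : F.size ≤ A) (d : ℕ) :
    Nat.card (F.Bit d) ≤ 2 ^ d * (A + 1) ^ (d + 1) := by
  have h1 : Nat.card F.Gate ≤ A := le_trans (Nat.le_add_right _ _) h
  have h2 : Nat.card F.Var ≤ A := le_trans (Nat.le_add_left _ _) h
  rw [card_Bit]
  calc Nat.card F.Gate * (Nat.card F.Var * 2) ^ d ≤ (A + 1) * ((A + 1) * 2) ^ d := by
        gcongr
        · omega
        · omega
    _ = 2 ^ d * (A + 1) ^ (d + 1) := by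
      rw [mul_pow]
      ring

/-- inclusion of classes -/
theorem red_incl (d : ℕ) (m m' : Frame → Prop) (h : ∀ F, m F → m' F) :
    ReducesMon ⟨d, m⟩ ⟨d, m'⟩ := by
  refine ⟨d + 1, fun k => ⟨2 ^ d + k, fun F hF => ⟨F, h F hF, ?_, k, Nat.le_add_left _ _, id,
    ?_, ?_⟩⟩⟩
  · calc F.size ≤ 1 * (F.size + 1) ^ 1 := by
          rw [one_mul, pow_one]
          omega
      _ ≤ (2 ^ d + k) * (F.size + 1) ^ (d + 1) := by
        apply Nat.mul_le_mul
        · have : 1 ≤ 2 ^ d := Nat.one_le_two_pow
          omega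
        · exact Nat.pow_le_pow_right (by omega) (by omega)
  · refine monComp_proj (fun b => Or.inr ⟨b, fun x => rfl⟩) ?_
    refine (card_Bit_le (le_refl _) d).trans ?_
    exact Nat.mul_le_mul_right _ (by omega)
  · intro y
    exact Iff.rfl

theorem red_PROP (t : ℕ) : ReducesMon (GAMMA t 1) PROP :=
  red_incl 1 _ _ fun _ h => h.1

theorem red_CIRC : ReducesMon PROP CIRC := red_incl 1 _ _ fun _ _ => trivial

section up

open Classical in
/-- larger pieces: the table -/
noncomputable def upT (F : Frame) (d : ℕ) (y : F.Bit 1 → Bool) : F.Bit (d + 1) → Bool := fun p =>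
  if ∀ i, p.2 i = p.2 0 then y (p.1, fun _ => p.2 0) else decide (F.isAnd p.1)

theorem upT_proj (F : Frame) (d : ℕ) (b : F.Bit (d + 1)) :
    (∃ c : Prop, ∀ x, (upT F d x b = true) = c) ∨ ∃ v, ∀ x, upT F d x b = x v := by
  classical
  by_cases hc : ∀ i, b.2 i = b.2 0
  · exact Or.inr ⟨(b.1, fun _ => b.2 0), fun x => by rw [upT, if_pos hc]⟩
  · exact Or.inl ⟨F.isAnd b.1, fun x => by
      rw [upT, if_neg hc]
      exact propext decide_eq_true_iff⟩

open Classical in
theorem isEval_up {F : Frame} {d : ℕ} {y : F.Bit 1 → Bool} {S : Set F.Var}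
    {val : F.Gate → Prop} : IsEval F (upT F d y) S val ↔ IsEval F y S val := by
  have hA : ∀ h, F.isAnd h → ((∀ D : Fin (d + 1) → F.Var × Bool, upT F d y (h, D) = false →
      ∃ i, litTrue S (D i)) ↔ ∀ D : Fin 1 → F.Var × Bool, y (h, D) = false →
      ∃ i, litTrue S (D i)) := by
    intro h hh
    constructor
    · intro h1 D hD
      obtain ⟨i, hi⟩ := h1 (fun _ => D 0) (by
        have : D = fun _ => D 0 := by
          funext i
          rw [Subsingleton.elim i 0]
        rw [this] at hD
        simp only [upT, implies_true, if_true]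
        exact hD)
      exact ⟨0, hi⟩
    · intro h1 D hD
      by_cases hc : ∀ i, D i = D 0
      · rw [upT, if_pos hc] at hD
        obtain ⟨i, hi⟩ := h1 _ hD
        exact ⟨0, hi⟩
      · rw [upT, if_neg hc, decide_eq_false_iff_not] at hD
        exact absurd hh hD
  have hO : ∀ h, ¬ F.isAnd h → ((∃ D : Fin (d + 1) → F.Var × Bool, upT F d y (h, D) = true ∧
      ∀ i, litTrue S (D i)) ↔ ∃ D : Fin 1 → F.Var × Bool, y (h, D) = true ∧
      ∀ i, litTrue S (D i)) := by
    intro h hh
    constructor
    · rintro ⟨D, hD, h1⟩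
      by_cases hc : ∀ i, D i = D 0
      · rw [upT, if_pos hc] at hD
        exact ⟨_, hD, fun i => h1 0⟩
      · rw [upT, if_neg hc, decide_eq_true_eq] at hD
        exact absurd hD hh
    · rintro ⟨D, hD, h1⟩
      refine ⟨fun _ => D 0, ?_, fun i => h1 0⟩
      have : D = fun _ => D 0 := by
        funext i
        rw [Subsingleton.elim i 0]
      rw [this] at hD
      simp only [upT, implies_true, if_true]
      exact hD
  unfold IsEval
  constructor
  · rintro ⟨h1, h2⟩
    refine ⟨fun h hh => ?_, fun h hh => ?_⟩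
    · rw [h1 h hh, hA h hh]
    · rw [h2 h hh, hO h hh]
  · rintro ⟨h1, h2⟩
    refine ⟨fun h hh => ?_, fun h hh => ?_⟩
    · rw [h1 h hh, hA h hh]
    · rw [h2 h hh, hO h hh]

/-- larger pieces -/
theorem red_up (t d : ℕ) : ReducesMon (GAMMA t 1) (GAMMA t (d + 1)) := by
  classical
  refine ⟨d + 2, fun k => ⟨2 ^ (d + 1) + k, fun F hF => ⟨F, hF, ?_, k, Nat.le_add_left _ _,
    upT F d, ?_, ?_⟩⟩⟩
  · calc F.size ≤ 1 * (F.size + 1) ^ 1 := by
          rw [one_mul, pow_one]
          omega
      _ ≤ (2 ^ (d + 1) + k) * (F.size + 1) ^ (d + 2) := by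
        apply Nat.mul_le_mul
        · have : 1 ≤ 2 ^ (d + 1) := Nat.one_le_two_pow
          omega
        · exact Nat.pow_le_pow_right (by omega) (by omega)
  · refine monComp_proj (upT_proj F d) ?_
    refine (card_Bit_le (le_refl _) (d + 1)).trans ?_
    exact Nat.mul_le_mul_right _ (by omega)
  · intro y
    constructor
    · rintro ⟨S, hS, val, h1, h2⟩
      exact ⟨S, hS, val, isEval_up.2 h1, h2⟩
    · rintro ⟨S, hS, val, h1, h2⟩
      exact ⟨S, hS, val, isEval_up.1 h1, h2⟩

end up

section two

/-- the frame for `Γ_{2,1}` -/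
def twoF (X : Type) [Finite X] : Frame where
  Var := X
  Gate := Option (Fin 2 → X × Bool)
  finVar := inferInstance
  finGate := inferInstance
  isAnd g := g = none
  slot g := g ≠ none
  wire g h := g ≠ none ∧ h = none
  wf := by
    refine Subrelation.wf (r := fun g h => (measure fun g : Option (Fin 2 → X × Bool) =>
      if g.isSome then 0 else 1).rel g h) ?_ (measure _).wf
    rintro g h ⟨hg, rfl⟩
    cases g with
    | none => exact absurd rfl hg
    | some D => exact Nat.one_pos
  out := none

open Classical in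
/-- the table for `Γ_{2,1}` -/
noncomputable def twoT (F : Frame) (y : F.Bit 2 → Bool) : (twoF F.Var).Bit 1 → Bool := fun p =>
  match p.1 with
  | none => false
  | some D => decide (p.2 0 = D 0 ∨ p.2 0 = D 1) || y (F.out, D)

theorem twoT_proj (F : Frame) (b : (twoF F.Var).Bit 1) :
    (∃ c : Prop, ∀ x, (twoT F x b = true) = c) ∨ ∃ v, ∀ x, twoT F x b = x v := by
  obtain ⟨g, E⟩ := b
  cases g with
  | none => exact Or.inl ⟨False, fun x => by simp [twoT]⟩
  | some D =>
    by_cases hc : E 0 = D 0 ∨ E 0 = D 1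
    · exact Or.inl ⟨True, fun x => by simp only [twoT, hc, decide_true, Bool.true_or]⟩
    · exact Or.inr ⟨(F.out, D), fun x => by simp only [twoT, hc, decide_false, Bool.false_or]⟩

theorem lit_or {X : Type} (S : Set X) (x : X) : litTrue S (x, true) ∨ litTrue S (x, false) := by
  by_cases h : x ∈ S
  · exact Or.inl ⟨fun _ => rfl, fun _ => h⟩
  · exact Or.inr ⟨fun h' => absurd h' h, fun h' => absurd h' (by simp)⟩

theorem two_sem {F : Frame} {y : F.Bit 2 → Bool} {S : Set F.Var}
    {val : Option (Fin 2 → F.Var × Bool) → Prop} (h : IsEval (twoF F.Var) (twoT F y) S val) :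
    val none ↔ ∀ D : Fin 2 → F.Var × Bool, y (F.out, D) = false → ∃ i, litTrue S (D i) := by
  obtain ⟨h1, h2⟩ := h
  have hD : ∀ D : Fin 2 → F.Var × Bool, val (some D) ↔
      (y (F.out, D) = false → ∃ i, litTrue S (D i)) := by
    intro D
    rw [h2 (some D) (by simp [twoF])]
    constructor
    · rintro (⟨g, ⟨_, hg⟩, _⟩ | ⟨_, E, hE, hl⟩) hy
      · simp at hg
      · have h0 := hl 0
        simp only [twoT, hy, Bool.or_false, decide_eq_true_eq] at hE
        rcases hE with hE | hE
        · exact ⟨0, by rw [← hE]; exact h0⟩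
        · exact ⟨1, by rw [← hE]; exact h0⟩
    · intro hy
      right
      refine ⟨by simp [twoF], ?_⟩
      cases hyD : y (F.out, D) with
      | false =>
        obtain ⟨i, hi⟩ := hy hyD
        refine ⟨fun _ => D i, ?_, fun _ => hi⟩
        simp only [twoT, Bool.or_eq_true, decide_eq_true_eq]
        left
        fin_cases i
        · exact Or.inl rfl
        · exact Or.inr rfl
      | true =>
        rcases lit_or S (D 0).1 with h3 | h3
        · exact ⟨fun _ => ((D 0).1, true), by simp [twoT, hyD], fun _ => h3⟩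
        · exact ⟨fun _ => ((D 0).1, false), by simp [twoT, hyD], fun _ => h3⟩
  rw [h1 none rfl]
  constructor
  · rintro ⟨h3, _⟩ D
    exact (hD D).1 (h3 (some D) ⟨by simp, rfl⟩)
  · intro h3
    refine ⟨?_, fun hs => absurd rfl hs⟩
    rintro g ⟨hg, _⟩
    cases g with
    | none => exact absurd rfl hg
    | some D => exact (hD D).2 (h3 D)

theorem one_sem {F : Frame} (hF : (GAMMA 1 2).mem F) {y : F.Bit 2 → Bool} {S : Set F.Var}
    {val : F.Gate → Prop} (h : IsEval F y S val) :
    val F.out ↔ ∀ D : Fin 2 → F.Var × Bool, y (F.out, D) = false → ∃ i, litTrue S (D i) := by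
  obtain ⟨_, lev, h1, h2, h3⟩ := hF
  rw [h.1 F.out ((h3 _).2.2.1.2 (by rw [h1]; exact odd_one))]
  constructor
  · rintro ⟨_, h4⟩
    exact h4 ((h3 _).2.2.2.2 h1)
  · intro h4
    refine ⟨?_, fun _ => h4⟩
    intro g hg
    have := h2 _ _ hg
    have := (h3 g).2.1
    omega

theorem two_mem (X : Type) [Finite X] : (GAMMA 2 1).mem (twoF X) := by
  refine ⟨?_, fun g => if g.isSome then 2 else 1, rfl, ?_, ?_⟩
  · rintro g h h' ⟨_, rfl⟩ ⟨_, rfl⟩
    rfl
  · rintro g h ⟨hg, rfl⟩
    cases g with
    | none => exact absurd rfl hg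
    | some D => rfl
  · intro g
    cases g with
    | none =>
      refine ⟨le_refl _, by simp, ?_, ?_⟩
      · simp [twoF]
      · simp [twoF]
    | some D =>
      refine ⟨by simp, by simp, ?_, ?_⟩
      · simp [twoF]
      · simp [twoF]

theorem two_size (F : Frame) : (twoF F.Var).size ≤ 4 * (F.size + 1) ^ 2 + F.size := by
  have h2 : Nat.card F.Var ≤ F.size := Nat.le_add_left _ _
  have h1 : Nat.card (twoF F.Var).Gate = Nat.card (Fin 2 → F.Var × Bool) + 1 :=
    Finite.card_option
  have h3 : Nat.card (Fin 2 → F.Var × Bool) = (Nat.card F.Var * 2) ^ 2 := by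
    rw [Nat.card_fun, Nat.card_prod, Nat.card_fin]
    simp
  have h4 : Nat.card (twoF F.Var).Var = Nat.card F.Var := rfl
  unfold Frame.size at *
  rw [h1, h3, h4]
  nlinarith

/-- `Γ_{1,2} ≤ Γ_{2,1}` -/
theorem red_two : ReducesMon (GAMMA 1 2) (GAMMA 2 1) := by
  classical
  refine ⟨4, fun k => ⟨72 + k, fun F hF => ⟨twoF F.Var, two_mem _, ?_, k, by omega, twoT F,
    ?_, ?_⟩⟩⟩
  · refine (two_size F).trans ?_
    have h1 : F.size ≤ (F.size + 1) ^ 2 := by nlinarith
    have h2 : (F.size + 1) ^ 2 ≤ (F.size + 1) ^ 4 := Nat.pow_le_pow_right (by omega) (by omega)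
    nlinarith
  · refine monComp_proj (twoT_proj F) ?_
    · refine (card_Bit_le (two_size F) 1).trans ?_
      have h1 : 4 * (F.size + 1) ^ 2 + F.size + 1 ≤ 6 * (F.size + 1) ^ 2 := by nlinarith
      calc 2 ^ 1 * (4 * (F.size + 1) ^ 2 + F.size + 1) ^ (1 + 1)
          ≤ 2 ^ 1 * (6 * (F.size + 1) ^ 2) ^ (1 + 1) := by gcongr
        _ = 72 * (F.size + 1) ^ 4 := by ring
        _ ≤ (72 + k) * (F.size + 1) ^ 4 := Nat.mul_le_mul_right _ (by omega)
  · intro y
    constructor
    · rintro ⟨S, hS, val, h1, h2⟩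
      have h3 := isEval_iff.2 (evalF_spec (twoF F.Var) (sl0 (twoF F.Var) (twoT F y) S))
      refine ⟨S, hS, _, h3, ?_⟩
      exact (two_sem h3).2 ((one_sem hF h1).1 h2)
    · rintro ⟨S, hS, val, h1, h2⟩
      have h3 := isEval_iff.2 (evalF_spec F (sl0 F y S))
      refine ⟨S, hS, _, h3, ?_⟩
      exact (one_sem hF h3).2 ((two_sem h1).1 h2)

end two

section next

/-- one more level: the frame -/
def nextF (F : Frame) : Frame where
  Var := F.Var
  Gate := F.Gate ⊕ (F.Gate × (F.Var × Bool))
  finVar := inferInstance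
  finGate := inferInstance
  isAnd g := match g with
    | Sum.inl g => F.isAnd g
    | Sum.inr p => ¬ F.isAnd p.1
  slot g := match g with
    | Sum.inl _ => False
    | Sum.inr p => F.slot p.1
  wire g h := match h with
    | Sum.inl h => match g with
      | Sum.inl g => F.wire g h
      | Sum.inr p => p.1 = h ∧ F.slot h
    | Sum.inr _ => False
  wf := by
    have hacc : ∀ g : F.Gate ⊕ (F.Gate × (F.Var × Bool)), (∃ p, g = Sum.inr p) →
        Acc (fun g h : F.Gate ⊕ (F.Gate × (F.Var × Bool)) => match h with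
          | Sum.inl h => match g with
            | Sum.inl g => F.wire g h
            | Sum.inr p => p.1 = h ∧ F.slot h
          | Sum.inr _ => False) g := by
      rintro g ⟨p, rfl⟩
      exact Acc.intro _ fun h hh => hh.elim
    constructor
    intro g
    cases g with
    | inr p => exact hacc _ ⟨p, rfl⟩
    | inl g =>
      induction g using F.wf.induction with
      | _ g ih =>
        refine Acc.intro _ fun h hh => ?_
        cases h with
        | inr p => exact hacc _ ⟨p, rfl⟩
        | inl h => exact ih h hh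
  out := Sum.inl F.out

open Classical in
/-- one more level: the table -/
noncomputable def nextT (F : Frame) (y : F.Bit 1 → Bool) : (nextF F).Bit 1 → Bool := fun p =>
  match p.1 with
  | Sum.inl _ => false
  | Sum.inr q => if F.isAnd q.1 then y (q.1, fun _ => q.2) || decide (p.2 0 = q.2)
      else y (q.1, fun _ => q.2) && decide (p.2 0 ≠ q.2)

theorem nextT_proj (F : Frame) (b : (nextF F).Bit 1) :
    (∃ c : Prop, ∀ x, (nextT F x b = true) = c) ∨ ∃ v, ∀ x, nextT F x b = x v := by
  obtain ⟨g, E⟩ := b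
  cases g with
  | inl g => exact Or.inl ⟨False, fun x => by simp [nextT]⟩
  | inr q =>
    by_cases ha : F.isAnd q.1
    · by_cases hc : E 0 = q.2
      · exact Or.inl ⟨True, fun x => by simp [nextT, ha, hc]⟩
      · exact Or.inr ⟨(q.1, fun _ => q.2), fun x => by simp [nextT, ha, hc]⟩
    · by_cases hc : E 0 = q.2
      · exact Or.inl ⟨False, fun x => by simp [nextT, ha, hc]⟩
      · exact Or.inr ⟨(q.1, fun _ => q.2), fun x => by simp [nextT, ha, hc]⟩

/-- the opposite literal -/
theorem lit_not {X : Type} (S : Set X) (l : X × Bool) : litTrue S (l.1, !l.2) ↔ ¬ litTrue S l := by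
  obtain ⟨x, b⟩ := l
  unfold litTrue
  cases b <;> simp

open Classical in
theorem next_slot {F : Frame} {y : F.Bit 1 → Bool} {S : Set F.Var}
    {val : (nextF F).Gate → Prop} (h : IsEval (nextF F) (nextT F y) S val) (g : F.Gate)
    (hg : F.slot g) (l : F.Var × Bool) : val (Sum.inr (g, l)) ↔
      if F.isAnd g then (y (g, fun _ => l) = true ∨ litTrue S l)
      else (y (g, fun _ => l) = true ∧ litTrue S l) := by
  obtain ⟨h1, h2⟩ := h
  by_cases ha : F.isAnd g
  · rw [if_pos ha, h2 (Sum.inr (g, l)) (fun h => h ha)]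
    constructor
    · rintro (⟨h, hh, _⟩ | ⟨_, E, hE, hl⟩)
      · exact hh.elim
      · simp only [nextT, if_pos ha, Bool.or_eq_true, decide_eq_true_eq] at hE
        rcases hE with hE | hE
        · exact Or.inl hE
        · right
          rw [← hE]
          exact hl 0
    · intro hy
      right
      refine ⟨hg, ?_⟩
      rcases hy with hy | hy
      · rcases lit_or S l.1 with h3 | h3
        · exact ⟨fun _ => (l.1, true), by simp [nextT, ha, hy], fun _ => h3⟩
        · exact ⟨fun _ => (l.1, false), by simp [nextT, ha, hy], fun _ => h3⟩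
      · exact ⟨fun _ => l, by simp [nextT, ha], fun _ => hy⟩
  · rw [if_neg ha, h1 (Sum.inr (g, l)) ha]
    constructor
    · rintro ⟨_, h3⟩
      have h4 := h3 hg
      constructor
      · by_contra hy
        have hy' : y (g, fun _ => l) = false := by simpa using hy
        obtain ⟨_, h5⟩ := h4 (fun _ => l) (by simp [nextT, ha])
        obtain ⟨_, h6⟩ := h4 (fun _ => (l.1, !l.2)) (by simp [nextT, ha, hy'])
        exact (lit_not S l).1 h6 h5
      · obtain ⟨_, h5⟩ := h4 (fun _ => l) (by simp [nextT, ha])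
        exact h5
    · rintro ⟨hy, hl⟩
      refine ⟨fun h hh => hh.elim, fun _ E hE => ⟨0, ?_⟩⟩
      simp only [nextT, if_neg ha, hy, Bool.true_and, decide_eq_false_iff_not, not_not] at hE
      rw [hE]
      exact hl

theorem fun1_eq {X : Type} (D : Fin 1 → X) : (fun _ => D 0) = D := by
  funext i
  rw [Subsingleton.elim i 0]

/-- restriction of the evaluation -/
theorem next_sem {F : Frame} {y : F.Bit 1 → Bool} {S : Set F.Var}
    {val : (nextF F).Gate → Prop} (h : IsEval (nextF F) (nextT F y) S val) :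
    IsEval F y S fun g => val (Sum.inl g) := by
  have hs := next_slot h
  obtain ⟨h1, h2⟩ := h
  constructor
  · intro g hg
    show val (Sum.inl g) ↔ _
    rw [h1 (Sum.inl g) hg]
    constructor
    · rintro ⟨h3, _⟩
      refine ⟨fun g' hg' => h3 (Sum.inl g') hg', fun hsl D hD => ⟨0, ?_⟩⟩
      have h4 := h3 (Sum.inr (g, D 0)) ⟨rfl, hsl⟩
      rw [hs g hsl, if_pos hg, fun1_eq] at h4
      rcases h4 with h4 | h4
      · rw [hD] at h4
        simp at h4
      · exact h4
    · rintro ⟨h3, h4⟩
      refine ⟨?_, fun hsl => hsl.elim⟩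
      intro g' hg'
      cases g' with
      | inl g' => exact h3 g' hg'
      | inr p =>
        obtain ⟨g'', l⟩ := p
        obtain ⟨h5, h6⟩ := hg'
        change g'' = g at h5
        subst h5
        rw [hs g'' h6, if_pos hg]
        cases hy : y (g'', fun _ => l) with
        | true => exact Or.inl rfl
        | false =>
          right
          obtain ⟨_, h7⟩ := h4 h6 _ hy
          exact h7
  · intro g hg
    show val (Sum.inl g) ↔ _
    rw [h2 (Sum.inl g) hg]
    constructor
    · rintro (⟨g', hg', hv⟩ | ⟨hsl, _⟩)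
      · cases g' with
        | inl g' => exact Or.inl ⟨g', hg', hv⟩
        | inr p =>
          obtain ⟨g'', l⟩ := p
          obtain ⟨h5, h6⟩ := hg'
          change g'' = g at h5
          subst h5
          rw [hs g'' h6, if_neg hg] at hv
          exact Or.inr ⟨h6, fun _ => l, hv.1, fun _ => hv.2⟩
      · exact hsl.elim
    · rintro (⟨g', hg', hv⟩ | ⟨hsl, D, hD, hl⟩)
      · exact Or.inl ⟨Sum.inl g', hg', hv⟩
      · refine Or.inl ⟨Sum.inr (g, D 0), ⟨rfl, hsl⟩, ?_⟩
        rw [hs g hsl, if_neg hg, fun1_eq]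
        exact ⟨hD, hl 0⟩

theorem isEval_unique {F : Frame} {d : ℕ} {y : F.Bit d → Bool} {S : Set F.Var}
    {val val' : F.Gate → Prop} (h : IsEval F y S val) (h' : IsEval F y S val') (g : F.Gate) :
    val g ↔ val' g :=
  (isEval_iff.1 h).unique (isEval_iff.1 h') g

theorem next_wsat {F : Frame} {y : F.Bit 1 → Bool} {k : ℕ} :
    WSat F y k ↔ WSat (nextF F) (nextT F y) k := by
  constructor
  · rintro ⟨S, hS, val, h1, h2⟩
    have h3 := isEval_iff.2 (evalF_spec (nextF F) (sl0 (nextF F) (nextT F y) S))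
    exact ⟨S, hS, _, h3, (isEval_unique h1 (next_sem h3) _).1 h2⟩
  · rintro ⟨S, hS, val, h1, h2⟩
    exact ⟨S, hS, _, next_sem h1, h2⟩

theorem next_mem {t : ℕ} {F : Frame} (hF : (GAMMA t 1).mem F) :
    (GAMMA (t + 1) 1).mem (nextF F) := by
  obtain ⟨hf, lev, h1, h2, h3⟩ := hF
  refine ⟨?_, fun g => match g with
    | Sum.inl g => lev g
    | Sum.inr p => lev p.1 + 1, h1, ?_, ?_⟩
  · intro g h h' hw hw'
    cases h with
    | inr _ => exact hw.elim
    | inl h =>
      cases h' with
      | inr _ => exact hw'.elim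
      | inl h' =>
        cases g with
        | inl g => exact congrArg Sum.inl (hf g h h' hw hw')
        | inr p => exact congrArg Sum.inl (hw.1.symm.trans hw'.1)
  · intro g h hw
    cases h with
    | inr _ => exact hw.elim
    | inl h =>
      cases g with
      | inl g => exact h2 g h hw
      | inr p =>
        show lev p.1 + 1 = lev h + 1
        rw [hw.1]
  · intro g
    cases g with
    | inl g =>
      obtain ⟨a1, a2, a3, a4⟩ := h3 g
      refine ⟨a1, by show lev g ≤ _; omega, a3, ?_⟩
      show False ↔ lev g = t + 1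
      constructor
      · exact fun h => h.elim
      · intro h
        omega
    | inr p =>
      obtain ⟨a1, a2, a3, a4⟩ := h3 p.1
      refine ⟨by show 1 ≤ lev p.1 + 1; omega, by show lev p.1 + 1 ≤ _; omega, ?_, ?_⟩
      · show ¬ F.isAnd p.1 ↔ Odd (lev p.1 + 1)
        rw [a3, Nat.odd_add_one]
      · show F.slot p.1 ↔ lev p.1 + 1 = t + 1
        rw [a4]
        omega

theorem next_size (F : Frame) : (nextF F).size ≤ 3 * (F.size + 1) ^ 2 := by
  have h1 : Nat.card (nextF F).Gate = Nat.card F.Gate + Nat.card F.Gate * (Nat.card F.Var * 2) := by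
    show Nat.card (F.Gate ⊕ (F.Gate × (F.Var × Bool))) = _
    rw [Nat.card_sum, Nat.card_prod, Nat.card_prod]
    simp
  have h4 : Nat.card (nextF F).Var = Nat.card F.Var := rfl
  unfold Frame.size
  rw [h1, h4]
  nlinarith

/-- one more level -/
theorem red_next (t : ℕ) : ReducesMon (GAMMA t 1) (GAMMA (t + 1) 1) := by
  classical
  refine ⟨4, fun k => ⟨32 + k, fun F hF => ⟨nextF F, next_mem hF, ?_, k, by omega, nextT F,
    ?_, fun y => next_wsat⟩⟩⟩
  · refine (next_size F).trans ?_
    have h2 : (F.size + 1) ^ 2 ≤ (F.size + 1) ^ 4 := Nat.pow_le_pow_right (by omega) (by omega)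
    nlinarith
  · refine monComp_proj (nextT_proj F) ?_
    · refine (card_Bit_le (next_size F) 1).trans ?_
      have h0 : 1 ≤ (F.size + 1) ^ 2 := Nat.one_le_pow _ _ (by omega)
      have h1 : 3 * (F.size + 1) ^ 2 + 1 ≤ 4 * (F.size + 1) ^ 2 := by omega
      calc 2 ^ 1 * (3 * (F.size + 1) ^ 2 + 1) ^ (1 + 1)
          ≤ 2 ^ 1 * (4 * (F.size + 1) ^ 2) ^ (1 + 1) := by gcongr
        _ = 32 * (F.size + 1) ^ 4 := by ring
        _ ≤ (32 + k) * (F.size + 1) ^ 4 := Nat.mul_le_mul_right _ (by omega)

end next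

end Pool.Agent.WSatMon
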