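import Mathlib

/-! Layered paths with `2 ^ p` inner layers. -/

namespace Pool.Agent.WSatMon

open Finset

variable (W : Type)

/-- paths -/
def PT : ℕ → Type
  | 0 => W
  | p + 1 => PT p × PT p

/-- inner edges -/
def IE : ℕ → Type
  | 0 => Empty
  | p + 1 => IE p ⊕ ((W × W) ⊕ IE p)

/-- vertices -/
def VT : ℕ → Type
  | 0 => W
  | p + 1 => VT p ⊕ VT p

/-- all edges: from the source, inner, to the sink -/
def Ed (p : ℕ) : Type := W ⊕ (IE W p ⊕ W)

variable {W}

section inst

instance PT.fintype [Fintype W] : ∀ p, Fintype (PT W p)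
  | 0 => inferInstanceAs (Fintype W)
  | p + 1 => @instFintypeProd _ _ (PT.fintype p) (PT.fintype p)

instance PT.deceq [DecidableEq W] : ∀ p, DecidableEq (PT W p)
  | 0 => inferInstanceAs (DecidableEq W)
  | p + 1 => @instDecidableEqProd _ _ (PT.deceq p) (PT.deceq p)

instance IE.fintype [Fintype W] : ∀ p, Fintype (IE W p)
  | 0 => inferInstanceAs (Fintype Empty)
  | p + 1 => @instFintypeSum _ _ (IE.fintype p) (@instFintypeSum _ _ inferInstance (IE.fintype p))

instance IE.deceq [DecidableEq W] : ∀ p, DecidableEq (IE W p)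
  | 0 => inferInstanceAs (DecidableEq Empty)
  | p + 1 => @instDecidableEqSum _ _ (IE.deceq p) (@instDecidableEqSum _ _ inferInstance
      (IE.deceq p))

instance VT.fintype [Fintype W] : ∀ p, Fintype (VT W p)
  | 0 => inferInstanceAs (Fintype W)
  | p + 1 => @instFintypeSum _ _ (VT.fintype p) (VT.fintype p)

instance VT.deceq [DecidableEq W] : ∀ p, DecidableEq (VT W p)
  | 0 => inferInstanceAs (DecidableEq W)
  | p + 1 => @instDecidableEqSum _ _ (VT.deceq p) (VT.deceq p)

instance Ed.fintype [Fintype W] (p : ℕ) : Fintype (Ed W p) :=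
  inferInstanceAs (Fintype (W ⊕ (IE W p ⊕ W)))

instance Ed.deceq [DecidableEq W] (p : ℕ) : DecidableEq (Ed W p) :=
  inferInstanceAs (DecidableEq (W ⊕ (IE W p ⊕ W)))

end inst

/-- first vertex -/
def fstP : ∀ p, PT W p → W
  | 0, x => x
  | p + 1, x => fstP p x.1

/-- last vertex -/
def lstP : ∀ p, PT W p → W
  | 0, x => x
  | p + 1, x => lstP p x.2

/-- vertex in the first layer -/
def fV : ∀ p, W → VT W p
  | 0, u => u
  | p + 1, u => Sum.inl (fV p u)

/-- vertex in the last layer -/
def lV : ∀ p, W → VT W p
  | 0, u => u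
  | p + 1, u => Sum.inr (lV p u)

/-- tail of an inner edge -/
def tailI : ∀ p, IE W p → VT W p
  | 0, a => a.elim
  | p + 1, a => match a with
    | Sum.inl a => Sum.inl (tailI p a)
    | Sum.inr (Sum.inl e) => Sum.inl (lV p e.1)
    | Sum.inr (Sum.inr a) => Sum.inr (tailI p a)

/-- head of an inner edge -/
def headI : ∀ p, IE W p → VT W p
  | 0, a => a.elim
  | p + 1, a => match a with
    | Sum.inl a => Sum.inl (headI p a)
    | Sum.inr (Sum.inl e) => Sum.inr (fV p e.2)
    | Sum.inr (Sum.inr a) => Sum.inr (headI p a)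

/-- number of the layer -/
def layer : ∀ p, VT W p → ℕ
  | 0, _ => 0
  | p + 1, v => match v with
    | Sum.inl v => layer p v
    | Sum.inr v => 2 ^ p + layer p v

/-- inner edges of a path -/
def al : ∀ p, PT W p → IE W p → Prop
  | 0, _, a => a.elim
  | p + 1, x, a => match a with
    | Sum.inl a => al p x.1 a
    | Sum.inr (Sum.inl e) => e.1 = lstP p x.1 ∧ e.2 = fstP p x.2
    | Sum.inr (Sum.inr a) => al p x.2 a

/-- inner edges that do not leave the path -/
def bo : ∀ p, PT W p → IE W p → Prop
  | 0, _, a => a.elim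
  | p + 1, x, a => match a with
    | Sum.inl a => bo p x.1 a
    | Sum.inr (Sum.inl e) => e.1 = lstP p x.1 → e.2 = fstP p x.2
    | Sum.inr (Sum.inr a) => bo p x.2 a

open Classical in
/-- the positive input of a path -/
noncomputable def wA {p : ℕ} (x : PT W p) : Ed W p → Bool
  | Sum.inl u => decide (u = fstP p x)
  | Sum.inr (Sum.inl a) => decide (al p x a)
  | Sum.inr (Sum.inr u) => decide (u = lstP p x)

open Classical in
/-- the negative input of a path -/
noncomputable def wB {p : ℕ} (y : PT W p) : Ed W p → Bool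
  | Sum.inl u => decide (u = fstP p y)
  | Sum.inr (Sum.inl a) => decide (bo p y a)
  | Sum.inr (Sum.inr u) => decide (u ≠ lstP p y)

theorem al_bo : ∀ p (x : PT W p) (a : IE W p), al p x a → bo p x a := by
  intro p
  induction p with
  | zero => intro x a; exact a.elim
  | succ p ih =>
    intro x a
    rcases a with a | e | a
    · exact ih x.1 a
    · exact fun h _ => h.2
    · exact ih x.2 a

/-- the vertices of a path -/
def vs : ∀ p, PT W p → Finset (VT W p)
  | 0, x => ({x} : Finset W)
  | p + 1, x => (vs p x.1).disjSum (vs p x.2)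

theorem vs_card : ∀ p (x : PT W p), (vs p x).card = 2 ^ p := by
  intro p
  induction p with
  | zero => intro x; exact Finset.card_singleton _
  | succ p ih =>
    intro x
    show ((vs p x.1).disjSum (vs p x.2)).card = _
    rw [Finset.card_disjSum, ih, ih]
    ring

theorem mem_vs_inl {p : ℕ} {x : PT W (p + 1)} {v : VT W p} :
    (Sum.inl v : VT W p ⊕ VT W p) ∈ ((vs p x.1).disjSum (vs p x.2)) ↔ v ∈ vs p x.1 :=
  Finset.inl_mem_disjSum

theorem fV_mem : ∀ p (x : PT W p) (u : W), fV p u ∈ vs p x ↔ u = fstP p x := by
  intro p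
  induction p with
  | zero => intro x u; exact Finset.mem_singleton
  | succ p ih =>
    intro x u
    exact Finset.inl_mem_disjSum.trans (ih x.1 u)

theorem lV_mem : ∀ p (x : PT W p) (u : W), lV p u ∈ vs p x ↔ u = lstP p x := by
  intro p
  induction p with
  | zero => intro x u; exact Finset.mem_singleton
  | succ p ih =>
    intro x u
    exact Finset.inr_mem_disjSum.trans (ih x.2 u)

theorem tail_mem : ∀ p (x : PT W p) (a : IE W p), al p x a → tailI p a ∈ vs p x := by
  intro p
  induction p with
  | zero => intro x a; exact a.elim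
  | succ p ih =>
    intro x a h
    rcases a with a | e | a
    · exact Finset.inl_mem_disjSum.2 (ih x.1 a h)
    · exact Finset.inl_mem_disjSum.2 ((lV_mem p x.1 e.1).2 h.1)
    · exact Finset.inr_mem_disjSum.2 (ih x.2 a h)

theorem tail_mem' : ∀ p (x : PT W p) (a : IE W p), ¬ bo p x a → tailI p a ∈ vs p x := by
  intro p
  induction p with
  | zero => intro x a; exact a.elim
  | succ p ih =>
    intro x a h
    rcases a with a | e | a
    · exact Finset.inl_mem_disjSum.2 (ih x.1 a h)
    · refine Finset.inl_mem_disjSum.2 ((lV_mem p x.1 e.1).2 ?_)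
      by_contra hc
      exact h fun h1 => absurd h1 hc
    · exact Finset.inr_mem_disjSum.2 (ih x.2 a h)

theorem head_mem : ∀ p (x : PT W p) (a : IE W p), bo p x a → tailI p a ∈ vs p x →
    headI p a ∈ vs p x := by
  intro p
  induction p with
  | zero => intro x a; exact a.elim
  | succ p ih =>
    intro x a h ht
    rcases a with a | e | a
    · exact Finset.inl_mem_disjSum.2 (ih x.1 a h (Finset.inl_mem_disjSum.1 ht))
    · have h1 : e.1 = lstP p x.1 := (lV_mem p x.1 e.1).1 (Finset.inl_mem_disjSum.1 ht)
      exact Finset.inr_mem_disjSum.2 ((fV_mem p x.2 e.2).2 (h h1))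
    · exact Finset.inr_mem_disjSum.2 (ih x.2 a h (Finset.inr_mem_disjSum.1 ht))

theorem layer_fV : ∀ p (u : W), layer p (fV p u) = 0 := by
  intro p
  induction p with
  | zero => intro u; rfl
  | succ p ih => intro u; exact ih u

theorem layer_lV : ∀ p (u : W), layer p (lV p u) + 1 = 2 ^ p := by
  intro p
  induction p with
  | zero => intro u; rfl
  | succ p ih =>
    intro u
    show 2 ^ p + layer p (lV p u) + 1 = _
    have := ih u
    rw [pow_succ]
    omega

theorem layer_edge : ∀ p (a : IE W p), layer p (headI p a) = layer p (tailI p a) + 1 := by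
  intro p
  induction p with
  | zero => intro a; exact a.elim
  | succ p ih =>
    intro a
    rcases a with a | e | a
    · exact ih a
    · show 2 ^ p + layer p (fV p e.2) = layer p (lV p e.1) + 1
      rw [layer_fV, layer_lV]
      rfl
    · show 2 ^ p + layer p (headI p a) = 2 ^ p + layer p (tailI p a) + 1
      rw [ih a]
      rfl

/-- every vertex of a path is the first one or is entered by an edge of the path -/
theorem enter : ∀ p (x : PT W p) (v : VT W p), v ∈ vs p x →
    v = fV p (fstP p x) ∨ ∃ a, al p x a ∧ headI p a = v := by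
  intro p
  induction p with
  | zero =>
    intro x v hv
    exact Or.inl (Finset.mem_singleton.1 hv)
  | succ p ih =>
    intro x v hv
    rcases v with v | v
    · rcases ih x.1 v (Finset.inl_mem_disjSum.1 hv) with h | ⟨a, h1, h2⟩
      · left
        show Sum.inl v = Sum.inl (fV p (fstP p x.1))
        rw [h]
      · right
        exact ⟨Sum.inl a, h1, congrArg Sum.inl h2⟩
    · rcases ih x.2 v (Finset.inr_mem_disjSum.1 hv) with h | ⟨a, h1, h2⟩
      · right
        refine ⟨Sum.inr (Sum.inl (lstP p x.1, fstP p x.2)), ⟨rfl, rfl⟩, ?_⟩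
        show Sum.inr (fV p (fstP p x.2)) = Sum.inr v
        rw [h]
      · right
        exact ⟨Sum.inr (Sum.inr a), h1, congrArg Sum.inr h2⟩

section count

variable [Fintype W] [DecidableEq W]

omit [DecidableEq W] in
theorem card_PT : ∀ p, Fintype.card (PT W p) = Fintype.card W ^ 2 ^ p := by
  intro p
  induction p with
  | zero =>
    show Fintype.card W = _
    simp
  | succ p ih =>
    have : Fintype.card (PT W (p + 1)) = Fintype.card (PT W p) * Fintype.card (PT W p) :=
      Fintype.card_prod _ _
    rw [this, ih, ← pow_add]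
    congr 1
    ring

omit [DecidableEq W] in
/-- a set of paths given by the left half -/
theorem slice_left {p : ℕ} {c n : ℕ} (S : Finset (PT W p)) (h : S.card * c ≤ n)
    (T : Finset (PT W (p + 1))) (hT : ∀ x ∈ T, x.1 ∈ S) (hn : n = Fintype.card (PT W p)) :
    T.card * c ≤ Fintype.card (PT W (p + 1)) := by
  classical
  have h1 : T.card ≤ (S ×ˢ (univ : Finset (PT W p))).card := by
    apply Finset.card_le_card_of_injOn (fun x => (x.1, x.2))
    · intro x hx
      rw [Finset.mem_coe, Finset.mem_product]
      exact ⟨hT x hx, Finset.mem_univ _⟩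
    · intro x _ y _ hxy
      exact hxy
  rw [Finset.card_product, Finset.card_univ] at h1
  have h2 : Fintype.card (PT W (p + 1)) = Fintype.card (PT W p) * Fintype.card (PT W p) :=
    Fintype.card_prod _ _
  rw [h2]
  calc T.card * c ≤ S.card * Fintype.card (PT W p) * c := Nat.mul_le_mul_right _ h1
    _ = S.card * c * Fintype.card (PT W p) := by ring
    _ ≤ Fintype.card (PT W p) * Fintype.card (PT W p) := by
      rw [hn] at h
      exact Nat.mul_le_mul_right _ h

omit [DecidableEq W] in
/-- a set of paths given by the right half -/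
theorem slice_right {p : ℕ} {c n : ℕ} (S : Finset (PT W p)) (h : S.card * c ≤ n)
    (T : Finset (PT W (p + 1))) (hT : ∀ x ∈ T, x.2 ∈ S) (hn : n = Fintype.card (PT W p)) :
    T.card * c ≤ Fintype.card (PT W (p + 1)) := by
  classical
  have h1 : T.card ≤ ((univ : Finset (PT W p)) ×ˢ S).card := by
    apply Finset.card_le_card_of_injOn (fun x => (x.1, x.2))
    · intro x hx
      rw [Finset.mem_coe, Finset.mem_product]
      exact ⟨Finset.mem_univ _, hT x hx⟩
    · intro x _ y _ hxy
      exact hxy
  rw [Finset.card_product, Finset.card_univ] at h1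
  have h2 : Fintype.card (PT W (p + 1)) = Fintype.card (PT W p) * Fintype.card (PT W p) :=
    Fintype.card_prod _ _
  rw [h2]
  calc T.card * c ≤ Fintype.card (PT W p) * S.card * c := Nat.mul_le_mul_right _ h1
    _ = Fintype.card (PT W p) * (S.card * c) := by ring
    _ ≤ Fintype.card (PT W p) * Fintype.card (PT W p) := by
      rw [hn] at h
      exact Nat.mul_le_mul_left _ h

/-- few paths go through a vertex -/
theorem card_vs : ∀ p (v : VT W p), (univ.filter fun x : PT W p => v ∈ vs p x).card *
    Fintype.card W ≤ Fintype.card (PT W p) := by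
  classical
  intro p
  induction p with
  | zero =>
    intro v
    have h1 : (univ.filter fun x : PT W 0 => v ∈ vs 0 x).card ≤ 1 := by
      rw [Finset.card_le_one]
      intro x hx y hy
      have e1 : v = x := Finset.mem_singleton.1 (Finset.mem_filter.1 hx).2
      have e2 : v = y := Finset.mem_singleton.1 (Finset.mem_filter.1 hy).2
      exact e1.symm.trans e2
    have h2 : Fintype.card (PT W 0) = Fintype.card W := rfl
    rw [h2]
    nlinarith
  | succ p ih =>
    intro v
    rcases v with v | v
    · refine slice_left (univ.filter fun x : PT W p => v ∈ vs p x) (ih v) _ ?_ rfl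
      intro x hx
      exact Finset.mem_filter.2 ⟨Finset.mem_univ _,
        Finset.inl_mem_disjSum.1 (Finset.mem_filter.1 hx).2⟩
    · refine slice_right (univ.filter fun x : PT W p => v ∈ vs p x) (ih v) _ ?_ rfl
      intro x hx
      exact Finset.mem_filter.2 ⟨Finset.mem_univ _,
        Finset.inr_mem_disjSum.1 (Finset.mem_filter.1 hx).2⟩

/-- few paths use an edge -/
theorem card_wA {p : ℕ} (a : Ed W p) (A : Finset (PT W p)) (hA : ∀ x ∈ A, wA x a = true) :
    A.card * Fintype.card W ≤ Fintype.card (PT W p) := by
  classical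
  obtain ⟨v, hv⟩ : ∃ v : VT W p, ∀ x ∈ A, v ∈ vs p x := by
    rcases a with u | a | u
    · refine ⟨fV p u, fun x hx => (fV_mem p x u).2 ?_⟩
      have := hA x hx
      simpa [wA] using this
    · refine ⟨tailI p a, fun x hx => tail_mem p x a ?_⟩
      have := hA x hx
      simpa [wA] using this
    · refine ⟨lV p u, fun x hx => (lV_mem p x u).2 ?_⟩
      have := hA x hx
      simpa [wA] using this
  refine le_trans (Nat.mul_le_mul_right _ (Finset.card_le_card ?_)) (card_vs p v)
  intro x hx
  exact Finset.mem_filter.2 ⟨Finset.mem_univ _, hv x hx⟩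

end count

end Pool.Agent.WSatMon
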