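import Pool.Agent.WSatAC0.Weights

/-! Uniform product measures. -/

namespace Pool.Agent.WSatMon

open Finset Pool.Agent.WSatAC0

section indep

variable {V α : Type} [Fintype V] [DecidableEq V] [Fintype α]

/-- the event depends only on the coordinates in `A` -/
def DepOn (A : Finset V) (E : (V → α) → Prop) : Prop :=
  ∀ g g', (∀ v ∈ A, g v = g' v) → (E g ↔ E g')

omit [Fintype V] [Fintype α] [DecidableEq V] in
theorem DepOn.mono {A B : Finset V} {E : (V → α) → Prop} (h : DepOn A E) (hAB : A ⊆ B) :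
    DepOn B E := fun g g' hg => h g g' fun v hv => hg v (hAB hv)

theorem nonempty_of_sum {w : α → ℝ} (hw : ∑ a, w a = 1) : Nonempty α := by
  by_contra h
  rw [not_nonempty_iff] at h
  rw [Fintype.sum_empty] at hw
  norm_num at hw

/-- splitting the coordinates -/
theorem EE_split (w : α → ℝ) (A : Finset V) (F : (V → α) → ℝ) :
    EE w F = ∑ p : ({v // v ∈ A} → α) × ({v // ¬ v ∈ A} → α),
      (∏ v, w (p.1 v)) * (∏ v, w (p.2 v)) *
        F ((Equiv.piEquivPiSubtypeProd (fun v => v ∈ A) (fun _ => α)).symm p) := by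
  unfold EE
  rw [← (Equiv.piEquivPiSubtypeProd (fun v => v ∈ A) (fun _ => α)).symm.sum_comp]
  apply Finset.sum_congr rfl
  intro p _
  congr 1
  have h1 : ∏ v, w ((Equiv.piEquivPiSubtypeProd (fun v => v ∈ A) (fun _ => α)).symm p v) =
      (∏ v : {v // v ∈ A}, w ((Equiv.piEquivPiSubtypeProd (fun v => v ∈ A)
        (fun _ => α)).symm p v)) *
      ∏ v : {v // ¬ v ∈ A}, w ((Equiv.piEquivPiSubtypeProd (fun v => v ∈ A)
        (fun _ => α)).symm p v) := by
    rw [← Fintype.prod_subtype_mul_prod_subtype (fun v => v ∈ A)]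
    congr
    exact Subsingleton.elim _ _
  rw [h1]
  congr 1
  · apply Finset.prod_congr rfl
    intro v _
    simp [Equiv.piEquivPiSubtypeProd, v.2]
  · apply Finset.prod_congr rfl
    intro v _
    simp [Equiv.piEquivPiSubtypeProd, v.2]

/-- independence -/
theorem PP_and_indep {w : α → ℝ} (hw1 : ∑ a, w a = 1) {A B : Finset V} (hAB : Disjoint A B)
    {E E' : (V → α) → Prop} (hE : DepOn A E) (hE' : DepOn B E') :
    PP w (fun g => E g ∧ E' g) = PP w E * PP w E' := by
  classical
  obtain ⟨a0⟩ := nonempty_of_sum hw1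
  let Φ := (Equiv.piEquivPiSubtypeProd (fun v => v ∈ A) (fun _ : V => α)).symm
  let u : ({v // v ∈ A} → α) → ℝ := fun g => if E (Φ (g, fun _ => a0)) then 1 else 0
  let u' : ({v // ¬ v ∈ A} → α) → ℝ := fun g => if E' (Φ (fun _ => a0, g)) then 1 else 0
  have hu : ∀ p, (if E (Φ p) then (1 : ℝ) else 0) = u p.1 := by
    intro p
    have : E (Φ p) ↔ E (Φ (p.1, fun _ => a0)) := by
      apply hE
      intro v hv
      simp [Φ, Equiv.piEquivPiSubtypeProd, hv]
    simp only [u, this]
  have hu' : ∀ p, (if E' (Φ p) then (1 : ℝ) else 0) = u' p.2 := by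
    intro p
    have : E' (Φ p) ↔ E' (Φ (fun _ => a0, p.2)) := by
      apply hE'
      intro v hv
      have hv' : ¬ v ∈ A := fun h => Finset.disjoint_left.1 hAB h hv
      simp [Φ, Equiv.piEquivPiSubtypeProd, hv']
    simp only [u', this]
  have hone : ∀ (W : Type) [Fintype W] [DecidableEq W], ∑ g : W → α, ∏ v, w (g v) = 1 := by
    intro W _ _
    have := EE_const (V := W) hw1 1
    unfold EE at this
    simpa using this
  have e1 : PP w (fun g => E g ∧ E' g) =
      (∑ g, (∏ v, w (g v)) * u g) * ∑ g, (∏ v, w (g v)) * u' g := by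
    rw [PP_eq, EE_split w A, Finset.sum_mul_sum, Fintype.sum_prod_type]
    apply Finset.sum_congr rfl
    intro g _
    apply Finset.sum_congr rfl
    intro g' _
    have h1 : (if E (Φ (g, g')) ∧ E' (Φ (g, g')) then (1 : ℝ) else 0) = u g * u' g' := by
      rw [← hu (g, g'), ← hu' (g, g')]
      by_cases h : E (Φ (g, g')) <;> by_cases h' : E' (Φ (g, g')) <;> simp [h, h']
    calc _ = (∏ v, w (g v)) * (∏ v, w (g' v)) *
        (if E (Φ (g, g')) ∧ E' (Φ (g, g')) then (1 : ℝ) else 0) := rfl
      _ = _ := by rw [h1]; ring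
  have e2 : PP w E = ∑ g, (∏ v, w (g v)) * u g := by
    rw [PP_eq, EE_split w A, Fintype.sum_prod_type]
    apply Finset.sum_congr rfl
    intro g _
    have h1 : ∀ g', (∏ v, w (g v)) * (∏ v, w (g' v)) *
        (if E (Φ (g, g')) then (1 : ℝ) else 0) =
        (∏ v, w (g v)) * u g * ∏ v, w (g' v) := by
      intro g'
      rw [hu (g, g')]
      ring
    calc _ = ∑ g', (∏ v, w (g v)) * (∏ v, w (g' v)) *
        (if E (Φ (g, g')) then (1 : ℝ) else 0) := rfl
      _ = _ := by
        rw [Finset.sum_congr rfl fun g' _ => h1 g', ← Finset.mul_sum, hone, mul_one]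
  have e3 : PP w E' = ∑ g, (∏ v, w (g v)) * u' g := by
    rw [PP_eq, EE_split w A, Fintype.sum_prod_type, Finset.sum_comm]
    apply Finset.sum_congr rfl
    intro g' _
    have h1 : ∀ g, (∏ v, w (g v)) * (∏ v, w (g' v)) *
        (if E' (Φ (g, g')) then (1 : ℝ) else 0) =
        (∏ v, w (g v)) * ((∏ v, w (g' v)) * u' g') := by
      intro g
      rw [hu' (g, g')]
      ring
    calc _ = ∑ g, (∏ v, w (g v)) * (∏ v, w (g' v)) *
        (if E' (Φ (g, g')) then (1 : ℝ) else 0) := rfl
      _ = _ := by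
        rw [Finset.sum_congr rfl fun g _ => h1 g, ← Finset.sum_mul, hone, one_mul]
  rw [e1, e2, e3]

/-- independence of several events -/
theorem PP_all_indep {w : α → ℝ} (hw1 : ∑ a, w a = 1) {ι : Type} [DecidableEq ι] (I : Finset ι)
    (R : ι → Finset V) (E : ι → (V → α) → Prop) (hE : ∀ i ∈ I, DepOn (R i) (E i))
    (hR : ∀ i ∈ I, ∀ j ∈ I, i ≠ j → Disjoint (R i) (R j)) :
    PP w (fun g => ∀ i ∈ I, E i g) = ∏ i ∈ I, PP w (E i) := by
  classical
  induction I using Finset.induction_on with
  | empty =>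
    rw [PP_eq]
    simp only [Finset.notMem_empty, false_imp_iff, implies_true, if_true, Finset.prod_empty]
    exact EE_const hw1 1
  | insert a I ha ih =>
    have h1 : PP w (fun g => ∀ i ∈ insert a I, E i g) = PP w (fun g => E a g ∧ ∀ i ∈ I, E i g) := by
      congr 1
      funext g
      exact propext (Finset.forall_mem_insert _ _ _)
    rw [h1, Finset.prod_insert ha]
    have h2 : DepOn (I.biUnion R) (fun g => ∀ i ∈ I, E i g) := by
      intro g g' hg
      apply forall_congr'
      intro i
      apply imp_congr_right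
      intro hi
      exact hE i (Finset.mem_insert_of_mem hi) g g' fun v hv =>
        hg v (Finset.mem_biUnion.2 ⟨i, hi, hv⟩)
    have h3 : Disjoint (R a) (I.biUnion R) := by
      rw [Finset.disjoint_biUnion_right]
      intro i hi
      exact hR a (Finset.mem_insert_self _ _) i (Finset.mem_insert_of_mem hi)
        (by rintro rfl; exact ha hi)
    rw [PP_and_indep hw1 h3 (hE a (Finset.mem_insert_self _ _)) h2]
    congr 1
    exact ih (fun i hi => hE i (Finset.mem_insert_of_mem hi))
      (fun i hi j hj => hR i (Finset.mem_insert_of_mem hi) j (Finset.mem_insert_of_mem hj))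

/-- the complement -/
theorem PP_not {w : α → ℝ} (hw1 : ∑ a, w a = 1) (E : (V → α) → Prop) :
    PP w (fun g => ¬ E g) = 1 - PP w E := by
  classical
  have h1 : PP w (fun g => ¬ E g) + PP w E = 1 := by
    rw [PP_eq, PP_eq, ← EE_add]
    have : (fun g : V → α => (if ¬ E g then (1 : ℝ) else 0) + if E g then 1 else 0) =
        fun _ => 1 := by
      funext g
      by_cases h : E g <;> simp [h]
    rw [this]
    exact EE_const hw1 1
  linarith

end indep

section unif

variable {V α : Type} [Fintype V] [DecidableEq V] [Fintype α]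

/-- the uniform weight -/
noncomputable def uw (α : Type) [Fintype α] : α → ℝ := fun _ => 1 / (Fintype.card α : ℝ)

theorem uw_nonneg (a : α) : 0 ≤ uw α a := by
  unfold uw
  positivity

theorem uw_sum [Nonempty α] : ∑ a, uw α a = 1 := by
  unfold uw
  rw [Finset.sum_const, Finset.card_univ, nsmul_eq_mul]
  have : (Fintype.card α : ℝ) ≠ 0 := by
    exact_mod_cast Fintype.card_ne_zero
  field_simp

/-- probability of a pattern -/
theorem PP_pattern [Nonempty α] (C : Finset V) (m : V → α) :
    PP (uw α) (fun g : V → α => ∀ v ∈ C, g v = m v) = (1 / (Fintype.card α : ℝ)) ^ C.card := by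
  classical
  have h := PP_forall (w := uw α) uw_sum C (fun v a => a = m v)
  rw [h]
  have h2 : ∀ v ∈ C, ∑ a, uw α a * (if a = m v then (1 : ℝ) else 0) =
      1 / (Fintype.card α : ℝ) := by
    intro v _
    rw [Finset.sum_eq_single (m v)]
    · simp [uw]
    · intro b _ hb
      simp [hb]
    · intro h
      exact absurd (Finset.mem_univ _) h
  rw [Finset.prod_congr rfl h2, Finset.prod_const]

theorem inv_card_nonneg : (0 : ℝ) ≤ 1 / (Fintype.card α : ℝ) := by positivity

theorem inv_card_le_one : 1 / (Fintype.card α : ℝ) ≤ 1 := by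
  rcases Nat.eq_zero_or_pos (Fintype.card α) with h | h
  · rw [h]
    norm_num
  · rw [div_le_one (by exact_mod_cast h)]
    exact_mod_cast h

/-- many disjoint patterns are all missed with small probability -/
theorem PP_miss [Nonempty α] {ι : Type} [DecidableEq ι] (s : ℕ) (I : Finset ι)
    (R : ι → Finset V) (m : ι → V → α) (hs : ∀ i ∈ I, (R i).card ≤ s)
    (hR : ∀ i ∈ I, ∀ j ∈ I, i ≠ j → Disjoint (R i) (R j)) :
    PP (uw α) (fun g : V → α => ∀ i ∈ I, ∃ v ∈ R i, g v ≠ m i v) ≤
      (1 - (1 / (Fintype.card α : ℝ)) ^ s) ^ I.card := by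
  have h1 := PP_all_indep (w := uw α) uw_sum I R (fun i g => ∃ v ∈ R i, g v ≠ m i v) ?_ hR
  · rw [h1, ← Finset.prod_const]
    apply Finset.prod_le_prod
    · intro i _
      exact PP_nonneg uw_nonneg _
    · intro i hi
      have h2 : PP (uw α) (fun g : V → α => ∃ v ∈ R i, g v ≠ m i v) =
          PP (uw α) (fun g : V → α => ¬ ∀ v ∈ R i, g v = m i v) := by
        congr 1
        funext g
        simp only [not_forall, exists_prop, ne_eq]
      rw [h2, PP_not uw_sum, PP_pattern]
      have h3 := pow_le_pow_of_le_one (inv_card_nonneg (α := α)) inv_card_le_one (hs i hi)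
      linarith
  · intro i _ g g' hg
    constructor
    · rintro ⟨v, hv, h⟩
      exact ⟨v, hv, by rw [← hg v hv]; exact h⟩
    · rintro ⟨v, hv, h⟩
      exact ⟨v, hv, by rw [hg v hv]; exact h⟩

/-- probability that all coordinates fall into small sets -/
theorem PP_box [Nonempty α] [DecidableEq α] (C : Finset V) (Z : V → Finset α) (s : ℕ)
    (hZ : ∀ v ∈ C, (Z v).card ≤ s) :
    PP (uw α) (fun g : V → α => ∀ v ∈ C, g v ∈ Z v) ≤ ((s : ℝ) / (Fintype.card α : ℝ)) ^ C.card := by
  classical
  have h := PP_forall (w := uw α) uw_sum C (fun v a => a ∈ Z v)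
  rw [h, ← Finset.prod_const]
  apply Finset.prod_le_prod
  · intro v _
    apply Finset.sum_nonneg
    intro a _
    apply mul_nonneg (uw_nonneg _)
    split <;> norm_num
  · intro v hv
    have h3 : ∑ a, uw α a * (if a ∈ Z v then (1 : ℝ) else 0) =
        ((Z v).card : ℝ) / (Fintype.card α : ℝ) := by
      simp only [uw, mul_ite, mul_one, mul_zero]
      rw [← Finset.sum_filter, Finset.sum_const, nsmul_eq_mul]
      have : univ.filter (fun a => a ∈ Z v) = Z v := by
        ext a
        simp
      rw [this]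
      ring
    rw [h3]
    have : ((Z v).card : ℝ) ≤ s := by exact_mod_cast hZ v hv
    exact div_le_div_of_nonneg_right this (Nat.cast_nonneg _)

/-- union bound with a uniform estimate -/
theorem PP_exists_le {w : α → ℝ} (hw : ∀ a, 0 ≤ w a) {ι : Type} (I : Finset ι)
    (P : ι → (V → α) → Prop) (p : ℝ) (h : ∀ i ∈ I, PP w (P i) ≤ p) :
    PP w (fun g => ∃ i ∈ I, P i g) ≤ I.card * p := by
  refine (PP_exists hw I P).trans ?_
  rw [← nsmul_eq_mul]
  exact Finset.sum_le_card_nsmul _ _ _ h

end unif

end Pool.Agent.WSatMon
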