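import Pool.Agent.WSatMon.Fm
import Pool.Agent.WSatMon.Paths
import Pool.Agent.WSatMon.Prob

/-! The depth of monotone formulas for layered connectivity. -/

namespace Pool.Agent.WSatMon

open Finset Pool.Agent.WSatAC0

variable {W : Type} [Fintype W] [DecidableEq W]

/-- a formula of depth `D` separates the inputs of the paths of `A` -/
def Sep (p : ℕ) (A : Finset (PT W p)) (D : ℕ) : Prop :=
  ∃ φ : Fm (Ed W p), φ.depth ≤ D ∧ (∀ x ∈ A, φ.eval (wA x)) ∧ ∀ y ∈ A, ¬ φ.eval (wB y)

/-- halving -/
theorem half {p D : ℕ} {A : Finset (PT W p)} (h : Sep p A D)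
    (hA : Fintype.card (PT W p) < A.card * Fintype.card W) :
    ∃ D', D = D' + 1 ∧ ∃ A' ⊆ A, A.card ≤ 2 * A'.card ∧ Sep p A' D' := by
  classical
  obtain ⟨φ, h1, h2, h3⟩ := h
  have hne : A.Nonempty := by
    rw [Finset.nonempty_iff_ne_empty]
    rintro rfl
    simp at hA
  obtain ⟨x0, hx0⟩ := hne
  cases φ with
  | tt => exact absurd trivial (h3 x0 hx0)
  | ff => exact (h2 x0 hx0).elim
  | var a =>
    exfalso
    have := card_wA a A h2
    omega
  | and φ ψ =>
    simp only [Fm.depth] at h1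
    obtain ⟨D', rfl⟩ : ∃ D', D = D' + 1 := ⟨D - 1, by omega⟩
    refine ⟨D', rfl, ?_⟩
    let A0 := A.filter fun y => ¬ φ.eval (wB y)
    let A1 := A.filter fun y => ¬ ψ.eval (wB y)
    have hcov : A ⊆ A0 ∪ A1 := by
      intro y hy
      by_cases hφ : φ.eval (wB y)
      · refine Finset.mem_union_right _ (Finset.mem_filter.2 ⟨hy, fun hψ => h3 y hy ⟨hφ, hψ⟩⟩)
      · exact Finset.mem_union_left _ (Finset.mem_filter.2 ⟨hy, hφ⟩)
    have hc := (Finset.card_le_card hcov).trans (Finset.card_union_le _ _)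
    rcases Nat.lt_or_ge A0.card A1.card with g | g
    · refine ⟨A1, Finset.filter_subset _ _, by omega, ψ, by omega, ?_, ?_⟩
      · exact fun x hx => (h2 x (Finset.mem_filter.1 hx).1).2
      · exact fun y hy => (Finset.mem_filter.1 hy).2
    · refine ⟨A0, Finset.filter_subset _ _, by omega, φ, by omega, ?_, ?_⟩
      · exact fun x hx => (h2 x (Finset.mem_filter.1 hx).1).1
      · exact fun y hy => (Finset.mem_filter.1 hy).2
  | or φ ψ =>
    simp only [Fm.depth] at h1
    obtain ⟨D', rfl⟩ : ∃ D', D = D' + 1 := ⟨D - 1, by omega⟩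
    refine ⟨D', rfl, ?_⟩
    let A0 := A.filter fun x => φ.eval (wA x)
    let A1 := A.filter fun x => ψ.eval (wA x)
    have hcov : A ⊆ A0 ∪ A1 := by
      intro x hx
      rcases h2 x hx with g | g
      · exact Finset.mem_union_left _ (Finset.mem_filter.2 ⟨hx, g⟩)
      · exact Finset.mem_union_right _ (Finset.mem_filter.2 ⟨hx, g⟩)
    have hc := (Finset.card_le_card hcov).trans (Finset.card_union_le _ _)
    rcases Nat.lt_or_ge A0.card A1.card with g | g
    · refine ⟨A1, Finset.filter_subset _ _, by omega, ψ, by omega, ?_, ?_⟩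
      · exact fun x hx => (Finset.mem_filter.1 hx).2
      · exact fun y hy hψ => h3 y (Finset.mem_filter.1 hy).1 (Or.inr hψ)
    · refine ⟨A0, Finset.filter_subset _ _, by omega, φ, by omega, ?_, ?_⟩
      · exact fun x hx => (Finset.mem_filter.1 hx).2
      · exact fun y hy hφ => h3 y (Finset.mem_filter.1 hy).1 (Or.inl hφ)

section subst

variable {A B : Type}

open Classical in
/-- restricting a formula -/
theorem restrict {φ : Fm A} {D : ℕ} (hD : φ.depth ≤ D) (σ : A → Fm B)
    (hσ : ∀ a, (σ a).depth = 0) : (φ.subst σ).depth ≤ D := by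
  have := Fm.depth_subst σ (d := 0) (fun a => (hσ a).le) φ
  omega

end subst

omit [Fintype W] [DecidableEq W] in
/-- fixing the left half -/
theorem fix_left {p D : ℕ} {A : Finset (PT W (p + 1))} (h : Sep (p + 1) A D) (x1 : PT W p)
    (A' : Finset (PT W p)) (hA' : ∀ x2 ∈ A', ((x1, x2) : PT W (p + 1)) ∈ A) : Sep p A' D := by
  classical
  obtain ⟨φ, h1, h2, h3⟩ := h
  let σ : Ed W (p + 1) → Fm (Ed W p) := fun a => match a with
    | Sum.inl u => if u = fstP p x1 then Fm.tt else Fm.ff
    | Sum.inr (Sum.inl (Sum.inl a)) => if bo p x1 a then Fm.tt else Fm.ff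
    | Sum.inr (Sum.inl (Sum.inr (Sum.inl e))) =>
      if e.1 = lstP p x1 then Fm.var (Sum.inl e.2) else Fm.tt
    | Sum.inr (Sum.inl (Sum.inr (Sum.inr a))) => Fm.var (Sum.inr (Sum.inl a))
    | Sum.inr (Sum.inr u) => Fm.var (Sum.inr (Sum.inr u))
  have hσ : ∀ a, (σ a).depth = 0 := by
    intro a
    rcases a with u | (a | e | a) | u
    · simp only [σ]; split <;> rfl
    · simp only [σ]; split <;> rfl
    · simp only [σ]; split <;> rfl
    · rfl
    · rfl
  refine ⟨φ.subst σ, restrict h1 σ hσ, ?_, ?_⟩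
  · intro x2 hx2
    rw [Fm.eval_subst]
    refine Fm.eval_mono ?_ φ (h2 _ (hA' x2 hx2))
    intro a ha
    rw [decide_eq_true_eq]
    rcases a with u | (a | e | a) | u
    · have h5 : u = fstP (p + 1) ((x1, x2) : PT W (p + 1)) := by simpa [wA] using ha
      have h4 : u = fstP p x1 := h5
      simp only [σ]
      rw [if_pos h4]
      trivial
    · have h4 : al (p + 1) ((x1, x2) : PT W (p + 1)) (Sum.inl a) := by simpa [wA] using ha
      have h5 : bo p x1 a := al_bo p x1 a h4
      simp only [σ]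
      rw [if_pos h5]
      trivial
    · have h4 : al (p + 1) ((x1, x2) : PT W (p + 1)) (Sum.inr (Sum.inl e)) := by
        simpa [wA] using ha
      have h5 : e.1 = lstP p x1 ∧ e.2 = fstP p x2 := h4
      simp only [σ]
      rw [if_pos h5.1]
      simp [Fm.eval, wA, h5.2]
    · have h4 : al (p + 1) ((x1, x2) : PT W (p + 1)) (Sum.inr (Sum.inr a)) := by
        simpa [wA] using ha
      have h5 : al p x2 a := h4
      simp [σ, Fm.eval, wA, h5]
    · have h4 : u = lstP (p + 1) ((x1, x2) : PT W (p + 1)) := by simpa [wA] using ha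
      have h5 : u = lstP p x2 := h4
      simp [σ, Fm.eval, wA, h5]
  · intro y2 hy2 hcon
    rw [Fm.eval_subst] at hcon
    refine h3 _ (hA' y2 hy2) (Fm.eval_mono ?_ φ hcon)
    intro a ha
    rw [decide_eq_true_eq] at ha
    rcases a with u | (a | e | a) | u
    · simp only [σ] at ha
      by_cases h4 : u = fstP p x1
      · have : u = fstP (p + 1) ((x1, y2) : PT W (p + 1)) := h4
        simp [wB, this]
      · rw [if_neg h4] at ha
        exact ha.elim
    · simp only [σ] at ha
      by_cases h4 : bo p x1 a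
      · have : bo (p + 1) ((x1, y2) : PT W (p + 1)) (Sum.inl a) := h4
        simp [wB, this]
      · rw [if_neg h4] at ha
        exact ha.elim
    · simp only [σ] at ha
      have : bo (p + 1) ((x1, y2) : PT W (p + 1)) (Sum.inr (Sum.inl e)) := by
        show e.1 = lstP p x1 → e.2 = fstP p y2
        intro h4
        rw [if_pos h4] at ha
        simpa [Fm.eval, wB] using ha
      simp [wB, this]
    · have h4 : bo p y2 a := by simpa [σ, Fm.eval, wB] using ha
      have : bo (p + 1) ((x1, y2) : PT W (p + 1)) (Sum.inr (Sum.inr a)) := h4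
      simp [wB, this]
    · have h4 : u ≠ lstP p y2 := by simpa [σ, Fm.eval, wB] using ha
      have : u ≠ lstP (p + 1) ((x1, y2) : PT W (p + 1)) := h4
      simp [wB, this]

omit [Fintype W] [DecidableEq W] in
/-- colouring the right half -/
theorem colour_right {p D : ℕ} {A : Finset (PT W (p + 1))} (h : Sep (p + 1) A D)
    (c : VT W p → Bool) (A' : Finset (PT W p))
    (hA' : ∀ x1 ∈ A', ∃ e e' : PT W p, ((x1, e) : PT W (p + 1)) ∈ A ∧
      ((x1, e') : PT W (p + 1)) ∈ A ∧ (∀ v ∈ vs p e, c v = true) ∧ ∀ v ∈ vs p e', c v = false) :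
    Sep p A' D := by
  classical
  obtain ⟨φ, h1, h2, h3⟩ := h
  let σ : Ed W (p + 1) → Fm (Ed W p) := fun a => match a with
    | Sum.inl u => Fm.var (Sum.inl u)
    | Sum.inr (Sum.inl (Sum.inl a)) => Fm.var (Sum.inr (Sum.inl a))
    | Sum.inr (Sum.inl (Sum.inr (Sum.inl e))) =>
      if c (fV p e.2) = true then Fm.var (Sum.inr (Sum.inr e.1)) else Fm.ff
    | Sum.inr (Sum.inl (Sum.inr (Sum.inr a))) => if c (tailI p a) = true then Fm.tt else Fm.ff
    | Sum.inr (Sum.inr u) => if c (lV p u) = true then Fm.tt else Fm.ff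
  have hσ : ∀ a, (σ a).depth = 0 := by
    intro a
    rcases a with u | (a | e | a) | u
    · rfl
    · rfl
    · simp only [σ]; split <;> rfl
    · simp only [σ]; split <;> rfl
    · simp only [σ]; split <;> rfl
  refine ⟨φ.subst σ, restrict h1 σ hσ, ?_, ?_⟩
  · intro x1 hx1
    obtain ⟨e0, _, he, _, hc, _⟩ := hA' x1 hx1
    rw [Fm.eval_subst]
    refine Fm.eval_mono ?_ φ (h2 _ he)
    intro a ha
    rw [decide_eq_true_eq]
    rcases a with u | (a | e | a) | u
    · have h4 : u = fstP (p + 1) ((x1, e0) : PT W (p + 1)) := by simpa [wA] using ha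
      have h5 : u = fstP p x1 := h4
      simp [σ, Fm.eval, wA, h5]
    · have h4 : al (p + 1) ((x1, e0) : PT W (p + 1)) (Sum.inl a) := by simpa [wA] using ha
      have h5 : al p x1 a := h4
      simp [σ, Fm.eval, wA, h5]
    · have h4 : al (p + 1) ((x1, e0) : PT W (p + 1)) (Sum.inr (Sum.inl e)) := by
        simpa [wA] using ha
      have h5 : e.1 = lstP p x1 ∧ e.2 = fstP p e0 := h4
      have h6 : c (fV p e.2) = true := hc _ ((fV_mem p e0 e.2).2 h5.2)
      simp only [σ]
      rw [if_pos h6]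
      simp [Fm.eval, wA, h5.1]
    · have h4 : al (p + 1) ((x1, e0) : PT W (p + 1)) (Sum.inr (Sum.inr a)) := by
        simpa [wA] using ha
      have h5 : al p e0 a := h4
      have h6 : c (tailI p a) = true := hc _ (tail_mem p e0 a h5)
      simp only [σ]
      rw [if_pos h6]
      trivial
    · have h4 : u = lstP (p + 1) ((x1, e0) : PT W (p + 1)) := by simpa [wA] using ha
      have h5 : u = lstP p e0 := h4
      have h6 : c (lV p u) = true := hc _ ((lV_mem p e0 u).2 h5)
      simp only [σ]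
      rw [if_pos h6]
      trivial
  · intro y1 hy1 hcon
    obtain ⟨_, e0, _, he, _, hc⟩ := hA' y1 hy1
    rw [Fm.eval_subst] at hcon
    refine h3 _ he (Fm.eval_mono ?_ φ hcon)
    intro a ha
    rw [decide_eq_true_eq] at ha
    rcases a with u | (a | e | a) | u
    · have h4 : u = fstP p y1 := by simpa [σ, Fm.eval, wB] using ha
      have : u = fstP (p + 1) ((y1, e0) : PT W (p + 1)) := h4
      simp [wB, this]
    · have h4 : bo p y1 a := by simpa [σ, Fm.eval, wB] using ha
      have : bo (p + 1) ((y1, e0) : PT W (p + 1)) (Sum.inl a) := h4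
      simp [wB, this]
    · simp only [σ] at ha
      by_cases h6 : c (fV p e.2) = true
      · rw [if_pos h6] at ha
        have h7 : e.1 ≠ lstP p y1 := by simpa [Fm.eval, wB] using ha
        have : bo (p + 1) ((y1, e0) : PT W (p + 1)) (Sum.inr (Sum.inl e)) := by
          show e.1 = lstP p y1 → e.2 = fstP p e0
          exact fun h8 => absurd h8 h7
        simp [wB, this]
      · rw [if_neg h6] at ha
        exact ha.elim
    · simp only [σ] at ha
      by_cases h6 : c (tailI p a) = true
      · have h7 : bo p e0 a := by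
          by_contra h8
          have h9 := hc _ (tail_mem' p e0 a h8)
          rw [h6] at h9
          simp at h9
        have : bo (p + 1) ((y1, e0) : PT W (p + 1)) (Sum.inr (Sum.inr a)) := h7
        simp [wB, this]
      · rw [if_neg h6] at ha
        exact ha.elim
    · simp only [σ] at ha
      by_cases h6 : c (lV p u) = true
      · have h7 : u ≠ lstP p e0 := by
          intro h8
          have h9 := hc _ ((lV_mem p e0 u).2 h8)
          rw [h6] at h9
          simp at h9
        have : u ≠ lstP (p + 1) ((y1, e0) : PT W (p + 1)) := h7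
        simp [wB, this]
      · rw [if_neg h6] at ha
        exact ha.elim

/-- a good colouring -/
theorem good_colour {p : ℕ} (G : Finset (PT W p)) (e e' : PT W p → PT W p)
    (hd : ∀ x ∈ G, Disjoint (vs p (e x)) (vs p (e' x))) : ∃ c : VT W p → Bool,
      G.card ≤ 2 ^ (2 ^ (p + 1)) * (G.filter fun x => (∀ v ∈ vs p (e x), c v = true) ∧
        ∀ v ∈ vs p (e' x), c v = false).card := by
  classical
  by_contra hcon
  push Not at hcon
  -- expectation
  let w : Bool → ℝ := uw Bool
  have hw1 : ∑ a, w a = 1 := uw_sum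
  have e1 : EE w (fun c : VT W p → Bool => ∑ x ∈ G,
      (if (∀ v ∈ vs p (e x), c v = true) ∧ ∀ v ∈ vs p (e' x), c v = false then (1 : ℝ) else 0)) =
      G.card * (1 / 2 : ℝ) ^ (2 ^ (p + 1)) := by
    rw [EE_sum, ← nsmul_eq_mul]
    apply Finset.sum_eq_card_nsmul
    intro x hx
    have h1 := PP_pattern (V := VT W p) (α := Bool) (vs p (e x) ∪ vs p (e' x))
      (fun v => decide (v ∈ vs p (e x)))
    rw [Finset.card_union_of_disjoint (hd x hx), vs_card, vs_card, Fintype.card_bool, PP_eq] at h1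
    have h2 : 2 ^ p + 2 ^ p = 2 ^ (p + 1) := by ring
    rw [h2] at h1
    norm_num at h1 ⊢
    rw [← h1]
    congr 1
    funext c
    congr 1
    apply propext
    constructor
    · rintro ⟨g1, g2⟩ v hv
      rcases hv with hv | hv
      · rw [g1 v hv]
        simp [hv]
      · rw [g2 v hv]
        have : v ∉ vs p (e x) := fun h => Finset.disjoint_left.1 (hd x hx) h hv
        simp [this]
    · intro g
      constructor
      · intro v hv
        rw [g v (Or.inl hv)]
        simp [hv]
      · intro v hv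
        rw [g v (Or.inr hv)]
        have : v ∉ vs p (e x) := fun h => Finset.disjoint_left.1 (hd x hx) h hv
        simp [this]
  have e2 : EE w (fun c : VT W p → Bool => ∑ x ∈ G,
      (if (∀ v ∈ vs p (e x), c v = true) ∧ ∀ v ∈ vs p (e' x), c v = false then (1 : ℝ) else 0)) ≤
      EE w (fun _ : VT W p → Bool => ((G.card : ℝ) - 1) * (1 / 2 : ℝ) ^ (2 ^ (p + 1))) := by
    apply EE_mono uw_nonneg
    intro c
    rw [← Finset.sum_filter, Finset.sum_const, nsmul_eq_mul, mul_one]
    have h1 := hcon c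
    have h2 : (2 : ℝ) ^ (2 ^ (p + 1)) * ((G.filter fun x => (∀ v ∈ vs p (e x), c v = true) ∧
        ∀ v ∈ vs p (e' x), c v = false).card : ℝ) ≤ (G.card : ℝ) - 1 := by
      have h3 : 2 ^ (2 ^ (p + 1)) * (G.filter fun x => (∀ v ∈ vs p (e x), c v = true) ∧
        ∀ v ∈ vs p (e' x), c v = false).card + 1 ≤ G.card := h1
      have h4 : ((2 ^ (2 ^ (p + 1)) * (G.filter fun x => (∀ v ∈ vs p (e x), c v = true) ∧
        ∀ v ∈ vs p (e' x), c v = false).card + 1 : ℕ) : ℝ) ≤ (G.card : ℝ) := by
        exact_mod_cast h3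
      push_cast at h4
      linarith
    rw [one_div, inv_pow, ← div_eq_mul_inv, le_div_iff₀ (by positivity), mul_comm]
    exact h2
  rw [e1, EE_const hw1] at e2
  have h5 : (0 : ℝ) < (1 / 2) ^ (2 ^ (p + 1)) := by positivity
  nlinarith

/-- **amplification** -/
theorem amp {p m D : ℕ} (hW : Fintype.card W = 2 ^ (4 * m)) (hm : p + 1 < 2 * m)
    {A : Finset (PT W (p + 1))} (h : Sep (p + 1) A D)
    (hA : Fintype.card (PT W (p + 1)) ≤ 2 ^ (2 * m) * A.card) :
    ∃ A' : Finset (PT W p), Fintype.card (PT W p) ≤ 2 ^ (m + (2 ^ (p + 1) + 1)) * A'.card ∧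
      Sep p A' D := by
  classical
  have hN2 : Fintype.card (PT W (p + 1)) = Fintype.card (PT W p) * Fintype.card (PT W p) :=
    Fintype.card_prod _ _
  rw [hN2] at hA
  have hNpos : 0 < Fintype.card (PT W p) := by
    rw [card_PT, hW]
    positivity
  obtain ⟨N, hN⟩ : ∃ N, N = Fintype.card (PT W p) := ⟨_, rfl⟩
  rw [← hN] at hA hNpos ⊢
  let ext : PT W p → Finset (PT W p) := fun x1 =>
    univ.filter fun x2 => ((x1, x2) : PT W (p + 1)) ∈ A
  have hext : ∀ x1 x2, x2 ∈ ext x1 → ((x1, x2) : PT W (p + 1)) ∈ A := fun x1 x2 hx =>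
    (Finset.mem_filter.1 hx).2
  by_cases hcase : ∃ x1, N ≤ 2 ^ m * (ext x1).card
  · obtain ⟨x1, hx1⟩ := hcase
    refine ⟨ext x1, hx1.trans (Nat.mul_le_mul_right _ (Nat.pow_le_pow_right (by norm_num)
      (Nat.le_add_right _ _))), fix_left h x1 (ext x1) (hext x1)⟩
  · push Not at hcase
    let G : Finset (PT W p) := univ.filter fun x1 => N ≤ 2 ^ (2 * m + 1) * (ext x1).card
    have hsum : A.card = ∑ x1 : PT W p, (ext x1).card := by
      have h1 : A.card = ((univ : Finset (PT W p)).sigma ext).card := by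
        symm
        apply Finset.card_bij (fun q _ => ((q.1, q.2) : PT W (p + 1)))
        · intro q hq
          exact hext q.1 q.2 (Finset.mem_sigma.1 hq).2
        · rintro ⟨a, b⟩ _ ⟨a', b'⟩ _ hab
          have h1 : a = a' := congrArg Prod.fst hab
          have h2 : b = b' := congrArg Prod.snd hab
          rw [h1, h2]
        · intro x hx
          exact ⟨⟨x.1, x.2⟩, Finset.mem_sigma.2 ⟨Finset.mem_univ _,
            Finset.mem_filter.2 ⟨Finset.mem_univ _, hx⟩⟩, rfl⟩
      rw [h1, Finset.card_sigma]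
    have hsplit : ∑ x1 : PT W p, (ext x1).card =
        ∑ x1 ∈ G, (ext x1).card + ∑ x1 ∈ univ.filter
          (fun x1 => ¬ N ≤ 2 ^ (2 * m + 1) * (ext x1).card), (ext x1).card :=
      (Finset.sum_filter_add_sum_filter_not univ
        (fun x1 => N ≤ 2 ^ (2 * m + 1) * (ext x1).card) fun x1 => (ext x1).card).symm
    have hbad : 2 ^ (2 * m + 1) * ∑ x1 ∈ univ.filter
        (fun x1 => ¬ N ≤ 2 ^ (2 * m + 1) * (ext x1).card), (ext x1).card ≤ N * N := by
      rw [Finset.mul_sum]
      refine (Finset.sum_le_card_nsmul _ _ N ?_).trans ?_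
      · intro x1 hx1
        exact (Nat.lt_of_not_le (Finset.mem_filter.1 hx1).2).le
      · rw [smul_eq_mul]
        apply Nat.mul_le_mul_right
        rw [hN]
        exact Finset.card_le_univ _
    have hgood : 2 ^ m * ∑ x1 ∈ G, (ext x1).card ≤ G.card * N := by
      rw [Finset.mul_sum]
      refine (Finset.sum_le_card_nsmul _ _ N ?_).trans ?_
      · intro x1 _
        exact (hcase x1).le
      · rw [smul_eq_mul]
    have hGN : N ≤ 2 ^ (m + 1) * G.card := by
      have h1 : N * N ≤ 2 ^ (2 * m + 1) * ∑ x1 ∈ G, (ext x1).card := by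
        have h2 : 2 * (N * N) ≤ 2 ^ (2 * m + 1) * A.card := by
          calc 2 * (N * N) ≤ 2 * (2 ^ (2 * m) * A.card) := Nat.mul_le_mul_left _ hA
            _ = 2 ^ (2 * m + 1) * A.card := by ring
        rw [hsum, hsplit, Nat.mul_add] at h2
        omega
      have h3 : 2 ^ (2 * m + 1) * ∑ x1 ∈ G, (ext x1).card ≤ 2 ^ (m + 1) * (G.card * N) := by
        calc 2 ^ (2 * m + 1) * ∑ x1 ∈ G, (ext x1).card
            = 2 ^ (m + 1) * (2 ^ m * ∑ x1 ∈ G, (ext x1).card) := by ring
          _ ≤ 2 ^ (m + 1) * (G.card * N) := Nat.mul_le_mul_left _ hgood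
      have h4 : N * N ≤ 2 ^ (m + 1) * G.card * N := by
        calc N * N ≤ 2 ^ (m + 1) * (G.card * N) := h1.trans h3
          _ = 2 ^ (m + 1) * G.card * N := by ring
      exact Nat.le_of_mul_le_mul_right h4 hNpos
    -- two disjoint extensions
    have hpair : ∀ x1 ∈ G, ∃ e e' : PT W p, e ∈ ext x1 ∧ e' ∈ ext x1 ∧
        Disjoint (vs p e) (vs p e') := by
      intro x1 hx1
      have hx1' := (Finset.mem_filter.1 hx1).2
      by_contra hcon
      push Not at hcon
      have hne : (ext x1).Nonempty := by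
        rw [← Finset.card_pos]
        by_contra h0
        have : (ext x1).card = 0 := by omega
        rw [this, Nat.mul_zero] at hx1'
        omega
      obtain ⟨e, he⟩ := hne
      have hsub : ext x1 ⊆ (vs p e).biUnion fun v => univ.filter fun x : PT W p => v ∈ vs p x := by
        intro e' he'
        have h1 := hcon e e' he he'
        rw [Finset.not_disjoint_iff] at h1
        obtain ⟨v, hv, hv'⟩ := h1
        exact Finset.mem_biUnion.2 ⟨v, hv, Finset.mem_filter.2 ⟨Finset.mem_univ _, hv'⟩⟩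
      have h2 : (ext x1).card * Fintype.card W ≤ 2 ^ p * N := by
        calc (ext x1).card * Fintype.card W
            ≤ (∑ v ∈ vs p e, (univ.filter fun x : PT W p => v ∈ vs p x).card) *
              Fintype.card W :=
              Nat.mul_le_mul_right _ ((Finset.card_le_card hsub).trans Finset.card_biUnion_le)
          _ = ∑ v ∈ vs p e, (univ.filter fun x : PT W p => v ∈ vs p x).card *
              Fintype.card W := Finset.sum_mul _ _ _
          _ ≤ (vs p e).card • N := Finset.sum_le_card_nsmul _ _ _ fun v _ => by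
            rw [hN]
            exact card_vs p v
          _ = 2 ^ p * N := by rw [vs_card, smul_eq_mul]
      rw [hW] at h2
      have h3 : (ext x1).card * 2 ^ (4 * m) ≤ 2 ^ (p + 2 * m + 1) * (ext x1).card := by
        calc (ext x1).card * 2 ^ (4 * m) ≤ 2 ^ p * N := h2
          _ ≤ 2 ^ p * (2 ^ (2 * m + 1) * (ext x1).card) := Nat.mul_le_mul_left _ hx1'
          _ = 2 ^ (p + 2 * m + 1) * (ext x1).card := by ring
      have h4 : 2 ^ (4 * m) ≤ 2 ^ (p + 2 * m + 1) := by
        have hpos : 0 < (ext x1).card := Finset.card_pos.2 ⟨e, he⟩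
        rw [Nat.mul_comm] at h3
        exact Nat.le_of_mul_le_mul_right h3 hpos
      have h5 := (Nat.pow_le_pow_iff_right (by norm_num : 1 < 2)).1 h4
      omega
    choose! e e' he he' hdis using hpair
    obtain ⟨c, hc⟩ := good_colour G e e' hdis
    refine ⟨_, ?_, colour_right h c (G.filter fun x => (∀ v ∈ vs p (e x), c v = true) ∧
        ∀ v ∈ vs p (e' x), c v = false) ?_⟩
    · calc N ≤ 2 ^ (m + 1) * G.card := hGN
        _ ≤ 2 ^ (m + 1) * (2 ^ (2 ^ (p + 1)) * (G.filter fun x =>
          (∀ v ∈ vs p (e x), c v = true) ∧ ∀ v ∈ vs p (e' x), c v = false).card) :=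
          Nat.mul_le_mul_left _ hc
        _ = 2 ^ (m + (2 ^ (p + 1) + 1)) * (G.filter fun x =>
          (∀ v ∈ vs p (e x), c v = true) ∧ ∀ v ∈ vs p (e' x), c v = false).card := by
          rw [← Nat.mul_assoc, ← pow_add]
          congr 2
          ring
    · intro x1 hx1
      obtain ⟨g1, g2, g3⟩ := Finset.mem_filter.1 hx1
      exact ⟨e x1, e' x1, hext _ _ (he x1 g1), hext _ _ (he' x1 g1), g2, g3⟩

/-- iterated halving -/
theorem halves {p D m a : ℕ} (hW : Fintype.card W = 2 ^ (4 * m)) :
    ∀ (j : ℕ) {A : Finset (PT W p)}, Sep p A D →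
    Fintype.card (PT W p) ≤ 2 ^ a * A.card → a + j ≤ 2 * m → 1 ≤ m →
    ∃ D', D = D' + j ∧ ∃ A' : Finset (PT W p), Fintype.card (PT W p) ≤ 2 ^ (a + j) * A'.card ∧
      Sep p A' D' := by
  intro j
  induction j with
  | zero =>
    intro A h hA _ _
    exact ⟨D, rfl, A, hA, h⟩
  | succ j ih =>
    intro A h hA haj hm
    obtain ⟨D', hD', A', hA', h'⟩ := ih h hA (by omega) hm
    have hpos : 0 < Fintype.card (PT W p) := by
      rw [card_PT, hW]
      positivity
    have hA'0 : 0 < A'.card := by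
      by_contra h0
      have : A'.card = 0 := by omega
      rw [this] at hA'
      omega
    have hlt : Fintype.card (PT W p) < A'.card * Fintype.card W := by
      calc Fintype.card (PT W p) ≤ 2 ^ (a + j) * A'.card := hA'
        _ < 2 ^ (4 * m) * A'.card := by
          apply Nat.mul_lt_mul_of_pos_right _ hA'0
          exact Nat.pow_lt_pow_right (by norm_num) (by omega)
        _ = A'.card * Fintype.card W := by rw [hW, Nat.mul_comm]
    obtain ⟨D'', hD'', A'', _, hc, h''⟩ := half h' hlt
    refine ⟨D'', by omega, A'', ?_, h''⟩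
    calc Fintype.card (PT W p) ≤ 2 ^ (a + j) * A'.card := hA'
      _ ≤ 2 ^ (a + j) * (2 * A''.card) := Nat.mul_le_mul_left _ hc
      _ = 2 ^ (a + (j + 1)) * A''.card := by ring

/-- **the lower bound** -/
theorem fork : ∀ p : ℕ, ∃ C : ℕ, ∀ (m : ℕ) (W : Type) [Fintype W] [DecidableEq W],
    Fintype.card W = 2 ^ (4 * m) → ∀ (A : Finset (PT W p)) (D : ℕ),
    Fintype.card (PT W p) ≤ 2 ^ (m + (2 ^ (p + 1) + 1)) * A.card → Sep p A D →
    p * m ≤ D + C := by
  intro p
  induction p with
  | zero => exact ⟨0, fun m W _ _ _ A D _ _ => by omega⟩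
  | succ p ih =>
    obtain ⟨C, hC⟩ := ih
    obtain ⟨q, hq⟩ : ∃ q, q = 2 ^ (p + 1 + 1) + 1 := ⟨_, rfl⟩
    obtain ⟨m0, hm0⟩ : ∃ m0, m0 = q + (p + 2) := ⟨_, rfl⟩
    refine ⟨C + q + (p + 1) * m0, ?_⟩
    intro m W _ _ hW A D hA hsep
    rw [← hq] at hA
    rcases Nat.lt_or_ge m m0 with hlt | hge
    · have : (p + 1) * m ≤ (p + 1) * m0 := Nat.mul_le_mul_left _ hlt.le
      omega
    · obtain ⟨D', hD', A', hA', hsep'⟩ := halves hW (m - q) hsep hA
        (by omega) (by omega)
      have he : m + q + (m - q) = 2 * m := by omega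
      rw [he] at hA'
      obtain ⟨A'', hA'', hsep''⟩ := amp hW (by omega) hsep' hA'
      have h1 := hC m W hW A'' D' hA'' hsep''
      have h2 : (p + 1) * m = p * m + m := by ring
      omega

end Pool.Agent.WSatMon
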