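import Pool.Agent.WSatMon.CoreO

/-! Numbers: what both cases need. -/

namespace Pool.Agent.WSatMon

open Finset Filter Pool.Agent.ParityAC

theorem tendsto_two_pow : Tendsto (fun β : ℕ => (2 : ℝ) ^ β) atTop atTop :=
  tendsto_pow_atTop_atTop_of_one_lt (by norm_num)

theorem eventually_exp (a D : ℕ) (hD : 1 ≤ D) {ε : ℝ} (hε : 0 < ε) :
    ∀ᶠ β : ℕ in atTop, ((2 : ℝ) ^ β) ^ a * Real.exp (-((2 : ℝ) ^ β / D)) < ε := by
  have hD' : (0 : ℝ) < 1 / (D : ℝ) := by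
    apply one_div_pos.2
    exact_mod_cast hD
  have h1 := tendsto_rpow_mul_exp_neg_mul_atTop_nhds_zero (a : ℝ) (1 / (D : ℝ)) hD'
  have h2 := h1.comp tendsto_two_pow
  have h3 := h2.eventually (gt_mem_nhds hε)
  filter_upwards [h3] with β hβ
  simp only [Function.comp_apply, Real.rpow_natCast] at hβ
  have : -((2 : ℝ) ^ β / D) = -(1 / (D : ℝ)) * 2 ^ β := by ring
  rw [this]
  exact hβ

theorem eventually_pow (C : ℕ) : ∀ᶠ β : ℕ in atTop, C ≤ 2 ^ β := by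
  filter_upwards [eventually_ge_atTop C] with β hβ
  exact hβ.trans Nat.lt_two_pow_self.le

theorem eventually_lin (C : ℕ) : ∀ᶠ β : ℕ in atTop, C * β ≤ 2 ^ β := by
  have h : ∀ᶠ β : ℕ in atTop, β * β ≤ 2 ^ β := by
    filter_upwards [eventually_ge_atTop 4] with β hβ
    induction β, hβ using Nat.le_induction with
    | base => norm_num
    | succ β hβ ih =>
      rw [pow_succ]
      nlinarith
  filter_upwards [h, eventually_ge_atTop C] with β h1 h2
  exact (Nat.mul_le_mul_right _ h2).trans h1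

theorem one_sub_pow_le {u : ℝ} (h1 : u ≤ 1) (l : ℕ) :
    (1 - u) ^ l ≤ Real.exp (-(l * u)) := by
  have h2 : 1 - u ≤ Real.exp (-u) := by
    have := Real.add_one_le_exp (-u)
    linarith
  calc (1 - u) ^ l ≤ Real.exp (-u) ^ l := pow_le_pow_left₀ (by linarith) h2 l
    _ = Real.exp (-(l * u)) := by
      rw [← Real.exp_nat_mul]
      congr 1
      ring

theorem bnd_le {σ : ℕ} (hσ : 1 ≤ σ) : ∀ (t q : ℕ),
    bnd σ (t + 1) q ≤ (16 * q + 1) * (16 * σ) ^ t := by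
  have h1 : ∀ t, bnd σ (t + 1) (σ - 1) ≤ (16 * σ) ^ (t + 1) := by
    intro t
    induction t with
    | zero =>
      simp only [bnd, Nat.zero_add, pow_one]
      omega
    | succ t ih =>
      simp only [bnd]
      calc (16 * (σ - 1) + 1) * bnd σ (t + 1) (σ - 1) ≤ (16 * σ) * (16 * σ) ^ (t + 1) :=
            Nat.mul_le_mul (by omega) ih
        _ = (16 * σ) ^ (t + 1 + 1) := by ring
  intro t q
  cases t with
  | zero =>
    simp only [bnd, pow_zero, mul_one]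
    omega
  | succ t =>
    simp only [bnd]
    exact Nat.mul_le_mul_left _ (h1 t)

/-- size of the source -/
theorem Z_le {β k n t m : ℕ} (ht : 1 ≤ t) (hβ : 1 ≤ β) (h1 : (k + 2) * β ≤ 2 ^ β)
    (hm : 2 ^ β ≤ m) (hmn : m ^ 4 ≤ n) (h2 : 2 ≤ m) :
    ((k + 2) * (β * (2 ^ β * n)) + 1) ^ t + (k * n + 2 ^ β) + 1 ≤ n ^ (2 * t + 1) := by
  have hm4 : m * m * 4 ≤ n := by
    refine le_trans ?_ hmn
    calc m * m * 4 = m * m * (2 * 2) := by ring
      _ ≤ m * m * (m * m) := Nat.mul_le_mul_left _ (Nat.mul_le_mul h2 h2)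
      _ = m ^ 4 := by ring
  have hn4 : 4 ≤ n := by nlinarith
  have h3 : (k + 2) * (β * (2 ^ β * n)) + 1 ≤ n ^ 2 := by
    have : (k + 2) * (β * (2 ^ β * n)) ≤ m * m * n := by
      calc (k + 2) * (β * (2 ^ β * n)) = ((k + 2) * β) * 2 ^ β * n := by ring
        _ ≤ m * m * n := Nat.mul_le_mul_right _ (Nat.mul_le_mul (h1.trans hm) hm)
    have h5 : m * m * n + 1 ≤ n ^ 2 := by
      have : m * m * n * 4 ≤ n * n := by
        calc m * m * n * 4 = m * m * 4 * n := by ring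
          _ ≤ n * n := Nat.mul_le_mul_right _ hm4
      have h6 : 4 ≤ m * m * n * 4 := by
        have : 1 ≤ m * m * n := Nat.mul_pos (Nat.mul_pos (by omega) (by omega)) (by omega)
        omega
      rw [pow_two]
      omega
    omega
  have h4 : ((k + 2) * (β * (2 ^ β * n)) + 1) ^ t ≤ n ^ (2 * t) := by
    rw [pow_mul]
    exact Nat.pow_le_pow_left h3 t
  have hk : k ≤ m := by
    have : k ≤ (k + 2) * β := by nlinarith
    omega
  have h5 : k * n + 2 ^ β + 1 ≤ n ^ (2 * t) := by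
    have h6 : k * n + 2 ^ β + 1 ≤ n ^ 2 := by
      have h7 : k * n ≤ m * n := Nat.mul_le_mul_right _ hk
      have h8 : 2 ^ β + 1 ≤ 2 * m := by omega
      have h9 : m * n + 2 * m ≤ m * m * n := by
        calc m * n + 2 * m ≤ m * n + n * m := by
              have := Nat.mul_le_mul_right m (show 2 ≤ n by omega)
              omega
          _ = 2 * m * n := by ring
          _ ≤ m * m * n := Nat.mul_le_mul_right _ (Nat.mul_le_mul_right _ h2)
      have h10 : m * m * n ≤ n ^ 2 := by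
        rw [pow_two]
        exact Nat.mul_le_mul_right _ (by omega)
      omega
    exact h6.trans (Nat.pow_le_pow_right (by omega) (by omega))
  calc ((k + 2) * (β * (2 ^ β * n)) + 1) ^ t + (k * n + 2 ^ β) + 1
      ≤ n ^ (2 * t) + n ^ (2 * t) := by omega
    _ = 2 * n ^ (2 * t) := by ring
    _ ≤ n * n ^ (2 * t) := Nat.mul_le_mul_right _ (by omega)
    _ = n ^ (2 * t + 1) := by ring

/-- exponent of the size of all circuits -/
def c1 (c t d : ℕ) : ℕ := ((2 * t + 1) * c + 1) * (3 * d + 1) + 1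

/-- number of gates -/
theorem N_le {e n m1 d A : ℕ} (hA : A = e * n ^ m1) (h1 : e + 1 ≤ n) (h2 : 2 ^ (2 * d + 2) ≤ n) :
    A + A * ((A + 1) ^ 2 * 2) ^ d * ((A * 2) ^ d + 1) ≤ n ^ ((m1 + 1) * (3 * d + 1) + 1) := by
  have hn : 1 ≤ n := by omega
  let U := n ^ (m1 + 1)
  have hU1 : 1 ≤ U := Nat.one_le_pow _ _ hn
  have hU : A + 1 ≤ U := by
    have h3 : 1 ≤ n ^ m1 := Nat.one_le_pow _ _ hn
    calc A + 1 ≤ e * n ^ m1 + n ^ m1 := by omega
      _ = (e + 1) * n ^ m1 := by ring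
      _ ≤ n * n ^ m1 := Nat.mul_le_mul_right _ h1
      _ = U := by simp only [U]; ring
  have h3 : ((A + 1) ^ 2 * 2) ^ d ≤ 2 ^ d * U ^ (2 * d) := by
    calc ((A + 1) ^ 2 * 2) ^ d ≤ (U ^ 2 * 2) ^ d :=
          Nat.pow_le_pow_left (Nat.mul_le_mul_right _ (Nat.pow_le_pow_left hU 2)) d
      _ = 2 ^ d * U ^ (2 * d) := by rw [mul_pow, pow_mul, mul_comm]
  have h4 : (A * 2) ^ d + 1 ≤ 2 * (2 ^ d * U ^ d) := by
    have h5 : (A * 2) ^ d ≤ 2 ^ d * U ^ d := by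
      rw [← mul_pow]
      apply Nat.pow_le_pow_left
      omega
    have h6 : 1 ≤ 2 ^ d * U ^ d := Nat.mul_pos (by positivity) (by positivity)
    omega
  have h5 : U ≤ 2 ^ (2 * d + 1) * U ^ (3 * d + 1) := by
    calc U = 1 * U ^ 1 := by ring
      _ ≤ 2 ^ (2 * d + 1) * U ^ (3 * d + 1) :=
        Nat.mul_le_mul (Nat.one_le_two_pow) (Nat.pow_le_pow_right hU1 (by omega))
  calc A + A * ((A + 1) ^ 2 * 2) ^ d * ((A * 2) ^ d + 1)
      ≤ U + U * (2 ^ d * U ^ (2 * d)) * (2 * (2 ^ d * U ^ d)) := by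
        apply Nat.add_le_add (by omega)
        exact Nat.mul_le_mul (Nat.mul_le_mul (by omega) h3) h4
    _ = U + 2 ^ (2 * d + 1) * U ^ (3 * d + 1) := by
      congr 1
      have e1 : 2 ^ (2 * d + 1) = 2 ^ d * 2 ^ d * 2 := by
        rw [← pow_add, ← pow_succ]
        congr 1
        ring
      have e2 : U ^ (3 * d + 1) = U * U ^ (2 * d) * U ^ d := by
        rw [← pow_succ', ← pow_add]
        congr 1
        ring
      rw [e1, e2]
      ring
    _ ≤ 2 ^ (2 * d + 1) * U ^ (3 * d + 1) + 2 ^ (2 * d + 1) * U ^ (3 * d + 1) := by omega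
    _ = 2 ^ (2 * d + 2) * U ^ (3 * d + 1) := by ring
    _ ≤ n * U ^ (3 * d + 1) := Nat.mul_le_mul_right _ h2
    _ = n ^ ((m1 + 1) * (3 * d + 1) + 1) := by
      simp only [U]
      rw [← pow_mul, ← pow_succ']

/-- what both cases need -/
theorem common (t c d k e p q : ℕ) (ht : 1 ≤ t) (hp : 4 ≤ p) :
    ∀ᶠ β : ℕ in atTop,
      e * (((k + 2) * (β * (2 ^ β * (2 ^ β) ^ p)) + 1) ^ t + (k * (2 ^ β) ^ p + 2 ^ β) + 1) ^ c ≤
        e * ((2 ^ β) ^ p) ^ ((2 * t + 1) * c) ∧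
      (e * ((2 ^ β) ^ p) ^ ((2 * t + 1) * c)) + (e * ((2 ^ β) ^ p) ^ ((2 * t + 1) * c)) *
        (((e * ((2 ^ β) ^ p) ^ ((2 * t + 1) * c)) + 1) ^ 2 * 2) ^ d *
        (((e * ((2 ^ β) ^ p) ^ ((2 * t + 1) * c)) * 2) ^ d + 1) ≤ ((2 ^ β) ^ p) ^ c1 c t d ∧
      ∃ S σ : ℕ, ((e * ((2 ^ β) ^ p) ^ ((2 * t + 1) * c)) + 1) ^ (e + 1) ≤ S ∧
        S ^ (t - 1) < 2 ^ σ ∧ 1 ≤ σ ∧ bnd σ t q ≤ β ^ t := by
  obtain ⟨t', rfl⟩ : ∃ t', t = t' + 1 := ⟨t - 1, by omega⟩
  filter_upwards [eventually_lin (k + 2), eventually_pow (e + 1), eventually_pow (2 ^ (2 * d + 2)),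
    eventually_ge_atTop 1, eventually_ge_atTop ((16 * q + 1) *
      (16 * (p * (((2 * (t' + 1) + 1) * c + 1) * (e + 1)) * t' + 1)) ^ t')] with β h1 h2 h3 h4 h5
  have hx : 2 ≤ 2 ^ β := by
    calc 2 = 2 ^ 1 := rfl
      _ ≤ 2 ^ β := Nat.pow_le_pow_right (by omega) h4
  have hxn : 2 ^ β ≤ (2 ^ β) ^ p := by
    calc 2 ^ β = (2 ^ β) ^ 1 := (pow_one _).symm
      _ ≤ (2 ^ β) ^ p := Nat.pow_le_pow_right (by omega) (by omega)
  have hx4 : (2 ^ β) ^ 4 ≤ (2 ^ β) ^ p := Nat.pow_le_pow_right (by omega) hp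
  refine ⟨?_, ?_, ?_⟩
  · apply Nat.mul_le_mul_left
    rw [pow_mul ((2 ^ β) ^ p)]
    apply Nat.pow_le_pow_left
    exact Z_le (m := 2 ^ β) ht h4 h1 (le_refl _) hx4 hx
  · exact N_le rfl (h2.trans hxn) (h3.trans hxn)
  · refine ⟨2 ^ (β * (p * (((2 * (t' + 1) + 1) * c + 1) * (e + 1)))),
      β * (p * (((2 * (t' + 1) + 1) * c + 1) * (e + 1)) * t') + 1, ?_, ?_, by omega, ?_⟩
    · have h6 : e * ((2 ^ β) ^ p) ^ ((2 * (t' + 1) + 1) * c) + 1 ≤
          ((2 ^ β) ^ p) ^ ((2 * (t' + 1) + 1) * c + 1) := by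
        have h7 : 1 ≤ ((2 ^ β) ^ p) ^ ((2 * (t' + 1) + 1) * c) := Nat.one_le_pow _ _ (by omega)
        calc e * ((2 ^ β) ^ p) ^ ((2 * (t' + 1) + 1) * c) + 1
            ≤ e * ((2 ^ β) ^ p) ^ ((2 * (t' + 1) + 1) * c) +
              ((2 ^ β) ^ p) ^ ((2 * (t' + 1) + 1) * c) := by omega
          _ = (e + 1) * ((2 ^ β) ^ p) ^ ((2 * (t' + 1) + 1) * c) := by ring
          _ ≤ (2 ^ β) ^ p * ((2 ^ β) ^ p) ^ ((2 * (t' + 1) + 1) * c) :=
            Nat.mul_le_mul_right _ (h2.trans hxn)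
          _ = _ := by ring
      calc (e * ((2 ^ β) ^ p) ^ ((2 * (t' + 1) + 1) * c) + 1) ^ (e + 1)
          ≤ (((2 ^ β) ^ p) ^ ((2 * (t' + 1) + 1) * c + 1)) ^ (e + 1) :=
            Nat.pow_le_pow_left h6 _
        _ = 2 ^ (β * (p * (((2 * (t' + 1) + 1) * c + 1) * (e + 1)))) := by
          simp only [← pow_mul]
          congr 1
          ring
    · rw [Nat.add_sub_cancel, ← pow_mul]
      apply Nat.pow_lt_pow_right (by norm_num)
      have : β * (p * (((2 * (t' + 1) + 1) * c + 1) * (e + 1))) * t' =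
        β * (p * (((2 * (t' + 1) + 1) * c + 1) * (e + 1)) * t') := by ring
      omega
    · refine (bnd_le (by omega) t' q).trans ?_
      have h6 : β * (p * (((2 * (t' + 1) + 1) * c + 1) * (e + 1)) * t') + 1 ≤
          β * (p * (((2 * (t' + 1) + 1) * c + 1) * (e + 1)) * t' + 1) := by
        calc β * (p * (((2 * (t' + 1) + 1) * c + 1) * (e + 1)) * t') + 1
            ≤ β * (p * (((2 * (t' + 1) + 1) * c + 1) * (e + 1)) * t') + β :=
              Nat.add_le_add_left h4 _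
          _ = _ := by ring
      calc (16 * q + 1) *
            (16 * (β * (p * (((2 * (t' + 1) + 1) * c + 1) * (e + 1)) * t') + 1)) ^ t'
          ≤ (16 * q + 1) *
            (16 * (β * (p * (((2 * (t' + 1) + 1) * c + 1) * (e + 1)) * t' + 1))) ^ t' := by
            gcongr
        _ = ((16 * q + 1) * (16 * (p * (((2 * (t' + 1) + 1) * c + 1) * (e + 1)) * t' + 1)) ^ t') *
            β ^ t' := by
          have : 16 * (β * (p * (((2 * (t' + 1) + 1) * c + 1) * (e + 1)) * t' + 1)) =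
            (16 * (p * (((2 * (t' + 1) + 1) * c + 1) * (e + 1)) * t' + 1)) * β := by ring
          rw [this, mul_pow]
          ring
        _ ≤ β * β ^ t' := Nat.mul_le_mul_right _ h5
        _ = β ^ (t' + 1) := by ring

end Pool.Agent.WSatMon
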