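import Mathlib

/-! Monotone formulas and their balancing. -/

namespace Pool.Agent.WSatMon

/-- monotone formulas -/
inductive Fm (A : Type) : Type
  | tt : Fm A
  | ff : Fm A
  | var (a : A) : Fm A
  | and (φ ψ : Fm A) : Fm A
  | or (φ ψ : Fm A) : Fm A

namespace Fm

variable {A B : Type}

/-- value -/
def eval : Fm A → (A → Bool) → Prop
  | tt, _ => True
  | ff, _ => False
  | var a, w => w a = true
  | and φ ψ, w => φ.eval w ∧ ψ.eval w
  | or φ ψ, w => φ.eval w ∨ ψ.eval w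

/-- depth -/
def depth : Fm A → ℕ
  | tt => 0
  | ff => 0
  | var _ => 0
  | and φ ψ => max φ.depth ψ.depth + 1
  | or φ ψ => max φ.depth ψ.depth + 1

/-- number of leaves with a variable -/
def size : Fm A → ℕ
  | tt => 0
  | ff => 0
  | var _ => 1
  | and φ ψ => φ.size + ψ.size
  | or φ ψ => φ.size + ψ.size

theorem eval_mono {w w' : A → Bool} (h : ∀ a, w a = true → w' a = true) (φ : Fm A) :
    φ.eval w → φ.eval w' := by
  induction φ with
  | tt => exact fun h => h
  | ff => exact fun h => h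
  | var a => exact h a
  | and φ ψ h1 h2 => exact fun ⟨g1, g2⟩ => ⟨h1 g1, h2 g2⟩
  | or φ ψ h1 h2 => exact fun g => g.imp h1 h2

/-- substitution -/
def subst (σ : A → Fm B) : Fm A → Fm B
  | tt => tt
  | ff => ff
  | var a => σ a
  | and φ ψ => and (φ.subst σ) (ψ.subst σ)
  | or φ ψ => or (φ.subst σ) (ψ.subst σ)

theorem depth_subst (σ : A → Fm B) {d : ℕ} (hσ : ∀ a, (σ a).depth ≤ d) (φ : Fm A) :
    (φ.subst σ).depth ≤ φ.depth + d := by
  induction φ with
  | tt => exact Nat.zero_le _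
  | ff => exact Nat.zero_le _
  | var a => simpa [subst, depth] using hσ a
  | and φ ψ h1 h2 =>
    simp only [subst, depth]
    omega
  | or φ ψ h1 h2 =>
    simp only [subst, depth]
    omega

open Classical in
theorem eval_subst (σ : A → Fm B) (φ : Fm A) (w : B → Bool) :
    (φ.subst σ).eval w ↔ φ.eval fun a => decide ((σ a).eval w) := by
  induction φ with
  | tt => exact Iff.rfl
  | ff => exact Iff.rfl
  | var a => simp [subst, eval]
  | and φ ψ h1 h2 =>
    simp only [subst, eval]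
    rw [h1, h2]
  | or φ ψ h1 h2 =>
    simp only [subst, eval]
    rw [h1, h2]

theorem size0 (φ : Fm A) (h : φ.size = 0) : (∀ w, φ.eval w) ∨ ∀ w, ¬ φ.eval w := by
  induction φ with
  | tt => exact Or.inl fun _ => trivial
  | ff => exact Or.inr fun _ h => h
  | var a => simp [size] at h
  | and φ ψ h1 h2 =>
    simp only [size, Nat.add_eq_zero_iff] at h
    rcases h1 h.1 with g1 | g1
    · rcases h2 h.2 with g2 | g2
      · exact Or.inl fun w => ⟨g1 w, g2 w⟩
      · exact Or.inr fun w h => g2 w h.2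
    · exact Or.inr fun w h => g1 w h.1
  | or φ ψ h1 h2 =>
    simp only [size, Nat.add_eq_zero_iff] at h
    rcases h1 h.1 with g1 | g1
    · exact Or.inl fun w => Or.inl (g1 w)
    · rcases h2 h.2 with g2 | g2
      · exact Or.inl fun w => Or.inr (g2 w)
      · exact Or.inr fun w h => h.elim (g1 w) (g2 w)

/-- equivalent to a formula of depth at most `d` -/
def Eqv (φ : Fm A) (d : ℕ) : Prop := ∃ ψ : Fm A, ψ.depth ≤ d ∧ ∀ w, ψ.eval w ↔ φ.eval w

theorem Eqv.mono {φ : Fm A} {d d' : ℕ} (h : Eqv φ d) (hd : d ≤ d') : Eqv φ d' := by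
  obtain ⟨ψ, h1, h2⟩ := h
  exact ⟨ψ, h1.trans hd, h2⟩

theorem Eqv.and {φ ψ : Fm A} {d : ℕ} (h : Eqv φ d) (h' : Eqv ψ d) :
    Eqv (Fm.and φ ψ) (d + 1) := by
  obtain ⟨φ', h1, h2⟩ := h
  obtain ⟨ψ', h3, h4⟩ := h'
  refine ⟨Fm.and φ' ψ', ?_, fun w => ?_⟩
  · simp only [depth]
    omega
  · simp only [eval]
    rw [h2, h4]

theorem Eqv.or {φ ψ : Fm A} {d : ℕ} (h : Eqv φ d) (h' : Eqv ψ d) :
    Eqv (Fm.or φ ψ) (d + 1) := by
  obtain ⟨φ', h1, h2⟩ := h
  obtain ⟨ψ', h3, h4⟩ := h'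
  refine ⟨Fm.or φ' ψ', ?_, fun w => ?_⟩
  · simp only [depth]
    omega
  · simp only [eval]
    rw [h2, h4]

theorem Eqv.congr {φ ψ : Fm A} {d : ℕ} (h : Eqv φ d) (h' : ∀ w, φ.eval w ↔ ψ.eval w) :
    Eqv ψ d := by
  obtain ⟨φ', h1, h2⟩ := h
  exact ⟨φ', h1, fun w => (h2 w).trans (h' w)⟩

theorem Eqv.of_const {φ : Fm A} (h : (∀ w, φ.eval w) ∨ ∀ w, ¬ φ.eval w) : Eqv φ 0 := by
  rcases h with h | h
  · exact ⟨tt, le_refl _, fun w => ⟨fun _ => h w, fun _ => trivial⟩⟩
  · exact ⟨ff, le_refl _, fun w => ⟨fun h => h.elim, fun h' => h w h'⟩⟩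

/-- simplification: one operand is constant -/
theorem Eqv.and_const {φ ψ : Fm A} {d : ℕ} (h : Eqv φ d)
    (h' : (∀ w, ψ.eval w) ∨ ∀ w, ¬ ψ.eval w) : Eqv (Fm.and φ ψ) d ∧ Eqv (Fm.and ψ φ) d := by
  rcases h' with h' | h'
  · exact ⟨h.congr fun w => ⟨fun g => ⟨g, h' w⟩, fun g => g.1⟩,
      h.congr fun w => ⟨fun g => ⟨h' w, g⟩, fun g => g.2⟩⟩
  · exact ⟨(Eqv.of_const (φ := Fm.and φ ψ) (Or.inr fun w g => h' w g.2)).mono (Nat.zero_le _),
      (Eqv.of_const (φ := Fm.and ψ φ) (Or.inr fun w g => h' w g.1)).mono (Nat.zero_le _)⟩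

theorem Eqv.or_const {φ ψ : Fm A} {d : ℕ} (h : Eqv φ d)
    (h' : (∀ w, ψ.eval w) ∨ ∀ w, ¬ ψ.eval w) : Eqv (Fm.or φ ψ) d ∧ Eqv (Fm.or ψ φ) d := by
  rcases h' with h' | h'
  · exact ⟨(Eqv.of_const (φ := Fm.or φ ψ) (Or.inl fun w => Or.inr (h' w))).mono (Nat.zero_le _),
      (Eqv.of_const (φ := Fm.or ψ φ) (Or.inl fun w => Or.inl (h' w))).mono (Nat.zero_le _)⟩
  · exact ⟨h.congr fun w => ⟨fun g => Or.inl g, fun g => g.elim id fun g => absurd g (h' w)⟩,
      h.congr fun w => ⟨fun g => Or.inr g, fun g => g.elim (fun g => absurd g (h' w)) id⟩⟩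

theorem size1 (φ : Fm A) (h : φ.size ≤ 1) : Eqv φ 0 := by
  induction φ with
  | tt => exact ⟨tt, le_refl _, fun _ => Iff.rfl⟩
  | ff => exact ⟨ff, le_refl _, fun _ => Iff.rfl⟩
  | var a => exact ⟨var a, le_refl _, fun _ => Iff.rfl⟩
  | and φ ψ h1 h2 =>
    simp only [size] at h
    rcases Nat.eq_zero_or_pos φ.size with g | g
    · exact ((h2 (by omega)).and_const (size0 φ g)).2
    · exact ((h1 (by omega)).and_const (size0 ψ (by omega))).1
  | or φ ψ h1 h2 =>
    simp only [size] at h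
    rcases Nat.eq_zero_or_pos φ.size with g | g
    · exact ((h2 (by omega)).or_const (size0 φ g)).2
    · exact ((h1 (by omega)).or_const (size0 ψ (by omega))).1

theorem size2 (φ : Fm A) (h : φ.size ≤ 2) : Eqv φ 1 := by
  induction φ with
  | tt => exact (size1 tt (Nat.zero_le _)).mono (Nat.zero_le _)
  | ff => exact (size1 ff (Nat.zero_le _)).mono (Nat.zero_le _)
  | var a => exact (size1 (var a) (le_refl _)).mono (Nat.zero_le _)
  | and φ ψ h1 h2 =>
    simp only [size] at h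
    by_cases g : φ.size ≤ 1 ∧ ψ.size ≤ 1
    · exact Eqv.and (size1 φ g.1) (size1 ψ g.2)
    · rcases Nat.eq_zero_or_pos φ.size with g' | g'
      · exact ((h2 (by omega)).and_const (size0 φ g')).2
      · exact ((h1 (by omega)).and_const (size0 ψ (by omega))).1
  | or φ ψ h1 h2 =>
    simp only [size] at h
    by_cases g : φ.size ≤ 1 ∧ ψ.size ≤ 1
    · exact Eqv.or (size1 φ g.1) (size1 ψ g.2)
    · rcases Nat.eq_zero_or_pos φ.size with g' | g'
      · exact ((h2 (by omega)).or_const (size0 φ g')).2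
      · exact ((h1 (by omega)).or_const (size0 ψ (by omega))).1

/-- cutting out a subformula of medium size -/
theorem cut {m : ℕ} (hm : 1 ≤ m) (φ : Fm A) (h : m < φ.size) : ∃ ψ φ0 φ1 : Fm A,
    m < ψ.size ∧ ψ.size ≤ 2 * m ∧ φ0.size + ψ.size ≤ φ.size ∧ φ1.size + ψ.size ≤ φ.size ∧
    ∀ w, φ.eval w ↔ φ0.eval w ∨ (ψ.eval w ∧ φ1.eval w) := by
  induction φ with
  | tt => simp [size] at h
  | ff => simp [size] at h
  | var a =>
    simp only [size] at h
    omega
  | and φ ψ h1 h2 =>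
    by_cases hs : (Fm.and φ ψ).size ≤ 2 * m
    · refine ⟨Fm.and φ ψ, ff, tt, h, hs, ?_, ?_, ?_⟩
      · simp [size]
      · simp [size]
      · intro w
        simp [eval]
    · simp only [size] at hs h ⊢
      rcases Nat.lt_or_ge m φ.size with g | g
      · obtain ⟨χ, a0, a1, e1, e2, e3, e4, e5⟩ := h1 g
        refine ⟨χ, Fm.and a0 ψ, Fm.and a1 ψ, e1, e2, ?_, ?_, ?_⟩
        · simp only [size]
          omega
        · simp only [size]
          omega
        · intro w
          simp only [eval]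
          rw [e5]
          tauto
      · obtain ⟨χ, a0, a1, e1, e2, e3, e4, e5⟩ := h2 (by omega)
        refine ⟨χ, Fm.and φ a0, Fm.and φ a1, e1, e2, ?_, ?_, ?_⟩
        · simp only [size]
          omega
        · simp only [size]
          omega
        · intro w
          simp only [eval]
          rw [e5]
          tauto
  | or φ ψ h1 h2 =>
    by_cases hs : (Fm.or φ ψ).size ≤ 2 * m
    · refine ⟨Fm.or φ ψ, ff, tt, h, hs, ?_, ?_, ?_⟩
      · simp [size]
      · simp [size]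
      · intro w
        simp [eval]
    · simp only [size] at hs h ⊢
      rcases Nat.lt_or_ge m φ.size with g | g
      · obtain ⟨χ, a0, a1, e1, e2, e3, e4, e5⟩ := h1 g
        refine ⟨χ, Fm.or a0 ψ, Fm.or a1 ψ, e1, e2, ?_, ?_, ?_⟩
        · simp only [size]
          omega
        · simp only [size]
          omega
        · intro w
          simp only [eval]
          rw [e5]
          tauto
      · obtain ⟨χ, a0, a1, e1, e2, e3, e4, e5⟩ := h2 (by omega)
        refine ⟨χ, Fm.or φ a0, Fm.or φ a1, e1, e2, ?_, ?_, ?_⟩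
        · simp only [size]
          omega
        · simp only [size]
          omega
        · intro w
          simp only [eval]
          rw [e5]
          tauto

theorem balance : ∀ (j : ℕ) (φ : Fm A), 2 ^ j * φ.size ≤ 3 ^ j → Eqv φ (2 * j + 1) := by
  intro j
  induction j with
  | zero =>
    intro φ h
    exact (size1 φ (by simpa using h)).mono (by omega)
  | succ j ih =>
    intro φ h
    rcases Nat.lt_or_ge φ.size 3 with g | g
    · exact (size2 φ (by omega)).mono (by omega)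
    · obtain ⟨ψ, φ0, φ1, e1, e2, e3, e4, e5⟩ := cut (m := φ.size / 3) (by omega) φ (by omega)
      have key : ∀ χ : Fm A, 3 * χ.size ≤ 2 * φ.size → Eqv χ (2 * j + 1) := by
        intro χ hχ
        apply ih
        have h1 : 2 ^ (j + 1) * φ.size = 2 ^ j * (2 * φ.size) := by ring
        have h2 : 3 ^ (j + 1) = 3 ^ j * 3 := pow_succ 3 j
        have h3 : 2 ^ j * (3 * χ.size) ≤ 2 ^ j * (2 * φ.size) := Nat.mul_le_mul_left _ hχ
        have h4 : 2 ^ j * (3 * χ.size) = 3 * (2 ^ j * χ.size) := by ring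
        omega
      have h1 := key ψ (by omega)
      have h2 := key φ0 (by omega)
      have h3 := key φ1 (by omega)
      have h4 : Eqv (Fm.or φ0 (Fm.and ψ φ1)) (2 * (j + 1) + 1) :=
        (Eqv.or (h2.mono (Nat.le_succ _)) (Eqv.and h1 h3)).mono (by omega)
      exact h4.congr fun w => (e5 w).symm

/-- **balancing** -/
theorem spira (φ : Fm A) {a : ℕ} (h : φ.size ≤ 2 ^ a) : Eqv φ (4 * a + 1) := by
  have h1 : 2 ^ (2 * a) * φ.size ≤ 3 ^ (2 * a) := by
    calc 2 ^ (2 * a) * φ.size ≤ 2 ^ (2 * a) * 2 ^ a := Nat.mul_le_mul_left _ h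
      _ = 8 ^ a := by
        rw [← pow_add, show (8 : ℕ) = 2 ^ 3 from rfl, ← pow_mul]
        congr 1
        ring
      _ ≤ 9 ^ a := Nat.pow_le_pow_left (by norm_num) _
      _ = 3 ^ (2 * a) := by
        rw [show (9 : ℕ) = 3 ^ 2 from rfl, ← pow_mul]
  exact (balance (2 * a) φ h1).mono (by omega)

end Fm

end Pool.Agent.WSatMon
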