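import Pool.Agent.WSatMon.Eval
import Pool.Agent.WSatMon.Fm

/-! Images in `PROP` are formulas of small depth. -/

namespace Pool.Agent.WSatMon

open Finset

section forest

variable {F : Frame}

open Classical in
/-- the gates below `h` -/
noncomputable def desc (F : Frame) [Fintype F.Gate] (h : F.Gate) : Finset F.Gate :=
  univ.filter fun g => Relation.ReflTransGen F.wire g h

theorem no_cycle {g h : F.Gate} (h1 : F.wire g h) (h2 : Relation.ReflTransGen F.wire h g) :
    False := by
  have h3 : Relation.TransGen F.wire g g := Relation.TransGen.head' h1 h2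
  exact (F.wf.transGen.irrefl).irrefl g h3

theorem desc_disj [Fintype F.Gate] (hF : IsForest F) {g1 g2 h : F.Gate} (h1 : F.wire g1 h)
    (h2 : F.wire g2 h) (hne : g1 ≠ g2) : Disjoint (desc F g1) (desc F g2) := by
  classical
  rw [Finset.disjoint_left]
  intro x hx1 hx2
  have e1 := (Finset.mem_filter.1 hx1).2
  have e2 := (Finset.mem_filter.1 hx2).2
  have hU : Relator.RightUnique F.wire := fun a b c hab hac => hF a b c hab hac
  have key : ∀ {a b : F.Gate}, F.wire a h → F.wire b h → a ≠ b →
      Relation.ReflTransGen F.wire a b → False := by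
    intro a b ha hb hab hr
    rcases Relation.ReflTransGen.cases_head hr with h3 | ⟨c, hc1, hc2⟩
    · exact hab h3
    · have : c = h := hF a c h hc1 ha
      subst this
      exact no_cycle hb hc2
  rcases Relation.ReflTransGen.total_of_right_unique hU e1 e2 with h3 | h3
  · exact key h1 h2 hne h3
  · exact key h2 h1 (Ne.symm hne) h3

/-- conjunction of a list -/
def andL {A : Type} : List (Fm A) → Fm A
  | [] => Fm.tt
  | φ :: l => Fm.and φ (andL l)

/-- disjunction of a list -/
def orL {A : Type} : List (Fm A) → Fm A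
  | [] => Fm.ff
  | φ :: l => Fm.or φ (orL l)

theorem eval_andL {A : Type} (l : List (Fm A)) (w : A → Bool) :
    (andL l).eval w ↔ ∀ φ ∈ l, φ.eval w := by
  induction l with
  | nil => simp [andL, Fm.eval]
  | cons φ l ih => simp [andL, Fm.eval, ih]

theorem eval_orL {A : Type} (l : List (Fm A)) (w : A → Bool) :
    (orL l).eval w ↔ ∃ φ ∈ l, φ.eval w := by
  induction l with
  | nil => simp [orL, Fm.eval]
  | cons φ l ih => simp [orL, Fm.eval, ih]

theorem size_andL {A : Type} (l : List (Fm A)) : (andL l).size = (l.map Fm.size).sum := by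
  induction l with
  | nil => rfl
  | cons φ l ih => simp [andL, Fm.size, ih]

theorem size_orL {A : Type} (l : List (Fm A)) : (orL l).size = (l.map Fm.size).sum := by
  induction l with
  | nil => rfl
  | cons φ l ih => simp [orL, Fm.size, ih]

/-- the frame as a formula in the slots -/
theorem frame_fm [Fintype F.Gate] (hF : IsForest F) (h : F.Gate) : ∃ ψ : Fm F.Gate,
    ψ.size ≤ (desc F h).card ∧
    ∀ s : F.Gate → Bool, ψ.eval s ↔ evalF F (fun g => s g = true) h := by
  classical
  induction h using F.wf.induction with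
  | _ h ih =>
    choose ψ h1 h2 using ih
    -- children
    let l : List (Fm F.Gate) :=
      (univ : Finset {g // F.wire g h}).toList.map fun g => ψ g.1 g.2
    let own : Fm F.Gate := if F.slot h then Fm.var h else if F.isAnd h then Fm.tt else Fm.ff
    have hown : own.size ≤ 1 := by
      simp only [own]
      split
      · exact le_refl _
      · split
        · exact Nat.zero_le _
        · exact Nat.zero_le _
    have hlsum : (l.map Fm.size).sum + 1 ≤ (desc F h).card := by
      have e1 : (l.map Fm.size).sum = ∑ g : {g // F.wire g h}, (ψ g.1 g.2).size := by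
        simp only [l, List.map_map]
        exact Finset.sum_map_toList _ _
      have e2 : ∑ g : {g // F.wire g h}, (ψ g.1 g.2).size ≤
          ((univ : Finset {g // F.wire g h}).biUnion fun g => desc F g.1).card := by
        rw [Finset.card_biUnion]
        · exact Finset.sum_le_sum fun g _ => h1 g.1 g.2
        · intro g _ g' _ hne
          exact desc_disj hF g.2 g'.2 fun hh => hne (Subtype.ext hh)
      have e3 : insert h ((univ : Finset {g // F.wire g h}).biUnion fun g => desc F g.1) ⊆
          desc F h := by
        intro x hx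
        rcases Finset.mem_insert.1 hx with rfl | hx
        · exact Finset.mem_filter.2 ⟨Finset.mem_univ _, Relation.ReflTransGen.refl⟩
        · obtain ⟨g, _, hg⟩ := Finset.mem_biUnion.1 hx
          exact Finset.mem_filter.2 ⟨Finset.mem_univ _, (Finset.mem_filter.1 hg).2.tail g.2⟩
      have e4 := Finset.card_le_card e3
      rw [Finset.card_insert_of_notMem] at e4
      · omega
      · intro hx
        obtain ⟨g, _, hg⟩ := Finset.mem_biUnion.1 hx
        exact no_cycle g.2 (Finset.mem_filter.1 hg).2
    by_cases ha : F.isAnd h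
    · refine ⟨Fm.and (andL l) own, ?_, ?_⟩
      · simp only [Fm.size]
        rw [size_andL]
        omega
      · intro s
        simp only [Fm.eval]
        rw [eval_andL, (evalF_spec F _).1 h ha]
        apply and_congr
        · constructor
          · intro g g' hg'
            exact (h2 g' hg' s).1 (g _ (List.mem_map.2 ⟨⟨g', hg'⟩,
              Finset.mem_toList.2 (Finset.mem_univ _), rfl⟩))
          · intro g φ hφ
            obtain ⟨g', _, rfl⟩ := List.mem_map.1 hφ
            exact (h2 g'.1 g'.2 s).2 (g g'.1 g'.2)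
        · simp only [own]
          by_cases hs : F.slot h
          · rw [if_pos hs]
            simp [Fm.eval, hs]
          · rw [if_neg hs, if_pos ha]
            simp [Fm.eval, hs]
    · refine ⟨Fm.or (orL l) own, ?_, ?_⟩
      · simp only [Fm.size]
        rw [size_orL]
        omega
      · intro s
        simp only [Fm.eval]
        rw [eval_orL, (evalF_spec F _).2 h ha]
        apply or_congr
        · constructor
          · rintro ⟨φ, hφ, hv⟩
            obtain ⟨g', _, rfl⟩ := List.mem_map.1 hφ
            exact ⟨g'.1, g'.2, (h2 g'.1 g'.2 s).1 hv⟩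
          · rintro ⟨g', hg', hv⟩
            exact ⟨_, List.mem_map.2 ⟨⟨g', hg'⟩, Finset.mem_toList.2 (Finset.mem_univ _), rfl⟩,
              (h2 g' hg' s).2 hv⟩
        · simp only [own]
          by_cases hs : F.slot h
          · rw [if_pos hs]
            simp [Fm.eval, hs]
          · rw [if_neg hs, if_neg ha]
            simp [Fm.eval, hs]

end forest

section small

variable {Blk : Type}

/-- small monotone functions have shallow formulas -/
theorem small_fm : ∀ (q : ℕ) (h : (Blk → Bool) → Prop), SmallMono q h →
    ∃ φ : Fm Blk, φ.depth ≤ 2 * q ∧ ∀ w, φ.eval w ↔ h w := by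
  classical
  intro q
  induction q with
  | zero =>
    rintro h ⟨⟨J, hJ1, hJ2⟩, _⟩
    have hJ : J = ∅ := Finset.card_eq_zero.1 (Nat.le_zero.1 hJ1)
    subst hJ
    by_cases h0 : h fun _ => true
    · exact ⟨Fm.tt, le_refl _, fun w => ⟨fun _ => (hJ2 w (fun _ => true) (by simp)).2 h0,
        fun _ => trivial⟩⟩
    · exact ⟨Fm.ff, le_refl _, fun w => ⟨fun h => h.elim,
        fun hw => h0 ((hJ2 w (fun _ => true) (by simp)).1 hw)⟩⟩
  | succ q ih =>
    rintro h ⟨⟨J, hJ1, hJ2⟩, hmono⟩
    rcases J.eq_empty_or_nonempty with hJ | ⟨b, hb⟩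
    · obtain ⟨φ, h1, h2⟩ := ih h ⟨⟨∅, by simp, by rw [hJ] at hJ2; exact hJ2⟩, hmono⟩
      exact ⟨φ, by omega, h2⟩
    · have key : ∀ c : Bool, SmallMono q fun w => h (Function.update w b c) := by
        intro c
        refine ⟨⟨J.erase b, ?_, ?_⟩, ?_⟩
        · rw [Finset.card_erase_of_mem hb]
          omega
        · intro w w' hw
          apply hJ2
          intro b' hb'
          by_cases hbb : b' = b
          · subst hbb
            simp
          · rw [Function.update_of_ne hbb, Function.update_of_ne hbb]
            exact hw b' (Finset.mem_erase.2 ⟨hbb, hb'⟩)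
        · intro w w' hw
          apply hmono
          intro b'
          by_cases hbb : b' = b
          · subst hbb
            simp
          · rw [Function.update_of_ne hbb, Function.update_of_ne hbb]
            exact hw b'
      obtain ⟨φ0, a1, a2⟩ := ih _ (key false)
      obtain ⟨φ1, b1, b2⟩ := ih _ (key true)
      refine ⟨Fm.or φ0 (Fm.and (Fm.var b) φ1), ?_, ?_⟩
      · simp only [Fm.depth]
        omega
      · intro w
        simp only [Fm.eval]
        rw [a2, b2]
        constructor
        · rintro (h3 | ⟨h3, h4⟩)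
          · refine hmono _ _ ?_ h3
            intro b' hb'
            by_cases hbb : b' = b
            · subst hbb
              simp at hb'
            · rw [Function.update_of_ne hbb] at hb'
              exact hb'
          · rw [← h3, Function.update_eq_self] at h4
            exact h4
        · intro h3
          cases hwb : w b with
          | false =>
            left
            rw [← hwb, Function.update_eq_self]
            exact h3
          | true =>
            right
            refine ⟨rfl, ?_⟩
            rw [← hwb, Function.update_eq_self]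
            exact h3

/-- balanced disjunctions -/
theorem big_or {D : ℕ} : ∀ (b : ℕ) (l : List (Fm Blk)), l.length ≤ 2 ^ b →
    (∀ φ ∈ l, φ.depth ≤ D) → ∃ φ : Fm Blk, φ.depth ≤ b + D ∧
      ∀ w, φ.eval w ↔ ∃ ψ ∈ l, ψ.eval w := by
  intro b
  induction b with
  | zero =>
    intro l hl hD
    cases l with
    | nil => exact ⟨Fm.ff, Nat.zero_le _, fun w => by simp [Fm.eval]⟩
    | cons φ l =>
      have : l = [] := by
        rw [← List.length_eq_zero_iff]
        simp only [List.length_cons, pow_zero] at hl
        omega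
      subst this
      exact ⟨φ, by simpa using hD φ (by simp), fun w => by simp⟩
  | succ b ih =>
    intro l hl hD
    obtain ⟨φ1, h1, h2⟩ := ih (l.take (2 ^ b)) (by
      rw [List.length_take]
      exact min_le_left _ _) fun φ hφ => hD φ (List.mem_of_mem_take hφ)
    obtain ⟨φ2, h3, h4⟩ := ih (l.drop (2 ^ b)) (by
      rw [List.length_drop]
      have : 2 ^ (b + 1) = 2 ^ b + 2 ^ b := by ring
      omega) fun φ hφ => hD φ (List.mem_of_mem_drop hφ)
    refine ⟨Fm.or φ1 φ2, ?_, ?_⟩
    · simp only [Fm.depth]
      omega
    · intro w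
      simp only [Fm.eval]
      rw [h2, h4]
      constructor
      · rintro (⟨ψ, g1, g2⟩ | ⟨ψ, g1, g2⟩)
        · exact ⟨ψ, List.mem_of_mem_take g1, g2⟩
        · exact ⟨ψ, List.mem_of_mem_drop g1, g2⟩
      · rintro ⟨ψ, g1, g2⟩
        rw [← List.take_append_drop (2 ^ b) l] at g1
        rcases List.mem_append.1 g1 with g1 | g1
        · exact Or.inl ⟨ψ, g1, g2⟩
        · exact Or.inr ⟨ψ, g1, g2⟩

end small

/-- **the image as a formula** -/
theorem prop_fm {F : Frame} {Blk : Type} (hF : IsForest F)
    (sl : Set F.Var → (Blk → Bool) → F.Gate → Prop) {k q a b : ℕ}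
    (hsl : ∀ T : Set F.Var, Nat.card T = k → ∀ g, SmallMono q fun w => sl T w g)
    (ha : Nat.card F.Gate ≤ 2 ^ a) (hb : Nat.card F.Var ^ k ≤ 2 ^ b) :
    ∃ φ : Fm Blk, φ.depth ≤ b + (4 * a + 1 + 2 * q) ∧
      ∀ w, φ.eval w ↔ SlSat F k fun T => sl T w := by
  classical
  have : Fintype F.Gate := Fintype.ofFinite _
  have : Fintype F.Var := Fintype.ofFinite _
  obtain ⟨ψ, h1, h2⟩ := frame_fm hF F.out
  have h3 : ψ.size ≤ 2 ^ a := by
    refine h1.trans (le_trans ?_ ha)
    rw [Nat.card_eq_fintype_card]
    exact Finset.card_le_univ _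
  obtain ⟨χ, h4, h5⟩ := Fm.spira ψ h3
  have hτ : ∀ τ : Fin k → F.Var, ∃ φ : Fm Blk, φ.depth ≤ 4 * a + 1 + 2 * q ∧
      ∀ w, φ.eval w ↔ Function.Injective τ ∧ evalF F (sl (Set.range τ) w) F.out := by
    intro τ
    by_cases hi : Function.Injective τ
    · have hc : Nat.card (Set.range τ) = k := by
        rw [Nat.card_congr (Equiv.ofInjective τ hi).symm, Nat.card_fin]
      choose σ hσ1 hσ2 using fun g => small_fm q _ (hsl _ hc g)
      refine ⟨χ.subst σ, ?_, ?_⟩
      · have := Fm.depth_subst σ hσ1 χ
        omega
      · intro w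
        rw [Fm.eval_subst, h5, h2]
        have : (fun g => decide ((σ g).eval w) = true) = sl (Set.range τ) w := by
          funext g
          rw [decide_eq_true_eq]
          exact propext (hσ2 g w)
        rw [this]
        exact ⟨fun h => ⟨hi, h⟩, fun h => h.2⟩
    · exact ⟨Fm.ff, Nat.zero_le _, fun w => ⟨fun h => h.elim, fun h => hi h.1⟩⟩
  choose Φ hΦ1 hΦ2 using hτ
  obtain ⟨φ, g1, g2⟩ := big_or (D := 4 * a + 1 + 2 * q) b
    ((univ : Finset (Fin k → F.Var)).toList.map Φ) (by
      rw [List.length_map, Finset.length_toList, Finset.card_univ, Fintype.card_fun,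
        Fintype.card_fin, ← Nat.card_eq_fintype_card]
      exact hb) (by
      intro φ hφ
      obtain ⟨τ, _, rfl⟩ := List.mem_map.1 hφ
      exact hΦ1 τ)
  refine ⟨φ, g1, ?_⟩
  intro w
  rw [g2, slSat_iff]
  constructor
  · rintro ⟨ψ', hψ', hv⟩
    obtain ⟨τ, _, rfl⟩ := List.mem_map.1 hψ'
    obtain ⟨hi, hv'⟩ := (hΦ2 τ w).1 hv
    refine ⟨Set.range τ, ?_, hv'⟩
    rw [Nat.card_congr (Equiv.ofInjective τ hi).symm, Nat.card_fin]
  · rintro ⟨T, hT1, hT2⟩
    obtain ⟨e⟩ : Nonempty (Fin k ≃ T) := ⟨(Finite.equivFinOfCardEq hT1).symm⟩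
    have hr : Set.range (fun i => (e i).1) = T := by
      ext x
      constructor
      · rintro ⟨i, rfl⟩
        exact (e i).2
      · intro hx
        exact ⟨e.symm ⟨x, hx⟩, by simp⟩
    refine ⟨Φ fun i => (e i).1, List.mem_map.2 ⟨_, Finset.mem_toList.2 (Finset.mem_univ _), rfl⟩,
      (hΦ2 _ w).2 ⟨fun i j h => e.injective (Subtype.ext h), ?_⟩⟩
    rw [hr]
    exact hT2

end Pool.Agent.WSatMon
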