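import Pool.Agent.WSatMon.SrcC
import Pool.Agent.WSatMon.Fork
import Pool.Agent.WSatMon.TargProp
import Pool.Agent.WSatMon.Num

/-! Circuits do not reduce to formulas. -/

namespace Pool.Agent.WSatMon

open Finset Filter

/-- **the formula**, given the numbers -/
theorem coreC {c k e p m n μ s0 l' R N M A a : ℕ} (hk : 1 ≤ k) (hn : 1 ≤ n) (hμ : 1 ≤ μ)
    (hs0 : 1 ≤ s0) (hl' : 1 ≤ l') (hm : 1 ≤ m)
    (hA : e * (2 ^ p * 2 ^ (4 * m) + 2 ^ p * (2 ^ (4 * m)) ^ 2 * (n + 1) + (k + 2) + k * n + 1) ^ c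
      ≤ A)
    (hM : sun ((k * s0 + 1) * l') s0 ≤ M)
    (hN : A + A * ((A + 1) ^ 2 * 2) ^ 1 * ((A * 2) ^ 1 + 1) ≤ N)
    (h1 : (N : ℝ) * M ^ 2 * (((k * s0 + 1 : ℕ) * l') * (s0 * ((s0 : ℝ) / n) ^ k)) < 1)
    (h2 : (N : ℝ) * M ^ 2 * (1 - (1 / (k : ℝ)) ^ s0) ^ l' < 1)
    (h3 : (N : ℝ) * M ^ 2 * (1 / (μ : ℝ)) ^ (s0 + 1) + N * ((M : ℝ) / μ) ^ R +
      ((2 ^ p * (2 ^ (4 * m)) ^ 2 : ℕ) : ℝ) * (n : ℝ) ^ k *
        (1 - (1 / (μ : ℝ)) ^ k) ^ n < 1)
    (ha : A ≤ 2 ^ a)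
    (hred : ∀ F : Frame, CIRC.mem F → ∃ F' : Frame, PROP.mem F' ∧
      F'.size ≤ e * (F.size + 1) ^ c ∧
      ∃ k' ≤ e, ∃ M : (F.Bit 1 → Bool) → (F'.Bit 1 → Bool),
        MonComp (e * (F.size + 1) ^ c) M ∧ ∀ y, WSat F y k ↔ WSat F' (M y) k') :
    Sep p (univ : Finset (PT (Fin (2 ^ (4 * m))) p))
      (a * e + (4 * a + 1 + 2 * (((2 * e + 2) ^ 2 * 2) ^ 1 * (s0 * R)))) := by
  classical
  have hW : 2 ≤ Fintype.card (Fin (2 ^ (4 * m))) := by
    rw [Fintype.card_fin]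
    calc 2 = 2 ^ 1 := rfl
      _ ≤ 2 ^ (4 * m) := Nat.pow_le_pow_right (by omega) (by omega)
  obtain ⟨F', hF', hsize, k', hk', Mm, ⟨L, hL1, hL2, hL3⟩, hM2⟩ :=
    hred (srcC (Fin (2 ^ (4 * m))) p k n) trivial
  have hsz := srcC_size (W := Fin (2 ^ (4 * m))) p k n hW
  rw [Fintype.card_fin] at hsz
  have hZ : e * ((srcC (Fin (2 ^ (4 * m))) p k n).size + 1) ^ c ≤ A :=
    le_trans (Nat.mul_le_mul_left _ (Nat.pow_le_pow_left (by omega) c)) hA
  have hsA : F'.size ≤ A := hsize.trans hZ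
  have hLs := Straight.subst (V := Ed (Fin (2 ^ (4 * m))) p × Fin n × Fin k × Fin n) tabG
    tabG_proj hL1
  obtain ⟨L', hL'1, hL'2, hL'3⟩ := targ F' (d := 1) k' (s0 * R) hLs (fun x => Mm (tabG x)) (by
    intro b
    exact List.mem_map.2 ⟨_, hL3 b, rfl⟩)
  have hlen : L'.length ≤ N := by
    rw [List.length_map] at hL'2
    have h4 := extra_le hsA 1
    have h5 := hL2.trans hZ
    omega
  obtain ⟨S0, γ, r, hr, hsand⟩ := gadO (Blk := Ed (Fin (2 ^ (4 * m))) p) (F := Fin n) hk hn hs0 hμ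
    hl' hM L' hL'1 hlen h1 h2 (by
      have h6 := card_Ed (W := Fin (2 ^ (4 * m))) p hW
      rw [Fintype.card_fin (2 ^ (4 * m))] at h6
      rw [Fintype.card_fin]
      refine lt_of_le_of_lt ?_ h3
      have h7 : (0 : ℝ) ≤ 1 - (1 / (μ : ℝ)) ^ k := by
        have h8 : (1 / (μ : ℝ)) ^ k ≤ 1 := by
          apply pow_le_one₀ (by positivity)
          rw [div_le_one (by exact_mod_cast hμ)]
          exact_mod_cast hμ
        linarith
      have h9 : (Fintype.card (Ed (Fin (2 ^ (4 * m))) p) : ℝ) ≤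
          ((2 ^ p * (2 ^ (4 * m)) ^ 2 : ℕ) : ℝ) := by exact_mod_cast h6
      gcongr)
  obtain ⟨sl, hsl1, hsl2⟩ := hL'3 (XO S0 γ) (YO r) hsand
  have hgate : Nat.card F'.Gate ≤ A := le_trans (Nat.le_add_right _ _) hsA
  have hvar : Nat.card F'.Var ≤ A := le_trans (Nat.le_add_left _ _) hsA
  obtain ⟨φ, hφ1, hφ2⟩ := prop_fm (F := F') (Blk := Ed (Fin (2 ^ (4 * m))) p) (a := a)
    (b := a * e) hF' sl hsl1 (hgate.trans ha) (by
      calc Nat.card F'.Var ^ k' ≤ (2 ^ a) ^ k' := Nat.pow_le_pow_left (hvar.trans ha) _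
        _ = 2 ^ (a * k') := by rw [← pow_mul]
        _ ≤ 2 ^ (a * e) := Nat.pow_le_pow_right (by omega) (Nat.mul_le_mul_left _ hk'))
  refine ⟨φ, ?_, ?_, ?_⟩
  · have hq : ((2 * k' + 2) ^ 2 * 2) ^ 1 * (s0 * R) ≤ ((2 * e + 2) ^ 2 * 2) ^ 1 * (s0 * R) := by
      gcongr
    omega
  · intro x _
    rw [hφ2]
    exact (hsl2 _).1 ((hM2 _).1 (srcC_X S0 γ x))
  · intro y _ hy
    rw [hφ2] at hy
    exact srcC_Y hr y ((hM2 _).2 ((hsl2 _).2 hy))

/-- **circuits do not reduce to formulas** -/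
theorem linkC (c k : ℕ) (hk : c1 c 1 1 + 5 ≤ k) : ¬ SliceMon c k CIRC PROP := by
  rintro ⟨e, hred⟩
  obtain ⟨C, hC⟩ : ∃ C, C = c1 c 1 1 := ⟨_, rfl⟩
  rw [← hC] at hk
  obtain ⟨s0, hs0⟩ : ∃ s0, s0 = 2 * k * C + 1 := ⟨_, rfl⟩
  obtain ⟨R, hR⟩ : ∃ R, R = 4 * k * C + 1 := ⟨_, rfl⟩
  obtain ⟨p, hp⟩ : ∃ p, p = (s0 + 2) * (4 * k) := ⟨_, rfl⟩
  have hp4 : 12 ≤ p := by
    rw [hp]
    nlinarith
  -- number of layers
  obtain ⟨P, hP⟩ : ∃ P, P = p * (3 * c + 1) * (e + 4) + 1 := ⟨_, rfl⟩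
  obtain ⟨CP, hCP⟩ := fork P
  have hev := ((((eventually_pow ((k * s0 + 1) ^ (s0 + 1) * (2 * s0) ^ s0)).and
    (eventually_pow (s0 * s0 ^ k))).and (eventually_exp (p * (C + 1)) (k ^ s0)
      (Nat.one_le_pow _ _ (by omega)) one_pos)).and
    (eventually_exp (p * (2 + k)) 1 (le_refl _)
      (show (0 : ℝ) < 1 / 4 by norm_num))).and
    (((eventually_pow (k + 2)).and (eventually_pow (2 ^ P))).and
      (((eventually_pow (k * s0 + 1)).and (eventually_pow (e + 1))).and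
        ((eventually_ge_atTop (CP + 2 + 2 * (((2 * e + 2) ^ 2 * 2) ^ 1 * (s0 * R)))).and
          (eventually_ge_atTop 4))))
  obtain ⟨m, ⟨⟨⟨hM0, hs0k⟩, hexp1⟩, hexp2⟩, ⟨hk2, hPx⟩, ⟨hks, hex⟩, hbig, hm4⟩ := hev.exists
  obtain ⟨x, hx⟩ : ∃ x, x = 2 ^ m := ⟨_, rfl⟩
  have hx16 : 16 ≤ x := by
    rw [hx]
    calc 16 = 2 ^ 4 := rfl
      _ ≤ 2 ^ m := Nat.pow_le_pow_right (by omega) hm4
  have hx4 : 4 ≤ x := by omega
  obtain ⟨M, hM⟩ : ∃ M, M = x ^ (s0 + 2) := ⟨_, rfl⟩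
  obtain ⟨n, hn⟩ : ∃ n, n = x ^ p := ⟨_, rfl⟩
  have hxM : x ^ 2 ≤ M := by
    rw [hM]
    exact Nat.pow_le_pow_right (by omega) (by omega)
  have hxM1 : x ≤ M := by
    refine le_trans ?_ hxM
    rw [pow_two]
    nlinarith
  have hMn : M ^ (4 * k) = n := by
    rw [hM, hn, hp, ← pow_mul]
  have hμn : (M ^ 2) ^ (2 * k) = n := by
    rw [← hMn, ← pow_mul]
    congr 1
    ring
  have hM4 : M ^ 4 ≤ n := by
    rw [← hMn]
    exact Nat.pow_le_pow_right (by omega) (by omega)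
  have hM2n : M ^ 2 ≤ n := le_trans (Nat.pow_le_pow_right (by omega) (by omega)) hM4
  have hMn1 : M ≤ n := by
    calc M = M ^ 1 := (pow_one M).symm
      _ ≤ M ^ 4 := Nat.pow_le_pow_right (by omega) (by omega)
      _ ≤ n := hM4
  have hn1 : 1 ≤ n := by omega
  have hx11 : x ^ 11 * x ≤ n := by
    rw [hn, ← pow_succ]
    exact Nat.pow_le_pow_right (by omega) (by omega)
  rw [← hx] at hM0 hs0k hk2 hPx hks hex
  have hnr : ((2 : ℝ) ^ m) ^ p = (n : ℝ) := by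
    rw [hn, hx]
    push_cast
    rfl
  have hxr : ((2 : ℝ) ^ m) = (x : ℝ) := by
    rw [hx]
    push_cast
    rfl
  have hx0 : (0 : ℝ) < x := by exact_mod_cast (show 0 < x by omega)
  have hM0' : (0 : ℝ) < M := by exact_mod_cast (show 0 < M by omega)
  have hn0 : (0 : ℝ) < n := by exact_mod_cast (show 0 < n by omega)
  rw [pow_mul, hnr, hxr] at hexp1 hexp2
  have hk0 : (0 : ℝ) < k := by exact_mod_cast (show 0 < k by omega)
  have hx44 : 2 ^ (4 * m) = x ^ 4 := by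
    rw [hx, ← pow_mul, mul_comm]
  -- the number of blocks
  have hblk : 2 ^ P * (2 ^ (4 * m)) ^ 2 ≤ x ^ 9 := by
    rw [hx44, ← pow_mul]
    calc 2 ^ P * x ^ (4 * 2) ≤ x * x ^ (4 * 2) := Nat.mul_le_mul_right _ hPx
      _ = x ^ 9 := by ring
  have hblkn : 2 ^ P * (2 ^ (4 * m)) ^ 2 ≤ n := by
    refine hblk.trans ?_
    rw [hn]
    exact Nat.pow_le_pow_right (by omega) (by omega)
  -- the size
  have hsize : 2 ^ P * 2 ^ (4 * m) + 2 ^ P * (2 ^ (4 * m)) ^ 2 * (n + 1) + (k + 2) + k * n + 1 ≤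
      n ^ 3 := by
    have g1 : 2 ^ P * 2 ^ (4 * m) ≤ n := by
      rw [hx44]
      calc 2 ^ P * x ^ 4 ≤ x * x ^ 4 := Nat.mul_le_mul_right _ hPx
        _ = x ^ 5 := by ring
        _ ≤ n := by
          rw [hn]
          exact Nat.pow_le_pow_right (by omega) (by omega)
    have g2 : 2 ^ P * (2 ^ (4 * m)) ^ 2 * (n + 1) ≤ x ^ 9 * (2 * n) :=
      Nat.mul_le_mul hblk (by omega)
    have g3 : k * n ≤ x * n := Nat.mul_le_mul_right _ (by omega)
    have g4 : x ^ 9 * (2 * n) ≤ x ^ 10 * n := by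
      calc x ^ 9 * (2 * n) ≤ x ^ 9 * (x * n) :=
            Nat.mul_le_mul_left _ (Nat.mul_le_mul_right _ (by omega))
        _ = x ^ 10 * n := by ring
    have g5 : x ≤ x ^ 10 := by
      calc x = x ^ 1 := (pow_one x).symm
        _ ≤ x ^ 10 := Nat.pow_le_pow_right (by omega) (by omega)
    have g6 : x * n ≤ x ^ 10 * n := Nat.mul_le_mul_right _ g5
    have g7 : n ≤ x ^ 10 * n := by nlinarith
    have g8 : x ≤ n := hxM1.trans hMn1
    calc 2 ^ P * 2 ^ (4 * m) + 2 ^ P * (2 ^ (4 * m)) ^ 2 * (n + 1) + (k + 2) + k * n + 1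
        ≤ 5 * (x ^ 10 * n) := by omega
      _ ≤ x * (x ^ 10 * n) := Nat.mul_le_mul_right _ (by omega)
      _ = x ^ 11 * n := by ring
      _ ≤ n * n := Nat.mul_le_mul_right _ (by nlinarith)
      _ ≤ n * n * n := by nlinarith
      _ = n ^ 3 := by ring
  have hn16 : 16 ≤ n := by
    have : x ≤ n := hxM1.trans hMn1
    omega
  have hen : e + 1 ≤ n := hex.trans (hxM1.trans hMn1)
  have hsep := coreC (c := c) (k := k) (e := e) (p := P) (m := m) (n := n) (μ := M ^ 2)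
    (s0 := s0) (l' := x) (R := R) (N := n ^ C) (M := M) (A := e * n ^ (3 * c))
    (a := m * p * (3 * c + 1)) (by omega) hn1
    (Nat.one_le_pow _ _ (by omega)) (by omega) (by omega) (by omega) ?_ ?_ ?_ ?_ ?_ ?_ ?_ hred
  · -- the contradiction
    have hf := hCP m (Fin (2 ^ (4 * m))) (by rw [Fintype.card_fin]) univ _ (by
      rw [Finset.card_univ]
      exact Nat.le_mul_of_pos_left _ (by positivity)) hsep
    have g1 : P * m = m * p * (3 * c + 1) * e + 4 * (m * p * (3 * c + 1)) + m := by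
      rw [hP]
      ring
    omega
  · rw [pow_mul n 3 c]
    exact Nat.mul_le_mul_left _ (Nat.pow_le_pow_left hsize c)
  · refine (sun_le (Nat.mul_pos (by omega) (by omega)) s0).trans ?_
    rw [mul_pow, hM]
    calc (k * s0 + 1) ^ (s0 + 1) * x ^ (s0 + 1) * (2 * s0) ^ s0
        = ((k * s0 + 1) ^ (s0 + 1) * (2 * s0) ^ s0) * x ^ (s0 + 1) := by ring
      _ ≤ x * x ^ (s0 + 1) := Nat.mul_le_mul_right _ hM0
      _ = x ^ (s0 + 2) := by ring
  · rw [hC]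
    exact N_le rfl hen (by omega)
  · -- the planted assignment
    have key : n ^ C * M ^ 2 * ((k * s0 + 1) * x) * (s0 * s0 ^ k) < n ^ k := by
      calc n ^ C * M ^ 2 * ((k * s0 + 1) * x) * (s0 * s0 ^ k) ≤ n ^ C * n * n * n := by
            apply Nat.mul_le_mul (Nat.mul_le_mul (Nat.mul_le_mul_left _ hM2n) ?_)
            · exact hs0k.trans (hxM1.trans hMn1)
            · calc (k * s0 + 1) * x ≤ x * x := Nat.mul_le_mul_right _ hks
                _ = x ^ 2 := by ring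
                _ ≤ n := hxM.trans hMn1
        _ = n ^ (C + 3) := by ring
        _ < n ^ k := Nat.pow_lt_pow_right (by omega) (by omega)
    have key' : (n : ℝ) ^ C * M ^ 2 * ((k * s0 + 1) * x) * (s0 * s0 ^ k) < (n : ℝ) ^ k := by
      exact_mod_cast key
    push_cast
    rw [div_pow]
    have hnk : (0 : ℝ) < (n : ℝ) ^ k := by positivity
    calc (n : ℝ) ^ C * M ^ 2 * ((k * s0 + 1) * x * (s0 * (s0 ^ k / n ^ k)))
        = ((n : ℝ) ^ C * M ^ 2 * ((k * s0 + 1) * x) * (s0 * s0 ^ k)) / n ^ k := by ring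
      _ < 1 := by rwa [div_lt_one hnk]
  · -- the planted positions
    push_cast
    have h1 : (1 / (k : ℝ)) ^ s0 ≤ 1 := by
      apply pow_le_one₀ (by positivity)
      rw [div_le_one hk0]
      exact_mod_cast (show 1 ≤ k by omega)
    have h2 := one_sub_pow_le h1 x
    have h3 : -((x : ℝ) * (1 / (k : ℝ)) ^ s0) = -((x : ℝ) / ((k ^ s0 : ℕ) : ℝ)) := by
      push_cast
      rw [one_div, inv_pow]
      ring
    rw [h3] at h2
    calc (n : ℝ) ^ C * M ^ 2 * (1 - (1 / (k : ℝ)) ^ s0) ^ x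
        ≤ (n : ℝ) ^ C * n * Real.exp (-((x : ℝ) / ((k ^ s0 : ℕ) : ℝ))) := by
          have hM2' : (M : ℝ) ^ 2 ≤ n := by exact_mod_cast hM2n
          apply mul_le_mul (mul_le_mul_of_nonneg_left hM2' (by positivity)) h2
          · exact pow_nonneg (by linarith) _
          · positivity
      _ = (n : ℝ) ^ (C + 1) * Real.exp (-((x : ℝ) / ((k ^ s0 : ℕ) : ℝ))) := by ring
      _ < 1 := hexp1
  · -- the zeros
    have hM4r : (4 : ℝ) ≤ M := by exact_mod_cast (show 4 ≤ M by omega)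
    have e1 : (n : ℝ) ^ C * M ^ 2 * (1 / (M : ℝ) ^ 2) ^ (s0 + 1) ≤ 1 / 4 := by
      have h1 : (n : ℝ) ^ C * M ^ 2 = ((M : ℝ) ^ 2) ^ (2 * k * C + 1) := by
        rw [← hμn]
        push_cast
        rw [← pow_mul ((M : ℝ) ^ 2), ← pow_succ]
      rw [h1, hs0, one_div, inv_pow]
      have h2 : ((M : ℝ) ^ 2) ^ (2 * k * C + 1) * (((M : ℝ) ^ 2) ^ (2 * k * C + 1 + 1))⁻¹ =
          ((M : ℝ) ^ 2)⁻¹ := by
        rw [pow_succ ((M : ℝ) ^ 2) (2 * k * C + 1), mul_inv, ← mul_assoc,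
          mul_inv_cancel₀ (by positivity), one_mul]
      rw [h2, ← one_div]
      apply one_div_le_one_div_of_le (by norm_num)
      nlinarith
    have e2 : (n : ℝ) ^ C * ((M : ℝ) / M ^ 2) ^ R ≤ 1 / 4 := by
      have h1 : (M : ℝ) / M ^ 2 = (M : ℝ)⁻¹ := by
        field_simp
      have h2 : (n : ℝ) ^ C = (M : ℝ) ^ (4 * k * C) := by
        rw [← hMn]
        push_cast
        rw [← pow_mul]
      rw [h1, h2, hR, inv_pow, pow_succ, mul_inv, ← mul_assoc, mul_inv_cancel₀ (by positivity),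
        one_mul, ← one_div]
      exact one_div_le_one_div_of_le (by norm_num) hM4r
    have e3 : ((2 ^ P * (2 ^ (4 * m)) ^ 2 : ℕ) : ℝ) * (n : ℝ) ^ k *
        (1 - (1 / (M : ℝ) ^ 2) ^ k) ^ n < 1 / 4 := by
      have h1 : ((2 ^ P * (2 ^ (4 * m)) ^ 2 : ℕ) : ℝ) ≤ (n : ℝ) ^ 2 := by
        have g : 2 ^ P * (2 ^ (4 * m)) ^ 2 ≤ n ^ 2 := by
          refine hblkn.trans ?_
          nlinarith
        exact_mod_cast g
      have h2 : (1 / (M : ℝ) ^ 2) ^ k ≤ 1 := by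
        apply pow_le_one₀ (by positivity)
        rw [div_le_one (by positivity)]
        nlinarith
      have h3 := one_sub_pow_le h2 n
      have h4 : (n : ℝ) * (1 / (M : ℝ) ^ 2) ^ k = ((M : ℝ) ^ 2) ^ k := by
        rw [← hμn]
        push_cast
        rw [one_div, inv_pow, two_mul, pow_add, mul_assoc, mul_inv_cancel₀ (by positivity),
          mul_one]
      have h5 : (x : ℝ) ≤ ((M : ℝ) ^ 2) ^ k := by
        have : x ≤ (M ^ 2) ^ k := by
          calc x ≤ M := hxM1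
            _ = M ^ 1 := (pow_one M).symm
            _ ≤ M ^ (2 * k) := Nat.pow_le_pow_right (by omega) (by omega)
            _ = (M ^ 2) ^ k := by rw [pow_mul]
        exact_mod_cast this
      rw [h4] at h3
      have h6 : (1 - (1 / (M : ℝ) ^ 2) ^ k) ^ n ≤ Real.exp (-((x : ℝ) / ((1 : ℕ) : ℝ))) := by
        refine h3.trans ?_
        rw [Real.exp_le_exp]
        simp only [Nat.cast_one, div_one]
        linarith
      calc _ ≤ (n : ℝ) ^ 2 * (n : ℝ) ^ k * Real.exp (-((x : ℝ) / ((1 : ℕ) : ℝ))) := by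
            apply mul_le_mul (mul_le_mul_of_nonneg_right h1 (by positivity)) h6
            · exact pow_nonneg (by linarith) _
            · positivity
        _ = (n : ℝ) ^ (2 + k) * Real.exp (-((x : ℝ) / ((1 : ℕ) : ℝ))) := by
          rw [pow_add]
        _ < 1 / 4 := hexp2
    have e0 : (((M ^ 2 : ℕ) : ℝ)) = (M : ℝ) ^ 2 := by push_cast; rfl
    have e00 : ((n ^ C : ℕ) : ℝ) = (n : ℝ) ^ C := by push_cast; rfl
    rw [e0, e00]
    linarith
  · -- the size in bits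
    calc e * n ^ (3 * c) ≤ n * n ^ (3 * c) := Nat.mul_le_mul_right _ (by omega)
      _ = n ^ (3 * c + 1) := by ring
      _ = 2 ^ (m * p * (3 * c + 1)) := by
        rw [hn, hx]
        simp only [← pow_mul]

end Pool.Agent.WSatMon
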