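import Pool.Agent.WSatMon.Build
import Pool.Agent.WSatMon.Eval

/-! The image of the reduction: the values of the slots as small functions. -/

namespace Pool.Agent.WSatMon

open Finset

section dsc

variable {X : Type} [Fintype X] {N : ℕ}

/-- Descriptors: the literals with sign `δ.2.2` and number in `[δ.1, δ.2.1)`. -/
abbrev Dsc (N : ℕ) : Type := Fin (N + 1) × Fin (N + 1) × Bool

/-- the literal has the description `δ` -/
def inD (ι : X → Fin N) (l : X × Bool) (δ : Dsc N) : Prop :=
  δ.1.1 ≤ (ι l.1).1 ∧ (ι l.1).1 < δ.2.1.1 ∧ l.2 = δ.2.2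

open Classical in
/-- the cuts of a set of variables -/
noncomputable def cuts (ι : X → Fin N) (S : Set X) : Finset (Fin (N + 1)) :=
  insert 0 (insert (Fin.last N) (((univ.filter fun x => x ∈ S).image fun x => (ι x).castSucc) ∪
    ((univ.filter fun x => x ∈ S).image fun x => (ι x).succ)))

theorem cuts_card (ι : X → Fin N) {S : Set X} {k : ℕ} (hS : Nat.card S = k) :
    (cuts ι S).card ≤ 2 * k + 2 := by
  classical
  have h1 : (univ.filter fun x => x ∈ S).card = k := by
    rw [← hS, Nat.card_eq_fintype_card, Fintype.card_subtype]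
  unfold cuts
  refine (Finset.card_insert_le _ _).trans ?_
  have h2 := Finset.card_insert_le (Fin.last N) (((univ.filter fun x => x ∈ S).image
    fun x => (ι x).castSucc) ∪ ((univ.filter fun x => x ∈ S).image fun x => (ι x).succ))
  have h3 := Finset.card_union_le ((univ.filter fun x => x ∈ S).image
    fun x => (ι x).castSucc) ((univ.filter fun x => x ∈ S).image fun x => (ι x).succ)
  have h4 : ((univ.filter fun x => x ∈ S).image fun x => (ι x).castSucc).card ≤ k := by
    rw [← h1]
    exact Finset.card_image_le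
  have h5 : ((univ.filter fun x => x ∈ S).image fun x => (ι x).succ).card ≤ k := by
    rw [← h1]
    exact Finset.card_image_le
  omega

open Classical in
/-- the descriptors of literals with value `b` -/
noncomputable def dsc (ι : X → Fin N) (S : Set X) (b : Bool) : Finset (Dsc N) :=
  (cuts ι S ×ˢ (cuts ι S ×ˢ univ)).filter
    fun δ => ∀ l, inD ι l δ → (litTrue S l ↔ b = true)

theorem dsc_card (ι : X → Fin N) {S : Set X} {k : ℕ} (hS : Nat.card S = k) (b : Bool) :
    (dsc ι S b).card ≤ (2 * k + 2) ^ 2 * 2 := by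
  classical
  refine (Finset.card_filter_le _ _).trans ?_
  rw [Finset.card_product, Finset.card_product, Finset.card_univ, Fintype.card_bool]
  have h := cuts_card ι hS
  calc (cuts ι S).card * ((cuts ι S).card * 2) ≤ (2 * k + 2) * ((2 * k + 2) * 2) :=
        Nat.mul_le_mul h (Nat.mul_le_mul_right _ h)
    _ = (2 * k + 2) ^ 2 * 2 := by ring

theorem dsc_hom {ι : X → Fin N} {S : Set X} {b : Bool} {δ : Dsc N} (hδ : δ ∈ dsc ι S b)
    {l : X × Bool} (hl : inD ι l δ) : litTrue S l ↔ b = true := by
  classical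
  exact (Finset.mem_filter.1 hδ).2 l hl

theorem dsc_cover {ι : X → Fin N} (hι : Function.Injective ι) {S : Set X} {b : Bool}
    {l : X × Bool} (hl : litTrue S l ↔ b = true) : ∃ δ ∈ dsc ι S b, inD ι l δ := by
  classical
  have h0 : (0 : Fin (N + 1)) ∈ cuts ι S := by
    unfold cuts
    exact Finset.mem_insert_self _ _
  have h1 : Fin.last N ∈ cuts ι S := by
    unfold cuts
    exact Finset.mem_insert_of_mem (Finset.mem_insert_self _ _)
  have hc : ∀ x ∈ S, (ι x).castSucc ∈ cuts ι S := by
    intro x hx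
    unfold cuts
    refine Finset.mem_insert_of_mem (Finset.mem_insert_of_mem (Finset.mem_union_left _ ?_))
    exact Finset.mem_image.2 ⟨x, Finset.mem_filter.2 ⟨Finset.mem_univ _, hx⟩, rfl⟩
  have hs : ∀ x ∈ S, (ι x).succ ∈ cuts ι S := by
    intro x hx
    unfold cuts
    refine Finset.mem_insert_of_mem (Finset.mem_insert_of_mem (Finset.mem_union_right _ ?_))
    exact Finset.mem_image.2 ⟨x, Finset.mem_filter.2 ⟨Finset.mem_univ _, hx⟩, rfl⟩
  obtain ⟨a, ha, hamax⟩ := Finset.exists_max_image
    ((cuts ι S).filter fun c => c.1 ≤ (ι l.1).1) (fun c => c.1)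
    ⟨0, Finset.mem_filter.2 ⟨h0, Nat.zero_le _⟩⟩
  obtain ⟨c, hcc, hcmin⟩ := Finset.exists_min_image
    ((cuts ι S).filter fun c => (ι l.1).1 < c.1) (fun c => c.1)
    ⟨Fin.last N, Finset.mem_filter.2 ⟨h1, (ι l.1).2⟩⟩
  obtain ⟨ha1, ha2⟩ := Finset.mem_filter.1 ha
  obtain ⟨hc1, hc2⟩ := Finset.mem_filter.1 hcc
  have hmax : ∀ z ∈ cuts ι S, z.1 ≤ (ι l.1).1 → z.1 ≤ a.1 := fun z hz h =>
    hamax z (Finset.mem_filter.2 ⟨hz, h⟩)
  have hmin : ∀ z ∈ cuts ι S, (ι l.1).1 < z.1 → c.1 ≤ z.1 := fun z hz h =>
    hcmin z (Finset.mem_filter.2 ⟨hz, h⟩)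
  refine ⟨(a, c, l.2), Finset.mem_filter.2 ⟨?_, ?_⟩, ha2, hc2, rfl⟩
  · exact Finset.mem_product.2 ⟨ha1, Finset.mem_product.2 ⟨hc1, Finset.mem_univ _⟩⟩
  · rintro l' ⟨g1, g2, g3⟩
    simp only at g1 g2 g3
    have key : l'.1 ∈ S ↔ l.1 ∈ S := by
      constructor
      · intro h
        have e1 := hmax _ (hc _ h)
        have e2 := hmax _ (hs _ h)
        have e3 := hmin _ (hc _ h)
        simp only [Fin.val_castSucc, Fin.val_succ] at e1 e2 e3
        have e4 : (ι l'.1).1 = (ι l.1).1 := by omega
        rw [← hι (Fin.ext e4)]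
        exact h
      · intro h
        have e1 := hmax _ (hc _ h)
        have e2 := hmin _ (hs _ h)
        simp only [Fin.val_castSucc, Fin.val_succ] at e1 e2
        have e4 : (ι l'.1).1 = (ι l.1).1 := by omega
        rw [hι (Fin.ext e4)]
        exact h
    rw [← hl]
    unfold litTrue
    rw [key, g3]

end dsc

section targ

variable {V : Type}

open Classical in
/-- the value of a box of pieces at a gate -/
noncomputable def boxV (F : Frame) {d N : ℕ} (ι : F.Var → Fin N) (y : F.Bit d → Bool)
    (p : F.Gate × (Fin d → Dsc N)) : Prop :=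
  if F.isAnd p.1 then ∀ D, (∀ i, inD ι (D i) (p.2 i)) → y (p.1, D) = true
  else ∃ D, (∀ i, inD ι (D i) (p.2 i)) ∧ y (p.1, D) = true

open Classical in
theorem sl0_box {F : Frame} [Fintype F.Var] {d N : ℕ} {ι : F.Var → Fin N}
    (hι : Function.Injective ι) (y : F.Bit d → Bool) (S : Set F.Var) (g : F.Gate) :
    sl0 F y S g ↔ if F.isAnd g then
      ∀ δ ∈ Fintype.piFinset (fun _ : Fin d => dsc ι S false), boxV F ι y (g, δ)
    else ∃ δ ∈ Fintype.piFinset (fun _ : Fin d => dsc ι S true), boxV F ι y (g, δ) := by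
  classical
  by_cases hg : F.isAnd g
  · rw [sl0, if_pos hg, if_pos hg]
    constructor
    · intro h δ hδ
      rw [boxV, if_pos hg]
      intro D hD
      by_contra hcon
      have hcon' : y (g, D) = false := by simpa using hcon
      obtain ⟨i, hi⟩ := h D hcon'
      have := (dsc_hom (Fintype.mem_piFinset.1 hδ i) (hD i)).1 hi
      simp at this
    · intro h D hD
      by_contra hcon
      push Not at hcon
      have hch : ∀ i, ∃ δ ∈ dsc ι S false, inD ι (D i) δ := fun i =>
        dsc_cover hι (by simp [hcon i])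
      choose δ hδ1 hδ2 using hch
      have h2 := h δ (Fintype.mem_piFinset.2 hδ1)
      rw [boxV, if_pos hg] at h2
      have := h2 D hδ2
      rw [hD] at this
      simp at this
  · rw [sl0, if_neg hg, if_neg hg]
    constructor
    · rintro ⟨D, h1, h2⟩
      have hch : ∀ i, ∃ δ ∈ dsc ι S true, inD ι (D i) δ := fun i =>
        dsc_cover hι (by simp [h2 i])
      choose δ hδ1 hδ2 using hch
      refine ⟨δ, Fintype.mem_piFinset.2 hδ1, ?_⟩
      rw [boxV, if_neg hg]
      exact ⟨D, hδ2, h1⟩
    · rintro ⟨δ, hδ, h⟩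
      rw [boxV, if_neg hg] at h
      obtain ⟨D, h1, h2⟩ := h
      exact ⟨D, h2, fun i => (dsc_hom (Fintype.mem_piFinset.1 hδ i) (h1 i)).2 rfl⟩

/-- number of additional gates -/
noncomputable def extra (F : Frame) (d : ℕ) : ℕ :=
  Nat.card F.Gate * ((Nat.card F.Var + 1) ^ 2 * 2) ^ d * ((Nat.card F.Var * 2) ^ d + 1)

/-- **the image under a sandwich** -/
theorem targ (F : Frame) {d : ℕ} (k q : ℕ) {L : List ((V → Bool) → Prop)} (hL : Straight L)
    (M : (V → Bool) → (F.Bit d → Bool)) (hM : ∀ b, (fun x => M x b = true) ∈ L) :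
    ∃ L', Straight L' ∧ L'.length ≤ L.length + extra F d ∧
      ∀ {Blk : Type} (X Y : (Blk → Bool) → V → Bool), Sand L' q X Y →
        ∃ sl : Set F.Var → (Blk → Bool) → F.Gate → Prop,
          (∀ S : Set F.Var, Nat.card S = k → ∀ g,
            SmallMono (((2 * k + 2) ^ 2 * 2) ^ d * q) fun w => sl S w g) ∧
          ∀ w, (WSat F (M (X w)) k → SlSat F k fun S => sl S w) ∧
            ((SlSat F k fun S => sl S w) → WSat F (M (Y w)) k) := by
  classical
  have : Fintype F.Var := Fintype.ofFinite _
  have : Fintype F.Gate := Fintype.ofFinite _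
  let N := Nat.card F.Var
  let ι : F.Var → Fin N := Finite.equivFin F.Var
  have hι : Function.Injective ι := (Finite.equivFin F.Var).injective
  have hbuild : ∀ p : F.Gate × (Fin d → Dsc N), Buildable L ((Nat.card F.Var * 2) ^ d + 1)
      (fun x => boxV F ι (M x) p) := by
    intro p
    let DD : Finset (Fin d → F.Var × Bool) := univ.filter fun D => ∀ i, inD ι (D i) (p.2 i)
    let fs : List ((V → Bool) → Prop) := DD.toList.map fun D x => M x (p.1, D) = true
    have hfs : ∀ f ∈ fs, f ∈ L := by
      intro f hf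
      obtain ⟨D, _, rfl⟩ := List.mem_map.1 hf
      exact hM _
    have hlen : fs.length + 1 ≤ (Nat.card F.Var * 2) ^ d + 1 := by
      simp only [fs, List.length_map, Finset.length_toList]
      refine Nat.succ_le_succ ((Finset.card_filter_le _ _).trans ?_)
      rw [Finset.card_univ, Fintype.card_fun, Fintype.card_prod, Fintype.card_bool,
        Fintype.card_fin, Nat.card_eq_fintype_card]
    intro L2 h1 h2
    by_cases hg : F.isAnd p.1
    · obtain ⟨L3, g1, g2, g3⟩ := Buildable.all fs hfs L2 h1 h2
      refine ⟨L3, g1, g2.trans hlen, ?_⟩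
      have : (fun x => boxV F ι (M x) p) = fun x => ∀ f ∈ fs, f x := by
        funext x
        apply propext
        rw [boxV, if_pos hg]
        simp only [fs, DD, List.forall_mem_map, Finset.mem_toList, Finset.mem_filter,
          Finset.mem_univ, true_and]
      rw [this]
      exact g3
    · obtain ⟨L3, g1, g2, g3⟩ := Buildable.any fs hfs L2 h1 h2
      refine ⟨L3, g1, g2.trans hlen, ?_⟩
      have : (fun x => boxV F ι (M x) p) = fun x => ∃ f ∈ fs, f x := by
        funext x
        apply propext
        rw [boxV, if_neg hg]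
        constructor
        · rintro ⟨D, hD1, hD2⟩
          exact ⟨_, List.mem_map.2 ⟨D, Finset.mem_toList.2
            (Finset.mem_filter.2 ⟨Finset.mem_univ _, hD1⟩), rfl⟩, hD2⟩
        · rintro ⟨f, hf, hfx⟩
          obtain ⟨D, hD, rfl⟩ := List.mem_map.1 hf
          exact ⟨D, (Finset.mem_filter.1 (Finset.mem_toList.1 hD)).2, hfx⟩
      rw [this]
      exact g3
  obtain ⟨L3, h1, h2, h3⟩ := Buildable.multi hL _ hbuild
  refine ⟨L3 ++ L, h1, ?_, ?_⟩
  · rw [List.length_append]
    have h4 : Fintype.card (F.Gate × (Fin d → Dsc N)) =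
        Nat.card F.Gate * ((Nat.card F.Var + 1) ^ 2 * 2) ^ d := by
      rw [Fintype.card_prod, Fintype.card_fun, Fintype.card_prod, Fintype.card_prod,
        Fintype.card_bool, Fintype.card_fin, Fintype.card_fin, Nat.card_eq_fintype_card]
      congr 2
      simp only [N]
      ring
    rw [h4] at h2
    unfold extra
    omega
  · intro Blk X Y hS
    choose h hh1 hh2 using fun p : F.Gate × (Fin d → Dsc N) => hS _ (h3 p)
    let sl : Set F.Var → (Blk → Bool) → F.Gate → Prop := fun S w g =>
      if F.isAnd g then ∀ δ ∈ Fintype.piFinset (fun _ : Fin d => dsc ι S false), h (g, δ) w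
      else ∃ δ ∈ Fintype.piFinset (fun _ : Fin d => dsc ι S true), h (g, δ) w
    have hcard : ∀ S : Set F.Var, Nat.card S = k → ∀ b, (Fintype.piFinset
        (fun _ : Fin d => dsc ι S b)).card ≤ ((2 * k + 2) ^ 2 * 2) ^ d := by
      intro S hSk b
      rw [Fintype.card_piFinset, Finset.prod_const, Finset.card_univ, Fintype.card_fin]
      exact Nat.pow_le_pow_left (dsc_card ι hSk b) d
    refine ⟨sl, ?_, ?_⟩
    · intro S hSk g
      by_cases hg : F.isAnd g
      · have : (fun w => sl S w g) = fun w => ∀ δ ∈ Fintype.piFinset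
            (fun _ : Fin d => dsc ι S false), h (g, δ) w := by
          funext w
          simp only [sl, if_pos hg]
        rw [this]
        exact (SmallMono.all _ (fun δ => h (g, δ)) fun δ _ => hh1 _).weaken
          (Nat.mul_le_mul_right _ (hcard S hSk false))
      · have : (fun w => sl S w g) = fun w => ∃ δ ∈ Fintype.piFinset
            (fun _ : Fin d => dsc ι S true), h (g, δ) w := by
          funext w
          simp only [sl, if_neg hg]
        rw [this]
        exact (SmallMono.any _ (fun δ => h (g, δ)) fun δ _ => hh1 _).weaken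
          (Nat.mul_le_mul_right _ (hcard S hSk true))
    · intro w
      constructor
      · intro hw
        rw [wsat_slSat] at hw
        refine hw.mono ?_
        intro S _ g hg
        rw [sl0_box hι] at hg
        by_cases hga : F.isAnd g
        · simp only [sl, if_pos hga] at hg ⊢
          exact fun δ hδ => (hh2 _ w).1 (hg δ hδ)
        · simp only [sl, if_neg hga] at hg ⊢
          obtain ⟨δ, hδ, h5⟩ := hg
          exact ⟨δ, hδ, (hh2 _ w).1 h5⟩
      · intro hw
        rw [wsat_slSat]
        refine hw.mono ?_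
        intro S _ g hg
        rw [sl0_box hι]
        by_cases hga : F.isAnd g
        · simp only [sl, if_pos hga] at hg ⊢
          exact fun δ hδ => (hh2 _ w).2 (hg δ hδ)
        · simp only [sl, if_neg hga] at hg ⊢
          obtain ⟨δ, hδ, h5⟩ := hg
          exact ⟨δ, hδ, (hh2 _ w).2 h5⟩

end targ

end Pool.Agent.WSatMon
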