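import Pool.Agent.WSatMon.Eval
import Pool.Agent.ParityAC.AltR

/-! Images in `Γ_{t,d}` are alternating functions of the hidden bits. -/

namespace Pool.Agent.WSatMon

open Finset Pool.Agent.ParityAC

variable {F : Frame} {Blk V0 : Type} [DecidableEq V0]

/-- a small function of the blocks is a shallow decision tree of the hidden bits -/
theorem small_InR {q S : ℕ} (hS : 1 ≤ S) {h : (Blk → Bool) → Prop} (hh : SmallMono q h)
    (zw : (V0 → Bool) → (Blk → Bool)) (vb : Blk → V0)
    (hvb : ∀ z z' b, z (vb b) = z' (vb b) → zw z b = zw z' b) (β : Bool)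
    [∀ z, Decidable (h (zw z))] :
    InR (fun _ => none : Rst V0) S q 0 β (fun z => decide (h (zw z))) := by
  obtain ⟨⟨J, hJ1, hJ2⟩, _⟩ := hh
  have h1 : InR (fun _ => none : Rst V0) S (0 + (J.toList.map vb).length) 0 β
      (fun z => decide (h (zw z))) := by
    apply InR.queryL
    intro ρ _ hρ
    have key : ∀ x x', Ext ρ x → Ext ρ x' → (h (zw x) ↔ h (zw x')) := by
      intro x x' hx hx'
      apply hJ2
      intro b hb
      apply hvb
      obtain ⟨c, hc⟩ := hρ (vb b) (List.mem_map.2 ⟨b, Finset.mem_toList.2 hb, rfl⟩)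
      rw [hc x hx, hc x' hx']
    by_cases hex : ∃ x, Ext ρ x
    · obtain ⟨x0, hx0⟩ := hex
      refine InR.const hS 0 (decide (h (zw x0))) 0 β ?_
      intro x hx
      rw [decide_eq_decide]
      exact key x x0 hx hx0
    · refine InR.const hS 0 false 0 β ?_
      intro x hx
      exact absurd ⟨x, hx⟩ hex
  refine h1.mono ?_
  rw [List.length_map, Finset.length_toList]
  omega

/-- level by level -/
theorem lev_InR {q S t : ℕ} (hS : 1 ≤ S) (hS1 : Nat.card F.Gate ≤ S) {lev : F.Gate → ℕ}
    (h1 : ∀ g h, F.wire g h → lev g = lev h + 1)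
    (h2 : ∀ g, 1 ≤ lev g ∧ lev g ≤ t ∧ (F.isAnd g ↔ Odd (lev g)) ∧ (F.slot g ↔ lev g = t))
    (sl : (Blk → Bool) → F.Gate → Prop) (hsl : ∀ g, SmallMono q fun w => sl w g)
    (zw : (V0 → Bool) → (Blk → Bool)) (vb : Blk → V0)
    (hvb : ∀ z z' b, z (vb b) = z' (vb b) → zw z b = zw z' b)
    [∀ z g, Decidable (evalF F (sl (zw z)) g)] :
    ∀ (r : ℕ) (g : F.Gate), lev g + r = t →
      InR (fun _ => none : Rst V0) S q r (decide (Odd (lev g)))
        (fun z => decide (evalF F (sl (zw z)) g)) := by
  classical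
  intro r
  induction r with
  | zero =>
    intro g hg
    have hno : ∀ g', ¬ F.wire g' g := by
      intro g' hw
      have e1 := h1 g' g hw
      have e2 := (h2 g').2.1
      omega
    have hslot : F.slot g := (h2 g).2.2.2.2 (by omega)
    refine (small_InR hS (hsl g) zw vb hvb _).congr ?_
    intro z _
    rw [decide_eq_decide]
    by_cases hga : F.isAnd g
    · rw [(evalF_spec F (sl (zw z))).1 g hga]
      exact ⟨fun h => ⟨fun g' hw => absurd hw (hno g'), fun _ => h⟩, fun h => h.2 hslot⟩
    · rw [(evalF_spec F (sl (zw z))).2 g hga]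
      exact ⟨fun h => Or.inr ⟨hslot, h⟩, fun h => h.elim (fun ⟨g', hw, _⟩ => absurd hw (hno g'))
        fun h => h.2⟩
  | succ r ih =>
    intro g hg
    have : Fintype F.Gate := Fintype.ofFinite _
    have hslot : ¬ F.slot g := fun h => by
      have := (h2 g).2.2.2.1 h
      omega
    refine InR.gate hS (ι := {g' // F.wire g' g}) ?_
      (fun g' z => decide (evalF F (sl (zw z)) g'.1)) ?_ ?_
    · refine le_trans ?_ hS1
      rw [Nat.card_eq_fintype_card]
      exact Fintype.card_subtype_le _
    · rintro ⟨g', hw⟩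
      have e1 := h1 g' g hw
      have e2 := ih g' (by omega)
      have e3 : decide (Odd (lev g')) = !decide (Odd (lev g)) := by
        rw [e1]
        by_cases ho : Odd (lev g)
        · simp [Nat.odd_add_one, ho]
        · simp [Nat.odd_add_one, ho]
      rw [← e3]
      exact e2
    · intro z _
      rw [decide_eq_true_eq]
      by_cases hga : F.isAnd g
      · rw [(evalF_spec F (sl (zw z))).1 g hga, if_pos (by simp [(h2 g).2.2.1.1 hga])]
        constructor
        · rintro ⟨h, _⟩ ⟨g', hw⟩
          simpa using h g' hw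
        · intro h
          exact ⟨fun g' hw => by simpa using h ⟨g', hw⟩, fun hs => absurd hs hslot⟩
      · have hodd : ¬ Odd (lev g) := fun h => hga ((h2 g).2.2.1.2 h)
        rw [(evalF_spec F (sl (zw z))).2 g hga, if_neg (by simpa using hodd)]
        constructor
        · rintro (⟨g', hw, hv⟩ | ⟨hs, _⟩)
          · exact ⟨⟨g', hw⟩, by simpa using hv⟩
          · exact absurd hs hslot
        · rintro ⟨⟨g', hw⟩, hv⟩
          exact Or.inl ⟨g', hw, by simpa using hv⟩

/-- **the image as an alternating function** -/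
theorem alt_of_sl {t d : ℕ} (ht : 1 ≤ t) (hF : (GAMMA t d).mem F)
    (sl : Set F.Var → (Blk → Bool) → F.Gate → Prop) {k q S : ℕ}
    (hsl : ∀ T : Set F.Var, Nat.card T = k → ∀ g, SmallMono q fun w => sl T w g)
    (zw : (V0 → Bool) → (Blk → Bool)) (vb : Blk → V0)
    (hvb : ∀ z z' b, z (vb b) = z' (vb b) → zw z b = zw z' b)
    (hS : 1 ≤ S) (hS1 : Nat.card F.Gate ≤ S) (hS2 : Nat.card F.Var ^ k ≤ S)
    [∀ z, Decidable (SlSat F k fun T => sl T (zw z))] :
    InAlt S q t false (fun z => decide (SlSat F k fun T => sl T (zw z))) := by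
  classical
  obtain ⟨_, lev, h0, h1, h2⟩ := hF
  have : Fintype F.Var := Fintype.ofFinite _
  obtain ⟨r, rfl⟩ : ∃ r, t = r + 1 := ⟨t - 1, by omega⟩
  apply InR.toAlt
  refine InR.gate hS (ι := Fin k → F.Var) ?_ (fun τ z => decide (Function.Injective τ ∧
    evalF F (sl (Set.range τ) (zw z)) F.out)) ?_ ?_
  · rw [Fintype.card_fun, Fintype.card_fin, ← Nat.card_eq_fintype_card]
    exact hS2
  · intro τ
    by_cases hτ : Function.Injective τ
    · have hc : Nat.card (Set.range τ) = k := by
        rw [Nat.card_congr (Equiv.ofInjective τ hτ).symm, Nat.card_fin]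
      have e1 := lev_InR hS hS1 h1 h2 (sl (Set.range τ)) (hsl _ hc) zw vb hvb r F.out
        (by rw [h0]; omega)
      rw [h0] at e1
      refine InR.congr e1 ?_
      intro z _
      rw [decide_eq_decide]
      exact ⟨fun h => ⟨hτ, h⟩, fun h => h.2⟩
    · refine InR.const hS _ false _ _ ?_
      intro z _
      rw [decide_eq_false_iff_not]
      exact fun h => hτ h.1
  · intro z _
    rw [decide_eq_true_eq, slSat_iff]
    simp only [Bool.false_eq_true, if_false, decide_eq_true_eq]
    constructor
    · rintro ⟨T, hT1, hT2⟩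
      obtain ⟨e⟩ : Nonempty (Fin k ≃ T) := ⟨(Finite.equivFinOfCardEq hT1).symm⟩
      refine ⟨fun i => (e i).1, fun i j h => e.injective (Subtype.ext h), ?_⟩
      have : Set.range (fun i => (e i).1) = T := by
        ext x
        constructor
        · rintro ⟨i, rfl⟩
          exact (e i).2
        · intro hx
          exact ⟨e.symm ⟨x, hx⟩, by simp⟩
      rw [this]
      exact hT2
    · rintro ⟨τ, hτ, h⟩
      refine ⟨Set.range τ, ?_, h⟩
      rw [Nat.card_congr (Equiv.ofInjective τ hτ).symm, Nat.card_fin]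

end Pool.Agent.WSatMon
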