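import Pool.Agent.WSatMon.SrcO
import Pool.Agent.WSatMon.Targ
import Pool.Agent.WSatMon.TargAlt

/-! The contradiction for odd depth, given the numbers. -/

namespace Pool.Agent.WSatMon

open Finset Pool.Agent.ParityAC

theorem card_EE (β k n : ℕ) :
    Fintype.card (EE (Fin β) k n) = (k + 2) * (β * (2 ^ β * n)) := by
  simp only [Fintype.card_prod, Fintype.card_option, Fintype.card_fin, Fintype.card_fun,
    ZMod.card]

theorem card_BB (β k n s : ℕ) : Fintype.card (BB (Fin β) k n s) =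
    ((k + 2) * (β * (2 ^ β * n))) ^ s * ((k + 2) * (β * 2 ^ β)) := by
  rw [Fintype.card_prod, card_vector, card_EE]
  simp only [Fintype.card_prod, Fintype.card_option, Fintype.card_fin, Fintype.card_fun,
    ZMod.card]

theorem card_XX (β k n : ℕ) : Fintype.card (XX (Fin β) k n) = k * n + 2 ^ β := by
  simp only [Fintype.card_sum, Fintype.card_prod, Fintype.card_fin, Fintype.card_fun, ZMod.card]

theorem size_src (β k n s : ℕ) :
    (treeF (EE (Fin β) k n) (XX (Fin β) k n) (s + 1)).size + 1 ≤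
      ((k + 2) * (β * (2 ^ β * n)) + 1) ^ (s + 1) + (k * n + 2 ^ β) + 1 := by
  have h := treeF_size (E := EE (Fin β) k n) (X := XX (Fin β) k n) (t := s + 1)
  rw [Nat.card_eq_fintype_card, Nat.card_eq_fintype_card, card_EE, card_XX] at h
  omega

/-- bound for the number of the new gates -/
theorem extra_le {F : Frame} {A : ℕ} (h : F.size ≤ A) (d : ℕ) :
    extra F d ≤ A * ((A + 1) ^ 2 * 2) ^ d * ((A * 2) ^ d + 1) := by
  have h1 : Nat.card F.Gate ≤ A := le_trans (Nat.le_add_right _ _) h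
  have h2 : Nat.card F.Var ≤ A := le_trans (Nat.le_add_left _ _) h
  unfold extra
  gcongr

/-- **the contradiction** -/
theorem coreO {s d c k e β n μ s0 l' R N M σ S A : ℕ} (ho : Odd (s + 1)) (hβ : 1 ≤ β)
    (hk : 1 ≤ k) (hn : 1 ≤ n) (hμ : 1 ≤ μ) (hs0 : 1 ≤ s0) (hl' : 1 ≤ l')
    (hA : e * (((k + 2) * (β * (2 ^ β * n)) + 1) ^ (s + 1) + (k * n + 2 ^ β) + 1) ^ c ≤ A)
    (hM : sun ((k * s0 + 1) * l') s0 ≤ M)
    (hN : A + A * ((A + 1) ^ 2 * 2) ^ d * ((A * 2) ^ d + 1) ≤ N)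
    (h1 : (N : ℝ) * M ^ 2 * (((k * s0 + 1 : ℕ) * l') * (s0 * ((s0 : ℝ) / n) ^ k)) < 1)
    (h2 : (N : ℝ) * M ^ 2 * (1 - (1 / (k : ℝ)) ^ s0) ^ l' < 1)
    (h3 : (N : ℝ) * M ^ 2 * (1 / (μ : ℝ)) ^ (s0 + 1) + N * ((M : ℝ) / μ) ^ R +
      ((((k + 2) * (β * (2 ^ β * n))) ^ s * ((k + 2) * (β * 2 ^ β)) : ℕ) : ℝ) * (n : ℝ) ^ k *
        (1 - (1 / (μ : ℝ)) ^ k) ^ n < 1)
    (hS : (A + 1) ^ (e + 1) ≤ S) (hSσ : S ^ s < 2 ^ σ) (hσ : 1 ≤ σ)
    (hb : bnd σ (s + 1) (((2 * e + 2) ^ 2 * 2) ^ d * (s0 * R)) ≤ β ^ (s + 1))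
    (hred : ∀ F : Frame, (GAMMA (s + 1 + 1) 1).mem F → ∃ F' : Frame, (GAMMA (s + 1) d).mem F' ∧
      F'.size ≤ e * (F.size + 1) ^ c ∧
      ∃ k' ≤ e, ∃ M : (F.Bit 1 → Bool) → (F'.Bit d → Bool),
        MonComp (e * (F.size + 1) ^ c) M ∧ ∀ y, WSat F y (k + 1) ↔ WSat F' (M y) k') : False := by
  classical
  let b0 : Fin β := ⟨0, hβ⟩
  obtain ⟨F', hF', hsize, k', hk', Mm, ⟨L, hL1, hL2, hL3⟩, hM2⟩ :=
    hred (treeF (EE (Fin β) k n) (XX (Fin β) k n) (s + 1)) treeF_mem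
  have hZ : e * ((treeF (EE (Fin β) k n) (XX (Fin β) k n) (s + 1)).size + 1) ^ c ≤ A :=
    le_trans (Nat.mul_le_mul_left _ (Nat.pow_le_pow_left (size_src β k n s) c)) hA
  have hsA : F'.size ≤ A := hsize.trans hZ
  -- the circuit on the bits of the blocks
  have hLs := Straight.subst (V := BB (Fin β) k n s × Fin n × Fin k × Fin n) tabO
    tabO_proj hL1
  obtain ⟨L', hL'1, hL'2, hL'3⟩ := targ F' (d := d) k' (s0 * R) hLs (fun x => Mm (tabO x)) (by
    intro b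
    exact List.mem_map.2 ⟨_, hL3 b, rfl⟩)
  have hlen : L'.length ≤ N := by
    rw [List.length_map] at hL'2
    have h4 := extra_le hsA d
    have h5 := hL2.trans hZ
    omega
  obtain ⟨S0, γ, r, hr, hsand⟩ := gadO (Blk := BB (Fin β) k n s) (F := Fin n) hk hn hs0 hμ hl' hM
    L' hL'1 hlen h1 h2 (by
      rw [card_BB, Fintype.card_fin]
      exact h3)
  obtain ⟨sl, hsl1, hsl2⟩ := hL'3 (XO S0 γ) (YO r) hsand
  -- the parity
  have key : ∀ z : VV (Fin β) s → Bool, (SlSat F' k' fun T => sl T (zw b0 z)) ↔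
      bp (bz z) (s + 1) [] = 0 := by
    intro z
    constructor
    · intro h
      exact srcO_Y ho b0 hn hr z ((hM2 _).2 ((hsl2 _).2 h))
    · intro h
      exact (hsl2 _).1 ((hM2 _).1 (srcO_X ho b0 hn S0 γ z h))
  have hS1 : 1 ≤ S := le_trans (Nat.one_le_pow _ _ (Nat.succ_pos _)) hS
  have hgate : Nat.card F'.Gate ≤ A := le_trans (Nat.le_add_right _ _) hsA
  have hvar : Nat.card F'.Var ≤ A := le_trans (Nat.le_add_left _ _) hsA
  have hSg : Nat.card F'.Gate ≤ S := by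
    refine le_trans ?_ hS
    calc Nat.card F'.Gate ≤ (A + 1) ^ 1 := by rw [pow_one]; omega
      _ ≤ (A + 1) ^ (e + 1) := Nat.pow_le_pow_right (Nat.succ_pos _) (by omega)
  have hSv : Nat.card F'.Var ^ k' ≤ S := by
    refine le_trans ?_ hS
    calc Nat.card F'.Var ^ k' ≤ (A + 1) ^ k' := Nat.pow_le_pow_left (by omega) _
      _ ≤ (A + 1) ^ (e + 1) := Nat.pow_le_pow_right (Nat.succ_pos _) (by omega)
  have halt := alt_of_sl (t := s + 1) (by omega) hF' sl hsl1 (zw b0) vbB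
    (fun z z' b h => zw_dep b0 z z' b h) hS1 hSg hSv
  have heq : (fun z : VV (Fin β) s → Bool => decide (SlSat F' k' fun T => sl T (zw b0 z))) =
      fun z => decide (bp (bz z) (s + 1) [] = 0) := by
    funext z
    rw [decide_eq_decide]
    exact key z
  rw [heq] at halt
  have hq : ((2 * k' + 2) ^ 2 * 2) ^ d * (s0 * R) ≤ ((2 * e + 2) ^ 2 * 2) ^ d * (s0 * R) := by
    gcongr
  refine no_flip S σ hσ (s + 1) (VV (Fin β) s) inferInstance inferInstance _ false _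
    (by omega) (halt.mono hq) flip_parity hSσ ?_
  rw [card_vector, Fintype.card_fin]
  exact hb

end Pool.Agent.WSatMon
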