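import Pool.Agent.WSatMon.SrcE
import Pool.Agent.WSatMon.CoreO

/-! The contradiction for even depth, given the numbers. -/

namespace Pool.Agent.WSatMon

open Finset Pool.Agent.ParityAC

/-- **the contradiction** -/
theorem coreE {r d c k e β n a l R N M Q σ S A : ℕ} (he : Even (r + 1 + 1)) (hβ : 1 ≤ β)
    (hn : 1 ≤ n) (ha : 1 ≤ a) (hl : 2 ≤ l) (hQ : 1 ≤ Q)
    (hA : e * (((k + 2) * (β * (2 ^ β * n)) + 1) ^ (r + 1 + 1) + (k * n + 2 ^ β) + 1) ^ c ≤ A)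
    (hM : sun l (a * a) ≤ M)
    (hN : A + A * ((A + 1) ^ 2 * 2) ^ d * ((A * 2) ^ d + 1) ≤ N)
    (h1 : (N : ℝ) * M ^ 2 * (1 / (n : ℝ)) ^ (a + 1) < 1)
    (h2 : (N : ℝ) * M ^ 2 * (1 / (n : ℝ)) ^ (a + 1) + N * ((M : ℝ) / n) ^ R < 1)
    (h3 : (N : ℝ) * M ^ 2 * (1 - (1 / (Q : ℝ)) ^ (a * a)) ^ l +
      ((((k + 2) * (β * (2 ^ β * n))) ^ r * ((k + 2) * (β * 2 ^ β)) : ℕ) : ℝ) * (n : ℝ) ^ k *
        ((((k + 2) * (β * 2 ^ β) : ℕ) : ℝ) * n * (1 / (Q : ℝ)) ^ k) ^ n < 1)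
    (hS : (A + 1) ^ (e + 1) ≤ S) (hSσ : S ^ (r + 1) < 2 ^ σ) (hσ : 1 ≤ σ)
    (hb : bnd σ (r + 1 + 1) (((2 * e + 2) ^ 2 * 2) ^ d * (a * a * R)) ≤ β ^ (r + 1 + 1))
    (hred : ∀ F : Frame, (GAMMA (r + 1 + 1 + 1) 1).mem F → ∃ F' : Frame,
      (GAMMA (r + 1 + 1) d).mem F' ∧ F'.size ≤ e * (F.size + 1) ^ c ∧
      ∃ k' ≤ e, ∃ M : (F.Bit 1 → Bool) → (F'.Bit d → Bool),
        MonComp (e * (F.size + 1) ^ c) M ∧ ∀ y, WSat F y (k + 1) ↔ WSat F' (M y) k') : False := by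
  classical
  let b0 : Fin β := ⟨0, hβ⟩
  obtain ⟨F', hF', hsize, k', hk', Mm, ⟨L, hL1, hL2, hL3⟩, hM2⟩ :=
    hred (treeF (EE (Fin β) k n) (XX (Fin β) k n) (r + 1 + 1)) treeF_mem
  have hZ : e * ((treeF (EE (Fin β) k n) (XX (Fin β) k n) (r + 1 + 1)).size + 1) ^ c ≤ A :=
    le_trans (Nat.mul_le_mul_left _ (Nat.pow_le_pow_left (size_src β k n (r + 1)) c)) hA
  have hsA : F'.size ≤ A := hsize.trans hZ
  -- the circuit on the bits of the blocks
  have hLs := Straight.subst (V := BB (Fin β) k n (r + 1) × Fin n × Fin k × Fin n) tabE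
    tabE_proj hL1
  obtain ⟨L', hL'1, hL'2, hL'3⟩ := targ F' (d := d) k' (a * a * R) hLs (fun x => Mm (tabE x)) (by
    intro b
    exact List.mem_map.2 ⟨_, hL3 b, rfl⟩)
  have hlen : L'.length ≤ N := by
    rw [List.length_map] at hL'2
    have h4 := extra_le hsA d
    have h5 := hL2.trans hZ
    omega
  have hne : Nonempty (Fin n) := ⟨⟨0, hn⟩⟩
  have hB1 : Fintype.card (Option (Option (Fin k)) × Fin β × (Fin β → ZMod 2)) =
      (k + 2) * (β * 2 ^ β) := by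
    simp only [Fintype.card_prod, Fintype.card_option, Fintype.card_fin, Fintype.card_fun,
      ZMod.card]
  obtain ⟨S0, φ, ρ, hρ, hsand⟩ := gadE (Par := List.Vector (EE (Fin β) k n) (r + 1))
    (B1 := Option (Option (Fin k)) × Fin β × (Fin β → ZMod 2)) (F := Fin n) (k := k) (n := n)
    (Grp := BB (Fin β) k n r) (Cop := Fin n) (copE r) (copE_inj r) hn ha hl hQ hM
    L' hL'1 hlen h1 (by rw [Fintype.card_fin]; exact h2) (by
      rw [card_BB, Fintype.card_fin, hB1]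
      exact h3)
  obtain ⟨sl, hsl1, hsl2⟩ := hL'3 (XE S0 φ) (YE ρ) hsand
  -- the parity
  have key : ∀ z : VV (Fin β) (r + 1) → Bool, (SlSat F' k' fun T => sl T (zw b0 z)) ↔
      bp (bz z) (r + 1 + 1) [] = 0 := by
    intro z
    constructor
    · intro h
      exact srcE_Y he b0 hn hρ z ((hM2 _).2 ((hsl2 _).2 h))
    · intro h
      exact (hsl2 _).1 ((hM2 _).1 (srcE_X he b0 hn S0 φ z h))
  have hS1 : 1 ≤ S := le_trans (Nat.one_le_pow _ _ (Nat.succ_pos _)) hS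
  have hgate : Nat.card F'.Gate ≤ A := le_trans (Nat.le_add_right _ _) hsA
  have hvar : Nat.card F'.Var ≤ A := le_trans (Nat.le_add_left _ _) hsA
  have hSg : Nat.card F'.Gate ≤ S := by
    refine le_trans ?_ hS
    calc Nat.card F'.Gate ≤ (A + 1) ^ 1 := by rw [pow_one]; omega
      _ ≤ (A + 1) ^ (e + 1) := Nat.pow_le_pow_right (Nat.succ_pos _) (by omega)
  have hSv : Nat.card F'.Var ^ k' ≤ S := by
    refine le_trans ?_ hS
    calc Nat.card F'.Var ^ k' ≤ (A + 1) ^ k' := Nat.pow_le_pow_left (by omega) _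
      _ ≤ (A + 1) ^ (e + 1) := Nat.pow_le_pow_right (Nat.succ_pos _) (by omega)
  have halt := alt_of_sl (t := r + 1 + 1) (by omega) hF' sl hsl1 (zw b0) vbB
    (fun z z' b h => zw_dep b0 z z' b h) hS1 hSg hSv
  have heq : (fun z : VV (Fin β) (r + 1) → Bool =>
      decide (SlSat F' k' fun T => sl T (zw b0 z))) =
      fun z => decide (bp (bz z) (r + 1 + 1) [] = 0) := by
    funext z
    rw [decide_eq_decide]
    exact key z
  rw [heq] at halt
  have hq : ((2 * k' + 2) ^ 2 * 2) ^ d * (a * a * R) ≤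
      ((2 * e + 2) ^ 2 * 2) ^ d * (a * a * R) := by
    gcongr
  refine no_flip S σ hσ (r + 1 + 1) (VV (Fin β) (r + 1)) inferInstance inferInstance _ false _
    (by omega) (halt.mono hq) flip_parity hSσ ?_
  rw [card_vector, Fintype.card_fin]
  exact hb

end Pool.Agent.WSatMon
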