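import Pool.Agent.WSatMon.LinkO
import Pool.Agent.WSatMon.CoreE

/-! The links of the chain, even depth. -/

namespace Pool.Agent.WSatMon

open Finset Filter Pool.Agent.ParityAC

/-- **even depth** -/
theorem linkE (r d c k : ℕ) (he : Even (r + 1 + 1))
    (hk : 2 * (((c1 c (r + 1 + 1) d + 1) * (c1 c (r + 1 + 1) d + 1) + 1) *
      ((c1 c (r + 1 + 1) d + 1) * (c1 c (r + 1 + 1) d + 1) + 2)) + 3 ≤ k) :
    ¬ SliceMon c (k + 1) (GAMMA (r + 1 + 1 + 1) 1) (GAMMA (r + 1 + 1) d) := by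
  rintro ⟨e, hred⟩
  obtain ⟨C, hC⟩ : ∃ C, C = c1 c (r + 1 + 1) d := ⟨_, rfl⟩
  rw [← hC] at hk
  obtain ⟨a, ha⟩ : ∃ a, a = C + 1 := ⟨_, rfl⟩
  rw [← ha] at hk
  obtain ⟨s, hs⟩ : ∃ s, s = a * a := ⟨_, rfl⟩
  rw [← hs] at hk
  obtain ⟨R, hR⟩ : ∃ R, R = 2 * C + 1 := ⟨_, rfl⟩
  obtain ⟨p, hp⟩ : ∃ p, p = 2 * ((s + 1) * (s + 2)) := ⟨_, rfl⟩
  rw [← hp] at hk
  have hp4 : 4 ≤ p := by
    rw [hp]
    nlinarith
  have hev := ((((common (r + 1 + 1) c d k e p (((2 * e + 2) ^ 2 * 2) ^ d * (a * a * R))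
    (by omega) hp4).and (eventually_pow ((2 * s) ^ s))).and
    (eventually_exp (p * (C + 1)) 1 (le_refl _) (show (0 : ℝ) < 1 / 2 by norm_num))).and
    (eventually_exp (p * (2 * (r + 1) + k)) 2 (by norm_num)
      (show (0 : ℝ) < 1 / 2 by norm_num))).and
    ((eventually_lin (k + 2)).and (eventually_ge_atTop 2))
  obtain ⟨β, ⟨⟨⟨⟨hA, hN, S, σ, hS, hSσ, hσ, hb⟩, hM0⟩, hexp1⟩, hexp2⟩, hlin, hβ⟩ := hev.exists
  obtain ⟨x, hx⟩ : ∃ x, x = 2 ^ β := ⟨_, rfl⟩
  have hx4 : 4 ≤ x := by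
    rw [hx]
    calc 4 = 2 ^ 2 := rfl
      _ ≤ 2 ^ β := Nat.pow_le_pow_right (by omega) hβ
  obtain ⟨l, hl⟩ : ∃ l, l = x ^ (s + 1) := ⟨_, rfl⟩
  obtain ⟨M, hM⟩ : ∃ M, M = l ^ (s + 2) := ⟨_, rfl⟩
  obtain ⟨n, hn⟩ : ∃ n, n = x ^ p := ⟨_, rfl⟩
  have hxl : x ≤ l := by
    rw [hl]
    calc x = x ^ 1 := (pow_one x).symm
      _ ≤ x ^ (s + 1) := Nat.pow_le_pow_right (by omega) (by omega)
  have hxM1 : x ≤ M := by
    rw [hM]
    calc x ≤ l := hxl
      _ = l ^ 1 := (pow_one l).symm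
      _ ≤ l ^ (s + 2) := Nat.pow_le_pow_right (by omega) (by omega)
  have hMn : M ^ 2 = n := by
    rw [hM, hn, hp, hl, ← pow_mul, ← pow_mul]
    congr 1
    ring
  have hx4n : x ^ 4 ≤ n := by
    rw [hn]
    exact Nat.pow_le_pow_right (by omega) hp4
  have hMn1 : M ≤ n := by
    rw [← hMn, pow_two]
    nlinarith
  have hn1 : 1 ≤ n := by omega
  rw [← hx] at hA hN hS hM0 hlin
  rw [← hn] at hA hN hS
  have hnr : ((2 : ℝ) ^ β) ^ p = (n : ℝ) := by
    rw [hn, hx]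
    push_cast
    rfl
  have hxr : ((2 : ℝ) ^ β) = (x : ℝ) := by
    rw [hx]
    push_cast
    rfl
  have hx0 : (0 : ℝ) < x := by exact_mod_cast (show 0 < x by omega)
  have hM0' : (0 : ℝ) < M := by exact_mod_cast (show 0 < M by omega)
  have hn0 : (0 : ℝ) < n := by exact_mod_cast (show 0 < n by omega)
  rw [pow_mul, hnr, hxr] at hexp1 hexp2
  have hM4r : (4 : ℝ) ≤ M := by exact_mod_cast (show 4 ≤ M by omega)
  have hn4r : (4 : ℝ) ≤ n := by exact_mod_cast (show 4 ≤ n by omega)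
  have hx4r : (4 : ℝ) ≤ x := by exact_mod_cast hx4
  have hMnr : (M : ℝ) ^ 2 = n := by exact_mod_cast hMn
  have e1 : (n : ℝ) ^ C * M ^ 2 * (1 / (n : ℝ)) ^ (a + 1) ≤ 1 / 4 := by
    have h1 : (n : ℝ) ^ C * M ^ 2 = (n : ℝ) ^ (C + 1) := by
      rw [hMnr, pow_succ]
    rw [h1, ha, one_div, inv_pow]
    have h2 : (n : ℝ) ^ (C + 1) * ((n : ℝ) ^ (C + 1 + 1))⁻¹ = (n : ℝ)⁻¹ := by
      rw [pow_succ (n : ℝ) (C + 1), mul_inv, ← mul_assoc, mul_inv_cancel₀ (by positivity),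
        one_mul]
    rw [h2, ← one_div]
    exact one_div_le_one_div_of_le (by norm_num) hn4r
  refine coreE (r := r) (d := d) (c := c) (k := k) (e := e) (β := β) (n := n)
    (a := a) (l := l) (R := R) (N := n ^ C) (M := M) (Q := x) (σ := σ) (S := S)
    (A := e * n ^ ((2 * (r + 1 + 1) + 1) * c)) he (by omega) hn1
    (by omega) (by omega) (by omega) ?_ ?_ ?_ ?_ ?_ ?_ hS ?_ hσ hb hred
  · rw [← hx]
    exact hA
  · rw [← hs]
    refine (sun_le (by omega) s).trans ?_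
    rw [hM]
    calc l ^ (s + 1) * (2 * s) ^ s ≤ l ^ (s + 1) * l :=
          Nat.mul_le_mul_left _ (hM0.trans hxl)
      _ = l ^ (s + 2) := by ring
  · rw [hC]
    exact hN
  · push_cast
    linarith
  · push_cast
    have e2 : (n : ℝ) ^ C * ((M : ℝ) / n) ^ R ≤ 1 / 4 := by
      have h1 : (M : ℝ) / n = (M : ℝ)⁻¹ := by
        rw [← hMnr]
        field_simp
      have h2 : (n : ℝ) ^ C = (M : ℝ) ^ (2 * C) := by
        rw [← hMnr, ← pow_mul]
      rw [h1, h2, hR, inv_pow, pow_succ, mul_inv, ← mul_assoc, mul_inv_cancel₀ (by positivity),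
        one_mul, ← one_div]
      exact one_div_le_one_div_of_le (by norm_num) hM4r
    linarith
  · push_cast
    have e2 : (n : ℝ) ^ C * M ^ 2 * (1 - (1 / (x : ℝ)) ^ (a * a)) ^ l < 1 / 2 := by
      rw [← hs]
      have h1 : (1 / (x : ℝ)) ^ s ≤ 1 := by
        apply pow_le_one₀ (by positivity)
        rw [div_le_one hx0]
        linarith
      have h2 := one_sub_pow_le h1 l
      have h3 : (l : ℝ) * (1 / (x : ℝ)) ^ s = x := by
        rw [hl]
        push_cast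
        rw [one_div, inv_pow, pow_succ, mul_comm ((x : ℝ) ^ s), mul_assoc,
          mul_inv_cancel₀ (by positivity), mul_one]
      rw [h3] at h2
      calc (n : ℝ) ^ C * M ^ 2 * (1 - (1 / (x : ℝ)) ^ s) ^ l
          ≤ (n : ℝ) ^ C * M ^ 2 * Real.exp (-(x : ℝ)) :=
            mul_le_mul_of_nonneg_left h2 (by positivity)
        _ = (n : ℝ) ^ (C + 1) * Real.exp (-((x : ℝ) / ((1 : ℕ) : ℝ))) := by
          rw [hMnr, pow_succ, Nat.cast_one, div_one]
        _ < 1 / 2 := hexp1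
    have e3 : ((((k : ℝ) + 2) * (β * (2 ^ β * n))) ^ r * ((k + 2) * (β * 2 ^ β))) * (n : ℝ) ^ k *
        (((k : ℝ) + 2) * (β * 2 ^ β) * n * (1 / (x : ℝ)) ^ k) ^ n < 1 / 2 := by
      have h1 : ((((k : ℝ) + 2) * (β * (2 ^ β * n))) ^ r * ((k + 2) * (β * 2 ^ β))) ≤
          (n : ℝ) ^ (2 * (r + 1)) := by
        have := blk_le (n := n) (s := r) (m := x) (hx ▸ hlin) (by rw [← hx]) hx4n
          (by omega)
        exact_mod_cast this
      have h2 : ((k : ℝ) + 2) * (β * 2 ^ β) * n * (1 / (x : ℝ)) ^ k ≤ 1 / 2 := by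
        have h3 : ((k + 2) * (β * 2 ^ β)) * n * 2 ≤ x ^ k := by
          calc ((k + 2) * (β * 2 ^ β)) * n * 2 = (((k + 2) * β) * 2 ^ β) * n * 2 := by ring
            _ ≤ (x * x) * n * x := by
              apply Nat.mul_le_mul (Nat.mul_le_mul_right _ _) (by omega)
              rw [← hx]
              exact Nat.mul_le_mul_right _ hlin
            _ = x ^ (p + 3) := by rw [hn]; ring
            _ ≤ x ^ k := Nat.pow_le_pow_right (by omega) hk
        have h3' : (((k : ℝ) + 2) * (β * 2 ^ β)) * n * 2 ≤ (x : ℝ) ^ k := by exact_mod_cast h3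
        rw [one_div, inv_pow, ← div_eq_mul_inv, div_le_iff₀ (by positivity)]
        linarith
      have h4 : (((k : ℝ) + 2) * (β * 2 ^ β) * n * (1 / (x : ℝ)) ^ k) ^ n ≤
          Real.exp (-((x : ℝ) / ((2 : ℕ) : ℝ))) := by
        calc (((k : ℝ) + 2) * (β * 2 ^ β) * n * (1 / (x : ℝ)) ^ k) ^ n ≤ (1 - 1 / 2) ^ n := by
              apply pow_le_pow_left₀ (by positivity)
              linarith
          _ ≤ Real.exp (-(n * (1 / 2))) := one_sub_pow_le (by norm_num) n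
          _ ≤ Real.exp (-((x : ℝ) / ((2 : ℕ) : ℝ))) := by
            rw [Real.exp_le_exp]
            have h5 : (x : ℝ) ≤ n := by exact_mod_cast hxM1.trans hMn1
            push_cast
            linarith
      calc _ ≤ (n : ℝ) ^ (2 * (r + 1)) * (n : ℝ) ^ k * Real.exp (-((x : ℝ) / ((2 : ℕ) : ℝ))) := by
            apply mul_le_mul (mul_le_mul_of_nonneg_right h1 (by positivity)) h4
            · positivity
            · positivity
        _ = (n : ℝ) ^ (2 * (r + 1) + k) * Real.exp (-((x : ℝ) / ((2 : ℕ) : ℝ))) := by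
          rw [pow_add]
        _ < 1 / 2 := hexp2
    linarith
  · simpa using hSσ

/-- threshold for the weight -/
def thr (c t d : ℕ) : ℕ :=
  2 * (((c1 c t d + 1) * (c1 c t d + 1) + 1) * ((c1 c t d + 1) * (c1 c t d + 1) + 2)) + 3

/-- **one level less is not enough** -/
theorem link (t d c k : ℕ) (ht : 1 ≤ t) (hk : thr c t d ≤ k) :
    ¬ SliceMon c (k + 1) (GAMMA (t + 1) 1) (GAMMA t d) := by
  rcases Nat.even_or_odd t with he | ho
  · obtain ⟨r, rfl⟩ : ∃ r, t = r + 1 + 1 := by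
      refine ⟨t - 2, ?_⟩
      rcases he with ⟨m, rfl⟩
      omega
    exact linkE r d c k he hk
  · obtain ⟨s, rfl⟩ : ∃ s, t = s + 1 := ⟨t - 1, by omega⟩
    refine linkO s d c k ho (le_trans ?_ hk)
    unfold thr
    nlinarith

end Pool.Agent.WSatMon
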