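import Pool.Agent.WSatMon.First

/-! The first link: cliques. -/

namespace Pool.Agent.WSatMon

open Finset Filter Pool.Agent.WSatAC0

section clique

variable {k n : ℕ}

/-- the planted clique -/
def XC (S : Fin k → Fin n) : PV k n → Bool := fun v =>
  decide (v.1.2 = S v.1.1) && decide (v.2.2 = S v.2.1)

theorem XC_iff {S : Fin k → Fin n} {v : PV k n} :
    XC S v = true ↔ v.1.2 = S v.1.1 ∧ v.2.2 = S v.2.1 := by
  simp [XC]

/-- the groups of a set of pairs -/
def grp (C : Finset (PV k n)) : Finset (Fin k) :=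
  (C.image fun v => v.1.1) ∪ C.image fun v => v.2.1

/-- probability that a set of pairs is planted -/
theorem PP_planted (hn : 1 ≤ n) (C : Finset (PV k n)) {a : ℕ} (ha : a ≤ (grp C).card) :
    PP (uw (Fin n)) (fun S : Fin k → Fin n => ∀ v ∈ C, XC S v = true) ≤
      (1 / (n : ℝ)) ^ a := by
  classical
  have : Nonempty (Fin n) := ⟨⟨0, hn⟩⟩
  have hn1 : 1 / (n : ℝ) ≤ 1 := by
    rw [div_le_one (by exact_mod_cast hn)]
    exact_mod_cast hn
  by_cases hc : ∃ S0 : Fin k → Fin n, ∀ v ∈ C, XC S0 v = true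
  · obtain ⟨S0, hS0⟩ := hc
    refine (PP_mono uw_nonneg (Q := fun S : Fin k → Fin n => ∀ j ∈ grp C, S j = S0 j) ?_).trans ?_
    · intro S hS j hj
      rcases Finset.mem_union.1 hj with hj | hj
      · obtain ⟨v, hv, rfl⟩ := Finset.mem_image.1 hj
        rw [← (XC_iff.1 (hS v hv)).1, (XC_iff.1 (hS0 v hv)).1]
      · obtain ⟨v, hv, rfl⟩ := Finset.mem_image.1 hj
        rw [← (XC_iff.1 (hS v hv)).2, (XC_iff.1 (hS0 v hv)).2]
    · rw [PP_pattern, Fintype.card_fin]
      exact pow_le_pow_of_le_one (by positivity) hn1 ha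
  · have : (fun S : Fin k → Fin n => ∀ v ∈ C, XC S v = true) = fun _ => False := by
      funext S
      exact eq_false fun h => hc ⟨S, h⟩
    rw [this, PP_eq]
    simp only [if_false]
    have h4 := EE_const (V := Fin k) (uw_sum (α := Fin n)) 0
    rw [h4]
    positivity

/-- planted sets touch many groups -/
theorem planted_card {C : Finset (PV k n)} {S : Fin k → Fin n} (h : ∀ v ∈ C, XC S v = true)
    {a : ℕ} (ha : (grp C).card ≤ a) : C.card ≤ a * a := by
  have h1 : C.card ≤ (grp C ×ˢ grp C).card := by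
    apply Finset.card_le_card_of_injOn (fun v => (v.1.1, v.2.1))
    · intro v hv
      rw [Finset.mem_coe, Finset.mem_product]
      exact ⟨Finset.mem_union_left _ (Finset.mem_image.2 ⟨v, hv, rfl⟩),
        Finset.mem_union_right _ (Finset.mem_image.2 ⟨v, hv, rfl⟩)⟩
    · intro v hv v' hv' hvv
      simp only [Prod.mk.injEq] at hvv
      have h8 := XC_iff.1 (h v hv)
      have h9 := XC_iff.1 (h v' hv')
      refine Prod.ext (Prod.ext hvv.1 ?_) (Prod.ext hvv.2 ?_)
      · rw [h8.1, h9.1, hvv.1]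
      · rw [h8.2, h9.2, hvv.2]
  rw [Finset.card_product] at h1
  exact h1.trans (Nat.mul_le_mul ha ha)

/-- **no small monotone circuit for cliques** -/
theorem no_clique (hn : 1 ≤ n) {a l N M Q : ℕ} (ha : 1 ≤ a) (hl : 2 ≤ l)
    (hQ : 1 ≤ Q) (hM : sun l (a * a) ≤ M) (L : List ((PV k n → Bool) → Prop)) (hL : Straight L)
    (hN : L.length ≤ N)
    (h1 : (N : ℝ) * M ^ 2 * (1 / (n : ℝ)) ^ (a + 1) + M * (1 / (n : ℝ)) < 1)
    (h2 : (N : ℝ) * M ^ 2 * (1 - (1 / (Q : ℝ)) ^ (a * a)) ^ l +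
      (n : ℝ) ^ k * (1 / (Q : ℝ)) ^ (k * k) < 1) :
    (fun x => ∃ T : Fin k → Fin n, ∀ j j', x ((j, T j), (j', T j')) = true) ∉ L := by
  classical
  intro hmem
  have hs : 1 ≤ a * a := Nat.mul_pos ha ha
  obtain ⟨Ps, Ns, c1, c2, c3, c4, c5⟩ := approx_dnf hs hl hL
  have hb : ((L.length * sun l (a * a) ^ 2 : ℕ) : ℝ) ≤ (N : ℝ) * M ^ 2 := by
    push_cast
    have h5 : (L.length : ℝ) ≤ N := by exact_mod_cast hN
    have h6 : ((sun l (a * a) : ℕ) : ℝ) ≤ M := by exact_mod_cast hM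
    exact mul_le_mul h5 (pow_le_pow_left₀ (Nat.cast_nonneg _) h6 2) (by positivity)
      (Nat.cast_nonneg _)
  have hPs : (Ps.card : ℝ) ≤ (N : ℝ) * M ^ 2 := le_trans (by exact_mod_cast c1) hb
  have hNs : (Ns.card : ℝ) ≤ (N : ℝ) * M ^ 2 := le_trans (by exact_mod_cast c2) hb
  have : Nonempty (Fin n) := ⟨⟨0, hn⟩⟩
  have : Nonempty (Fin Q) := ⟨⟨0, hQ⟩⟩
  obtain ⟨T, hT1, hT2, hT3, hT4⟩ := c5 _ hmem
  -- the terms must contain the empty one
  have hempty : ∅ ∈ T := by
    by_contra hne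
    have e1 : PP (uw (Fin n)) (fun S : Fin k → Fin n => ∃ C ∈ Ns, a < (grp C).card ∧
        ∀ v ∈ C, XC S v = true) ≤ (N : ℝ) * M ^ 2 * (1 / (n : ℝ)) ^ (a + 1) := by
      refine (PP_exists_le uw_nonneg Ns _ ((1 / (n : ℝ)) ^ (a + 1)) ?_).trans
        (mul_le_mul_of_nonneg_right hNs (by positivity))
      intro C _
      by_cases hc : a < (grp C).card
      · refine (PP_mono uw_nonneg ?_).trans (PP_planted hn C hc)
        exact fun S h => h.2
      · have : (fun S : Fin k → Fin n => a < (grp C).card ∧ ∀ v ∈ C, XC S v = true) =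
            fun _ => False := by
          funext S
          exact eq_false fun h => hc h.1
        rw [this, PP_eq]
        simp only [if_false]
        have h4 := EE_const (V := Fin k) (uw_sum (α := Fin n)) 0
        rw [h4]
        positivity
    have e2 : PP (uw (Fin n)) (fun S : Fin k → Fin n => ∃ C ∈ T, ∀ v ∈ C, XC S v = true) ≤
        M * (1 / (n : ℝ)) := by
      have hTM : (T.card : ℝ) ≤ M := by exact_mod_cast hT1.trans hM
      refine (PP_exists_le uw_nonneg T _ (1 / (n : ℝ)) ?_).trans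
        (mul_le_mul_of_nonneg_right hTM (by positivity))
      intro C hC
      have hCne : C.Nonempty := by
        rw [Finset.nonempty_iff_ne_empty]
        rintro rfl
        exact hne hC
      obtain ⟨v, hv⟩ := hCne
      have hg : 1 ≤ (grp C).card := by
        rw [Nat.succ_le_iff, Finset.card_pos]
        exact ⟨v.1.1, Finset.mem_union_left _ (Finset.mem_image.2 ⟨v, hv, rfl⟩)⟩
      have := PP_planted hn C hg
      rwa [pow_one] at this
    obtain ⟨S, hS⟩ := PP_lt_one uw_sum (lt_of_le_of_lt ((PP_or uw_nonneg _ _).trans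
      (add_le_add e1 e2)) h1)
    push Not at hS
    obtain ⟨g1, g2⟩ := hS
    have h5 : dnf T (XC S) := by
      apply hT3
      · intro C hC
        by_contra hcon
        push Not at hcon
        have hall : ∀ v ∈ C, XC S v = true := fun v hv => by simpa using hcon v hv
        by_cases hc : a < (grp C).card
        · obtain ⟨v, hv, hne'⟩ := g1 C hC hc
          exact hne' (hall v hv)
        · have h6 := planted_card hall (Nat.le_of_not_lt hc)
          have h7 := c4 C hC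
          omega
      · exact ⟨S, fun j j' => XC_iff.2 ⟨rfl, rfl⟩⟩
    obtain ⟨C, hC, hv⟩ := h5
    obtain ⟨v, hv1, hv2⟩ := g2 C hC
    exact hv2 (hv v hv1)
  -- a random graph
  let z : Fin Q := ⟨0, hQ⟩
  have hQ1 : (1 / (Q : ℝ)) ^ (a * a) ≤ 1 := by
    apply pow_le_one₀ (by positivity)
    rw [div_le_one (by exact_mod_cast hQ)]
    exact_mod_cast hQ
  have e1 : PP (uw (Fin Q)) (fun g : PV k n → Fin Q =>
      ∃ P ∈ Ps, ∀ C ∈ P, ∃ v ∈ C, g v ≠ z) ≤
      (N : ℝ) * M ^ 2 * (1 - (1 / (Q : ℝ)) ^ (a * a)) ^ l := by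
    refine (PP_exists_le uw_nonneg Ps _ ((1 - (1 / (Q : ℝ)) ^ (a * a)) ^ l) ?_).trans
      (mul_le_mul_of_nonneg_right hPs (pow_nonneg (by linarith) _))
    intro P hP
    have hP' := c3 P hP
    have := PP_miss (α := Fin Q) (a * a) P (fun C => C) (fun _ _ => z) hP'.small hP'.disj
    rw [hP'.card, Fintype.card_fin] at this
    exact this
  have e2 : PP (uw (Fin Q)) (fun g : PV k n → Fin Q =>
      ∃ T ∈ (univ : Finset (Fin k → Fin n)), ∀ v ∈ (univ : Finset (Fin k × Fin k)).image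
        (fun p => (((p.1, T p.1), (p.2, T p.2)) : PV k n)), g v = z) ≤
      (n : ℝ) ^ k * (1 / (Q : ℝ)) ^ (k * k) := by
    refine (PP_exists_le uw_nonneg univ _ ((1 / (Q : ℝ)) ^ (k * k)) ?_).trans ?_
    · intro T _
      rw [PP_pattern _ (fun _ => z), Finset.card_image_of_injective, Finset.card_univ,
        Fintype.card_prod, Fintype.card_fin, Fintype.card_fin]
      rintro ⟨j, j'⟩ ⟨i, i'⟩ h
      simp only [Prod.mk.injEq] at h
      exact Prod.ext h.1.1 h.2.1
    · rw [Finset.card_univ, Fintype.card_fun, Fintype.card_fin, Fintype.card_fin]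
      push_cast
      exact le_refl _
  obtain ⟨g, hg⟩ := PP_lt_one uw_sum (lt_of_le_of_lt ((PP_or uw_nonneg _ _).trans
    (add_le_add e1 e2)) h2)
  push Not at hg
  obtain ⟨g1, g2⟩ := hg
  have h5 := hT4 (fun v => decide (g v = z)) (by
    intro P hP
    obtain ⟨C, hC, hv⟩ := g1 P hP
    exact ⟨C, hC, fun v hv' => by simpa using hv v hv'⟩) ⟨∅, hempty, by simp⟩
  obtain ⟨T', hT'⟩ := h5
  obtain ⟨v, hv, hne⟩ := g2 T' (Finset.mem_univ _)
  obtain ⟨p, _, rfl⟩ := Finset.mem_image.1 hv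
  have h6 := hT' p.1 p.2
  simp only [decide_eq_true_eq] at h6
  exact hne h6

end clique

/-- threshold for the first link -/
def thr1 (c : ℕ) : ℕ := 2 * (((4 * c + 4) * (4 * c + 4) + 1) * ((4 * c + 4) * (4 * c + 4) + 2)) + 2

/-- **the first link** -/
theorem linkF (c k : ℕ) (hk : thr1 c ≤ k) : ¬ SliceMon c k (GAMMA 1 2) (GAMMA 1 1) := by
  rintro ⟨e, hred⟩
  obtain ⟨C, hC⟩ : ∃ C, C = 4 * c + 3 := ⟨_, rfl⟩
  obtain ⟨a, ha⟩ : ∃ a, a = C + 1 := ⟨_, rfl⟩
  obtain ⟨s, hs⟩ : ∃ s, s = a * a := ⟨_, rfl⟩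
  obtain ⟨p, hp⟩ : ∃ p, p = 2 * ((s + 1) * (s + 2)) := ⟨_, rfl⟩
  have hkp : p + 2 ≤ k := by
    refine le_trans (le_of_eq ?_) hk
    rw [hp, hs, ha, hC]
    unfold thr1
    ring
  have hp4 : 4 ≤ p := by
    rw [hp]
    nlinarith
  have hev := ((((eventually_pow ((2 * s) ^ s)).and (eventually_pow (9 * (e + 1)))).and
    (eventually_exp (p * (C + 1)) 1 (le_refl _) (show (0 : ℝ) < 1 / 2 by norm_num))).and
    (eventually_pow (k + 2))).and (eventually_ge_atTop 2)
  obtain ⟨β, ⟨⟨⟨hM0, he9⟩, hexp1⟩, hkx⟩, hβ⟩ := hev.exists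
  obtain ⟨x, hx⟩ : ∃ x, x = 2 ^ β := ⟨_, rfl⟩
  have hx4 : 4 ≤ x := by
    rw [hx]
    calc 4 = 2 ^ 2 := rfl
      _ ≤ 2 ^ β := Nat.pow_le_pow_right (by omega) hβ
  obtain ⟨l, hl⟩ : ∃ l, l = x ^ (s + 1) := ⟨_, rfl⟩
  obtain ⟨M, hM⟩ : ∃ M, M = l ^ (s + 2) := ⟨_, rfl⟩
  obtain ⟨n, hn⟩ : ∃ n, n = x ^ p := ⟨_, rfl⟩
  have hxl : x ≤ l := by
    rw [hl]
    calc x = x ^ 1 := (pow_one x).symm
      _ ≤ x ^ (s + 1) := Nat.pow_le_pow_right (by omega) (by omega)
  have hxM1 : x ≤ M := by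
    rw [hM]
    calc x ≤ l := hxl
      _ = l ^ 1 := (pow_one l).symm
      _ ≤ l ^ (s + 2) := Nat.pow_le_pow_right (by omega) (by omega)
  have hMn : M ^ 2 = n := by
    rw [hM, hn, hp, hl, ← pow_mul, ← pow_mul]
    congr 1
    ring
  have hMn1 : M ≤ n := by
    rw [← hMn, pow_two]
    nlinarith
  have hn1 : 1 ≤ n := by omega
  rw [← hx] at hM0 he9 hkx
  have hnr : ((2 : ℝ) ^ β) ^ p = (n : ℝ) := by
    rw [hn, hx]
    push_cast
    rfl
  have hxr : ((2 : ℝ) ^ β) = (x : ℝ) := by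
    rw [hx]
    push_cast
    rfl
  have hx0 : (0 : ℝ) < x := by exact_mod_cast (show 0 < x by omega)
  have hM0' : (0 : ℝ) < M := by exact_mod_cast (show 0 < M by omega)
  have hn0 : (0 : ℝ) < n := by exact_mod_cast (show 0 < n by omega)
  rw [pow_mul, hnr, hxr] at hexp1
  have hM4r : (4 : ℝ) ≤ M := by exact_mod_cast (show 4 ≤ M by omega)
  have hn4r : (4 : ℝ) ≤ n := by exact_mod_cast (show 4 ≤ n by omega)
  have hx4r : (4 : ℝ) ≤ x := by exact_mod_cast hx4
  have hMnr : (M : ℝ) ^ 2 = n := by exact_mod_cast hMn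
  -- the reduction
  obtain ⟨F', hF', hsize, k', hk', Mm, ⟨L, hL1, hL2, hL3⟩, hM2⟩ :=
    hred (oneF (Fin k × Fin n)) (oneF_mem _ 2)
  have hZ : (oneF (Fin k × Fin n)).size + 1 ≤ n ^ 2 := by
    have h1 : (oneF (Fin k × Fin n)).size = 1 + k * n := by
      show Nat.card Unit + Nat.card (Fin k × Fin n) = _
      rw [Nat.card_prod, Nat.card_fin, Nat.card_fin, Nat.card_unique]
    rw [h1, pow_two]
    have h2 : (k + 2) * n ≤ n * n := Nat.mul_le_mul_right _ (hkx.trans (hxM1.trans hMn1))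
    nlinarith
  have hA : e * ((oneF (Fin k × Fin n)).size + 1) ^ c ≤ e * n ^ (2 * c) := by
    apply Nat.mul_le_mul_left
    rw [pow_mul]
    exact Nat.pow_le_pow_left hZ c
  have hLs := Straight.subst (V := PV k n) tabC tabC_proj hL1
  obtain ⟨L', hL'1, hL'2, hL'3⟩ := build11 hF' k' (e * n ^ (2 * c)) (hsize.trans hA) hLs
    (by rw [List.length_map]; exact hL2.trans hA) (fun x => Mm (tabC x)) (by
    intro b
    exact List.mem_map.2 ⟨_, hL3 b, rfl⟩)
  have hmem : (fun x : PV k n → Bool => ∃ T : Fin k → Fin n, ∀ j j',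
      x ((j, T j), (j', T j')) = true) ∈ L' := by
    have : (fun x : PV k n → Bool => ∃ T : Fin k → Fin n, ∀ j j',
        x ((j, T j), (j', T j')) = true) = fun x => WSat F' (Mm (tabC x)) k' := by
      funext x
      rw [← wsatC x]
      exact propext (hM2 (tabC x))
    rw [this]
    exact hL'3
  have hN : L'.length ≤ n ^ C := by
    refine hL'2.trans ?_
    have h1 : e * n ^ (2 * c) + 1 ≤ (e + 1) * n ^ (2 * c) := by
      have : 1 ≤ n ^ (2 * c) := Nat.one_le_pow _ _ hn1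
      nlinarith
    calc 9 * (e * n ^ (2 * c) + 1) ^ 2 ≤ 9 * ((e + 1) * n ^ (2 * c)) ^ 2 := by gcongr
      _ = (9 * (e + 1)) * (e + 1) * n ^ (4 * c) := by
        rw [mul_pow, ← pow_mul]
        ring_nf
      _ ≤ n * n * n ^ (4 * c) := by
        have h2 : 9 * (e + 1) ≤ n := he9.trans (hxM1.trans hMn1)
        apply Nat.mul_le_mul_right
        apply Nat.mul_le_mul h2
        omega
      _ = n ^ (4 * c + 2) := by ring
      _ ≤ n ^ C := Nat.pow_le_pow_right hn1 (by omega)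
  refine no_clique (k := k) (n := n) hn1 (a := a) (l := l) (N := n ^ C) (M := M) (Q := x)
    (by omega) (by omega) (by omega) ?_ L' hL'1 hN ?_ ?_ hmem
  · rw [← hs]
    refine (sun_le (by omega) s).trans ?_
    rw [hM]
    calc l ^ (s + 1) * (2 * s) ^ s ≤ l ^ (s + 1) * l :=
          Nat.mul_le_mul_left _ (hM0.trans hxl)
      _ = l ^ (s + 2) := by ring
  · push_cast
    have e1 : (n : ℝ) ^ C * M ^ 2 * (1 / (n : ℝ)) ^ (a + 1) ≤ 1 / 4 := by
      have h1 : (n : ℝ) ^ C * M ^ 2 = (n : ℝ) ^ (C + 1) := by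
        rw [hMnr, pow_succ]
      rw [h1, ha, one_div, inv_pow]
      have h2 : (n : ℝ) ^ (C + 1) * ((n : ℝ) ^ (C + 1 + 1))⁻¹ = (n : ℝ)⁻¹ := by
        rw [pow_succ (n : ℝ) (C + 1), mul_inv, ← mul_assoc, mul_inv_cancel₀ (by positivity),
          one_mul]
      rw [h2, ← one_div]
      exact one_div_le_one_div_of_le (by norm_num) hn4r
    have e2 : (M : ℝ) * (1 / n) ≤ 1 / 4 := by
      have h1 : (M : ℝ) * (1 / n) = 1 / M := by
        rw [← hMnr]
        field_simp
      rw [h1]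
      exact one_div_le_one_div_of_le (by norm_num) hM4r
    linarith
  · push_cast
    have e2 : (n : ℝ) ^ C * M ^ 2 * (1 - (1 / (x : ℝ)) ^ (a * a)) ^ l < 1 / 2 := by
      rw [← hs]
      have h1 : (1 / (x : ℝ)) ^ s ≤ 1 := by
        apply pow_le_one₀ (by positivity)
        rw [div_le_one hx0]
        linarith
      have h2 := one_sub_pow_le h1 l
      have h3 : (l : ℝ) * (1 / (x : ℝ)) ^ s = x := by
        rw [hl]
        push_cast
        rw [one_div, inv_pow, pow_succ, mul_comm ((x : ℝ) ^ s), mul_assoc,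
          mul_inv_cancel₀ (by positivity), mul_one]
      rw [h3] at h2
      calc (n : ℝ) ^ C * M ^ 2 * (1 - (1 / (x : ℝ)) ^ s) ^ l
          ≤ (n : ℝ) ^ C * M ^ 2 * Real.exp (-(x : ℝ)) :=
            mul_le_mul_of_nonneg_left h2 (by positivity)
        _ = (n : ℝ) ^ (C + 1) * Real.exp (-((x : ℝ) / ((1 : ℕ) : ℝ))) := by
          rw [hMnr, pow_succ, Nat.cast_one, div_one]
        _ < 1 / 2 := hexp1
    have e3 : (n : ℝ) ^ k * (1 / (x : ℝ)) ^ (k * k) ≤ 1 / 4 := by
      have h1 : (n : ℝ) * (1 / (x : ℝ)) ^ k ≤ 1 / 4 := by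
        have h2 : n * 4 ≤ x ^ k := by
          calc n * 4 ≤ n * x := Nat.mul_le_mul_left _ hx4
            _ = x ^ (p + 1) := by rw [hn]; ring
            _ ≤ x ^ k := Nat.pow_le_pow_right (by omega) (by omega)
        have h2' : (n : ℝ) * 4 ≤ (x : ℝ) ^ k := by exact_mod_cast h2
        rw [one_div, inv_pow, ← div_eq_mul_inv, div_le_iff₀ (by positivity)]
        linarith
      rw [pow_mul, ← mul_pow]
      calc ((n : ℝ) * (1 / (x : ℝ)) ^ k) ^ k ≤ (1 / 4) ^ k :=
            pow_le_pow_left₀ (by positivity) h1 k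
        _ ≤ (1 / 4) ^ 1 := pow_le_pow_of_le_one (by norm_num) (by norm_num) (by omega)
        _ = 1 / 4 := pow_one _
    linarith

end Pool.Agent.WSatMon
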