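import Mathlib

/-! Sunflowers. -/

namespace Pool.Agent.WSatMon

open Finset

/-- Threshold for the sunflower lemma. -/
def sun (q : ℕ) : ℕ → ℕ
  | 0 => q
  | d + 1 => q + q * (d + 1) * sun q d

theorem le_sun (q d : ℕ) : q ≤ sun q d := by
  cases d with
  | zero => exact le_refl _
  | succ d => exact Nat.le_add_right _ _

/-- a crude bound for the threshold -/
theorem sun_le {q : ℕ} (hq : 1 ≤ q) : ∀ d, sun q d ≤ q ^ (d + 1) * (2 * d) ^ d := by
  intro d
  induction d with
  | zero => simp [sun]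
  | succ d ih =>
    have h1 : 1 ≤ q ^ (d + 1) * (2 * d) ^ d := by
      rcases Nat.eq_zero_or_pos d with rfl | hd
      · simpa using hq
      · exact Nat.one_le_iff_ne_zero.2 (Nat.mul_ne_zero (pow_ne_zero _ (by omega))
          (pow_ne_zero _ (by omega)))
    have h2 : q + q * (d + 1) * sun q d ≤ q * (2 * (d + 1)) * (q ^ (d + 1) * (2 * d) ^ d) := by
      have h3 : q * (d + 1) * sun q d ≤ q * (d + 1) * (q ^ (d + 1) * (2 * d) ^ d) :=
        Nat.mul_le_mul_left _ ih
      have h4 : q ≤ q * (d + 1) * (q ^ (d + 1) * (2 * d) ^ d) := by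
        calc q = q * 1 * 1 := by ring
          _ ≤ q * (d + 1) * (q ^ (d + 1) * (2 * d) ^ d) :=
            Nat.mul_le_mul (Nat.mul_le_mul_left _ (by omega)) h1
      have h5 : q * (2 * (d + 1)) * (q ^ (d + 1) * (2 * d) ^ d) =
          q * (d + 1) * (q ^ (d + 1) * (2 * d) ^ d) +
          q * (d + 1) * (q ^ (d + 1) * (2 * d) ^ d) := by ring
      rw [h5]
      exact Nat.add_le_add h4 h3
    calc sun q (d + 1) = q + q * (d + 1) * sun q d := rfl
      _ ≤ q * (2 * (d + 1)) * (q ^ (d + 1) * (2 * d) ^ d) := h2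
      _ = q ^ (d + 1 + 1) * ((2 * (d + 1)) * (2 * d) ^ d) := by ring
      _ ≤ q ^ (d + 1 + 1) * ((2 * (d + 1)) * (2 * (d + 1)) ^ d) :=
        Nat.mul_le_mul_left _ (Nat.mul_le_mul_left _ (Nat.pow_le_pow_left (by omega) _))
      _ = q ^ (d + 1 + 1) * (2 * (d + 1)) ^ (d + 1) := by ring

theorem sunflower {Ψ ι : Type*} [DecidableEq Ψ] [DecidableEq ι] (q d : ℕ) :
    ∀ (T : ι → Finset Ψ) (B : Finset ι),
    (∀ i ∈ B, (T i).card ≤ d) → sun q d ≤ B.card →
    ∃ (W : Finset Ψ) (B' : Finset ι), B' ⊆ B ∧ q ≤ B'.card ∧ (∀ i ∈ B', W ⊆ T i) ∧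
      ∀ i ∈ B', ∀ j ∈ B', i ≠ j → Disjoint (T i \ W) (T j \ W) := by
  induction d with
  | zero =>
    intro T B hT hB
    refine ⟨∅, B, Subset.refl _, hB, fun i _ => empty_subset _, ?_⟩
    intro i hi j hj _
    have : T i = ∅ := Finset.card_eq_zero.mp (Nat.le_zero.mp (hT i hi))
    simp [this]
  | succ d ih =>
    intro T B hT hB
    classical
    set P : Finset (Finset ι) := B.powerset.filter
      (fun C => ∀ i ∈ C, ∀ j ∈ C, i ≠ j → Disjoint (T i) (T j)) with hP
    have hne : P.Nonempty := ⟨∅, by simp [hP]⟩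
    obtain ⟨B0, hB0, hmax⟩ := Finset.exists_max_image P Finset.card hne
    simp only [hP, mem_filter, mem_powerset] at hB0 hmax
    obtain ⟨hB0B, hdis⟩ := hB0
    by_cases hq : q ≤ B0.card
    · exact ⟨∅, B0, hB0B, hq, fun i _ => empty_subset _, fun i hi j hj hij => by
        simpa using hdis i hi j hj hij⟩
    push Not at hq
    set U := B0.biUnion T with hU
    have hUcard : U.card ≤ q * (d + 1) := by
      refine (Finset.card_biUnion_le_card_mul B0 T (d + 1) (fun i hi => hT i (hB0B hi))).trans ?_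
      exact Nat.mul_le_mul_right _ hq.le
    have hhit : ∀ i ∈ B \ B0, ∃ x, x ∈ U ∧ x ∈ T i := by
      intro i hi
      rw [mem_sdiff] at hi
      by_contra hcon
      push Not at hcon
      have h1 : insert i B0 ⊆ B := insert_subset hi.1 hB0B
      have hdi : ∀ j ∈ B0, Disjoint (T i) (T j) := by
        intro j hj
        rw [Finset.disjoint_left]
        intro x hx hxj
        exact hcon x (mem_biUnion.mpr ⟨j, hj, hxj⟩) hx
      have h2 := hmax (insert i B0) ⟨h1, by
        intro a ha b hb hab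
        rw [mem_insert] at ha hb
        rcases ha with rfl | ha <;> rcases hb with rfl | hb
        · exact absurd rfl hab
        · exact hdi b hb
        · exact (hdi a ha).symm
        · exact hdis a ha b hb hab⟩
      rw [card_insert_of_notMem hi.2] at h2
      omega
    have hBc : B.card ≤ (B \ B0).card + B0.card := by
      rw [Finset.card_sdiff_of_subset hB0B]; omega
    simp only [sun] at hB
    have hUne : U.Nonempty := by
      have : (B \ B0).Nonempty := by
        rw [← Finset.card_pos]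
        omega
      obtain ⟨i, hi⟩ := this
      obtain ⟨x, hx, _⟩ := hhit i hi
      exact ⟨x, hx⟩
    have : Nonempty Ψ := ⟨hUne.choose⟩
    choose! g hgU hgT using hhit
    have hn : U.card * sun q d ≤ (B \ B0).card := by
      have := Nat.mul_le_mul_right (sun q d) hUcard
      omega
    obtain ⟨x, hxU, hx⟩ := Finset.exists_le_card_fiber_of_mul_le_card_of_maps_to hgU hUne hn
    set B1 := (B \ B0).filter (fun i => g i = x) with hB1
    have hxT : ∀ i ∈ B1, x ∈ T i := by
      intro i hi
      rw [hB1, mem_filter] at hi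
      rw [← hi.2]
      exact hgT i hi.1
    obtain ⟨W, B', hB'1, hB'2, hW, hd⟩ := ih (fun i => (T i).erase x) B1 (by
      intro i hi
      rw [card_erase_of_mem (hxT i hi)]
      have := hT i (mem_sdiff.mp (mem_filter.mp hi).1).1
      omega) hx
    refine ⟨insert x W, B', ?_, hB'2, ?_, ?_⟩
    · intro i hi
      exact (mem_sdiff.mp (mem_filter.mp (hB'1 hi)).1).1
    · intro i hi
      refine insert_subset (hxT i (hB'1 hi)) ((hW i hi).trans (erase_subset _ _))
    · intro i hi j hj hij
      have := hd i hi j hj hij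
      rw [Finset.disjoint_left] at this ⊢
      intro y hy hy'
      simp only [mem_sdiff, mem_insert, not_or] at hy hy'
      exact this (mem_sdiff.mpr ⟨mem_erase.mpr ⟨hy.2.1, hy.1⟩, hy.2.2⟩)
        (mem_sdiff.mpr ⟨mem_erase.mpr ⟨hy'.2.1, hy'.1⟩, hy'.2.2⟩)

end Pool.Agent.WSatMon
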