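import Pool.Agent.WSatMon.Def
import Pool.Agent.WSatMon.Sun

/-! The method of approximations. -/

namespace Pool.Agent.WSatMon

open Finset

variable {V : Type} [DecidableEq V]

/-- `x` satisfies all clauses -/
def cnf (A : Finset (Finset V)) (x : V → Bool) : Prop := ∀ C ∈ A, ∃ v ∈ C, x v = true

/-- `x` satisfies a term -/
def dnf (A : Finset (Finset V)) (x : V → Bool) : Prop := ∃ C ∈ A, ∀ v ∈ C, x v = true

/-- `l` pairwise disjoint sets with at most `s` elements -/
structure Petal (l s : ℕ) (P : Finset (Finset V)) : Prop where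
  card : P.card = l
  small : ∀ C ∈ P, C.card ≤ s
  disj : ∀ C ∈ P, ∀ D ∈ P, C ≠ D → Disjoint C D

omit [DecidableEq V] in
theorem cnf_mono {A : Finset (Finset V)} {x y : V → Bool} (h : ∀ v, x v = true → y v = true)
    (hx : cnf A x) : cnf A y := by
  intro C hC
  obtain ⟨v, hv, hxv⟩ := hx C hC
  exact ⟨v, hv, h v hxv⟩

omit [DecidableEq V] in
theorem dnf_mono {A : Finset (Finset V)} {x y : V → Bool} (h : ∀ v, x v = true → y v = true)
    (hx : dnf A x) : dnf A y := by
  obtain ⟨C, hC, hv⟩ := hx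
  exact ⟨C, hC, fun v hv' => h v (hv v hv')⟩

/-- one plucking -/
theorem pluck_one {s l : ℕ} (hl : 2 ≤ l) {A : Finset (Finset V)} (hs : ∀ C ∈ A, C.card ≤ s)
    (hA : sun l s ≤ A.card) : ∃ (P : Finset (Finset V)) (A' : Finset (Finset V)),
      Petal l s P ∧ A'.card < A.card ∧ (∀ C ∈ A', C.card ≤ s) ∧
      (∀ x, ¬ cnf P x → cnf A x → cnf A' x) ∧ ∀ y, cnf A' y → cnf A y := by
  obtain ⟨W, B0, hB0, hq, hW, hdis⟩ := sunflower l s (fun C : Finset V => C) A hs hA
  obtain ⟨B, hB1, hB2⟩ := Finset.exists_subset_card_eq hq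
  have hBA : B ⊆ A := hB1.trans hB0
  have hinj : Set.InjOn (fun C : Finset V => C \ W) (B : Set (Finset V)) := by
    intro C hC D hD hCD
    by_contra hne
    have h1 := hdis C (hB1 hC) D (hB1 hD) hne
    have hCD' : C \ W = D \ W := hCD
    rw [hCD', disjoint_self] at h1
    have h2 : D = W := Subset.antisymm (Finset.sdiff_eq_empty_iff_subset.1 h1) (hW D (hB1 hD))
    have h3 : C = W := Subset.antisymm (Finset.sdiff_eq_empty_iff_subset.1 (hCD'.trans h1))
      (hW C (hB1 hC))
    exact hne (h3.trans h2.symm)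
  refine ⟨B.image (fun C => C \ W), insert W (A \ B), ⟨?_, ?_, ?_⟩, ?_, ?_, ?_, ?_⟩
  · rw [Finset.card_image_of_injOn hinj, hB2]
  · intro C hC
    obtain ⟨D, hD, rfl⟩ := Finset.mem_image.1 hC
    exact (Finset.card_le_card sdiff_subset).trans (hs D (hBA hD))
  · intro C hC D hD hne
    obtain ⟨C', hC', rfl⟩ := Finset.mem_image.1 hC
    obtain ⟨D', hD', rfl⟩ := Finset.mem_image.1 hD
    exact hdis C' (hB1 hC') D' (hB1 hD') fun h => hne (by rw [h])
  · have h1 := Finset.card_insert_le W (A \ B)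
    rw [Finset.card_sdiff_of_subset hBA, hB2] at h1
    have h2 := Finset.card_le_card hBA
    omega
  · intro C hC
    rcases Finset.mem_insert.1 hC with rfl | hC
    · have hne : B.Nonempty := by
        rw [← Finset.card_pos, hB2]
        omega
      obtain ⟨D, hD⟩ := hne
      exact (Finset.card_le_card (hW D (hB1 hD))).trans (hs D (hBA hD))
    · exact hs C (Finset.mem_sdiff.1 hC).1
  · intro x hP hx C hC
    rcases Finset.mem_insert.1 hC with rfl | hC
    · by_contra hcon
      apply hP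
      intro D hD
      obtain ⟨D', hD', rfl⟩ := Finset.mem_image.1 hD
      obtain ⟨v, hv, hxv⟩ := hx D' (hBA hD')
      refine ⟨v, Finset.mem_sdiff.2 ⟨hv, fun hvC => hcon ⟨v, hvC, hxv⟩⟩, hxv⟩
    · exact hx C (Finset.mem_sdiff.1 hC).1
  · intro y hy C hC
    by_cases hCB : C ∈ B
    · obtain ⟨v, hv, hyv⟩ := hy W (Finset.mem_insert_self _ _)
      exact ⟨v, hW C (hB1 hCB) hv, hyv⟩
    · exact hy C (Finset.mem_insert_of_mem (Finset.mem_sdiff.2 ⟨hC, hCB⟩))

/-- plucking until there are few clauses -/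
theorem pluck {s l : ℕ} (hl : 2 ≤ l) : ∀ (n : ℕ) (A : Finset (Finset V)), A.card ≤ n →
    (∀ C ∈ A, C.card ≤ s) → ∃ (Ps : Finset (Finset (Finset V))) (A' : Finset (Finset V)),
      Ps.card ≤ n ∧ (∀ P ∈ Ps, Petal l s P) ∧ A'.card ≤ sun l s ∧ (∀ C ∈ A', C.card ≤ s) ∧
      (∀ x, (∀ P ∈ Ps, ¬ cnf P x) → cnf A x → cnf A' x) ∧ ∀ y, cnf A' y → cnf A y := by
  intro n
  induction n with
  | zero =>
    intro A hA hs
    exact ⟨∅, A, by simp, by simp, by omega, hs, fun x _ h => h, fun y h => h⟩
  | succ n ih =>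
    intro A hA hs
    by_cases hc : A.card ≤ sun l s
    · exact ⟨∅, A, by simp, by simp, hc, hs, fun x _ h => h, fun y h => h⟩
    · obtain ⟨P, A1, hP, h1, h2, h3, h4⟩ := pluck_one hl hs (by omega : sun l s ≤ A.card)
      obtain ⟨Ps, A', g1, g2, g3, g4, g5, g6⟩ := ih A1 (by omega) h2
      refine ⟨insert P Ps, A', ?_, ?_, g3, g4, ?_, fun y hy => h4 y (g6 y hy)⟩
      · have := Finset.card_insert_le P Ps
        omega
      · intro P' hP'
        rcases Finset.mem_insert.1 hP' with rfl | hP'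
        · exact hP
        · exact g2 P' hP'
      · intro x hx hA
        exact g5 x (fun P' hP' => hx P' (Finset.mem_insert_of_mem hP'))
          (h3 x (hx P (Finset.mem_insert_self _ _)) hA)

/-- what it means that `A` approximates `g` -/
def Appr (l s : ℕ) (Ps : Finset (Finset (Finset V))) (Ns : Finset (Finset V))
    (g : (V → Bool) → Prop) (A : Finset (Finset V)) : Prop :=
  A.card ≤ sun l s ∧ (∀ C ∈ A, C.card ≤ s) ∧
    (∀ x, (∀ P ∈ Ps, ¬ cnf P x) → g x → cnf A x) ∧
    ∀ y, (∀ C ∈ Ns, ∃ v ∈ C, y v = true) → cnf A y → g y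

omit [DecidableEq V] in
theorem Appr.weaken {l s : ℕ} {Ps Ps' : Finset (Finset (Finset V))} {Ns Ns' : Finset (Finset V)}
    {g : (V → Bool) → Prop} {A : Finset (Finset V)} (h : Appr l s Ps Ns g A) (h1 : Ps ⊆ Ps')
    (h2 : Ns ⊆ Ns') : Appr l s Ps' Ns' g A :=
  ⟨h.1, h.2.1, fun x hx => h.2.2.1 x fun P hP => hx P (h1 hP),
    fun y hy => h.2.2.2 y fun C hC => hy C (h2 hC)⟩

/-- **approximation by short clauses** -/
theorem approx_cnf {s l : ℕ} (hs : 1 ≤ s) (hl : 2 ≤ l) {L : List ((V → Bool) → Prop)}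
    (hL : Straight L) : ∃ (Ps : Finset (Finset (Finset V))) (Ns : Finset (Finset V)),
      Ps.card ≤ L.length * sun l s ^ 2 ∧ Ns.card ≤ L.length * sun l s ^ 2 ∧
      (∀ P ∈ Ps, Petal l s P) ∧ (∀ C ∈ Ns, s < C.card) ∧
      ∀ g ∈ L, ∃ A, Appr l s Ps Ns g A := by
  have hM : 2 ≤ sun l s := hl.trans (le_sun l s)
  induction hL with
  | nil => exact ⟨∅, ∅, by simp, by simp, by simp, by simp, by simp⟩
  | const b _ ih =>
    obtain ⟨Ps, Ns, h1, h2, h3, h4, h5⟩ := ih
    refine ⟨Ps, Ns, h1.trans (Nat.mul_le_mul_right _ (by simp)),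
      h2.trans (Nat.mul_le_mul_right _ (by simp)), h3, h4, ?_⟩
    intro g hg
    rcases List.mem_cons.1 hg with rfl | hg
    · by_cases hb : b
      · exact ⟨∅, by simp, by simp, fun x _ _ C hC => by simp at hC, fun y _ _ => hb⟩
      · refine ⟨{∅}, by simp; omega, by simp, fun x _ h => absurd h hb, ?_⟩
        intro y _ hy
        obtain ⟨v, hv, _⟩ := hy ∅ (by simp)
        simp at hv
    · exact h5 g hg
  | input v _ ih =>
    obtain ⟨Ps, Ns, h1, h2, h3, h4, h5⟩ := ih
    refine ⟨Ps, Ns, h1.trans (Nat.mul_le_mul_right _ (by simp)),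
      h2.trans (Nat.mul_le_mul_right _ (by simp)), h3, h4, ?_⟩
    intro g hg
    rcases List.mem_cons.1 hg with rfl | hg
    · refine ⟨{{v}}, by simp; omega, by simp [hs], ?_, ?_⟩
      · intro x _ h C hC
        rw [Finset.mem_singleton] at hC
        subst hC
        exact ⟨v, by simp, h⟩
      · intro y _ hy
        obtain ⟨w, hw, hyw⟩ := hy {v} (by simp)
        rw [Finset.mem_singleton] at hw
        subst hw
        exact hyw
    · exact h5 g hg
  | @and L f g hL hf hg ih =>
    obtain ⟨Ps, Ns, h1, h2, h3, h4, h5⟩ := ih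
    obtain ⟨A, hA1, hA2, hA3, hA4⟩ := h5 f hf
    obtain ⟨B, hB1, hB2, hB3, hB4⟩ := h5 g hg
    have hAB : (A ∪ B).card ≤ sun l s ^ 2 := by
      have h6 := Finset.card_union_le A B
      have h7 : sun l s * 2 ≤ sun l s ^ 2 := by
        rw [pow_two]
        exact Nat.mul_le_mul_left _ hM
      omega
    obtain ⟨Qs, D, g1, g2, g3, g4, g5, g6⟩ := pluck (s := s) hl _ (A ∪ B) hAB (by
      intro C hC
      rcases Finset.mem_union.1 hC with h | h
      · exact hA2 C h
      · exact hB2 C h)
    refine ⟨Ps ∪ Qs, Ns, ?_, h2.trans (Nat.mul_le_mul_right _ (by simp)), ?_, h4, ?_⟩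
    · have h6 := Finset.card_union_le Ps Qs
      have h7 : (((fun x => f x ∧ g x) :: L).length) * sun l s ^ 2 =
          L.length * sun l s ^ 2 + sun l s ^ 2 := by
        rw [List.length_cons]
        ring
      omega
    · intro P hP
      rcases Finset.mem_union.1 hP with h | h
      · exact h3 P h
      · exact g2 P h
    · intro h hh
      rcases List.mem_cons.1 hh with rfl | hh
      · refine ⟨D, g3, g4, ?_, ?_⟩
        · intro x hx hfg
          have hx1 : ∀ P ∈ Ps, ¬ cnf P x := fun P hP => hx P (Finset.mem_union_left _ hP)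
          refine g5 x (fun P hP => hx P (Finset.mem_union_right _ hP)) ?_
          intro C hC
          rcases Finset.mem_union.1 hC with h | h
          · exact hA3 x hx1 hfg.1 C h
          · exact hB3 x hx1 hfg.2 C h
        · intro y hy hD
          have h8 := g6 y hD
          exact ⟨hA4 y hy fun C hC => h8 C (Finset.mem_union_left _ hC),
            hB4 y hy fun C hC => h8 C (Finset.mem_union_right _ hC)⟩
      · obtain ⟨A0, hA0⟩ := h5 h hh
        exact ⟨A0, hA0.weaken Finset.subset_union_left (Finset.Subset.refl _)⟩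
  | @or L f g hL hf hg ih =>
    obtain ⟨Ps, Ns, h1, h2, h3, h4, h5⟩ := ih
    obtain ⟨A, hA1, hA2, hA3, hA4⟩ := h5 f hf
    obtain ⟨B, hB1, hB2, hB3, hB4⟩ := h5 g hg
    let U : Finset (Finset V) := (A ×ˢ B).image fun p => p.1 ∪ p.2
    have hU : U.card ≤ sun l s ^ 2 := by
      refine Finset.card_image_le.trans ?_
      rw [Finset.card_product, pow_two]
      exact Nat.mul_le_mul hA1 hB1
    obtain ⟨Qs, D, g1, g2, g3, g4, g5, g6⟩ := pluck (s := s) hl _ (U.filter fun C => C.card ≤ s)
      ((Finset.card_filter_le _ _).trans hU) (by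
      intro C hC
      exact (Finset.mem_filter.1 hC).2)
    refine ⟨Ps ∪ Qs, Ns ∪ U.filter fun C => s < C.card, ?_, ?_, ?_, ?_, ?_⟩
    · have h6 := Finset.card_union_le Ps Qs
      have h7 : (((fun x => f x ∨ g x) :: L).length) * sun l s ^ 2 =
          L.length * sun l s ^ 2 + sun l s ^ 2 := by
        rw [List.length_cons]
        ring
      omega
    · have h6 := Finset.card_union_le Ns (U.filter fun C => s < C.card)
      have h8 := (Finset.card_filter_le U (fun C => s < C.card)).trans hU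
      have h7 : (((fun x => f x ∨ g x) :: L).length) * sun l s ^ 2 =
          L.length * sun l s ^ 2 + sun l s ^ 2 := by
        rw [List.length_cons]
        ring
      omega
    · intro P hP
      rcases Finset.mem_union.1 hP with h | h
      · exact h3 P h
      · exact g2 P h
    · intro C hC
      rcases Finset.mem_union.1 hC with h | h
      · exact h4 C h
      · exact (Finset.mem_filter.1 h).2
    · intro h hh
      rcases List.mem_cons.1 hh with rfl | hh
      · refine ⟨D, g3, g4, ?_, ?_⟩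
        · intro x hx hfg
          have hx1 : ∀ P ∈ Ps, ¬ cnf P x := fun P hP => hx P (Finset.mem_union_left _ hP)
          refine g5 x (fun P hP => hx P (Finset.mem_union_right _ hP)) ?_
          intro C hC
          obtain ⟨p, hp, rfl⟩ := Finset.mem_image.1 (Finset.mem_filter.1 hC).1
          obtain ⟨hp1, hp2⟩ := Finset.mem_product.1 hp
          rcases hfg with hf' | hg'
          · obtain ⟨v, hv, hxv⟩ := hA3 x hx1 hf' p.1 hp1
            exact ⟨v, Finset.mem_union_left _ hv, hxv⟩
          · obtain ⟨v, hv, hxv⟩ := hB3 x hx1 hg' p.2 hp2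
            exact ⟨v, Finset.mem_union_right _ hv, hxv⟩
        · intro y hy hD
          have hy1 : ∀ C ∈ Ns, ∃ v ∈ C, y v = true := fun C hC =>
            hy C (Finset.mem_union_left _ hC)
          have h8 := g6 y hD
          have hall : ∀ C ∈ U, ∃ v ∈ C, y v = true := by
            intro C hC
            by_cases hCs : C.card ≤ s
            · exact h8 C (Finset.mem_filter.2 ⟨hC, hCs⟩)
            · exact hy C (Finset.mem_union_right _ (Finset.mem_filter.2 ⟨hC, by omega⟩))
          by_cases hcA : cnf A y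
          · exact Or.inl (hA4 y hy1 hcA)
          · right
            apply hB4 y hy1
            unfold cnf at hcA
            push Not at hcA
            obtain ⟨C, hC, hCy⟩ := hcA
            intro C' hC'
            obtain ⟨v, hv, hyv⟩ := hall (C ∪ C')
              (Finset.mem_image.2 ⟨(C, C'), Finset.mem_product.2 ⟨hC, hC'⟩, rfl⟩)
            rcases Finset.mem_union.1 hv with h | h
            · exact absurd hyv (hCy v h)
            · exact ⟨v, h, hyv⟩
      · obtain ⟨A0, hA0⟩ := h5 h hh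
        exact ⟨A0, hA0.weaken Finset.subset_union_left Finset.subset_union_left⟩

omit [DecidableEq V] in
/-- the dual circuit -/
theorem Straight.dual {L : List ((V → Bool) → Prop)} (hL : Straight L) :
    Straight (L.map fun g x => ¬ g fun v => !(x v)) := by
  induction hL with
  | nil => exact Straight.nil
  | const b _ ih => exact Straight.const (¬ b) ih
  | @input v L _ ih =>
    rw [List.map_cons]
    have h : (fun x : V → Bool => ¬ ((!(x v)) = true)) = fun x => x v = true := by
      funext x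
      cases x v <;> simp
    rw [h]
    exact Straight.input v ih
  | @and L f g _ hf hg ih =>
    rw [List.map_cons]
    have h : (fun x : V → Bool => ¬ ((f fun v => !(x v)) ∧ g fun v => !(x v))) =
        fun x => (¬ f fun v => !(x v)) ∨ ¬ g fun v => !(x v) := by
      funext x
      exact propext not_and_or
    rw [h]
    exact Straight.or ih (List.mem_map.2 ⟨f, hf, rfl⟩) (List.mem_map.2 ⟨g, hg, rfl⟩)
  | @or L f g _ hf hg ih =>
    rw [List.map_cons]
    have h : (fun x : V → Bool => ¬ ((f fun v => !(x v)) ∨ g fun v => !(x v))) =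
        fun x => (¬ f fun v => !(x v)) ∧ ¬ g fun v => !(x v) := by
      funext x
      exact propext not_or
    rw [h]
    exact Straight.and ih (List.mem_map.2 ⟨f, hf, rfl⟩) (List.mem_map.2 ⟨g, hg, rfl⟩)

/-- what it means that the terms `T` approximate `g` -/
def ApprD (l s : ℕ) (Ps : Finset (Finset (Finset V))) (Ns : Finset (Finset V))
    (g : (V → Bool) → Prop) (T : Finset (Finset V)) : Prop :=
  T.card ≤ sun l s ∧ (∀ C ∈ T, C.card ≤ s) ∧
    (∀ x, (∀ C ∈ Ns, ∃ v ∈ C, x v = false) → g x → dnf T x) ∧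
    ∀ y, (∀ P ∈ Ps, ∃ C ∈ P, ∀ v ∈ C, y v = true) → dnf T y → g y

/-- **approximation by short terms** -/
theorem approx_dnf {s l : ℕ} (hs : 1 ≤ s) (hl : 2 ≤ l) {L : List ((V → Bool) → Prop)}
    (hL : Straight L) : ∃ (Ps : Finset (Finset (Finset V))) (Ns : Finset (Finset V)),
      Ps.card ≤ L.length * sun l s ^ 2 ∧ Ns.card ≤ L.length * sun l s ^ 2 ∧
      (∀ P ∈ Ps, Petal l s P) ∧ (∀ C ∈ Ns, s < C.card) ∧
      ∀ g ∈ L, ∃ T, ApprD l s Ps Ns g T := by
  obtain ⟨Ps, Ns, h1, h2, h3, h4, h5⟩ := approx_cnf hs hl hL.dual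
  rw [List.length_map] at h1 h2
  refine ⟨Ps, Ns, h1, h2, h3, h4, ?_⟩
  intro g hg
  obtain ⟨T, hT1, hT2, hT3, hT4⟩ := h5 _ (List.mem_map.2 ⟨g, hg, rfl⟩)
  refine ⟨T, hT1, hT2, ?_, ?_⟩
  · intro x hx hgx
    by_contra hcon
    have h6 : cnf T fun v => !(x v) := by
      intro C hC
      by_contra hc
      apply hcon
      push Not at hc
      refine ⟨C, hC, fun v hv => ?_⟩
      have := hc v hv
      simpa using this
    have h7 := hT4 (fun v => !(x v)) ?_ h6
    · apply h7
      simpa using hgx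
    · intro C hC
      obtain ⟨v, hv, hxv⟩ := hx C hC
      exact ⟨v, hv, by simp [hxv]⟩
  · intro y hy hdn
    by_contra hcon
    have h7 := hT3 (fun v => !(y v)) ?_ ?_
    · obtain ⟨C, hC, hCy⟩ := hdn
      obtain ⟨v, hv, hyv⟩ := h7 C hC
      have := hCy v hv
      simp [this] at hyv
    · intro P hP hc
      obtain ⟨C, hC, hCy⟩ := hy P hP
      obtain ⟨v, hv, hyv⟩ := hc C hC
      have := hCy v hv
      simp [this] at hyv
    · simpa using hcon

end Pool.Agent.WSatMon
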