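import Pool.Agent.WSatMon.Def

/-! Building monotone circuits. -/

namespace Pool.Agent.WSatMon

open Finset

section build

variable {V : Type}

/-- substitution of constants and inputs -/
theorem Straight.subst {Y : Type} (tab : (V → Bool) → (Y → Bool))
    (htab : ∀ b, (∃ c : Prop, ∀ x, (tab x b = true) = c) ∨ ∃ v, ∀ x, tab x b = x v)
    {L : List ((Y → Bool) → Prop)} (hL : Straight L) :
    Straight (L.map fun g x => g (tab x)) := by
  induction hL with
  | nil => exact Straight.nil
  | const b _ ih => exact Straight.const b ih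
  | input v _ ih =>
    rw [List.map_cons]
    rcases htab v with ⟨c, hc⟩ | ⟨w, hw⟩
    · have : (fun x : V → Bool => tab x v = true) = fun _ => c := funext hc
      rw [this]
      exact Straight.const c ih
    · have : (fun x : V → Bool => tab x v = true) = fun x => x w = true := by
        funext x
        rw [hw]
      rw [this]
      exact Straight.input w ih
  | @and L f g _ hf hg ih =>
    exact Straight.and ih (List.mem_map.2 ⟨f, hf, rfl⟩) (List.mem_map.2 ⟨g, hg, rfl⟩)
  | @or L f g _ hf hg ih =>
    exact Straight.or ih (List.mem_map.2 ⟨f, hf, rfl⟩) (List.mem_map.2 ⟨g, hg, rfl⟩)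

/-- `h` can be computed from the functions of `L` with `m` more gates -/
def Buildable (L : List ((V → Bool) → Prop)) (m : ℕ) (h : (V → Bool) → Prop) : Prop :=
  ∀ L2, Straight L2 → (∀ f ∈ L, f ∈ L2) →
    ∃ L3, Straight (L3 ++ L2) ∧ L3.length ≤ m ∧ h ∈ L3 ++ L2

theorem Buildable.all {L : List ((V → Bool) → Prop)} (fs : List ((V → Bool) → Prop))
    (hfs : ∀ f ∈ fs, f ∈ L) : Buildable L (fs.length + 1) (fun x => ∀ f ∈ fs, f x) := by
  induction fs with
  | nil =>
    intro L2 h1 _
    refine ⟨[fun _ => True], Straight.const True h1, by simp, ?_⟩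
    have : (fun x : V → Bool => ∀ f ∈ ([] : List ((V → Bool) → Prop)), f x) = fun _ => True := by
      funext x
      simp
    rw [this]
    simp
  | cons f fs ih =>
    intro L2 h1 h2
    obtain ⟨L3, h3, h4, h5⟩ := ih (fun g hg => hfs g (List.mem_cons_of_mem _ hg)) L2 h1 h2
    refine ⟨(fun x => f x ∧ ∀ g ∈ fs, g x) :: L3, ?_, by simp only [List.length_cons]; omega, ?_⟩
    · exact Straight.and h3 (List.mem_append_right _ (h2 f (hfs f (by simp)))) h5
    · have : (fun x : V → Bool => ∀ g ∈ f :: fs, g x) = fun x => f x ∧ ∀ g ∈ fs, g x := by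
        funext x
        simp
      rw [this]
      simp

theorem Buildable.any {L : List ((V → Bool) → Prop)} (fs : List ((V → Bool) → Prop))
    (hfs : ∀ f ∈ fs, f ∈ L) : Buildable L (fs.length + 1) (fun x => ∃ f ∈ fs, f x) := by
  induction fs with
  | nil =>
    intro L2 h1 _
    refine ⟨[fun _ => False], Straight.const False h1, by simp, ?_⟩
    have : (fun x : V → Bool => ∃ f ∈ ([] : List ((V → Bool) → Prop)), f x) = fun _ => False := by
      funext x
      simp
    rw [this]
    simp
  | cons f fs ih =>
    intro L2 h1 h2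
    obtain ⟨L3, h3, h4, h5⟩ := ih (fun g hg => hfs g (List.mem_cons_of_mem _ hg)) L2 h1 h2
    refine ⟨(fun x => f x ∨ ∃ g ∈ fs, g x) :: L3, ?_, by simp only [List.length_cons]; omega, ?_⟩
    · exact Straight.or h3 (List.mem_append_right _ (h2 f (hfs f (by simp)))) h5
    · have : (fun x : V → Bool => ∃ g ∈ f :: fs, g x) = fun x => f x ∨ ∃ g ∈ fs, g x := by
        funext x
        simp
      rw [this]
      simp

/-- building many functions -/
theorem Buildable.multi {L : List ((V → Bool) → Prop)} (hL : Straight L) {m : ℕ} {ι : Type}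
    [Fintype ι] (h : ι → (V → Bool) → Prop) (hh : ∀ i, Buildable L m (h i)) :
    ∃ L3, Straight (L3 ++ L) ∧ L3.length ≤ Fintype.card ι * m ∧ ∀ i, h i ∈ L3 ++ L := by
  classical
  have key : ∀ I : Finset ι, ∃ L3, Straight (L3 ++ L) ∧ L3.length ≤ I.card * m ∧
      ∀ i ∈ I, h i ∈ L3 ++ L := by
    intro I
    induction I using Finset.induction_on with
    | empty => exact ⟨[], hL, by simp, by simp⟩
    | insert a I ha ih =>
      obtain ⟨L3, h1, h2, h3⟩ := ih
      obtain ⟨L4, g1, g2, g3⟩ := hh a (L3 ++ L) h1 fun f hf => List.mem_append_right _ hf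
      refine ⟨L4 ++ L3, by rw [List.append_assoc]; exact g1, ?_, ?_⟩
      · rw [List.length_append, Finset.card_insert_of_notMem ha]
        have : (I.card + 1) * m = I.card * m + m := by ring
        omega
      · intro i hi
        rw [List.append_assoc]
        rcases Finset.mem_insert.1 hi with rfl | hi
        · exact g3
        · exact List.mem_append_right _ (h3 i hi)
  obtain ⟨L3, h1, h2, h3⟩ := key univ
  exact ⟨L3, h1, by rwa [Finset.card_univ] at h2, fun i => h3 i (Finset.mem_univ _)⟩

/-- at least `j` functions of the list are true -/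
def th : List ((V → Bool) → Prop) → ℕ → (V → Bool) → Prop
  | _, 0 => fun _ => True
  | [], _ + 1 => fun _ => False
  | f :: fs, j + 1 => fun x => th fs (j + 1) x ∨ (th fs j x ∧ f x)

/-- thresholds -/
theorem build_th {L : List ((V → Bool) → Prop)} (hL : Straight L) (m : ℕ)
    (fs : List ((V → Bool) → Prop)) (hfs : ∀ f ∈ fs, f ∈ L) :
    ∃ L3, Straight (L3 ++ L) ∧ L3.length ≤ (fs.length + 1) * (2 * m + 2) ∧
      ∀ j ≤ m, th fs j ∈ L3 ++ L := by
  induction fs with
  | nil =>
    refine ⟨[fun _ => True, fun _ => False], Straight.const True (Straight.const False hL),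
      by simp, ?_⟩
    intro j _
    cases j with
    | zero => simp [th]
    | succ j => simp [th]
  | cons f fs ih =>
    obtain ⟨L3, h1, h2, h3⟩ := ih fun g hg => hfs g (List.mem_cons_of_mem _ hg)
    have key : ∀ i ≤ m, ∃ L4, Straight (L4 ++ (L3 ++ L)) ∧ L4.length ≤ 2 * i + 2 ∧
        ∀ j ≤ i, th (f :: fs) j ∈ L4 ++ (L3 ++ L) := by
      intro i
      induction i with
      | zero =>
        intro _
        refine ⟨[fun _ => True], Straight.const True h1, by simp, ?_⟩
        intro j hj
        have : j = 0 := by omega
        subst this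
        simp [th]
      | succ i ihi =>
        intro hi
        obtain ⟨L4, g1, g2, g3⟩ := ihi (by omega)
        have m1 : th fs i ∈ L4 ++ (L3 ++ L) := List.mem_append_right _ (h3 i (by omega))
        have m2 : f ∈ L4 ++ (L3 ++ L) :=
          List.mem_append_right _ (List.mem_append_right _ (hfs f (by simp)))
        have m3 : th fs (i + 1) ∈ L4 ++ (L3 ++ L) := List.mem_append_right _ (h3 (i + 1) hi)
        refine ⟨(fun x => th fs (i + 1) x ∨ (th fs i x ∧ f x)) :: (fun x => th fs i x ∧ f x) :: L4,
          ?_, by simp only [List.length_cons]; omega, ?_⟩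
        · exact Straight.or (Straight.and g1 m1 m2) (List.mem_cons_of_mem _ m3)
            (List.mem_cons_self ..)
        · intro j hj
          rcases Nat.lt_or_ge j (i + 1) with h | h
          · exact List.mem_cons_of_mem _ (List.mem_cons_of_mem _ (g3 j (by omega)))
          · have : j = i + 1 := by omega
            subst this
            exact List.mem_cons_self ..
    obtain ⟨L4, g1, g2, g3⟩ := key m (le_refl m)
    refine ⟨L4 ++ L3, by rw [List.append_assoc]; exact g1, ?_, ?_⟩
    · rw [List.length_append, List.length_cons]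
      have : (fs.length + 1 + 1) * (2 * m + 2) = (fs.length + 1) * (2 * m + 2) + (2 * m + 2) := by
        ring
      omega
    · intro j hj
      rw [List.append_assoc]
      exact g3 j hj

/-- meaning of the thresholds -/
theorem th_iff (x : V → Bool) : ∀ (fs : List ((V → Bool) → Prop)) (j : ℕ) [DecidablePred
    fun f : (V → Bool) → Prop => f x], th fs j x ↔ j ≤ fs.countP fun f => f x := by
  intro fs
  induction fs with
  | nil =>
    intro j _
    cases j with
    | zero => simp [th]
    | succ j => simp [th]
  | cons f fs ih =>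
    intro j _
    cases j with
    | zero => simp [th]
    | succ j =>
      simp only [th, ih, List.countP_cons, decide_eq_true_eq]
      by_cases hf : f x
      · simp only [hf, and_true, if_true]
        omega
      · simp only [hf, and_false, or_false, if_false, add_zero]

end build

end Pool.Agent.WSatMon
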