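import Mathlib

/-! Weighted satisfiability over a fixed frame, and reductions computed by monotone circuits. -/

namespace Pool.Agent.WSatMon

/-- The literal `(x, true)` is the variable `x` and `(x, false)` is its negation; `S` is the set
of the variables set to TRUE. -/
def litTrue {X : Type} (S : Set X) (l : X × Bool) : Prop := l.1 ∈ S ↔ l.2 = true

/-- A frame: finite sets of variables and of gates, every gate is an AND gate or an OR gate,
`wire g h` says that the gate `g` is an input of the gate `h`, literals may be attached to the gates
with `slot` only. -/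
structure Frame where
  /-- variables -/
  Var : Type
  /-- gates -/
  Gate : Type
  finVar : Finite Var
  finGate : Finite Gate
  /-- AND gate (the other gates are OR gates) -/
  isAnd : Gate → Prop
  /-- literals may be attached here -/
  slot : Gate → Prop
  /-- `wire g h`: the gate `g` is an input of the gate `h` -/
  wire : Gate → Gate → Prop
  wf : WellFounded wire
  /-- output gate -/
  out : Gate

attribute [instance] Frame.finVar Frame.finGate

/-- The positions of the table: a gate and a `d`-tuple of literals. -/
abbrev Frame.Bit (F : Frame) (d : ℕ) : Type := F.Gate × (Fin d → F.Var × Bool)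

/-- number of gates plus number of variables -/
noncomputable def Frame.size (F : Frame) : ℕ := Nat.card F.Gate + Nat.card F.Var

/-- `val` is the evaluation of the instance `(F, y)` at `S`. At an AND gate with slot the
disjunction of the literals of `D` is attached iff `y (h, D) = false`, at an OR gate with slot the
conjunction of the literals of `D` is attached iff `y (h, D) = true`. -/
def IsEval (F : Frame) {d : ℕ} (y : F.Bit d → Bool) (S : Set F.Var) (val : F.Gate → Prop) : Prop :=
  (∀ h, F.isAnd h → (val h ↔ (∀ g, F.wire g h → val g) ∧
    (F.slot h → ∀ D, y (h, D) = false → ∃ i, litTrue S (D i)))) ∧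
  ∀ h, ¬ F.isAnd h → (val h ↔ (∃ g, F.wire g h ∧ val g) ∨
    (F.slot h ∧ ∃ D, y (h, D) = true ∧ ∀ i, litTrue S (D i)))

/-- the instance `(F, y)` is `k`-satisfiable -/
def WSat (F : Frame) {d : ℕ} (y : F.Bit d → Bool) (k : ℕ) : Prop :=
  ∃ S : Set F.Var, Nat.card S = k ∧ ∃ val, IsEval F y S val ∧ val F.out

/-- A class of instances: the number `d` of literals in a piece and the allowed frames. -/
structure Cls where
  /-- number of literals in a piece -/
  d : ℕ
  /-- allowed frames -/
  mem : Frame → Prop

/-- every gate is an input of at most one gate -/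
def IsForest (F : Frame) : Prop := ∀ g h h', F.wire g h → F.wire g h' → h = h'

/-- circuits -/
def CIRC : Cls := ⟨1, fun _ => True⟩

/-- formulas -/
def PROP : Cls := ⟨1, IsForest⟩

/-- `Γ_{t,d}`: `t` alternating levels, AND at the top, pieces of `d` literals at level `t` -/
def GAMMA (t d : ℕ) : Cls := ⟨d, fun F => IsForest F ∧ ∃ lev : F.Gate → ℕ, lev F.out = 1 ∧
  (∀ g h, F.wire g h → lev g = lev h + 1) ∧
  ∀ g, 1 ≤ lev g ∧ lev g ≤ t ∧ (F.isAnd g ↔ Odd (lev g)) ∧ (F.slot g ↔ lev g = t)⟩

/-- Monotone circuits as lists of the functions of their gates (last gate first). -/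
inductive Straight {V : Type} : List ((V → Bool) → Prop) → Prop
  | nil : Straight []
  | const (b : Prop) {L : List ((V → Bool) → Prop)} : Straight L → Straight ((fun _ => b) :: L)
  | input (v : V) {L : List ((V → Bool) → Prop)} : Straight L →
      Straight ((fun x => x v = true) :: L)
  | and {L : List ((V → Bool) → Prop)} {f g : (V → Bool) → Prop} : Straight L → f ∈ L → g ∈ L →
      Straight ((fun x => f x ∧ g x) :: L)
  | or {L : List ((V → Bool) → Prop)} {f g : (V → Bool) → Prop} : Straight L → f ∈ L → g ∈ L →
      Straight ((fun x => f x ∨ g x) :: L)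

/-- all output bits of `M` are computed in one monotone circuit with at most `s` gates -/
def MonComp {V W : Type} (s : ℕ) (M : (V → Bool) → (W → Bool)) : Prop :=
  ∃ L : List ((V → Bool) → Prop), Straight L ∧ L.length ≤ s ∧ ∀ a, (fun x => M x a = true) ∈ L

/-- Slice `k` of the weighted satisfiability problem of `A` reduces to that of `B` by monotone
circuits of size `e n^c`; the frame and the parameter of the image depend only on the frame. -/
def SliceMon (c k : ℕ) (A B : Cls) : Prop :=
  ∃ e : ℕ, ∀ F : Frame, A.mem F → ∃ F' : Frame, B.mem F' ∧ F'.size ≤ e * (F.size + 1) ^ c ∧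
    ∃ k' ≤ e, ∃ M : (F.Bit A.d → Bool) → (F'.Bit B.d → Bool),
      MonComp (e * (F.size + 1) ^ c) M ∧ ∀ y, WSat F y k ↔ WSat F' (M y) k'

/-- reducibility -/
def ReducesMon (A B : Cls) : Prop := ∃ c, ∀ k, SliceMon c k A B

end Pool.Agent.WSatMon
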