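import Pool.Agent.WSatMon.Eval
import Pool.Agent.WSatMon.Build
import Pool.Agent.WSatMon.Num

/-! The first link. -/

namespace Pool.Agent.WSatMon

open Finset Filter Pool.Agent.WSatAC0

section source

variable {k n : ℕ}

/-- one AND gate -/
def oneF (X : Type) [Finite X] : Frame where
  Var := X
  Gate := Unit
  finVar := inferInstance
  finGate := inferInstance
  isAnd _ := True
  slot _ := True
  wire _ _ := False
  wf := ⟨fun a => ⟨a, fun _ h => h.elim⟩⟩
  out := ()

theorem oneF_mem (X : Type) [Finite X] (d : ℕ) : (GAMMA 1 d).mem (oneF X) := by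
  refine ⟨fun g h h' hg => hg.elim, fun _ => 1, rfl, fun g h hg => hg.elim, fun g => ?_⟩
  exact ⟨le_refl _, le_refl _, ⟨fun _ => odd_one, fun _ => trivial⟩,
    ⟨fun _ => rfl, fun _ => trivial⟩⟩

theorem oneF_wsat {X : Type} [Finite X] {d k : ℕ} (y : (oneF X).Bit d → Bool) :
    WSat (oneF X) y k ↔ ∃ S : Set X, Nat.card S = k ∧
      ∀ D, y ((), D) = false → ∃ i, litTrue S (D i) := by
  constructor
  · rintro ⟨S, hS, val, hval, hout⟩
    refine ⟨S, hS, ?_⟩
    have := (hval.1 () trivial).1 hout
    exact this.2 trivial
  · rintro ⟨S, hS, h⟩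
    refine ⟨S, hS, fun _ => True, ⟨fun g _ => ⟨fun _ => ⟨fun g' hg => hg.elim, fun _ => h⟩,
      fun _ => trivial⟩, fun g hg => absurd trivial hg⟩, trivial⟩

/-- pairs of vertices -/
abbrev PV (k n : ℕ) : Type := (Fin k × Fin n) × (Fin k × Fin n)

/-- the bit of a clause -/
def bitC (x : PV k n → Bool) (l l' : (Fin k × Fin n) × Bool) : Bool :=
  match l, l' with
  | (u, false), (v, false) => if u.1 = v.1 ∧ u.2 ≠ v.2 then false else x (u, v)
  | _, _ => true

/-- the table -/
def tabC (x : PV k n → Bool) : (oneF (Fin k × Fin n)).Bit 2 → Bool := fun p =>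
  bitC x (p.2 0) (p.2 1)

theorem tabC_proj (p : (oneF (Fin k × Fin n)).Bit 2) :
    (∃ c : Prop, ∀ x : PV k n → Bool, (tabC x p = true) = c) ∨
      ∃ v, ∀ x : PV k n → Bool, tabC x p = x v := by
  rcases h0 : p.2 0 with ⟨u, σ⟩
  rcases h1 : p.2 1 with ⟨v, τ⟩
  have h : ∀ x : PV k n → Bool, tabC x p = bitC x (u, σ) (v, τ) := fun x => by
    show bitC x (p.2 0) (p.2 1) = _
    rw [h0, h1]
    rfl
  cases σ
  · cases τ
    · by_cases hc : u.1 = v.1 ∧ u.2 ≠ v.2
      · exact Or.inl ⟨False, fun x => by
          rw [h]
          simp only [bitC, if_pos hc]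
          simp⟩
      · exact Or.inr ⟨(u, v), fun x => by
          rw [h]
          simp only [bitC, if_neg hc]⟩
    · exact Or.inl ⟨True, fun x => by rw [h]; simp [bitC]⟩
  · cases τ
    · exact Or.inl ⟨True, fun x => by rw [h]; simp [bitC]⟩
    · exact Or.inl ⟨True, fun x => by rw [h]; simp [bitC]⟩

/-- the instance is satisfiable iff there is a clique -/
theorem wsatC (x : PV k n → Bool) : WSat (oneF (Fin k × Fin n)) (tabC x) k ↔
    ∃ T : Fin k → Fin n, ∀ j j', x ((j, T j), (j', T j')) = true := by
  rw [oneF_wsat]
  constructor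
  · rintro ⟨S, hS, h⟩
    -- every clause
    have hcl : ∀ u v : Fin k × Fin n, u ∈ S → v ∈ S → (¬ (u.1 = v.1 ∧ u.2 ≠ v.2)) ∧
        x (u, v) = true := by
      intro u v hu hv
      by_contra hcon
      have h1 := h ![(u, false), (v, false)] (by
        simp only [tabC, Matrix.cons_val_zero, Matrix.cons_val_one, bitC]
        by_cases hc : u.1 = v.1 ∧ u.2 ≠ v.2
        · rw [if_pos hc]
        · rw [if_neg hc]
          by_contra hx
          apply hcon
          refine ⟨hc, ?_⟩
          simpa using hx)
      obtain ⟨i, hi⟩ := h1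
      fin_cases i
      · have := hi.1 hu
        simp at this
      · have := hi.1 hv
        simp at this
    -- one vertex in each group
    have hinj : Function.Injective (fun u : S => u.1.1) := by
      rintro ⟨u, hu⟩ ⟨v, hv⟩ huv
      have huv' : u.1 = v.1 := huv
      have h1 := (hcl u v hu hv).1
      apply Subtype.ext
      show u = v
      by_contra hne
      apply h1
      refine ⟨huv', fun h2 => hne (Prod.ext huv' h2)⟩
    have hsurj : Function.Surjective (fun u : S => u.1.1) := by
      have : Fintype S := Fintype.ofFinite _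
      have hc : Fintype.card S = Fintype.card (Fin k) := by
        rw [← Nat.card_eq_fintype_card, hS, Fintype.card_fin]
      exact ((Fintype.bijective_iff_injective_and_card _).2 ⟨hinj, hc⟩).2
    choose f hf using hsurj
    refine ⟨fun j => (f j).1.2, fun j j' => ?_⟩
    have h1 : ∀ j, ((j, (f j).1.2) : Fin k × Fin n) = (f j).1 := fun j =>
      Prod.ext (hf j).symm rfl
    rw [h1, h1]
    exact (hcl _ _ (f j).2 (f j').2).2
  · rintro ⟨T, hT⟩
    refine ⟨Set.range fun j => (j, T j), ?_, ?_⟩
    · have hinj : Function.Injective (fun j : Fin k => (j, T j)) := fun i j h =>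
        (Prod.ext_iff.1 h).1
      rw [Nat.card_congr (Equiv.ofInjective _ hinj).symm, Nat.card_fin]
    · intro D hD
      by_contra hcon
      push Not at hcon
      have hD' : bitC x (D 0) (D 1) = false := hD
      rcases h0 : D 0 with ⟨u, σ⟩
      rcases h1 : D 1 with ⟨v, τ⟩
      rw [h0, h1] at hD'
      have g0 := hcon 0
      have g1 := hcon 1
      rw [h0] at g0
      rw [h1] at g1
      cases σ
      · cases τ
        · have hu : u ∈ Set.range fun j => (j, T j) := by
            by_contra hu
            exact g0 ⟨fun h => absurd h hu, fun h => by simp at h⟩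
          have hv : v ∈ Set.range fun j => (j, T j) := by
            by_contra hv
            exact g1 ⟨fun h => absurd h hv, fun h => by simp at h⟩
          obtain ⟨j, rfl⟩ := hu
          obtain ⟨j', rfl⟩ := hv
          simp only [bitC] at hD'
          rw [if_neg] at hD'
          · rw [hT j j'] at hD'
            simp at hD'
          · rintro ⟨h2, h3⟩
            have h2' : j = j' := h2
            subst h2'
            exact h3 rfl
        · simp [bitC] at hD'
      · cases τ <;> simp [bitC] at hD'

end source

section target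

open Classical in
/-- weighted satisfiability of conjunctions of literals -/
theorem wsat11 {F : Frame} (hF : (GAMMA 1 1).mem F) (y : F.Bit 1 → Bool) (k : ℕ)
    [Fintype F.Var] : WSat F y k ↔
      (∀ x : F.Var, y (F.out, fun _ => (x, true)) = true ∨ y (F.out, fun _ => (x, false)) = true) ∧
      Fintype.card F.Var - k ≤
        (univ.filter fun x : F.Var => y (F.out, fun _ => (x, true)) = true).card ∧
      k ≤ (univ.filter fun x : F.Var => y (F.out, fun _ => (x, false)) = true).card := by
  obtain ⟨_, lev, h0, h1, h2⟩ := hF
  have hand : F.isAnd F.out := (h2 F.out).2.2.1.2 (by rw [h0]; decide)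
  have hslot : F.slot F.out := (h2 F.out).2.2.2.2 h0
  have hno : ∀ g, ¬ F.wire g F.out := fun g hg => by
    have e1 := h1 g F.out hg
    have e2 := (h2 g).2.1
    omega
  have key : WSat F y k ↔ ∃ S : Set F.Var, Nat.card S = k ∧
      (∀ x, y (F.out, fun _ => (x, true)) = false → x ∈ S) ∧
      ∀ x, y (F.out, fun _ => (x, false)) = false → x ∉ S := by
    rw [wsat_iff]
    apply exists_congr
    intro S
    apply and_congr_right
    intro _
    rw [(evalF_spec F (sl0 F y S)).1 F.out hand]
    have h3 : sl0 F y S F.out ↔ ∀ D, y (F.out, D) = false → ∃ i, litTrue S (D i) := by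
      rw [sl0, if_pos hand]
    rw [h3]
    constructor
    · rintro ⟨_, h⟩
      constructor
      · intro x hx
        obtain ⟨_, hi⟩ := h hslot _ hx
        exact hi.2 rfl
      · intro x hx hxS
        obtain ⟨_, hi⟩ := h hslot _ hx
        have := hi.1 hxS
        simp at this
    · rintro ⟨g1, g2⟩
      refine ⟨fun g hg => absurd hg (hno g), fun _ D hD => ⟨0, ?_⟩⟩
      have hDc : D = fun _ => D 0 := by
        funext i
        rw [Subsingleton.elim i 0]
      rw [hDc] at hD
      rcases hD0 : D 0 with ⟨x, σ⟩
      rw [hD0] at hD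
      cases σ
      · exact ⟨fun h => absurd h (g2 x hD), fun h => by simp at h⟩
      · exact ⟨fun _ => rfl, fun _ => g1 x hD⟩
  rw [key]
  set P := univ.filter fun x : F.Var => y (F.out, fun _ => (x, true)) = true with hP
  set Q := univ.filter fun x : F.Var => y (F.out, fun _ => (x, false)) = true with hQ
  constructor
  · rintro ⟨S, hS, g1, g2⟩
    have hSc : (univ.filter fun x => x ∈ S).card = k := by
      rw [← hS, Nat.card_eq_fintype_card, Fintype.card_subtype]
    refine ⟨?_, ?_, ?_⟩
    · intro x
      by_contra hcon
      push Not at hcon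
      have e1 : y (F.out, fun _ => (x, true)) = false := by simpa using hcon.1
      have e2 : y (F.out, fun _ => (x, false)) = false := by simpa using hcon.2
      exact g2 x e2 (g1 x e1)
    · have h4 : (univ.filter fun x => x ∈ S)ᶜ ⊆ P := by
        intro x hx
        rw [Finset.mem_compl, Finset.mem_filter, not_and] at hx
        rw [hP, Finset.mem_filter]
        refine ⟨Finset.mem_univ _, ?_⟩
        by_contra hcon
        exact hx (Finset.mem_univ _) (g1 x (by simpa using hcon))
      have h5 := Finset.card_le_card h4
      rw [Finset.card_compl, hSc] at h5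
      exact h5
    · rw [← hSc]
      apply Finset.card_le_card
      intro x hx
      rw [hQ, Finset.mem_filter]
      refine ⟨Finset.mem_univ _, ?_⟩
      by_contra hcon
      exact g2 x (by simpa using hcon) (Finset.mem_filter.1 hx).2
  · rintro ⟨g1, g2, g3⟩
    have hsub : Pᶜ ⊆ Q := by
      intro x hx
      rw [Finset.mem_compl, hP, Finset.mem_filter, not_and] at hx
      rw [hQ, Finset.mem_filter]
      exact ⟨Finset.mem_univ _, (g1 x).resolve_left (hx (Finset.mem_univ _))⟩
    have hc1 : Pᶜ.card ≤ k := by
      rw [Finset.card_compl]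
      omega
    obtain ⟨S, hS1, hS2, hS3⟩ := Finset.exists_subsuperset_card_eq hsub hc1 g3
    refine ⟨S, ?_, ?_, ?_⟩
    · rw [Nat.card_coe_set_eq, Set.ncard_coe_finset, hS3]
    · intro x hx
      apply hS1
      rw [Finset.mem_compl, hP, Finset.mem_filter, not_and]
      intro _ hcon
      rw [hx] at hcon
      simp at hcon
    · intro x hx hxS
      have := hS2 hxS
      rw [hQ, Finset.mem_filter] at this
      rw [hx] at this
      simp at this

/-- the conjunction of two functions of the list -/
theorem Buildable.andf {V : Type} {L : List ((V → Bool) → Prop)} {f g : (V → Bool) → Prop}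
    (hf : f ∈ L) (hg : g ∈ L) : Buildable L 1 (fun x => f x ∧ g x) := by
  intro L2 h1 h2
  exact ⟨[fun x => f x ∧ g x], Straight.and h1 (h2 f hf) (h2 g hg), le_refl _, by simp⟩

/-- **weighted satisfiability of conjunctions of literals has small monotone circuits** -/
theorem build11 {V : Type} {F : Frame} (hF : (GAMMA 1 1).mem F) (k A : ℕ) (hA : F.size ≤ A)
    {L : List ((V → Bool) → Prop)} (hL : Straight L) (hLA : L.length ≤ A)
    (M : (V → Bool) → (F.Bit 1 → Bool)) (hM : ∀ b, (fun x => M x b = true) ∈ L) :
    ∃ L', Straight L' ∧ L'.length ≤ 9 * (A + 1) ^ 2 ∧ (fun x => WSat F (M x) k) ∈ L' := by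
  classical
  have : Fintype F.Var := Fintype.ofFinite _
  have hvar : Fintype.card F.Var ≤ A := by
    rw [← Nat.card_eq_fintype_card]
    exact le_trans (Nat.le_add_left _ _) hA
  by_cases hk : k ≤ Fintype.card F.Var
  · -- the disjunctions
    obtain ⟨L1, a1, a2, a3⟩ := Buildable.multi hL
      (fun (x : F.Var) (v : V → Bool) => M v (F.out, fun _ => (x, true)) = true ∨
        M v (F.out, fun _ => (x, false)) = true) (m := 1) (by
        intro x L2 h1 h2
        exact ⟨[_], Straight.or h1 (h2 _ (hM (F.out, fun _ => (x, true))))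
          (h2 _ (hM (F.out, fun _ => (x, false)))), le_refl _, List.mem_cons_self ..⟩)
    let fs : List ((V → Bool) → Prop) := (univ : Finset F.Var).toList.map
      fun x v => M v (F.out, fun _ => (x, true)) = true ∨ M v (F.out, fun _ => (x, false)) = true
    obtain ⟨L2, b1, b2, b3⟩ := Buildable.all (L := L1 ++ L) fs (by
      intro f hf
      obtain ⟨x, _, rfl⟩ := List.mem_map.1 hf
      exact a3 x) (L1 ++ L) a1 (fun f hf => hf)
    -- the thresholds
    let ps : List ((V → Bool) → Prop) := (univ : Finset F.Var).toList.map
      fun x v => M v (F.out, fun _ => (x, true)) = true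
    let qs : List ((V → Bool) → Prop) := (univ : Finset F.Var).toList.map
      fun x v => M v (F.out, fun _ => (x, false)) = true
    obtain ⟨L3, c1, c2, c3⟩ := build_th b1 (Fintype.card F.Var) ps (by
      intro f hf
      obtain ⟨x, _, rfl⟩ := List.mem_map.1 hf
      exact List.mem_append_right _ (List.mem_append_right _ (hM _)))
    obtain ⟨L4, d1, d2, d3⟩ := build_th c1 (Fintype.card F.Var) qs (by
      intro f hf
      obtain ⟨x, _, rfl⟩ := List.mem_map.1 hf
      exact List.mem_append_right _ (List.mem_append_right _ (List.mem_append_right _ (hM _))))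
    have m1 : (fun x => ∀ f ∈ fs, f x) ∈ L4 ++ (L3 ++ (L2 ++ (L1 ++ L))) :=
      List.mem_append_right _ (List.mem_append_right _ b3)
    have m2 : th ps (Fintype.card F.Var - k) ∈ L4 ++ (L3 ++ (L2 ++ (L1 ++ L))) :=
      List.mem_append_right _ (c3 _ (Nat.sub_le _ _))
    have m3 : th qs k ∈ L4 ++ (L3 ++ (L2 ++ (L1 ++ L))) := d3 _ hk
    refine ⟨(fun x => (∀ f ∈ fs, f x) ∧ (th ps (Fintype.card F.Var - k) x ∧ th qs k x)) ::
      (fun x => th ps (Fintype.card F.Var - k) x ∧ th qs k x) ::
      (L4 ++ (L3 ++ (L2 ++ (L1 ++ L)))), ?_, ?_, ?_⟩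
    · exact Straight.and (Straight.and d1 m2 m3) (List.mem_cons_of_mem _ m1)
        (List.mem_cons_self ..)
    · simp only [List.length_cons, List.length_append]
      simp only [fs, ps, qs, List.length_map, Finset.length_toList, Finset.card_univ] at b2 c2 d2
      have e1 : (Fintype.card F.Var + 1) * (2 * Fintype.card F.Var + 2) ≤
          (A + 1) * (2 * A + 2) := Nat.mul_le_mul (by omega) (by omega)
      have e2 : (A + 1) * (2 * A + 2) = 2 * A ^ 2 + 4 * A + 2 := by ring
      have e3 : 9 * (A + 1) ^ 2 = 9 * A ^ 2 + 18 * A + 9 := by ring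
      omega
    · have hcnt : ∀ (g : F.Var → (V → Bool) → Prop) (v : V → Bool),
          ((univ : Finset F.Var).toList.map g).countP (fun f => f v) =
            (univ.filter fun x => g x v).card := by
        intro g v
        rw [List.countP_map]
        have h5 : (univ.filter fun x => g x v).card =
            Multiset.countP (fun x => g x v) ((univ : Finset F.Var).toList : Multiset F.Var) := by
          rw [Finset.coe_toList, Multiset.countP_eq_card_filter]
          rfl
        rw [h5, Multiset.coe_countP]
        rfl
      have heq : (fun x => WSat F (M x) k) =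
          fun x => (∀ f ∈ fs, f x) ∧ (th ps (Fintype.card F.Var - k) x ∧ th qs k x) := by
        funext v
        apply propext
        rw [wsat11 hF, th_iff, th_iff, hcnt, hcnt]
        refine and_congr ?_ (iff_of_eq (by congr!))
        constructor
        · intro h f hf
          obtain ⟨x, _, rfl⟩ := List.mem_map.1 hf
          exact h x
        · intro h x
          exact h _ (List.mem_map.2 ⟨x, Finset.mem_toList.2 (Finset.mem_univ _), rfl⟩)
      rw [heq]
      exact List.mem_cons_self ..
  · -- too many variables wanted
    refine ⟨(fun _ => False) :: L, Straight.const False hL, ?_, ?_⟩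
    · simp only [List.length_cons]
      nlinarith
    · have heq : (fun x => WSat F (M x) k) = fun _ => False := by
        funext v
        apply eq_false
        rw [wsat11 hF]
        rintro ⟨_, _, h3⟩
        have := Finset.card_le_univ (univ.filter fun x : F.Var =>
          M v (F.out, fun _ => (x, false)) = true)
        omega
      rw [heq]
      exact List.mem_cons_self ..

end target

end Pool.Agent.WSatMon
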