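import Pool.Agent.WSatMon.Sand

/-! The gadget for even `t`: an OR of AND-terms. -/

namespace Pool.Agent.WSatMon

open Finset Pool.Agent.WSatAC0

section gad

variable {Blk F : Type} [Fintype Blk] [DecidableEq Blk] [Fintype F] [DecidableEq F] {k n : ℕ}

/-- the planted input -/
def XE (S : Fin k → Fin n) (φ : Blk → F) (w : Blk → Bool) :
    Blk × F × Fin k × Fin n → Bool := fun v =>
  w v.1 && (decide (v.2.1 = φ v.1) && decide (v.2.2.2 = S v.2.2.1))

/-- the noisy input -/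
def YE (r : Blk × F × Fin k × Fin n → Bool) (w : Blk → Bool) :
    Blk × F × Fin k × Fin n → Bool := fun v => w v.1 || r v

omit [Fintype Blk] [DecidableEq Blk] [Fintype F] in
theorem XE_iff {S : Fin k → Fin n} {φ : Blk → F} {w : Blk → Bool}
    {v : Blk × F × Fin k × Fin n} : XE S φ w v = true ↔
      w v.1 = true ∧ v.2.1 = φ v.1 ∧ v.2.2.2 = S v.2.2.1 := by
  simp [XE]

omit [Fintype Blk] [DecidableEq Blk] [Fintype F] [DecidableEq F] in
theorem YE_iff {r : Blk × F × Fin k × Fin n → Bool} {w : Blk → Bool}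
    {v : Blk × F × Fin k × Fin n} : YE r w v = true ↔ w v.1 = true ∨ r v = true := by
  simp [YE]

omit [Fintype Blk] [DecidableEq Blk] [Fintype F] [DecidableEq F] in
/-- choice of the planted assignment -/
theorem choose_SE (hn : 1 ≤ n) {a : ℕ} (Ns : Finset (Finset (Blk × F × Fin k × Fin n)))
    (h : (Ns.card : ℝ) * (1 / (n : ℝ)) ^ (a + 1) < 1) :
    ∃ S : Fin k → Fin n, ∀ C ∈ Ns, a < (C.image fun v => v.2.2.1).card →
      ∃ v ∈ C, v.2.2.2 ≠ S v.2.2.1 := by
  classical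
  have : Nonempty (Fin n) := ⟨⟨0, hn⟩⟩
  have hn1 : 1 / (n : ℝ) ≤ 1 := by
    rw [div_le_one (by exact_mod_cast hn)]
    exact_mod_cast hn
  have h1 : PP (uw (Fin n)) (fun S : Fin k → Fin n => ∃ C ∈ Ns,
      a < (C.image fun v => v.2.2.1).card ∧ ∀ v ∈ C, v.2.2.2 = S v.2.2.1) < 1 := by
    refine lt_of_le_of_lt (PP_exists_le uw_nonneg Ns _ ((1 / (n : ℝ)) ^ (a + 1)) ?_) h
    intro C _
    by_cases hc : a < (C.image fun v => v.2.2.1).card ∧
        ∃ S0 : Fin k → Fin n, ∀ v ∈ C, v.2.2.2 = S0 v.2.2.1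
    · obtain ⟨hc1, S0, hS0⟩ := hc
      refine (PP_mono uw_nonneg (Q := fun S : Fin k → Fin n =>
        ∀ j ∈ C.image (fun v => v.2.2.1), S j = S0 j) ?_).trans ?_
      · rintro S ⟨_, hS⟩ j hj
        obtain ⟨v, hv, rfl⟩ := Finset.mem_image.1 hj
        rw [← hS v hv, hS0 v hv]
      · rw [PP_pattern, Fintype.card_fin]
        exact pow_le_pow_of_le_one (by positivity) hn1 hc1
    · have : (fun S : Fin k → Fin n => a < (C.image fun v => v.2.2.1).card ∧
          ∀ v ∈ C, v.2.2.2 = S v.2.2.1) = fun _ => False := by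
        funext S
        exact eq_false fun h => hc ⟨h.1, S, h.2⟩
      rw [this, PP_eq]
      simp only [if_false]
      have h4 := EE_const (V := Fin k) (uw_sum (α := Fin n)) 0
      rw [h4]
      positivity
  obtain ⟨S, hS⟩ := PP_lt_one uw_sum h1
  refine ⟨S, ?_⟩
  intro C hC hca
  by_contra hcon
  push Not at hcon
  exact hS ⟨C, hC, hca, hcon⟩

/-- choice of the planted terms -/
theorem choose_φE [Nonempty F] {a s R M : ℕ} (Ns : Finset (Finset (Blk × F × Fin k × Fin n)))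
    {ι : Type} (I : Finset ι) (T : ι → Finset (Finset (Blk × F × Fin k × Fin n)))
    (hT : ∀ i ∈ I, (T i).card ≤ M) (hTs : ∀ i ∈ I, ∀ C ∈ T i, C.card ≤ s)
    (h : (Ns.card : ℝ) * (1 / (Fintype.card F : ℝ)) ^ (a + 1) +
      I.card * ((M : ℝ) / Fintype.card F) ^ R < 1) :
    ∃ φ : Blk → F, (∀ C ∈ Ns, a < (C.image Prod.fst).card → ∃ v ∈ C, v.2.1 ≠ φ v.1) ∧
      ∀ i ∈ I, (((T i).filter fun C => ∀ v ∈ C, v.2.1 = φ v.1).biUnion
        fun C => C.image Prod.fst).card ≤ s * R := by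
  classical
  obtain ⟨f0⟩ := (inferInstance : Nonempty F)
  have e1 : PP (uw F) (fun φ : Blk → F => ∃ C ∈ Ns,
      a < (C.image Prod.fst).card ∧ ∀ v ∈ C, v.2.1 = φ v.1) ≤
      (Ns.card : ℝ) * (1 / (Fintype.card F : ℝ)) ^ (a + 1) := by
    apply PP_exists_le uw_nonneg
    intro C _
    by_cases hc : a < (C.image Prod.fst).card ∧ ∃ φ0 : Blk → F, ∀ v ∈ C, v.2.1 = φ0 v.1
    · obtain ⟨hc1, φ0, hφ0⟩ := hc
      refine (PP_mono uw_nonneg (Q := fun φ : Blk → F =>
        ∀ b ∈ C.image Prod.fst, φ b = φ0 b) ?_).trans ?_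
      · rintro φ ⟨_, hφ⟩ b hb
        obtain ⟨v, hv, rfl⟩ := Finset.mem_image.1 hb
        rw [← hφ v hv, hφ0 v hv]
      · rw [PP_pattern]
        exact pow_le_pow_of_le_one inv_card_nonneg inv_card_le_one hc1
    · have : (fun φ : Blk → F => a < (C.image Prod.fst).card ∧
          ∀ v ∈ C, v.2.1 = φ v.1) = fun _ => False := by
        funext φ
        exact eq_false fun h => hc ⟨h.1, φ, h.2⟩
      rw [this, PP_eq]
      simp only [if_false]
      have h4 := EE_const (V := Blk) (uw_sum (α := F)) 0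
      rw [h4]
      positivity
  have hm : ∀ C : Finset (Blk × F × Fin k × Fin n), ∃ m : Blk → F,
      (∃ φ0 : Blk → F, ∀ v ∈ C, v.2.1 = φ0 v.1) → ∀ v ∈ C, v.2.1 = m v.1 := by
    intro C
    by_cases hc : ∃ φ0 : Blk → F, ∀ v ∈ C, v.2.1 = φ0 v.1
    · obtain ⟨φ0, hφ0⟩ := hc
      exact ⟨φ0, fun _ => hφ0⟩
    · exact ⟨fun _ => f0, fun h => absurd h hc⟩
  choose m hm using hm
  have e2 : PP (uw F) (fun φ : Blk → F => ∃ i ∈ I, ∃ B ⊆ T i,
      (∀ C ∈ B, ∀ b ∈ C.image Prod.fst, φ b = m C b) ∧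
      s * R < (B.biUnion fun C => C.image Prod.fst).card) ≤
      I.card * ((M : ℝ) / Fintype.card F) ^ R := by
    apply PP_exists_le uw_nonneg
    intro i hi
    exact PP_survive (V := Blk) (α := F) (T i) (fun C => C.image Prod.fst) m s R M (hT i hi)
      (fun C hC => Finset.card_image_le.trans (hTs i hi C hC))
  have e4 : PP (uw F) (fun φ : Blk → F => (∃ C ∈ Ns,
      a < (C.image Prod.fst).card ∧ ∀ v ∈ C, v.2.1 = φ v.1) ∨
      ∃ i ∈ I, ∃ B ⊆ T i, (∀ C ∈ B, ∀ b ∈ C.image Prod.fst, φ b = m C b) ∧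
        s * R < (B.biUnion fun C => C.image Prod.fst).card) < 1 :=
    lt_of_le_of_lt ((PP_or uw_nonneg _ _).trans (add_le_add e1 e2)) h
  obtain ⟨φ, hφ⟩ := PP_lt_one uw_sum e4
  push Not at hφ
  obtain ⟨g1, g2⟩ := hφ
  refine ⟨φ, g1, ?_⟩
  intro i hi
  apply g2 i hi _ (Finset.filter_subset _ _)
  intro C hC b hb
  obtain ⟨v, hv, rfl⟩ := Finset.mem_image.1 hb
  have h5 := (Finset.mem_filter.1 hC).2
  rw [← h5 v hv]
  exact hm C ⟨φ, h5⟩ v hv

end gad

section gad2

variable {Par B1 F : Type} [Fintype Par] [DecidableEq Par] [Fintype B1] [DecidableEq B1]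
  [Fintype F] [DecidableEq F] {k n : ℕ}

/-- choice of the noise -/
theorem choose_rE {Grp Cop : Type} [Fintype Grp] [Fintype Cop] [DecidableEq Cop]
    (cop : Grp → Cop → Par) (hcop : ∀ g, Function.Injective (cop g)) {s l Q : ℕ} (hQ : 1 ≤ Q)
    (Ps : Finset (Finset (Finset ((Par × B1) × F × Fin k × Fin n))))
    (hPs : ∀ P ∈ Ps, Petal l s P)
    (h : (Ps.card : ℝ) * (1 - (1 / (Q : ℝ)) ^ s) ^ l + Fintype.card Grp * (n : ℝ) ^ k *
      (Fintype.card B1 * Fintype.card F * (1 / (Q : ℝ)) ^ k) ^ Fintype.card Cop < 1) :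
    ∃ r : (Par × B1) × F × Fin k × Fin n → Bool,
      (∀ P ∈ Ps, ∃ C ∈ P, ∀ v ∈ C, r v = true) ∧
      ∀ (T : Fin k → Fin n) (g : Grp), ∃ c, ∀ b f, ∃ j, r ((cop g c, b), f, j, T j) = false := by
  classical
  have : Nonempty (Fin Q) := ⟨⟨0, hQ⟩⟩
  let z : Fin Q := ⟨0, hQ⟩
  have e1 : PP (uw (Fin Q)) (fun g : (Par × B1) × F × Fin k × Fin n → Fin Q =>
      ∃ P ∈ Ps, ∀ C ∈ P, ∃ v ∈ C, g v ≠ z) ≤ (Ps.card : ℝ) * (1 - (1 / (Q : ℝ)) ^ s) ^ l := by
    apply PP_exists_le uw_nonneg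
    intro P hP
    have hP' := hPs P hP
    have := PP_miss (α := Fin Q) s P (fun C => C) (fun _ _ => z) hP'.small hP'.disj
    rw [hP'.card, Fintype.card_fin] at this
    exact this
  have e2 : PP (uw (Fin Q)) (fun g : (Par × B1) × F × Fin k × Fin n → Fin Q =>
      ∃ p ∈ (univ : Finset (Grp × (Fin k → Fin n))), ∀ c ∈ (univ : Finset Cop),
        ∃ q ∈ (univ : Finset (B1 × F)), ∀ v ∈ (univ : Finset (Fin k)).image
          (fun j => (((cop p.1 c, q.1), q.2, j, p.2 j) : (Par × B1) × F × Fin k × Fin n)),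
          g v = z) ≤
      Fintype.card Grp * (n : ℝ) ^ k *
      (Fintype.card B1 * Fintype.card F * (1 / (Q : ℝ)) ^ k) ^ Fintype.card Cop := by
    refine (PP_exists_le uw_nonneg univ _
      ((Fintype.card B1 * Fintype.card F * (1 / (Q : ℝ)) ^ k) ^ Fintype.card Cop) ?_).trans ?_
    · intro p _
      have h1 := PP_all_indep (w := uw (Fin Q)) uw_sum (univ : Finset Cop)
        (fun c => univ.filter fun v : (Par × B1) × F × Fin k × Fin n => v.1.1 = cop p.1 c)
        (fun c g => ∃ q ∈ (univ : Finset (B1 × F)), ∀ v ∈ (univ : Finset (Fin k)).image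
          (fun j => (((cop p.1 c, q.1), q.2, j, p.2 j) : (Par × B1) × F × Fin k × Fin n)),
          g v = z) ?_ ?_
      · rw [h1, ← Finset.card_univ (α := Cop), ← Finset.prod_const]
        apply Finset.prod_le_prod
        · intro c _
          exact PP_nonneg uw_nonneg _
        · intro c _
          refine (PP_exists_le uw_nonneg univ _ ((1 / (Q : ℝ)) ^ k) ?_).trans ?_
          · intro q _
            rw [PP_pattern _ (fun _ => z), Finset.card_image_of_injective, Finset.card_univ,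
              Fintype.card_fin, Fintype.card_fin]
            intro j j' hj
            simp only [Prod.mk.injEq] at hj
            exact hj.2.2.1
          · rw [Finset.card_univ, Fintype.card_prod]
            push_cast
            exact le_refl _
      · intro c _ g g' hg
        have key : ∀ q : B1 × F, ∀ v ∈ (univ : Finset (Fin k)).image
            (fun j => (((cop p.1 c, q.1), q.2, j, p.2 j) : (Par × B1) × F × Fin k × Fin n)),
            g v = g' v := by
          intro q v hv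
          apply hg
          obtain ⟨j, _, rfl⟩ := Finset.mem_image.1 hv
          simp
        constructor
        · rintro ⟨q, hq, hv⟩
          exact ⟨q, hq, fun v hv' => by rw [← key q v hv']; exact hv v hv'⟩
        · rintro ⟨q, hq, hv⟩
          exact ⟨q, hq, fun v hv' => by rw [key q v hv']; exact hv v hv'⟩
      · intro c _ c' _ hne
        rw [Finset.disjoint_left]
        intro v hv hv'
        have h2 := (Finset.mem_filter.1 hv).2
        have h3 := (Finset.mem_filter.1 hv').2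
        exact hne (hcop p.1 (h2.symm.trans h3))
    · rw [Finset.card_univ, Fintype.card_prod, Fintype.card_fun, Fintype.card_fin,
        Fintype.card_fin]
      push_cast
      exact le_refl _
  obtain ⟨g, hg⟩ := PP_lt_one uw_sum (lt_of_le_of_lt ((PP_or uw_nonneg _ _).trans
    (add_le_add e1 e2)) h)
  push Not at hg
  obtain ⟨g1, g2⟩ := hg
  refine ⟨fun v => decide (g v = z), ?_, ?_⟩
  · intro P hP
    obtain ⟨C, hC, hv⟩ := g1 P hP
    exact ⟨C, hC, fun v hv' => by simpa using hv v hv'⟩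
  · intro T gr
    obtain ⟨c, _, hc⟩ := g2 (gr, T) (Finset.mem_univ _)
    refine ⟨c, fun b f => ?_⟩
    obtain ⟨v, hv, hgv⟩ := hc (b, f) (Finset.mem_univ _)
    obtain ⟨j, _, rfl⟩ := Finset.mem_image.1 hv
    exact ⟨j, by simpa using hgv⟩

/-- **the gadget** -/
theorem gadE {Grp Cop : Type} [Fintype Grp] [Fintype Cop] [DecidableEq Cop] [Nonempty F]
    (cop : Grp → Cop → Par) (hcop : ∀ g, Function.Injective (cop g)) (hn : 1 ≤ n)
    {a l R N M Q : ℕ} (ha : 1 ≤ a) (hl : 2 ≤ l) (hQ : 1 ≤ Q) (hM : sun l (a * a) ≤ M)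
    (L : List (((Par × B1) × F × Fin k × Fin n → Bool) → Prop)) (hL : Straight L)
    (hN : L.length ≤ N)
    (h1 : (N : ℝ) * M ^ 2 * (1 / (n : ℝ)) ^ (a + 1) < 1)
    (h2 : (N : ℝ) * M ^ 2 * (1 / (Fintype.card F : ℝ)) ^ (a + 1) +
      N * ((M : ℝ) / Fintype.card F) ^ R < 1)
    (h3 : (N : ℝ) * M ^ 2 * (1 - (1 / (Q : ℝ)) ^ (a * a)) ^ l + Fintype.card Grp * (n : ℝ) ^ k *
      (Fintype.card B1 * Fintype.card F * (1 / (Q : ℝ)) ^ k) ^ Fintype.card Cop < 1) :
    ∃ (S : Fin k → Fin n) (φ : Par × B1 → F) (r : (Par × B1) × F × Fin k × Fin n → Bool),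
      (∀ (T : Fin k → Fin n) (g : Grp), ∃ c, ∀ b f, ∃ j, r ((cop g c, b), f, j, T j) = false) ∧
      Sand L (a * a * R) (XE S φ) (YE r) := by
  classical
  have hs : 1 ≤ a * a := Nat.mul_pos ha ha
  obtain ⟨Ps, Ns, c1, c2, c3, c4, c5⟩ := approx_dnf hs hl hL
  have hb : ((L.length * sun l (a * a) ^ 2 : ℕ) : ℝ) ≤ (N : ℝ) * M ^ 2 := by
    push_cast
    have h5 : (L.length : ℝ) ≤ N := by exact_mod_cast hN
    have h6 : ((sun l (a * a) : ℕ) : ℝ) ≤ M := by exact_mod_cast hM
    exact mul_le_mul h5 (pow_le_pow_left₀ (Nat.cast_nonneg _) h6 2) (by positivity)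
      (Nat.cast_nonneg _)
  have hPs : (Ps.card : ℝ) ≤ (N : ℝ) * M ^ 2 := le_trans (by exact_mod_cast c1) hb
  have hNs : (Ns.card : ℝ) ≤ (N : ℝ) * M ^ 2 := le_trans (by exact_mod_cast c2) hb
  have hI : (L.toFinset.card : ℝ) ≤ N := by
    exact_mod_cast L.toFinset_card_le.trans hN
  obtain ⟨S, hS⟩ := choose_SE (a := a) hn Ns
    (lt_of_le_of_lt (mul_le_mul_of_nonneg_right hNs (by positivity)) h1)
  choose! T hT using c5
  obtain ⟨φ, hφ1, hφ2⟩ := choose_φE (a := a) (s := a * a) (R := R) (M := M) Ns L.toFinset T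
    (fun g hg => (hT g (List.mem_toFinset.1 hg)).1.trans hM)
    (fun g hg => (hT g (List.mem_toFinset.1 hg)).2.1) (by
      refine lt_of_le_of_lt (add_le_add ?_ ?_) h2
      · exact mul_le_mul_of_nonneg_right hNs (by positivity)
      · exact mul_le_mul_of_nonneg_right hI (by positivity))
  have hQ1 : (1 / (Q : ℝ)) ^ (a * a) ≤ 1 := by
    apply pow_le_one₀ (by positivity)
    rw [div_le_one (by exact_mod_cast hQ)]
    exact_mod_cast hQ
  obtain ⟨r, hr1, hr2⟩ := choose_rE cop hcop hQ Ps c3 (lt_of_le_of_lt (add_le_add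
    (mul_le_mul_of_nonneg_right hPs (pow_nonneg (by linarith) _)) (le_refl _)) h3)
  refine ⟨S, φ, r, hr2, ?_⟩
  intro g hg
  obtain ⟨hT1, hT2, hT3, hT4⟩ := hT g hg
  have hXY : ∀ w v, XE S φ w v = true → YE r w v = true := by
    intro w v h
    rw [XE_iff] at h
    rw [YE_iff]
    exact Or.inl h.1
  have hdnf : ∀ w, dnf (T g) (XE S φ w) ↔ ∃ C ∈ T g, (∀ v ∈ C, v.2.1 = φ v.1) ∧
      (∀ v ∈ C, v.2.2.2 = S v.2.2.1) ∧ ∀ v ∈ C, w v.1 = true := by
    intro w
    constructor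
    · rintro ⟨C, hC, hv⟩
      exact ⟨C, hC, fun v h => (XE_iff.1 (hv v h)).2.1, fun v h => (XE_iff.1 (hv v h)).2.2,
        fun v h => (XE_iff.1 (hv v h)).1⟩
    · rintro ⟨C, hC, h5, h6, h7⟩
      exact ⟨C, hC, fun v h => XE_iff.2 ⟨h7 v h, h5 v h, h6 v h⟩⟩
  refine ⟨fun w => dnf (T g) (XE S φ w), ⟨⟨?_, ?_, ?_⟩, ?_⟩, ?_⟩
  · exact ((T g).filter fun C => ∀ v ∈ C, v.2.1 = φ v.1).biUnion fun C => C.image Prod.fst
  · exact hφ2 g (List.mem_toFinset.2 hg)
  · intro w w' hw
    show dnf (T g) (XE S φ w) ↔ dnf (T g) (XE S φ w')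
    rw [hdnf, hdnf]
    apply exists_congr
    intro C
    apply and_congr_right
    intro hC
    apply and_congr_right
    intro h5
    apply and_congr_right
    intro _
    apply forall_congr'
    intro v
    apply imp_congr_right
    intro hv
    rw [hw v.1 (Finset.mem_biUnion.2 ⟨C, Finset.mem_filter.2 ⟨hC, h5⟩,
      Finset.mem_image.2 ⟨v, hv, rfl⟩⟩)]
  · intro w w' hw
    apply dnf_mono
    intro v hv
    rw [XE_iff] at hv ⊢
    exact ⟨hw _ hv.1, hv.2⟩
  · intro w
    constructor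
    · intro hgx
      apply hT3 _ _ hgx
      intro C hC
      by_contra hcon
      push Not at hcon
      have hall : ∀ v ∈ C, w v.1 = true ∧ v.2.1 = φ v.1 ∧ v.2.2.2 = S v.2.2.1 := fun v hv =>
        XE_iff.1 (by simpa using hcon v hv)
      have h5 : (C.image Prod.fst).card ≤ a := by
        by_contra h
        push Not at h
        obtain ⟨v, hv, hne⟩ := hφ1 C hC h
        exact hne (hall v hv).2.1
      have h6 : (C.image fun v => v.2.2.1).card ≤ a := by
        by_contra h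
        push Not at h
        obtain ⟨v, hv, hne⟩ := hS C hC h
        exact hne (hall v hv).2.2
      have h7 : C.card ≤ (C.image Prod.fst ×ˢ C.image fun v => v.2.2.1).card := by
        apply Finset.card_le_card_of_injOn (fun v => (v.1, v.2.2.1))
        · intro v hv
          rw [Finset.mem_coe, Finset.mem_product]
          exact ⟨Finset.mem_image.2 ⟨v, hv, rfl⟩, Finset.mem_image.2 ⟨v, hv, rfl⟩⟩
        · intro v hv v' hv' hvv
          simp only [Prod.mk.injEq] at hvv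
          have h8 := hall v hv
          have h9 := hall v' hv'
          have h10 : v.2.1 = v'.2.1 := by rw [h8.2.1, h9.2.1, hvv.1]
          have h11 : v.2.2.2 = v'.2.2.2 := by rw [h8.2.2, h9.2.2, hvv.2]
          exact Prod.ext hvv.1 (Prod.ext h10 (Prod.ext hvv.2 h11))
      rw [Finset.card_product] at h7
      have h8 := c4 C hC
      have h9 := Nat.mul_le_mul h5 h6
      omega
    · intro hc
      apply hT4 _ _ (dnf_mono (hXY w) hc)
      intro P hP
      obtain ⟨C, hC, hv⟩ := hr1 P hP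
      exact ⟨C, hC, fun v h => YE_iff.2 (Or.inr (hv v h))⟩

end gad2

end Pool.Agent.WSatMon
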