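import Pool.Agent.WSatMon.Sand

/-! The gadget for odd `t` and for circuits: an AND of OR-clauses. -/

namespace Pool.Agent.WSatMon

open Finset Pool.Agent.WSatAC0

section gad

variable {Blk F : Type} [Fintype Blk] [DecidableEq Blk] [Fintype F] [DecidableEq F] {k n : ℕ}

/-- the planted input -/
def XO (S : Fin k → Fin n) (γ : Blk × F → Fin k) (w : Blk → Bool) :
    Blk × F × Fin k × Fin n → Bool := fun v =>
  w v.1 && (decide (v.2.2.1 = γ (v.1, v.2.1)) && decide (v.2.2.2 = S v.2.2.1))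

/-- the dense input -/
def YO (r : Blk × F × Fin k × Fin n → Bool) (w : Blk → Bool) :
    Blk × F × Fin k × Fin n → Bool := fun v => w v.1 || r v

omit [Fintype Blk] [DecidableEq Blk] [Fintype F] [DecidableEq F] in
theorem XO_iff {S : Fin k → Fin n} {γ : Blk × F → Fin k} {w : Blk → Bool} {b : Blk} {f : F}
    {j : Fin k} {v : Fin n} : XO S γ w (b, f, j, v) = true ↔
      w b = true ∧ j = γ (b, f) ∧ v = S j := by
  simp [XO]

omit [Fintype Blk] [DecidableEq Blk] [Fintype F] [DecidableEq F] in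
theorem YO_iff {r : Blk × F × Fin k × Fin n → Bool} {w : Blk → Bool}
    {v : Blk × F × Fin k × Fin n} : YO r w v = true ↔ w v.1 = true ∨ r v = true := by
  simp [YO]

omit [Fintype Blk] [Fintype F] in
/-- choice of the planted assignment -/
theorem choose_S (hk : 1 ≤ k) (hn : 1 ≤ n) {s l : ℕ}
    (Ps : Finset (Finset (Finset (Blk × F × Fin k × Fin n)))) (hPs : ∀ P ∈ Ps, Petal l s P)
    (h : (Ps.card : ℝ) * (l * (s * ((s : ℝ) / n) ^ k)) < 1) :
    ∃ S : Fin k → Fin n, ∀ P ∈ Ps, ∀ C ∈ P, ∀ row : Blk × F,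
      ∃ j, (row.1, row.2, j, S j) ∉ C := by
  classical
  have : Nonempty (Fin n) := ⟨⟨0, hn⟩⟩
  have h1 : PP (uw (Fin n)) (fun S : Fin k → Fin n => ∃ P ∈ Ps, ∃ C ∈ P,
      ∃ row ∈ C.image (fun v => (v.1, v.2.1)), ∀ j ∈ (univ : Finset (Fin k)),
        S j ∈ (C.filter fun v => v.1 = row.1 ∧ v.2.1 = row.2 ∧ v.2.2.1 = j).image
          fun v => v.2.2.2) < 1 := by
    refine lt_of_le_of_lt (PP_exists_le uw_nonneg Ps _ (l * (s * ((s : ℝ) / n) ^ k)) ?_) h
    intro P hP
    have hP' := hPs P hP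
    refine (PP_exists_le uw_nonneg P _ (s * ((s : ℝ) / n) ^ k) ?_).trans ?_
    · intro C hC
      refine (PP_exists_le uw_nonneg (C.image (fun v => (v.1, v.2.1))) _
        (((s : ℝ) / n) ^ k) ?_).trans ?_
      · intro row _
        have h2 := PP_box (V := Fin k) (α := Fin n) univ
          (fun j => (C.filter fun v => v.1 = row.1 ∧ v.2.1 = row.2 ∧ v.2.2.1 = j).image
          fun v => v.2.2.2) s (by
            intro j _
            exact Finset.card_image_le.trans ((Finset.card_filter_le _ _).trans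
              (hP'.small C hC)))
        rw [Finset.card_univ, Fintype.card_fin, Fintype.card_fin] at h2
        exact h2
      · apply mul_le_mul_of_nonneg_right _ (by positivity)
        exact_mod_cast Finset.card_image_le.trans (hP'.small C hC)
    · rw [hP'.card]
  obtain ⟨S, hS⟩ := PP_lt_one uw_sum h1
  refine ⟨S, ?_⟩
  intro P hP C hC row
  by_contra hcon
  push Not at hcon
  apply hS
  refine ⟨P, hP, C, hC, row, ?_, ?_⟩
  · exact Finset.mem_image.2 ⟨_, hcon ⟨0, hk⟩, rfl⟩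
  · intro j _
    exact Finset.mem_image.2 ⟨_, Finset.mem_filter.2 ⟨hcon j, rfl, rfl, rfl⟩, rfl⟩

/-- choice of the planted positions -/
theorem choose_γ (hk : 1 ≤ k) {s l' : ℕ} (S : Fin k → Fin n)
    (Ps : Finset (Finset (Finset (Blk × F × Fin k × Fin n))))
    (hPs : ∀ P ∈ Ps, Petal ((k * s + 1) * l') s P)
    (hS : ∀ P ∈ Ps, ∀ C ∈ P, ∀ row : Blk × F, ∃ j, (row.1, row.2, j, S j) ∉ C)
    (h : (Ps.card : ℝ) * (1 - (1 / (k : ℝ)) ^ s) ^ l' < 1) :
    ∃ γ : Blk × F → Fin k, ∀ P ∈ Ps, ¬ cnf P (XO S γ fun _ => true) := by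
  classical
  have : Nonempty (Fin k) := ⟨⟨0, hk⟩⟩
  have hk1 : (1 / (k : ℝ)) ^ s ≤ 1 := by
    apply pow_le_one₀ (by positivity)
    rw [div_le_one (by exact_mod_cast hk)]
    exact_mod_cast hk
  have h1 : PP (uw (Fin k)) (fun γ : Blk × F → Fin k => ∃ P ∈ Ps,
      cnf P (XO S γ fun _ => true)) < 1 := by
    refine lt_of_le_of_lt (PP_exists_le uw_nonneg Ps _ ((1 - (1 / (k : ℝ)) ^ s) ^ l') ?_) h
    intro P hP
    have hP' := hPs P hP
    let φ : Finset (Blk × F × Fin k × Fin n) → Finset (Blk × F) := fun C =>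
      (C.filter fun v => v.2.2.2 = S v.2.2.1).image fun v => (v.1, v.2.1)
    have hφs : ∀ C ∈ P, (φ C).card ≤ s := fun C hC =>
      Finset.card_image_le.trans ((Finset.card_filter_le _ _).trans (hP'.small C hC))
    have hφk : ∀ row, (P.filter fun C => row ∈ φ C).card ≤ k := by
      intro row
      have hch : ∀ C ∈ P.filter (fun C => row ∈ φ C), ∃ j : Fin k,
          (row.1, row.2, j, S j) ∈ C := by
        intro C hC
        obtain ⟨v, hv, hvr⟩ := Finset.mem_image.1 (Finset.mem_filter.1 hC).2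
        obtain ⟨hv1, hv2⟩ := Finset.mem_filter.1 hv
        refine ⟨v.2.2.1, ?_⟩
        have : v = (row.1, row.2, v.2.2.1, S v.2.2.1) := by
          rw [← hvr, ← hv2]
        rw [← this]
        exact hv1
      choose! J hJ using hch
      have h2 : Set.InjOn J (P.filter fun C => row ∈ φ C : Finset _) := by
        intro C hC D hD hCD
        by_contra hne
        have h3 := hP'.disj C (Finset.mem_filter.1 hC).1 D (Finset.mem_filter.1 hD).1 hne
        exact Finset.disjoint_left.1 h3 (hJ C hC) (by rw [hCD]; exact hJ D hD)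
      have h3 := Finset.card_le_card_of_injOn (t := (univ : Finset (Fin k))) J
        (fun C _ => Finset.mem_univ _) h2
      rwa [Finset.card_univ, Fintype.card_fin] at h3
    obtain ⟨P', hsub, hdis, hcard⟩ := disj_sub P φ s k hφs hφk
    have hl' : l' ≤ P'.card := by
      rw [hP'.card] at hcard
      exact Nat.le_of_mul_le_mul_left hcard (by positivity)
    choose m hm using hS P hP
    let m' : Finset (Blk × F × Fin k × Fin n) → Blk × F → Fin k := fun C row =>
      if hC : C ∈ P then m C hC row else ⟨0, hk⟩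
    refine (PP_mono uw_nonneg (Q := fun γ : Blk × F → Fin k => ∀ C ∈ P', ∃ row ∈ φ C,
      γ row ≠ m' C row) ?_).trans ((PP_miss s P' φ m' (fun C hC => hφs C (hsub hC)) hdis).trans ?_)
    · intro γ hγ C hC
      obtain ⟨v, hv, hXv⟩ := hγ C (hsub hC)
      obtain ⟨b, f, j, a⟩ := v
      rw [XO_iff] at hXv
      obtain ⟨_, hj, ha⟩ := hXv
      refine ⟨(b, f), Finset.mem_image.2 ⟨(b, f, j, a), Finset.mem_filter.2 ⟨hv, ha⟩, rfl⟩, ?_⟩
      intro hcon
      have h4 := hm C (hsub hC) (b, f)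
      apply h4
      have h5 : m C (hsub hC) (b, f) = j := by
        rw [hj, hcon]
        simp only [m', dif_pos (hsub hC)]
      rw [h5, ← ha]
      exact hv
    · rw [Fintype.card_fin]
      exact pow_le_pow_of_le_one (by linarith) (by
        have : (0 : ℝ) ≤ (1 / (k : ℝ)) ^ s := by positivity
        linarith) hl'
  obtain ⟨γ, hγ⟩ := PP_lt_one uw_sum h1
  exact ⟨γ, fun P hP hc => hγ ⟨P, hP, hc⟩⟩

/-- choice of the zeros -/
theorem choose_r {s R M μ : ℕ} (hμ : 1 ≤ μ) (Ns : Finset (Finset (Blk × F × Fin k × Fin n)))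
    (hNs : ∀ C ∈ Ns, s < C.card) {ι : Type} (I : Finset ι)
    (A : ι → Finset (Finset (Blk × F × Fin k × Fin n))) (hA : ∀ i ∈ I, (A i).card ≤ M)
    (hAs : ∀ i ∈ I, ∀ C ∈ A i, C.card ≤ s)
    (h : (Ns.card : ℝ) * (1 / (μ : ℝ)) ^ (s + 1) + I.card * ((M : ℝ) / μ) ^ R +
      Fintype.card Blk * (n : ℝ) ^ k * (1 - (1 / (μ : ℝ)) ^ k) ^ Fintype.card F < 1) :
    ∃ r : Blk × F × Fin k × Fin n → Bool, (∀ C ∈ Ns, ∃ v ∈ C, r v = true) ∧
      (∀ i ∈ I, (((A i).filter fun C => ∀ v ∈ C, r v = false).biUnion fun C => C).card ≤ s * R) ∧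
      ∀ (b : Blk) (T : Fin k → Fin n), ∃ f, ∀ j, r (b, f, j, T j) = false := by
  classical
  have : Nonempty (Fin μ) := ⟨⟨0, hμ⟩⟩
  let z : Fin μ := ⟨0, hμ⟩
  have e1 : PP (uw (Fin μ)) (fun g : Blk × F × Fin k × Fin n → Fin μ =>
      ∃ C ∈ Ns, ∀ v ∈ C, g v = z) ≤ (Ns.card : ℝ) * (1 / (μ : ℝ)) ^ (s + 1) := by
    apply PP_exists_le uw_nonneg
    intro C hC
    rw [PP_pattern C (fun _ => z), Fintype.card_fin]
    apply pow_le_pow_of_le_one (by positivity) _ (hNs C hC)
    rw [div_le_one (by exact_mod_cast hμ)]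
    exact_mod_cast hμ
  have e2 : PP (uw (Fin μ)) (fun g : Blk × F × Fin k × Fin n → Fin μ =>
      ∃ i ∈ I, ∃ B ⊆ A i, (∀ C ∈ B, ∀ v ∈ C, g v = z) ∧ s * R < (B.biUnion fun C => C).card) ≤
      I.card * ((M : ℝ) / μ) ^ R := by
    apply PP_exists_le uw_nonneg
    intro i hi
    have := PP_survive (V := Blk × F × Fin k × Fin n) (α := Fin μ) (A i) (fun C => C)
      (fun _ _ => z) s R M (hA i hi) (hAs i hi)
    rw [Fintype.card_fin] at this
    exact this
  have e3 : PP (uw (Fin μ)) (fun g : Blk × F × Fin k × Fin n → Fin μ =>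
      ∃ p ∈ (univ : Finset (Blk × (Fin k → Fin n))), ∀ f ∈ (univ : Finset F),
        ∃ v ∈ (univ : Finset (Fin k)).image (fun j => ((p.1, f, j, p.2 j) :
          Blk × F × Fin k × Fin n)), g v ≠ z) ≤
      Fintype.card Blk * (n : ℝ) ^ k * (1 - (1 / (μ : ℝ)) ^ k) ^ Fintype.card F := by
    refine (PP_exists_le uw_nonneg univ _
      ((1 - (1 / (μ : ℝ)) ^ k) ^ Fintype.card F) ?_).trans ?_
    · intro p _
      have := PP_miss (α := Fin μ) k (univ : Finset F)
        (fun f => (univ : Finset (Fin k)).image (fun j => ((p.1, f, j, p.2 j) :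
          Blk × F × Fin k × Fin n))) (fun _ _ => z) ?_ ?_
      · rw [Fintype.card_fin, Finset.card_univ] at this
        exact this
      · intro f _
        refine Finset.card_image_le.trans ?_
        rw [Finset.card_univ, Fintype.card_fin]
      · intro f _ f' _ hne
        rw [Finset.disjoint_left]
        intro v hv hv'
        obtain ⟨j, _, rfl⟩ := Finset.mem_image.1 hv
        obtain ⟨j', _, h'⟩ := Finset.mem_image.1 hv'
        simp only [Prod.mk.injEq] at h'
        exact hne h'.2.1.symm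
    · rw [Finset.card_univ, Fintype.card_prod, Fintype.card_fun, Fintype.card_fin,
        Fintype.card_fin]
      push_cast
      exact le_refl _
  have e4 : PP (uw (Fin μ)) (fun g : Blk × F × Fin k × Fin n → Fin μ =>
      ((∃ C ∈ Ns, ∀ v ∈ C, g v = z) ∨ (∃ i ∈ I, ∃ B ⊆ A i, (∀ C ∈ B, ∀ v ∈ C, g v = z) ∧
        s * R < (B.biUnion fun C => C).card)) ∨
      (∃ p ∈ (univ : Finset (Blk × (Fin k → Fin n))), ∀ f ∈ (univ : Finset F),
        ∃ v ∈ (univ : Finset (Fin k)).image (fun j => ((p.1, f, j, p.2 j) :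
          Blk × F × Fin k × Fin n)), g v ≠ z)) < 1 := by
    refine lt_of_le_of_lt ?_ h
    refine (PP_or uw_nonneg _ _).trans ?_
    exact add_le_add ((PP_or uw_nonneg _ _).trans (add_le_add e1 e2)) e3
  obtain ⟨g, hg⟩ := PP_lt_one uw_sum e4
  push Not at hg
  obtain ⟨⟨g1, g2⟩, g3⟩ := hg
  refine ⟨fun v => decide (g v ≠ z), ?_, ?_, ?_⟩
  · intro C hC
    obtain ⟨v, hv, hgv⟩ := g1 C hC
    exact ⟨v, hv, by simpa using hgv⟩
  · intro i hi
    apply g2 i hi _ (Finset.filter_subset _ _)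
    intro C hC v hv
    have := (Finset.mem_filter.1 hC).2 v hv
    simpa using this
  · intro b T
    obtain ⟨f, _, hf⟩ := g3 (b, T) (Finset.mem_univ _)
    refine ⟨f, fun j => ?_⟩
    have := hf _ (Finset.mem_image.2 ⟨j, Finset.mem_univ _, rfl⟩)
    simpa using this

/-- **the gadget** -/
theorem gadO (hk : 1 ≤ k) (hn : 1 ≤ n) {s l' R N M μ : ℕ} (hs : 1 ≤ s) (hμ : 1 ≤ μ)
    (hl : 1 ≤ l') (hM : sun ((k * s + 1) * l') s ≤ M)
    (L : List ((Blk × F × Fin k × Fin n → Bool) → Prop)) (hL : Straight L) (hN : L.length ≤ N)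
    (h1 : (N : ℝ) * M ^ 2 * (((k * s + 1 : ℕ) * l') * (s * ((s : ℝ) / n) ^ k)) < 1)
    (h2 : (N : ℝ) * M ^ 2 * (1 - (1 / (k : ℝ)) ^ s) ^ l' < 1)
    (h3 : (N : ℝ) * M ^ 2 * (1 / (μ : ℝ)) ^ (s + 1) + N * ((M : ℝ) / μ) ^ R +
      Fintype.card Blk * (n : ℝ) ^ k * (1 - (1 / (μ : ℝ)) ^ k) ^ Fintype.card F < 1) :
    ∃ (S : Fin k → Fin n) (γ : Blk × F → Fin k) (r : Blk × F × Fin k × Fin n → Bool),
      (∀ (b : Blk) (T : Fin k → Fin n), ∃ f, ∀ j, r (b, f, j, T j) = false) ∧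
      Sand L (s * R) (XO S γ) (YO r) := by
  classical
  have hl2 : 2 ≤ (k * s + 1) * l' := by
    have h4 : 1 ≤ k * s := Nat.mul_pos hk hs
    calc 2 ≤ (k * s + 1) * 1 := by omega
      _ ≤ (k * s + 1) * l' := Nat.mul_le_mul_left _ hl
  obtain ⟨Ps, Ns, c1, c2, c3, c4, c5⟩ := approx_cnf hs hl2 hL
  have hb : ((L.length * sun ((k * s + 1) * l') s ^ 2 : ℕ) : ℝ) ≤ (N : ℝ) * M ^ 2 := by
    push_cast
    have h5 : (L.length : ℝ) ≤ N := by exact_mod_cast hN
    have h6 : ((sun ((k * s + 1) * l') s : ℕ) : ℝ) ≤ M := by exact_mod_cast hM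
    exact mul_le_mul h5 (pow_le_pow_left₀ (Nat.cast_nonneg _) h6 2) (by positivity)
      (Nat.cast_nonneg _)
  have hPs : (Ps.card : ℝ) ≤ (N : ℝ) * M ^ 2 := le_trans (by exact_mod_cast c1) hb
  have hNs : (Ns.card : ℝ) ≤ (N : ℝ) * M ^ 2 := le_trans (by exact_mod_cast c2) hb
  obtain ⟨S, hS⟩ := choose_S hk hn Ps c3 (by
    refine lt_of_le_of_lt (mul_le_mul_of_nonneg_right hPs (by positivity)) ?_
    push_cast
    push_cast at h1
    exact h1)
  have hk1 : (1 / (k : ℝ)) ^ s ≤ 1 := by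
    apply pow_le_one₀ (by positivity)
    rw [div_le_one (by exact_mod_cast hk)]
    exact_mod_cast hk
  obtain ⟨γ, hγ⟩ := choose_γ hk S Ps c3 hS
    (lt_of_le_of_lt (mul_le_mul_of_nonneg_right hPs (pow_nonneg (by linarith) _)) h2)
  choose! A hA using c5
  have hI : (L.toFinset.card : ℝ) ≤ N := by
    exact_mod_cast L.toFinset_card_le.trans hN
  have hμ0 : (0 : ℝ) ≤ 1 / (μ : ℝ) := by positivity
  obtain ⟨r, hr1, hr2, hr3⟩ := choose_r (Blk := Blk) (F := F) (k := k) (n := n) (s := s) (R := R)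
    (M := M) hμ Ns c4 L.toFinset A
    (fun g hg => (hA g (List.mem_toFinset.1 hg)).1.trans hM)
    (fun g hg => (hA g (List.mem_toFinset.1 hg)).2.1) (by
      refine lt_of_le_of_lt (add_le_add (add_le_add ?_ ?_) (le_refl _)) h3
      · exact mul_le_mul_of_nonneg_right hNs (by positivity)
      · exact mul_le_mul_of_nonneg_right hI (by positivity))
  refine ⟨S, γ, r, hr3, ?_⟩
  intro g hg
  obtain ⟨hA1, hA2, hA3, hA4⟩ := hA g hg
  have hXY : ∀ w v, XO S γ w v = true → YO r w v = true := by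
    rintro w ⟨b, f, j, a⟩ h
    rw [XO_iff] at h
    rw [YO_iff]
    exact Or.inl h.1
  have hcnf : ∀ w, cnf (A g) (YO r w) ↔ ∀ C ∈ A g, (∀ v ∈ C, r v = false) →
      ∃ v ∈ C, w v.1 = true := by
    intro w
    constructor
    · intro h C hC hz
      obtain ⟨v, hv, hy⟩ := h C hC
      rw [YO_iff] at hy
      refine ⟨v, hv, hy.resolve_right ?_⟩
      rw [hz v hv]
      simp
    · intro h C hC
      by_cases hz : ∀ v ∈ C, r v = false
      · obtain ⟨v, hv, hy⟩ := h C hC hz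
        exact ⟨v, hv, YO_iff.2 (Or.inl hy)⟩
      · push Not at hz
        obtain ⟨v, hv, hy⟩ := hz
        refine ⟨v, hv, YO_iff.2 (Or.inr ?_)⟩
        simpa using hy
  refine ⟨fun w => cnf (A g) (YO r w), ⟨⟨?_, ?_, ?_⟩, ?_⟩, ?_⟩
  · exact (((A g).filter fun C => ∀ v ∈ C, r v = false).biUnion fun C => C).image Prod.fst
  · exact Finset.card_image_le.trans (hr2 g (List.mem_toFinset.2 hg))
  · intro w w' hw
    show cnf (A g) (YO r w) ↔ cnf (A g) (YO r w')
    rw [hcnf, hcnf]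
    apply forall_congr'
    intro C
    apply imp_congr_right
    intro hC
    apply imp_congr_right
    intro hz
    apply exists_congr
    intro v
    apply and_congr_right
    intro hv
    rw [hw v.1 (Finset.mem_image.2 ⟨v, Finset.mem_biUnion.2 ⟨C, Finset.mem_filter.2 ⟨hC, hz⟩, hv⟩,
      rfl⟩)]
  · intro w w' hw
    apply cnf_mono
    intro v hv
    rw [YO_iff] at hv ⊢
    exact hv.imp (hw _) id
  · intro w
    constructor
    · intro hgx
      apply cnf_mono (hXY w)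
      apply hA3 _ _ hgx
      intro P hP hc
      apply hγ P hP
      refine cnf_mono ?_ hc
      rintro ⟨b, f, j, a⟩ h
      rw [XO_iff] at h ⊢
      exact ⟨rfl, h.2⟩
    · intro hc
      apply hA4 _ _ hc
      intro C hC
      obtain ⟨v, hv, hrv⟩ := hr1 C hC
      exact ⟨v, hv, YO_iff.2 (Or.inr hrv)⟩

end gad

end Pool.Agent.WSatMon
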