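import Pool.Agent.WSatMon.Num

/-! The links of the chain, odd depth. -/

namespace Pool.Agent.WSatMon

open Finset Filter Pool.Agent.ParityAC

/-- number of blocks -/
theorem blk_le {β k n s m : ℕ} (h1 : (k + 2) * β ≤ 2 ^ β) (hm : 2 ^ β ≤ m) (hmn : m ^ 4 ≤ n)
    (h2 : 2 ≤ m) :
    ((k + 2) * (β * (2 ^ β * n))) ^ s * ((k + 2) * (β * 2 ^ β)) ≤ n ^ (2 * (s + 1)) := by
  have h3 : m * m ≤ n := by
    refine le_trans ?_ hmn
    calc m * m = m ^ 2 := by ring
      _ ≤ m ^ 4 := Nat.pow_le_pow_right (by omega) (by omega)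
  have h4 : (k + 2) * (β * 2 ^ β) ≤ m * m := by
    calc (k + 2) * (β * 2 ^ β) = ((k + 2) * β) * 2 ^ β := by ring
      _ ≤ m * m := Nat.mul_le_mul (h1.trans hm) hm
  have hn : 1 ≤ n := by nlinarith
  have h5 : (k + 2) * (β * (2 ^ β * n)) ≤ n ^ 2 := by
    calc (k + 2) * (β * (2 ^ β * n)) = (k + 2) * (β * 2 ^ β) * n := by ring
      _ ≤ n * n := Nat.mul_le_mul_right _ (h4.trans h3)
      _ = n ^ 2 := by ring
  calc ((k + 2) * (β * (2 ^ β * n))) ^ s * ((k + 2) * (β * 2 ^ β)) ≤ (n ^ 2) ^ s * n ^ 2 := by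
        apply Nat.mul_le_mul (Nat.pow_le_pow_left h5 s)
        refine (h4.trans h3).trans ?_
        calc n = n ^ 1 := (pow_one n).symm
          _ ≤ n ^ 2 := Nat.pow_le_pow_right hn (by omega)
    _ = n ^ (2 * (s + 1)) := by
      rw [← pow_mul, ← pow_add]
      rfl

/-- **odd depth** -/
theorem linkO (s d c k : ℕ) (ho : Odd (s + 1)) (hk : c1 c (s + 1) d + 5 ≤ k) :
    ¬ SliceMon c (k + 1) (GAMMA (s + 1 + 1) 1) (GAMMA (s + 1) d) := by
  rintro ⟨e, hred⟩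
  obtain ⟨C, hC⟩ : ∃ C, C = c1 c (s + 1) d := ⟨_, rfl⟩
  rw [← hC] at hk
  obtain ⟨s0, hs0⟩ : ∃ s0, s0 = 2 * k * C + 1 := ⟨_, rfl⟩
  obtain ⟨R, hR⟩ : ∃ R, R = 4 * k * C + 1 := ⟨_, rfl⟩
  obtain ⟨p, hp⟩ : ∃ p, p = (s0 + 2) * (4 * k) := ⟨_, rfl⟩
  have hp4 : 4 ≤ p := by
    rw [hp]
    nlinarith
  have hev := (((((common (s + 1) c d k e p (((2 * e + 2) ^ 2 * 2) ^ d * (s0 * R))
    (by omega) hp4).and (eventually_pow ((k * s0 + 1) ^ (s0 + 1) * (2 * s0) ^ s0))).and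
    (eventually_pow (s0 * s0 ^ k))).and (eventually_exp (p * (C + 1)) (k ^ s0)
      (Nat.one_le_pow _ _ (by omega)) one_pos)).and
    (eventually_exp (p * (2 * (s + 1) + k)) 1 (le_refl _)
      (show (0 : ℝ) < 1 / 4 by norm_num))).and
    ((eventually_lin (k + 2)).and ((eventually_pow (k * s0 + 1)).and (eventually_ge_atTop 2)))
  obtain ⟨β, ⟨⟨⟨⟨⟨hA, hN, S, σ, hS, hSσ, hσ, hb⟩, hM0⟩, hs0k⟩, hexp1⟩, hexp2⟩, hlin, hks, hβ⟩ :=
    hev.exists
  obtain ⟨x, hx⟩ : ∃ x, x = 2 ^ β := ⟨_, rfl⟩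
  have hx4 : 4 ≤ x := by
    rw [hx]
    calc 4 = 2 ^ 2 := rfl
      _ ≤ 2 ^ β := Nat.pow_le_pow_right (by omega) hβ
  obtain ⟨M, hM⟩ : ∃ M, M = x ^ (s0 + 2) := ⟨_, rfl⟩
  obtain ⟨n, hn⟩ : ∃ n, n = x ^ p := ⟨_, rfl⟩
  have hxM : x ^ 2 ≤ M := by
    rw [hM]
    exact Nat.pow_le_pow_right (by omega) (by omega)
  have hxM1 : x ≤ M := by
    refine le_trans ?_ hxM
    rw [pow_two]
    nlinarith
  have hMn : M ^ (4 * k) = n := by
    rw [hM, hn, hp, ← pow_mul]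
  have hμn : (M ^ 2) ^ (2 * k) = n := by
    rw [← hMn, ← pow_mul]
    congr 1
    ring
  have hM4 : M ^ 4 ≤ n := by
    rw [← hMn]
    exact Nat.pow_le_pow_right (by omega) (by omega)
  have hM2n : M ^ 2 ≤ n := le_trans (Nat.pow_le_pow_right (by omega) (by omega)) hM4
  have hMn1 : M ≤ n := by
    calc M = M ^ 1 := (pow_one M).symm
      _ ≤ M ^ 4 := Nat.pow_le_pow_right (by omega) (by omega)
      _ ≤ n := hM4
  have hn1 : 1 ≤ n := by omega
  rw [← hx] at hA hN hS hM0 hs0k hlin hks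
  rw [← hn] at hA hN hS
  have hnr : ((2 : ℝ) ^ β) ^ p = (n : ℝ) := by
    rw [hn, hx]
    push_cast
    rfl
  have hxr : ((2 : ℝ) ^ β) = (x : ℝ) := by
    rw [hx]
    push_cast
    rfl
  have hx0 : (0 : ℝ) < x := by exact_mod_cast (show 0 < x by omega)
  have hM0' : (0 : ℝ) < M := by exact_mod_cast (show 0 < M by omega)
  have hn0 : (0 : ℝ) < n := by exact_mod_cast (show 0 < n by omega)
  rw [pow_mul, hnr, hxr] at hexp1 hexp2
  have hk0 : (0 : ℝ) < k := by exact_mod_cast (show 0 < k by omega)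
  refine coreO (s := s) (d := d) (c := c) (k := k) (e := e) (β := β) (n := n) (μ := M ^ 2)
    (s0 := s0) (l' := x) (R := R) (N := n ^ C) (M := M) (σ := σ) (S := S)
    (A := e * n ^ ((2 * (s + 1) + 1) * c)) ho (by omega) (by omega) hn1
    (Nat.one_le_pow _ _ (by omega)) (by omega) (by omega) ?_ ?_ ?_ ?_ ?_ ?_ hS ?_ hσ hb hred
  · rw [← hx]
    exact hA
  · refine (sun_le (Nat.mul_pos (by omega) (by omega)) s0).trans ?_
    rw [mul_pow, hM]
    calc (k * s0 + 1) ^ (s0 + 1) * x ^ (s0 + 1) * (2 * s0) ^ s0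
        = ((k * s0 + 1) ^ (s0 + 1) * (2 * s0) ^ s0) * x ^ (s0 + 1) := by ring
      _ ≤ x * x ^ (s0 + 1) := Nat.mul_le_mul_right _ hM0
      _ = x ^ (s0 + 2) := by ring
  · rw [hC]
    exact hN
  · -- the planted assignment
    have key : n ^ C * M ^ 2 * ((k * s0 + 1) * x) * (s0 * s0 ^ k) < n ^ k := by
      calc n ^ C * M ^ 2 * ((k * s0 + 1) * x) * (s0 * s0 ^ k) ≤ n ^ C * n * n * n := by
            apply Nat.mul_le_mul (Nat.mul_le_mul (Nat.mul_le_mul_left _ hM2n) ?_)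
            · exact hs0k.trans (hxM1.trans hMn1)
            · calc (k * s0 + 1) * x ≤ x * x := Nat.mul_le_mul_right _ hks
                _ = x ^ 2 := by ring
                _ ≤ n := hxM.trans hMn1
        _ = n ^ (C + 3) := by ring
        _ < n ^ k := Nat.pow_lt_pow_right (by omega) (by omega)
    have key' : (n : ℝ) ^ C * M ^ 2 * ((k * s0 + 1) * x) * (s0 * s0 ^ k) < (n : ℝ) ^ k := by
      exact_mod_cast key
    push_cast
    rw [div_pow]
    have hnk : (0 : ℝ) < (n : ℝ) ^ k := by positivity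
    calc (n : ℝ) ^ C * M ^ 2 * ((k * s0 + 1) * x * (s0 * (s0 ^ k / n ^ k)))
        = ((n : ℝ) ^ C * M ^ 2 * ((k * s0 + 1) * x) * (s0 * s0 ^ k)) / n ^ k := by ring
      _ < 1 := by rwa [div_lt_one hnk]
  · -- the planted positions
    push_cast
    have h1 : (1 / (k : ℝ)) ^ s0 ≤ 1 := by
      apply pow_le_one₀ (by positivity)
      rw [div_le_one hk0]
      exact_mod_cast (show 1 ≤ k by omega)
    have h2 := one_sub_pow_le h1 x
    have h3 : -((x : ℝ) * (1 / (k : ℝ)) ^ s0) = -((x : ℝ) / ((k ^ s0 : ℕ) : ℝ)) := by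
      push_cast
      rw [one_div, inv_pow]
      ring
    rw [h3] at h2
    calc (n : ℝ) ^ C * M ^ 2 * (1 - (1 / (k : ℝ)) ^ s0) ^ x
        ≤ (n : ℝ) ^ C * n * Real.exp (-((x : ℝ) / ((k ^ s0 : ℕ) : ℝ))) := by
          have hM2' : (M : ℝ) ^ 2 ≤ n := by exact_mod_cast hM2n
          apply mul_le_mul (mul_le_mul_of_nonneg_left hM2' (by positivity)) h2
          · exact pow_nonneg (by linarith) _
          · positivity
      _ = (n : ℝ) ^ (C + 1) * Real.exp (-((x : ℝ) / ((k ^ s0 : ℕ) : ℝ))) := by ring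
      _ < 1 := hexp1
  · -- the zeros
    push_cast
    have hM4r : (4 : ℝ) ≤ M := by exact_mod_cast (show 4 ≤ M by omega)
    have e1 : (n : ℝ) ^ C * M ^ 2 * (1 / (M : ℝ) ^ 2) ^ (s0 + 1) ≤ 1 / 4 := by
      have h1 : (n : ℝ) ^ C * M ^ 2 = ((M : ℝ) ^ 2) ^ (2 * k * C + 1) := by
        rw [← hμn]
        push_cast
        rw [← pow_mul ((M : ℝ) ^ 2), ← pow_succ]
      rw [h1, hs0, one_div, inv_pow]
      have h2 : ((M : ℝ) ^ 2) ^ (2 * k * C + 1) * (((M : ℝ) ^ 2) ^ (2 * k * C + 1 + 1))⁻¹ =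
          ((M : ℝ) ^ 2)⁻¹ := by
        rw [pow_succ ((M : ℝ) ^ 2) (2 * k * C + 1), mul_inv, ← mul_assoc,
          mul_inv_cancel₀ (by positivity), one_mul]
      rw [h2, ← one_div]
      apply one_div_le_one_div_of_le (by norm_num)
      nlinarith
    have e2 : (n : ℝ) ^ C * ((M : ℝ) / M ^ 2) ^ R ≤ 1 / 4 := by
      have h1 : (M : ℝ) / M ^ 2 = (M : ℝ)⁻¹ := by
        field_simp
      have h2 : (n : ℝ) ^ C = (M : ℝ) ^ (4 * k * C) := by
        rw [← hMn]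
        push_cast
        rw [← pow_mul]
      rw [h1, h2, hR, inv_pow, pow_succ, mul_inv, ← mul_assoc, mul_inv_cancel₀ (by positivity),
        one_mul, ← one_div]
      exact one_div_le_one_div_of_le (by norm_num) hM4r
    have e3 : ((((k : ℝ) + 2) * (β * (2 ^ β * n))) ^ s * ((k + 2) * (β * 2 ^ β))) * (n : ℝ) ^ k *
        (1 - (1 / (M : ℝ) ^ 2) ^ k) ^ n < 1 / 4 := by
      have h1 : ((((k : ℝ) + 2) * (β * (2 ^ β * n))) ^ s * ((k + 2) * (β * 2 ^ β))) ≤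
          (n : ℝ) ^ (2 * (s + 1)) := by
        have := blk_le (n := n) (s := s) (m := M) (hx ▸ hlin) (by rw [← hx]; exact hxM1) hM4
          (by omega)
        exact_mod_cast this
      have h2 : (1 / (M : ℝ) ^ 2) ^ k ≤ 1 := by
        apply pow_le_one₀ (by positivity)
        rw [div_le_one (by positivity)]
        nlinarith
      have h3 := one_sub_pow_le h2 n
      have h4 : (n : ℝ) * (1 / (M : ℝ) ^ 2) ^ k = ((M : ℝ) ^ 2) ^ k := by
        rw [← hμn]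
        push_cast
        rw [one_div, inv_pow, two_mul, pow_add, mul_assoc, mul_inv_cancel₀ (by positivity),
          mul_one]
      have h5 : (x : ℝ) ≤ ((M : ℝ) ^ 2) ^ k := by
        have : x ≤ (M ^ 2) ^ k := by
          calc x ≤ M := hxM1
            _ = M ^ 1 := (pow_one M).symm
            _ ≤ M ^ (2 * k) := Nat.pow_le_pow_right (by omega) (by omega)
            _ = (M ^ 2) ^ k := by rw [pow_mul]
        exact_mod_cast this
      rw [h4] at h3
      have h6 : (1 - (1 / (M : ℝ) ^ 2) ^ k) ^ n ≤ Real.exp (-((x : ℝ) / ((1 : ℕ) : ℝ))) := by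
        refine h3.trans ?_
        rw [Real.exp_le_exp]
        simp only [Nat.cast_one, div_one]
        linarith
      calc _ ≤ (n : ℝ) ^ (2 * (s + 1)) * (n : ℝ) ^ k * Real.exp (-((x : ℝ) / ((1 : ℕ) : ℝ))) := by
            apply mul_le_mul (mul_le_mul_of_nonneg_right h1 (by positivity)) h6
            · exact pow_nonneg (by linarith) _
            · positivity
        _ = (n : ℝ) ^ (2 * (s + 1) + k) * Real.exp (-((x : ℝ) / ((1 : ℕ) : ℝ))) := by
          rw [pow_add]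
        _ < 1 / 4 := hexp2
    linarith
  · simpa using hSσ

end Pool.Agent.WSatMon
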