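import Pool.Agent.WSatMon.Approx
import Pool.Agent.WSatMon.Prob

/-! Sandwiches, and two combinatorial lemmas. -/

namespace Pool.Agent.WSatMon

open Finset Pool.Agent.WSatAC0

section defs

variable {V Blk : Type}

/-- monotone functions of at most `q` of the bits -/
def SmallMono (q : ℕ) (h : (Blk → Bool) → Prop) : Prop :=
  (∃ J : Finset Blk, J.card ≤ q ∧ ∀ w w', (∀ b ∈ J, w b = w' b) → (h w ↔ h w')) ∧
  ∀ w w', (∀ b, w b = true → w' b = true) → h w → h w'

/-- every function of the list is squeezed by a small one -/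
def Sand (L : List ((V → Bool) → Prop)) (q : ℕ) (X Y : (Blk → Bool) → (V → Bool)) : Prop :=
  ∀ g ∈ L, ∃ h, SmallMono q h ∧ ∀ w, (g (X w) → h w) ∧ (h w → g (Y w))

end defs

section comb

variable {ι W : Type} [DecidableEq W]

/-- few sets with a large union -/
theorem greedy (φ : ι → Finset W) (s : ℕ) (S : Finset ι) (hs : ∀ i ∈ S, (φ i).card ≤ s) :
    ∀ R, s * R < (S.biUnion φ).card → ∃ f : Fin R → ι, (∀ a, f a ∈ S) ∧
      R ≤ ((univ : Finset (Fin R)).biUnion fun a => φ (f a)).card := by
  intro R
  induction R with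
  | zero => intro _; exact ⟨fun a => a.elim0, fun a => a.elim0, Nat.zero_le _⟩
  | succ R ih =>
    intro h
    obtain ⟨f, hf1, hf2⟩ := ih (by nlinarith)
    have hU : ((univ : Finset (Fin R)).biUnion fun a => φ (f a)).card ≤ s * R := by
      have := Finset.card_biUnion_le_card_mul (univ : Finset (Fin R)) (fun a => φ (f a)) s
        (fun a _ => hs _ (hf1 a))
      rw [Finset.card_univ, Fintype.card_fin] at this
      rw [Nat.mul_comm]
      exact this
    obtain ⟨x, hx1, hx2⟩ : ∃ x ∈ S.biUnion φ,
        x ∉ (univ : Finset (Fin R)).biUnion fun a => φ (f a) := by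
      by_contra hcon
      push Not at hcon
      have := Finset.card_le_card hcon
      nlinarith
    obtain ⟨i, hi, hxi⟩ := Finset.mem_biUnion.1 hx1
    refine ⟨Fin.cons i f, ?_, ?_⟩
    · intro a
      refine Fin.cases ?_ ?_ a
      · exact hi
      · intro b
        exact hf1 b
    · have hsub : insert x ((univ : Finset (Fin R)).biUnion fun a => φ (f a)) ⊆
          (univ : Finset (Fin (R + 1))).biUnion fun a => φ ((Fin.cons i f : Fin (R + 1) → ι) a) := by
        intro z hz
        rcases Finset.mem_insert.1 hz with rfl | hz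
        · exact Finset.mem_biUnion.2 ⟨0, Finset.mem_univ _, hxi⟩
        · obtain ⟨a, _, hza⟩ := Finset.mem_biUnion.1 hz
          exact Finset.mem_biUnion.2 ⟨a.succ, Finset.mem_univ _, hza⟩
      have h3 := Finset.card_le_card hsub
      rw [Finset.card_insert_of_notMem hx2] at h3
      omega

/-- a large subfamily with disjoint sets -/
theorem disj_sub [DecidableEq ι] (P : Finset ι) (φ : ι → Finset W) (s k : ℕ)
    (hs : ∀ i ∈ P, (φ i).card ≤ s) (hk : ∀ w, (P.filter fun i => w ∈ φ i).card ≤ k) :
    ∃ P' ⊆ P, (∀ i ∈ P', ∀ j ∈ P', i ≠ j → Disjoint (φ i) (φ j)) ∧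
      P.card ≤ (k * s + 1) * P'.card := by
  let Q : Finset (Finset ι) := P.powerset.filter
    fun C => ∀ i ∈ C, ∀ j ∈ C, i ≠ j → Disjoint (φ i) (φ j)
  have hne : Q.Nonempty := ⟨∅, by simp [Q]⟩
  obtain ⟨P', hP', hmax⟩ := Finset.exists_max_image Q Finset.card hne
  simp only [Q, mem_filter, mem_powerset] at hP' hmax
  obtain ⟨hsub, hdis⟩ := hP'
  refine ⟨P', hsub, hdis, ?_⟩
  have hUc : (P'.biUnion φ).card ≤ P'.card * s :=
    Finset.card_biUnion_le_card_mul _ _ _ fun i hi => hs i (hsub hi)
  have hcov : P \ P' ⊆ (P'.biUnion φ).biUnion fun w => P.filter fun i => w ∈ φ i := by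
    intro i hi
    obtain ⟨hiP, hiP'⟩ := Finset.mem_sdiff.1 hi
    by_contra hcon
    have hdi : ∀ j ∈ P', Disjoint (φ i) (φ j) := by
      intro j hj
      rw [Finset.disjoint_left]
      intro x hx hxj
      apply hcon
      exact Finset.mem_biUnion.2 ⟨x, Finset.mem_biUnion.2 ⟨j, hj, hxj⟩,
        Finset.mem_filter.2 ⟨hiP, hx⟩⟩
    have h2 := hmax (insert i P') ⟨Finset.insert_subset hiP hsub, by
      intro a ha b hb hab
      rw [Finset.mem_insert] at ha hb
      rcases ha with rfl | ha <;> rcases hb with rfl | hb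
      · exact absurd rfl hab
      · exact hdi b hb
      · exact (hdi a ha).symm
      · exact hdis a ha b hb hab⟩
    rw [Finset.card_insert_of_notMem hiP'] at h2
    omega
  have h1 : (P \ P').card ≤ (P'.biUnion φ).card * k :=
    (Finset.card_le_card hcov).trans (Finset.card_biUnion_le_card_mul _ _ _ fun w _ => hk w)
  have h2 : (P'.biUnion φ).card * k ≤ P'.card * s * k := Nat.mul_le_mul_right _ hUc
  have h3 : P.card = (P \ P').card + P'.card := by
    rw [Finset.card_sdiff_of_subset hsub]
    have := Finset.card_le_card hsub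
    omega
  calc P.card = (P \ P').card + P'.card := h3
    _ ≤ P'.card * s * k + P'.card := by omega
    _ = (k * s + 1) * P'.card := by ring

end comb

section junta

variable {V α : Type} [Fintype V] [DecidableEq V] [Fintype α] [Nonempty α]

/-- The union of the sets `φ C`, over the sets `C` of a family that follow a random pattern, is
small; `φ C` is covered by coordinates of `C` (`ψ` is the map from the coordinates). -/
theorem PP_survive {ι : Type} (A : Finset ι) (φ : ι → Finset V) (m : ι → V → α) (s R M : ℕ)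
    (hA : A.card ≤ M) (hs : ∀ i ∈ A, (φ i).card ≤ s) :
    PP (uw α) (fun g : V → α => ∃ B ⊆ A, (∀ i ∈ B, ∀ v ∈ φ i, g v = m i v) ∧
      s * R < (B.biUnion φ).card) ≤ ((M : ℝ) / (Fintype.card α : ℝ)) ^ R := by
  classical
  let I : Finset (Fin R → ι) := Fintype.piFinset fun _ => A
  have hI : I.card = A.card ^ R := by
    simp [I, Fintype.card_piFinset]
  have h1 : PP (uw α) (fun g : V → α => ∃ B ⊆ A, (∀ i ∈ B, ∀ v ∈ φ i, g v = m i v) ∧
      s * R < (B.biUnion φ).card) ≤ PP (uw α) (fun g : V → α => ∃ f ∈ I,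
        R ≤ ((univ : Finset (Fin R)).biUnion fun a => φ (f a)).card ∧
        ∀ a, ∀ v ∈ φ (f a), g v = m (f a) v) := by
    apply PP_mono uw_nonneg
    rintro g ⟨B, hB, h2, h3⟩
    obtain ⟨f, hf1, hf2⟩ := greedy φ s B (fun i hi => hs i (hB hi)) R h3
    exact ⟨f, Fintype.mem_piFinset.2 fun a => hB (hf1 a), hf2, fun a => h2 _ (hf1 a)⟩
  refine h1.trans ((PP_exists_le uw_nonneg I _ ((1 / (Fintype.card α : ℝ)) ^ R) ?_).trans ?_)
  · intro f _
    by_cases hc : R ≤ ((univ : Finset (Fin R)).biUnion fun a => φ (f a)).card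
    · let U := (univ : Finset (Fin R)).biUnion fun a => φ (f a)
      -- a single pattern on the union
      by_cases hcons : ∃ g : V → α, ∀ a, ∀ v ∈ φ (f a), g v = m (f a) v
      · obtain ⟨g0, hg0⟩ := hcons
        refine (PP_mono uw_nonneg (Q := fun g : V → α => ∀ v ∈ U, g v = g0 v) ?_).trans ?_
        · rintro g ⟨_, hg⟩ v hv
          obtain ⟨a, _, hva⟩ := Finset.mem_biUnion.1 hv
          rw [hg a v hva, hg0 a v hva]
        · rw [PP_pattern]
          exact pow_le_pow_of_le_one inv_card_nonneg inv_card_le_one hc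
      · have : (fun g : V → α => R ≤ ((univ : Finset (Fin R)).biUnion fun a => φ (f a)).card ∧
            ∀ a, ∀ v ∈ φ (f a), g v = m (f a) v) = fun _ => False := by
          funext g
          exact eq_false fun h => hcons ⟨g, h.2⟩
        rw [this, PP_eq]
        simp only [if_false]
        have h4 := EE_const (V := V) (uw_sum (α := α)) 0
        rw [h4]
        exact pow_nonneg inv_card_nonneg _
    · have : (fun g : V → α => R ≤ ((univ : Finset (Fin R)).biUnion fun a => φ (f a)).card ∧
          ∀ a, ∀ v ∈ φ (f a), g v = m (f a) v) = fun _ => False := by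
        funext g
        exact eq_false fun h => hc h.1
      rw [this, PP_eq]
      simp only [if_false]
      have h4 := EE_const (V := V) (uw_sum (α := α)) 0
      rw [h4]
      exact pow_nonneg inv_card_nonneg _
  · rw [hI]
    push_cast
    rw [← mul_pow]
    apply pow_le_pow_left₀ (mul_nonneg (Nat.cast_nonneg _) inv_card_nonneg)
    rw [mul_one_div]
    exact div_le_div_of_nonneg_right (by exact_mod_cast hA) (Nat.cast_nonneg _)

end junta

end Pool.Agent.WSatMon
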