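import Pool.Agent.WSatMon.Tree

/-! The source formulas: guessing the parities. -/

namespace Pool.Agent.WSatMon

open Finset Pool.Agent.ParityAC

section src

variable {B : Type} [Fintype B] [DecidableEq B] {k n : ℕ}

/-- Branching of the source: a flag, a child, a parity vector, a number. The flag `none` marks the
ordinary branches, the other flags mark the groups of variables. -/
abbrev EE (B : Type) (k n : ℕ) : Type := Option (Option (Fin k)) × B × (B → ZMod 2) × Fin n

/-- Variables: `k` groups of `n` variables and the group of the guesses. -/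
abbrev XX (B : Type) (k n : ℕ) : Type := (Fin k × Fin n) ⊕ (B → ZMod 2)

/-- the assignment given by a guess -/
def asg (T : Fin k → Fin n) (g : B → ZMod 2) : Set (XX B k n) :=
  Set.range fun o : Option (Fin k) => match o with
    | none => Sum.inr g
    | some j => Sum.inl (j, T j)

omit [Fintype B] [DecidableEq B] in
theorem mem_asg_inl {T : Fin k → Fin n} {g : B → ZMod 2} {j : Fin k} {v : Fin n} :
    (Sum.inl (j, v) : XX B k n) ∈ asg T g ↔ v = T j := by
  constructor
  · rintro ⟨o, ho⟩
    cases o with
    | none => simp at ho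
    | some j' =>
      simp only [Sum.inl.injEq, Prod.mk.injEq] at ho
      obtain ⟨rfl, rfl⟩ := ho
      rfl
  · rintro rfl
    exact ⟨some j, rfl⟩

omit [Fintype B] [DecidableEq B] in
theorem mem_asg_inr {T : Fin k → Fin n} {g h : B → ZMod 2} :
    (Sum.inr h : XX B k n) ∈ asg T g ↔ h = g := by
  constructor
  · rintro ⟨o, ho⟩
    cases o with
    | none =>
      simp only [Sum.inr.injEq] at ho
      exact ho.symm
    | some j' => simp at ho
  · rintro rfl
    exact ⟨none, rfl⟩

omit [Fintype B] [DecidableEq B] in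
theorem asg_inj (T : Fin k → Fin n) (g : B → ZMod 2) :
    Function.Injective fun o : Option (Fin k) => (match o with
    | none => Sum.inr g
    | some j => Sum.inl (j, T j) : XX B k n) := by
  intro o o' h
  cases o with
  | none =>
    cases o' with
    | none => rfl
    | some j => simp at h
  | some j =>
    cases o' with
    | none => simp at h
    | some j' =>
      simp only [Sum.inl.injEq, Prod.mk.injEq] at h
      rw [h.1]

omit [Fintype B] [DecidableEq B] in
theorem asg_card (T : Fin k → Fin n) (g : B → ZMod 2) : Nat.card (asg T g) = k + 1 := by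
  unfold asg
  rw [Nat.card_congr (Equiv.ofInjective _ (asg_inj T g)).symm, Nat.card_eq_fintype_card,
    Fintype.card_option, Fintype.card_fin]

omit [DecidableEq B] in
/-- a weight `k + 1` assignment with a variable in every group -/
theorem exists_asg {S : Set (XX B k n)} (hS : Nat.card S = k + 1)
    (h1 : ∀ j : Fin k, ∃ v : Fin n, (Sum.inl (j, v) : XX B k n) ∈ S)
    (h2 : ∃ g : B → ZMod 2, ∑ x, g x = 0 ∧ (Sum.inr g : XX B k n) ∈ S) :
    ∃ (T : Fin k → Fin n) (g : B → ZMod 2), ∑ x, g x = 0 ∧ S = asg T g := by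
  choose T hT using h1
  obtain ⟨g, hg1, hg2⟩ := h2
  refine ⟨T, g, hg1, ?_⟩
  symm
  have hsub : asg T g ⊆ S := by
    rintro x ⟨o, rfl⟩
    cases o with
    | none => exact hg2
    | some j => exact hT j
  apply Set.eq_of_subset_of_ncard_le hsub
  rw [← Nat.card_coe_set_eq, ← Nat.card_coe_set_eq, hS, asg_card]

/-- change one value to get the right sum -/
def fixp (b0 : B) (c : ZMod 2) (h : B → ZMod 2) : B → ZMod 2 :=
  Function.update h b0 (h b0 + (c + ∑ x, h x))

theorem fixp_sum (b0 : B) (c : ZMod 2) (h : B → ZMod 2) : ∑ x, fixp b0 c h x = c := by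
  unfold fixp
  rw [Finset.sum_update_of_mem (Finset.mem_univ b0)]
  have h1 : ∑ x, h x = h b0 + ∑ x ∈ univ \ {b0}, h x := by
    rw [← Finset.sum_sdiff (Finset.subset_univ {b0}), Finset.sum_singleton, add_comm]
  have h2 : ∀ a b c : ZMod 2, a + (c + (a + b)) + b = c := by decide
  rw [h1]
  exact h2 _ _ _

theorem fixp_id (b0 : B) {c : ZMod 2} {h : B → ZMod 2} (hc : ∑ x, h x = c) :
    fixp b0 c h = h := by
  unfold fixp
  have h2 : ∀ a c : ZMod 2, a + (c + c) = a := by decide
  rw [hc, h2, Function.update_eq_self]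

/-- the path with the corrected parity vectors -/
def til (b0 : B) : List (EE B k n) → List (B × (B → ZMod 2))
  | [] => []
  | e :: L => (e.2.1, if L = [] then e.2.2.1 else fixp b0 (hd 0 (til b0 L) e.2.1 + 1) e.2.2.1) ::
      til b0 L

theorem til_length (b0 : B) (L : List (EE B k n)) : (til b0 L).length = L.length := by
  induction L with
  | nil => rfl
  | cons e L ih => simp [til, ih]

theorem til_pth (b0 : B) (L : List (EE B k n)) : pth (til b0 L) = L.map fun e => e.2.1 := by
  induction L with
  | nil => rfl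
  | cons e L ih =>
    simp only [til, pth, List.map_cons]
    rw [← ih]
    rfl

theorem til_cons (b0 : B) (e : EE B k n) {L : List (EE B k n)} (hL : L ≠ []) :
    til b0 (e :: L) = (e.2.1, fixp b0 (hd 0 (til b0 L) e.2.1 + 1) e.2.2.1) :: til b0 L := by
  rw [til, if_neg hL]

omit [Fintype B] [DecidableEq B] in
theorem hd_indep (g g' : B → ZMod 2) {l : List (B × (B → ZMod 2))} (hl : l ≠ []) :
    hd g l = hd g' l := by
  cases l with
  | nil => exact absurd rfl hl
  | cons p l => rfl

theorem til_ne (b0 : B) {L : List (EE B k n)} (hL : L ≠ []) : til b0 L ≠ [] := by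
  intro h
  apply hL
  rw [← List.length_eq_zero_iff, ← til_length b0 L, h]
  rfl

/-- climbing the tree: from the parity to the formula -/
theorem climbX (b0 : B) {φ : List (EE B k n) → Prop} {t r0 : ℕ} {g : B → ZMod 2}
    {w : List B → ZMod 2} {C : List (EE B k n) → Prop}
    (hC : ∀ e L, L ≠ [] → C L → C (e :: L))
    (hleaf : ∀ L, L ≠ [] → C L → L.length + r0 + 1 = t → sem g w r0 (til b0 L) →
      ev φ (r0 + 1) L) (hn : 1 ≤ n) :
    ∀ (r : ℕ) (L : List (EE B k n)), L ≠ [] → C L → L.length + (r0 + r) + 1 = t →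
      sem g w (r0 + r) (til b0 L) → ev φ (r0 + r + 1) L := by
  intro r
  induction r with
  | zero => exact hleaf
  | succ r ih =>
    intro L hL hCL hr hsem
    rw [← Nat.add_assoc] at hsem ⊢
    have hlen : ∀ e : EE B k n, (e :: L).length + (r0 + r) + 1 = t := fun e => by
      rw [List.length_cons]
      omega
    by_cases hev : Even L.length
    · rw [sem_step_even (by rw [til_length]; exact hev)] at hsem
      rw [ev_even hev]
      intro e
      apply ih (e :: L) (List.cons_ne_nil _ _) (hC e L hL hCL) (hlen e)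
      rw [til_cons b0 e hL]
      apply hsem
      rw [fixp_sum, hd_indep g 0 (til_ne b0 hL)]
    · rw [sem_step_odd (by rw [til_length]; exact hev)] at hsem
      rw [ev_odd hev]
      obtain ⟨j, h', hs, h1⟩ := hsem
      refine ⟨(none, j, h', ⟨0, hn⟩), ?_⟩
      apply ih _ (List.cons_ne_nil _ _) (hC _ L hL hCL) (hlen _)
      rw [til_cons b0 _ hL]
      simp only
      rw [fixp_id]
      · exact h1
      · rw [hs, hd_indep g 0 (til_ne b0 hL)]

/-- climbing the tree: from the formula to the parity -/
theorem climbY (b0 : B) {φ : List (EE B k n) → Prop} {t r0 : ℕ} {g : B → ZMod 2}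
    {w : List B → ZMod 2} {C : List (EE B k n) → Prop}
    (hC : ∀ e L, L ≠ [] → C L → C (e :: L))
    (hleaf : ∀ L, L ≠ [] → C L → L.length + r0 + 1 = t → ev φ (r0 + 1) L →
      sem g w r0 (til b0 L)) (hn : 1 ≤ n) :
    ∀ (r : ℕ) (L : List (EE B k n)), L ≠ [] → C L → L.length + (r0 + r) + 1 = t →
      ev φ (r0 + r + 1) L → sem g w (r0 + r) (til b0 L) := by
  intro r
  induction r with
  | zero => exact hleaf
  | succ r ih =>
    intro L hL hCL hr hev'
    rw [← Nat.add_assoc] at hev' ⊢
    have hlen : ∀ e : EE B k n, (e :: L).length + (r0 + r) + 1 = t := fun e => by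
      rw [List.length_cons]
      omega
    by_cases hev : Even L.length
    · rw [sem_step_even (by rw [til_length]; exact hev)]
      rw [ev_even hev] at hev'
      intro j h' hs
      have h1 := ih _ (List.cons_ne_nil _ _) (hC _ L hL hCL) (hlen _)
        (hev' (none, j, h', ⟨0, hn⟩))
      rw [til_cons b0 _ hL] at h1
      simp only at h1
      rw [fixp_id] at h1
      · exact h1
      · rw [hs, hd_indep g 0 (til_ne b0 hL)]
    · rw [sem_step_odd (by rw [til_length]; exact hev)]
      rw [ev_odd hev] at hev'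
      obtain ⟨e, he⟩ := hev'
      have h1 := ih _ (List.cons_ne_nil _ _) (hC e L hL hCL) (hlen _) he
      rw [til_cons b0 e hL] at h1
      refine ⟨e.2.1, _, ?_, h1⟩
      rw [fixp_sum, hd_indep g 0 (til_ne b0 hL)]

omit [DecidableEq B] in
/-- the parity by a guess -/
theorem parity_guess (w : List B → ZMod 2) (r : ℕ) :
    bp w (r + 1) [] = 0 ↔ ∃ g : B → ZMod 2, ∑ x, g x = 0 ∧ sem g w r [] := by
  constructor
  · intro h
    refine ⟨fun j => bp w r [j], h, ?_⟩
    rw [sem_even (by simp)]
    intro j
    rfl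
  · rintro ⟨g, hg, h⟩
    rw [sem_even (by simp)] at h
    rw [← hg]
    exact Finset.sum_congr rfl fun j _ => h j

/-- the wanted value of the hidden bit below the gate `L` -/
def cc (b0 : B) (L : List (EE B k n)) (b : B) (h : B → ZMod 2) : ZMod 2 :=
  if L = [] then h b else hd 0 (til b0 L) b + (if Even L.length then 0 else 1)

/-- Blocks: a gate of level `s + 1`, and a flag, a child and a parity vector. -/
abbrev BB (B : Type) (k n s : ℕ) : Type :=
  List.Vector (EE B k n) s × (Option (Option (Fin k)) × B × (B → ZMod 2))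

/-- the bits of the blocks -/
def zw (b0 : B) {s : ℕ} (z : VV B s → Bool) (p : BB B k n s) : Bool :=
  decide (bz z (p.2.2.1 :: p.1.1.map fun e => e.2.1) = cc b0 p.1.1 p.2.2.1 p.2.2.2)

/-- the hidden bit of a block -/
def vbB {s : ℕ} (p : BB B k n s) : VV B s :=
  ⟨p.2.2.1 :: p.1.1.map fun e => e.2.1, by simp⟩

theorem zw_dep (b0 : B) {s : ℕ} (z z' : VV B s → Bool) (p : BB B k n s)
    (h : z (vbB p) = z' (vbB p)) : zw b0 z p = zw b0 z' p := by
  unfold zw
  have h1 : bz z (p.2.2.1 :: p.1.1.map fun e => e.2.1) =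
      bz z' (p.2.2.1 :: p.1.1.map fun e => e.2.1) := by
    have hl : (p.2.2.1 :: p.1.1.map fun e => e.2.1).length = s + 1 := by simp
    simp only [bz, dif_pos hl]
    have h2 : (⟨p.2.2.1 :: p.1.1.map fun e => e.2.1, hl⟩ : VV B s) = vbB p := rfl
    rw [h2, h]
  rw [h1]

/-- the guess contradicts the first step -/
def incg (t : ℕ) (g : B → ZMod 2) (e : EE B k n) : Prop :=
  if t = 1 then e.2.2.1 e.2.1 ≠ g e.2.1 else ∑ x, e.2.2.1 x ≠ g e.2.1 + 1

instance (t : ℕ) (g : B → ZMod 2) (e : EE B k n) : Decidable (incg t g e) := by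
  unfold incg
  infer_instance

end src

end Pool.Agent.WSatMon
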