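import Pool.Agent.WSatMon.Paths
import Pool.Agent.WSatMon.GadO
import Pool.Agent.WSatMon.Eval

/-! The source circuits: layered connectivity. -/

namespace Pool.Agent.WSatMon

open Finset

section defs

variable {W : Type} {p : ℕ}

/-- the tail of an edge, `none` is the source -/
def tlE : Ed W p → Option (VT W p)
  | Sum.inl _ => none
  | Sum.inr (Sum.inl a) => some (tailI p a)
  | Sum.inr (Sum.inr u) => some (lV p u)

/-- the head of an edge, `none` is the sink -/
def hdE : Ed W p → Option (VT W p)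
  | Sum.inl u => some (fV p u)
  | Sum.inr (Sum.inl a) => some (headI p a)
  | Sum.inr (Sum.inr _) => none

variable (W p) (k n : ℕ)

/-- the gates of the source -/
inductive CG : Type
  /-- the vertex is reached -/
  | R (v : VT W p)
  /-- the edge is present and its tail is reached -/
  | A (a : Ed W p)
  /-- a clause of the block of an edge -/
  | O (a : Ed W p) (f : Fin n)
  /-- some variable of a group is true -/
  | C (j : Fin k)
  /-- the sink is reached -/
  | T
  /-- output -/
  | out

variable {W p k n}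

/-- code of a gate -/
def CG.enc : CG W p k n → (VT W p ⊕ Ed W p) ⊕ ((Ed W p × Fin n) ⊕ (Fin k ⊕ Bool))
  | .R v => Sum.inl (Sum.inl v)
  | .A a => Sum.inl (Sum.inr a)
  | .O a f => Sum.inr (Sum.inl (a, f))
  | .C j => Sum.inr (Sum.inr (Sum.inl j))
  | .T => Sum.inr (Sum.inr (Sum.inr false))
  | .out => Sum.inr (Sum.inr (Sum.inr true))

theorem CG.enc_inj : Function.Injective (CG.enc (W := W) (p := p) (k := k) (n := n)) := by
  intro a b h
  cases a <;> cases b <;> simp_all [CG.enc]

/-- wires of the source -/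
def cwire (g h : CG W p k n) : Prop :=
  match h with
  | .R v => ∃ a, g = .A a ∧ hdE a = some v
  | .A a => (∃ f, g = .O a f) ∨ ∃ v, g = .R v ∧ tlE a = some v
  | .O _ _ => False
  | .C _ => False
  | .T => ∃ a, g = .A a ∧ hdE a = none
  | .out => g = .T ∨ ∃ j, g = .C j

/-- rank of a gate -/
def rk : CG W p k n → ℕ
  | .R v => 2 * layer p v + 2
  | .A (Sum.inl _) => 1
  | .A (Sum.inr (Sum.inl a)) => 2 * layer p (tailI p a) + 3
  | .A (Sum.inr (Sum.inr _)) => 2 * 2 ^ p + 3
  | .O _ _ => 0
  | .C _ => 0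
  | .T => 2 * 2 ^ p + 4
  | .out => 2 * 2 ^ p + 5

theorem layer_lt : ∀ (p : ℕ) (v : VT W p), layer p v < 2 ^ p := by
  intro p
  induction p with
  | zero => intro v; exact Nat.one_pos
  | succ p ih =>
    intro v
    have h2 : 2 ^ (p + 1) = 2 ^ p + 2 ^ p := by ring
    rcases v with v | v
    · have := ih v
      show layer p v < _
      omega
    · have := ih v
      show 2 ^ p + layer p v < _
      omega

theorem rk_lt {g h : CG W p k n} (hw : cwire g h) : rk g < rk h := by
  cases h with
  | R v =>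
    obtain ⟨a, rfl, ha⟩ := hw
    rcases a with u | a | u
    · simp only [rk]
      omega
    · simp only [hdE, Option.some.injEq] at ha
      subst ha
      simp only [rk, layer_edge]
      omega
    · simp [hdE] at ha
  | A a =>
    rcases hw with ⟨f, rfl⟩ | ⟨v, rfl, hv⟩
    · rcases a with u | a | u <;> simp only [rk] <;> omega
    · rcases a with u | a | u
      · simp [tlE] at hv
      · simp only [tlE, Option.some.injEq] at hv
        subst hv
        simp only [rk]
        omega
      · have := layer_lt p v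
        simp only [rk]
        omega
  | O a f => exact hw.elim
  | C j => exact hw.elim
  | T =>
    obtain ⟨a, rfl, ha⟩ := hw
    rcases a with u | a | u
    · simp [hdE] at ha
    · simp [hdE] at ha
    · simp only [rk]
      omega
  | out =>
    rcases hw with rfl | ⟨j, rfl⟩
    · simp only [rk]
      omega
    · simp only [rk]
      omega

instance [Finite W] : Finite (CG W p k n) := by
  have : Fintype W := Fintype.ofFinite W
  exact Finite.of_injective _ (CG.enc_inj (W := W) (p := p) (k := k) (n := n))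

variable (W p k n) in
/-- the source circuit -/
def srcC [Finite W] : Frame where
  Var := Fin k × Fin n
  Gate := CG W p k n
  finVar := inferInstance
  finGate := inferInstance
  isAnd g := match g with
    | .A _ => True
    | .out => True
    | _ => False
  slot g := match g with
    | .O _ _ => True
    | .C _ => True
    | _ => False
  wire := cwire
  wf := Subrelation.wf (fun h => rk_lt h) (measure rk).wf
  out := .out

/-- the table -/
def tabG [Finite W] (x : Ed W p × Fin n × Fin k × Fin n → Bool) :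
    (srcC W p k n).Bit 1 → Bool := fun P =>
  match P.1 with
  | .O a f => (P.2 0).2 && x (a, f, (P.2 0).1.1, (P.2 0).1.2)
  | .C j => (P.2 0).2 && decide ((P.2 0).1.1 = j)
  | _ => false

theorem tabG_proj [Finite W] (P : (srcC W p k n).Bit 1) :
    (∃ c : Prop, ∀ x : Ed W p × Fin n × Fin k × Fin n → Bool, (tabG x P = true) = c) ∨
      ∃ v, ∀ x : Ed W p × Fin n × Fin k × Fin n → Bool, tabG x P = x v := by
  obtain ⟨g, D⟩ := P
  rcases hD : D 0 with ⟨⟨j, v⟩, σ⟩
  cases g with
  | R v => exact Or.inl ⟨False, fun x => by simp [tabG]⟩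
  | A a => exact Or.inl ⟨False, fun x => by simp [tabG]⟩
  | O a f =>
    cases σ
    · exact Or.inl ⟨False, fun x => by simp [tabG, hD]⟩
    · exact Or.inr ⟨(a, f, j, v), fun x => by simp [tabG, hD]⟩
  | C j0 =>
    cases σ
    · exact Or.inl ⟨False, fun x => by simp [tabG, hD]⟩
    · exact Or.inl ⟨j = j0, fun x => by simp [tabG, hD]⟩
  | T => exact Or.inl ⟨False, fun x => by simp [tabG]⟩
  | out => exact Or.inl ⟨False, fun x => by simp [tabG]⟩

/-- the evaluation of the source -/
structure CSem [Finite W] (x : Ed W p × Fin n × Fin k × Fin n → Bool) (S : Set (Fin k × Fin n))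
    (val : CG W p k n → Prop) : Prop where
  hR : ∀ v, val (.R v) ↔ ∃ a, hdE a = some v ∧ val (.A a)
  hA : ∀ a, val (.A a) ↔ (∀ f, val (.O a f)) ∧ ∀ v, tlE a = some v → val (.R v)
  hO : ∀ a f, val (.O a f) ↔ ∃ j v, x (a, f, j, v) = true ∧ (j, v) ∈ S
  hC : ∀ j, val (.C j) ↔ ∃ v, (j, v) ∈ S
  hT : val .T ↔ ∃ a, hdE a = none ∧ val (.A a)
  ho : val .out ↔ val .T ∧ ∀ j, val (.C j)

theorem csem [Finite W] {x : Ed W p × Fin n × Fin k × Fin n → Bool} {S : Set (Fin k × Fin n)}
    {val : CG W p k n → Prop} (h : IsEval (srcC W p k n) (tabG x) S val) : CSem x S val := by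
  obtain ⟨h1, h2⟩ := h
  refine ⟨?_, ?_, ?_, ?_, ?_, ?_⟩
  · intro v
    rw [h2 (.R v) (fun h => h)]
    constructor
    · rintro (⟨g, ⟨a, rfl, ha⟩, hv⟩ | ⟨hf, _⟩)
      · exact ⟨a, ha, hv⟩
      · exact hf.elim
    · rintro ⟨a, ha, hv⟩
      exact Or.inl ⟨_, ⟨a, rfl, ha⟩, hv⟩
  · intro a
    rw [h1 (.A a) trivial]
    constructor
    · rintro ⟨h3, _⟩
      exact ⟨fun f => h3 _ (Or.inl ⟨f, rfl⟩), fun v hv => h3 _ (Or.inr ⟨v, rfl, hv⟩)⟩
    · rintro ⟨h3, h4⟩
      refine ⟨?_, fun hf => hf.elim⟩
      rintro g (⟨f, rfl⟩ | ⟨v, rfl, hv⟩)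
      · exact h3 f
      · exact h4 v hv
  · intro a f
    rw [h2 (.O a f) (fun h => h)]
    constructor
    · rintro (⟨g, hg, _⟩ | ⟨_, D, hD, hl⟩)
      · exact hg.elim
      · rcases hD0 : D 0 with ⟨⟨j, v⟩, σ⟩
        simp only [tabG, hD0, Bool.and_eq_true] at hD
        obtain ⟨rfl, hx⟩ := hD
        have := hl 0
        rw [hD0] at this
        exact ⟨j, v, hx, this.2 rfl⟩
    · rintro ⟨j, v, hx, hv⟩
      refine Or.inr ⟨trivial, fun _ => ((j, v), true), ?_, fun _ => ⟨fun _ => rfl, fun _ => hv⟩⟩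
      simp only [tabG, Bool.true_and]
      exact hx
  · intro j
    rw [h2 (.C j) (fun h => h)]
    constructor
    · rintro (⟨g, hg, _⟩ | ⟨_, D, hD, hl⟩)
      · exact hg.elim
      · rcases hD0 : D 0 with ⟨⟨j', v⟩, σ⟩
        simp only [tabG, hD0, Bool.and_eq_true, decide_eq_true_eq] at hD
        obtain ⟨rfl, rfl⟩ := hD
        have := hl 0
        rw [hD0] at this
        exact ⟨v, this.2 rfl⟩
    · rintro ⟨v, hv⟩
      refine Or.inr ⟨trivial, fun _ => ((j, v), true), ?_, fun _ => ⟨fun _ => rfl, fun _ => hv⟩⟩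
      simp only [tabG, Bool.true_and, decide_true]
  · rw [h2 .T (fun h => h)]
    constructor
    · rintro (⟨g, ⟨a, rfl, ha⟩, hv⟩ | ⟨hf, _⟩)
      · exact ⟨a, ha, hv⟩
      · exact hf.elim
    · rintro ⟨a, ha, hv⟩
      exact Or.inl ⟨_, ⟨a, rfl, ha⟩, hv⟩
  · rw [h1 .out trivial]
    constructor
    · rintro ⟨h3, _⟩
      exact ⟨h3 _ (Or.inl rfl), fun j => h3 _ (Or.inr ⟨j, rfl⟩)⟩
    · rintro ⟨h3, h4⟩
      refine ⟨?_, fun hf => hf.elim⟩
      rintro g (rfl | ⟨j, rfl⟩)
      · exact h3
      · exact h4 j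

/-- the assignment -/
def asC (T : Fin k → Fin n) : Set (Fin k × Fin n) := Set.range fun j => (j, T j)

theorem mem_asC {T : Fin k → Fin n} {j : Fin k} {v : Fin n} : (j, v) ∈ asC T ↔ v = T j := by
  constructor
  · rintro ⟨j', h⟩
    simp only [Prod.mk.injEq] at h
    obtain ⟨rfl, rfl⟩ := h
    rfl
  · rintro rfl
    exact ⟨j, rfl⟩

theorem asC_card (T : Fin k → Fin n) : Nat.card (asC T) = k := by
  unfold asC
  rw [Nat.card_congr (Equiv.ofInjective _ fun j j' h => (Prod.mk.inj h).1).symm, Nat.card_fin]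

theorem exists_asC {S : Set (Fin k × Fin n)} (hS : Nat.card S = k)
    (h : ∀ j : Fin k, ∃ v : Fin n, (j, v) ∈ S) : ∃ T : Fin k → Fin n, S = asC T := by
  choose T hT using h
  refine ⟨T, ?_⟩
  symm
  have hsub : asC T ⊆ S := by
    rintro x ⟨j, rfl⟩
    exact hT j
  apply Set.eq_of_subset_of_ncard_le hsub
  rw [← Nat.card_coe_set_eq, ← Nat.card_coe_set_eq, hS, asC_card]

/-- **planted instances** -/
theorem srcC_X [Finite W] (S : Fin k → Fin n) (γ : Ed W p × Fin n → Fin k) (x : PT W p) :
    WSat (srcC W p k n) (tabG (XO S γ (wA x))) k := by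
  refine ⟨asC S, asC_card S, evalF _ (sl0 _ _ _), isEval_iff.2 (evalF_spec _ _), ?_⟩
  have hs := csem (isEval_iff.2 (evalF_spec (srcC W p k n)
    (sl0 (srcC W p k n) (tabG (XO S γ (wA x))) (asC S))))
  generalize evalF (srcC W p k n) (sl0 (srcC W p k n) (tabG (XO S γ (wA x))) (asC S)) = val at hs
  show val .out
  have hO : ∀ a f, wA x a = true → val (.O a f) := by
    intro a f ha
    rw [hs.hO]
    exact ⟨γ (a, f), S (γ (a, f)), XO_iff.2 ⟨ha, rfl, rfl⟩, mem_asC.2 rfl⟩
  have hR : ∀ (N : ℕ) (v : VT W p), layer p v = N → v ∈ vs p x → val (.R v) := by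
    intro N
    induction N using Nat.strong_induction_on with
    | _ N ih =>
      intro v hN hv
      rw [hs.hR]
      rcases enter p x v hv with h | ⟨a, h1, h2⟩
      · refine ⟨Sum.inl (fstP p x), by rw [h]; rfl, ?_⟩
        rw [hs.hA]
        refine ⟨fun f => hO _ f (by simp [wA]), fun v' hv' => by simp [tlE] at hv'⟩
      · refine ⟨Sum.inr (Sum.inl a), by rw [← h2]; rfl, ?_⟩
        rw [hs.hA]
        refine ⟨fun f => hO _ f (by simp [wA, h1]), fun v' hv' => ?_⟩
        simp only [tlE, Option.some.injEq] at hv'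
        subst hv'
        have h3 := layer_edge p a
        rw [h2, hN] at h3
        exact ih (layer p (tailI p a)) (by omega) _ rfl (tail_mem p x a h1)
  rw [hs.ho]
  refine ⟨?_, fun j => (hs.hC j).2 ⟨S j, mem_asC.2 rfl⟩⟩
  rw [hs.hT]
  refine ⟨Sum.inr (Sum.inr (lstP p x)), rfl, ?_⟩
  rw [hs.hA]
  refine ⟨fun f => hO _ f (by simp [wA]), fun v' hv' => ?_⟩
  simp only [tlE, Option.some.injEq] at hv'
  subst hv'
  exact hR _ _ rfl ((lV_mem p x _).2 rfl)

/-- **dense instances** -/
theorem srcC_Y [Finite W] {r : Ed W p × Fin n × Fin k × Fin n → Bool}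
    (hr : ∀ (b : Ed W p) (T : Fin k → Fin n), ∃ f, ∀ j, r (b, f, j, T j) = false)
    (y : PT W p) : ¬ WSat (srcC W p k n) (tabG (YO r (wB y))) k := by
  rintro ⟨S, hS, val, hval, hout⟩
  have hs := csem hval
  have hout' : val .out := hout
  rw [hs.ho] at hout'
  obtain ⟨hT, hC⟩ := hout'
  obtain ⟨T, rfl⟩ := exists_asC hS fun j => (hs.hC j).1 (hC j)
  have hA : ∀ a, val (.A a) → wB y a = true := by
    intro a ha
    rw [hs.hA] at ha
    obtain ⟨f, hf⟩ := hr a T
    obtain ⟨j, v, h1, h2⟩ := (hs.hO a f).1 (ha.1 f)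
    rw [mem_asC] at h2
    subst h2
    rw [YO_iff] at h1
    rcases h1 with h1 | h1
    · exact h1
    · rw [hf j] at h1
      simp at h1
  have hR : ∀ (N : ℕ) (v : VT W p), layer p v = N → val (.R v) → v ∈ vs p y := by
    intro N
    induction N using Nat.strong_induction_on with
    | _ N ih =>
      intro v hN hv
      rw [hs.hR] at hv
      obtain ⟨a, h1, h2⟩ := hv
      have h3 := hA a h2
      rcases a with u | a | u
      · simp only [hdE, Option.some.injEq] at h1
        subst h1
        rw [fV_mem]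
        simpa [wB] using h3
      · simp only [hdE, Option.some.injEq] at h1
        subst h1
        have h4 : bo p y a := by simpa [wB] using h3
        rw [hs.hA] at h2
        have h5 := h2.2 (tailI p a) rfl
        have h6 := layer_edge p a
        exact head_mem p y a h4 (ih (layer p (tailI p a)) (by omega) _ rfl h5)
      · simp [hdE] at h1
  rw [hs.hT] at hT
  obtain ⟨a, h1, h2⟩ := hT
  have h3 := hA a h2
  rcases a with u | a | u
  · simp [hdE] at h1
  · simp [hdE] at h1
  · have h4 : u ≠ lstP p y := by simpa [wB] using h3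
    rw [hs.hA] at h2
    exact h4 ((lV_mem p y u).1 (hR _ _ rfl (h2.2 (lV p u) rfl)))

end defs

section card

variable {W : Type} [Fintype W]

theorem card_VT : ∀ p, Fintype.card (VT W p) = 2 ^ p * Fintype.card W := by
  intro p
  induction p with
  | zero =>
    show Fintype.card W = _
    simp
  | succ p ih =>
    have : Fintype.card (VT W (p + 1)) = Fintype.card (VT W p) + Fintype.card (VT W p) :=
      Fintype.card_sum
    rw [this, ih]
    ring

theorem card_IE : ∀ p, Fintype.card (IE W p) + Fintype.card W ^ 2 =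
    2 ^ p * Fintype.card W ^ 2 := by
  intro p
  induction p with
  | zero =>
    show Fintype.card Empty + _ = _
    simp
  | succ p ih =>
    have : Fintype.card (IE W (p + 1)) = Fintype.card (IE W p) +
        (Fintype.card W * Fintype.card W + Fintype.card (IE W p)) := by
      refine (Fintype.card_sum).trans ?_
      congr 1
      refine (Fintype.card_sum).trans ?_
      congr 1
      exact Fintype.card_prod _ _
    rw [this]
    have h2 : 2 ^ (p + 1) * Fintype.card W ^ 2 = 2 * (2 ^ p * Fintype.card W ^ 2) := by ring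
    rw [h2, ← ih]
    ring

theorem card_Ed (p : ℕ) (h2 : 2 ≤ Fintype.card W) :
    Fintype.card (Ed W p) ≤ 2 ^ p * Fintype.card W ^ 2 := by
  have h1 : Fintype.card (Ed W p) = Fintype.card W + (Fintype.card (IE W p) + Fintype.card W) := by
    refine (Fintype.card_sum).trans ?_
    congr 1
    exact Fintype.card_sum
  rw [h1, ← card_IE p]
  have : Fintype.card W + Fintype.card W ≤ Fintype.card W ^ 2 := by nlinarith
  omega

theorem srcC_size (p k n : ℕ) (h2 : 2 ≤ Fintype.card W) : (srcC W p k n).size ≤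
    2 ^ p * Fintype.card W + 2 ^ p * Fintype.card W ^ 2 * (n + 1) + (k + 2) + k * n := by
  have h1 : Nat.card (srcC W p k n).Gate ≤
      2 ^ p * Fintype.card W + 2 ^ p * Fintype.card W ^ 2 * (n + 1) + (k + 2) := by
    have h3 : Nat.card (CG W p k n) ≤
        Nat.card ((VT W p ⊕ Ed W p) ⊕ ((Ed W p × Fin n) ⊕ (Fin k ⊕ Bool))) :=
      Nat.card_le_card_of_injective _ CG.enc_inj
    rw [Nat.card_eq_fintype_card (α := (VT W p ⊕ Ed W p) ⊕ ((Ed W p × Fin n) ⊕ (Fin k ⊕ Bool))),
      Fintype.card_sum, Fintype.card_sum, Fintype.card_sum, Fintype.card_sum, Fintype.card_prod,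
      Fintype.card_fin, Fintype.card_fin, Fintype.card_bool, card_VT] at h3
    have h4 := card_Ed (W := W) p h2
    refine h3.trans ?_
    have h5 : Fintype.card (Ed W p) + Fintype.card (Ed W p) * n ≤
        2 ^ p * Fintype.card W ^ 2 * (n + 1) := by
      calc Fintype.card (Ed W p) + Fintype.card (Ed W p) * n
          = Fintype.card (Ed W p) * (n + 1) := by ring
        _ ≤ _ := Nat.mul_le_mul_right _ h4
    omega
  have h6 : Nat.card (srcC W p k n).Var = k * n := by
    show Nat.card (Fin k × Fin n) = _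
    rw [Nat.card_prod, Nat.card_fin, Nat.card_fin]
  unfold Frame.size
  omega

end card

end Pool.Agent.WSatMon
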