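import Pool.Agent.WSatMon.SrcO
import Pool.Agent.WSatMon.GadE

/-! The source formulas, even depth. -/

namespace Pool.Agent.WSatMon

open Finset Pool.Agent.ParityAC

section cst

variable {E : Type}

/-- a subtree with constant parents of leaves -/
theorem ev_const1 [Nonempty E] {φ : List E → Prop} {P : Prop} : ∀ (r : ℕ) (L : List E),
    (∀ M : List E, M.length = r → (ev φ 1 (M ++ L) ↔ P)) → (ev φ (r + 1) L ↔ P) := by
  intro r
  induction r with
  | zero =>
    intro L h
    exact h [] rfl
  | succ r ih =>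
    intro L h
    have ih' : ∀ e, ev φ (r + 1) (e :: L) ↔ P := fun e => ih (e :: L) fun M hM => by
      have := h (M ++ [e]) (by simp [hM])
      simpa using this
    obtain ⟨e0⟩ := (inferInstance : Nonempty E)
    by_cases hL : Even L.length
    · rw [ev_even hL]
      exact ⟨fun h1 => (ih' e0).1 (h1 e0), fun h1 e => (ih' e).2 h1⟩
    · rw [ev_odd hL]
      exact ⟨fun ⟨e, h1⟩ => (ih' e).1 h1, fun h1 => ⟨e0, (ih' e0).2 h1⟩⟩

end cst

section srce

variable {B : Type} [Fintype B] [DecidableEq B] {k n s : ℕ}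

/-- the literals missing in a term; `e1` is the first step of the path -/
def litE (x : BB B k n s × Fin n × Fin k × Fin n → Bool) (e : EE B k n)
    (L : List.Vector (EE B k n) s) (e1 : EE B k n) (l : XX B k n × Bool) : Bool :=
  match e1.1 with
  | none => match e.1 with
    | none => match l with
      | (Sum.inl (j, v), false) => x ((L, (none, e.2.1, e.2.2.1)), e.2.2.2, j, v)
      | (_, _) => true
    | some _ => decide (incg (s + 1) e.2.2.1 e1 ∧ l ≠ (Sum.inr e.2.2.1, true))
  | some none => decide (∑ x, e.2.2.1 x = 0 ∧ l ≠ (Sum.inr e.2.2.1, true))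
  | some (some j0) => decide (l ≠ (Sum.inl (j0, e.2.2.2), true))

/-- the table -/
def tabE (x : BB B k n s × Fin n × Fin k × Fin n → Bool) :
    (treeF (EE B k n) (XX B k n) (s + 1)).Bit 1 → Bool := fun p =>
  match p.1.1 with
  | [] => false
  | e :: L => if hL : L.length = s then
      match (e :: L).getLast? with
      | none => false
      | some e1 => litE x e ⟨L, hL⟩ e1 (p.2 0)
    else false

omit [DecidableEq B] in
theorem tabE_proj (p : (treeF (EE B k n) (XX B k n) (s + 1)).Bit 1) :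
    (∃ c : Prop, ∀ x : BB B k n s × Fin n × Fin k × Fin n → Bool, (tabE x p = true) = c) ∨
      ∃ v, ∀ x : BB B k n s × Fin n × Fin k × Fin n → Bool, tabE x p = x v := by
  obtain ⟨⟨L0, hL0⟩, D⟩ := p
  cases L0 with
  | nil => exact Or.inl ⟨False, fun x => by simp [tabE]⟩
  | cons e L =>
    by_cases hL : L.length = s
    · cases hl : (e :: L).getLast? with
      | none => exact Or.inl ⟨False, fun x => by simp only [tabE, dif_pos hL, hl]; simp⟩
      | some e1 =>
        have h : ∀ x : BB B k n s × Fin n × Fin k × Fin n → Bool,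
            tabE x (⟨e :: L, hL0⟩, D) = litE x e ⟨L, hL⟩ e1 (D 0) := fun x => by
          simp only [tabE, dif_pos hL, hl]
        obtain ⟨f1, b1, h1, n1⟩ := e1
        obtain ⟨f2, b2, h2, n2⟩ := e
        rcases hD : D 0 with ⟨a, σ⟩
        simp only [h, hD]
        rcases f1 with _ | _ | j0
        · rcases f2 with _ | f2
          · cases σ
            · rcases a with ⟨j, v⟩ | g
              · exact Or.inr ⟨((⟨L, hL⟩, (none, b2, h2)), n2, j, v), fun x => rfl⟩
              · exact Or.inl ⟨True, fun x => by simp [litE]⟩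
            · exact Or.inl ⟨True, fun x => by rcases a with ⟨j, v⟩ | g <;> simp [litE]⟩
          · exact Or.inl ⟨litE (fun _ => false) (some f2, b2, h2, n2) ⟨L, hL⟩
              (none, b1, h1, n1) (a, σ) = true, fun x => rfl⟩
        · exact Or.inl ⟨litE (fun _ => false) (f2, b2, h2, n2) ⟨L, hL⟩
              (some none, b1, h1, n1) (a, σ) = true, fun x => rfl⟩
        · exact Or.inl ⟨litE (fun _ => false) (f2, b2, h2, n2) ⟨L, hL⟩
              (some (some j0), b1, h1, n1) (a, σ) = true, fun x => rfl⟩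
    · exact Or.inl ⟨False, fun x => by simp only [tabE, dif_neg hL]; simp⟩

/-- the value of a leaf -/
def phE (x : BB B k n s × Fin n × Fin k × Fin n → Bool) (S : Set (XX B k n))
    (L : List (EE B k n)) : Prop :=
  ∃ h : L.length ≤ s + 1, sl0 (treeF (EE B k n) (XX B k n) (s + 1)) (tabE x) S ⟨L, h⟩

omit [DecidableEq B] in
theorem phE_iff (he : Even (s + 1)) {x : BB B k n s × Fin n × Fin k × Fin n → Bool}
    {S : Set (XX B k n)} {e e1 : EE B k n} {L : List (EE B k n)} (hL : L.length = s)
    (hl : (e :: L).getLast? = some e1) :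
    phE x S (e :: L) ↔ ∀ l, litE x e ⟨L, hL⟩ e1 l = false → litTrue S l := by
  have hlen : (e :: L).length ≤ s + 1 := by rw [List.length_cons, hL]
  have ha : (treeF (EE B k n) (XX B k n) (s + 1)).isAnd ⟨e :: L, hlen⟩ := by
    show Even (e :: L).length
    rw [List.length_cons, hL]
    exact he
  have ht : ∀ D : Fin 1 → XX B k n × Bool, tabE x (⟨e :: L, hlen⟩, D) =
      litE x e ⟨L, hL⟩ e1 (D 0) := fun D => by
    simp only [tabE, dif_pos hL, hl]
  constructor
  · rintro ⟨_, h⟩ l hl'
    rw [sl0, if_pos ha] at h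
    obtain ⟨_, hi⟩ := h (fun _ => l) (by rw [ht]; exact hl')
    exact hi
  · intro h
    refine ⟨hlen, ?_⟩
    rw [sl0, if_pos ha]
    intro D hD
    rw [ht] at hD
    exact ⟨0, h _ hD⟩

omit [DecidableEq B] in
/-- ordinary leaves -/
theorem phE_none (he : Even (s + 1)) {x : BB B k n s × Fin n × Fin k × Fin n → Bool}
    {T : Fin k → Fin n} {g : B → ZMod 2} {e e1 : EE B k n} {L : List (EE B k n)}
    (hL : L.length = s) (hl : (e :: L).getLast? = some e1) (hf : e1.1 = none) (hf' : e.1 = none) :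
    phE x (asg T g) (e :: L) ↔
      ∀ j, x ((⟨L, hL⟩, (none, e.2.1, e.2.2.1)), e.2.2.2, j, T j) = true := by
  rw [phE_iff he hL hl]
  obtain ⟨f1, b1, h1, n1⟩ := e1
  obtain ⟨f2, b2, h2, n2⟩ := e
  simp only at hf hf'
  subst hf hf'
  constructor
  · intro h j
    by_contra hcon
    have h3 := h (Sum.inl (j, T j), false) (by simpa [litE] using hcon)
    have h4 : (Sum.inl (j, T j) : XX B k n) ∈ asg T g := mem_asg_inl.2 rfl
    have h5 := h3.1 h4
    simp at h5
  · rintro h ⟨a, σ⟩ h3
    rcases a with ⟨j, v⟩ | g'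
    · cases σ
      · have h4 : x ((⟨L, hL⟩, (none, b2, h2)), n2, j, v) = false := h3
        constructor
        · intro hmem
          have h5 : v = T j := mem_asg_inl.1 hmem
          subst h5
          have h6 := h j
          simp only at h6
          rw [h4] at h6
          simp at h6
        · intro h5
          simp at h5
      · simp [litE] at h3
    · cases σ <;> simp [litE] at h3

omit [DecidableEq B] in
/-- special leaves -/
theorem phE_some (he : Even (s + 1)) {x : BB B k n s × Fin n × Fin k × Fin n → Bool}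
    {S : Set (XX B k n)} {e e1 : EE B k n} {L : List (EE B k n)}
    (hL : L.length = s) (hl : (e :: L).getLast? = some e1) (hf : e1.1 = none) (hf' : e.1 ≠ none) :
    phE x S (e :: L) ↔ incg (s + 1) e.2.2.1 e1 ∧ Sum.inr e.2.2.1 ∈ S := by
  rw [phE_iff he hL hl]
  obtain ⟨f1, b1, h1, n1⟩ := e1
  obtain ⟨f2, b2, h2, n2⟩ := e
  simp only at hf hf'
  subst hf
  obtain ⟨f3, rfl⟩ : ∃ f3, f2 = some f3 := Option.ne_none_iff_exists'.1 hf'
  have key : ∀ l, litE x (some f3, b2, h2, n2) ⟨L, hL⟩ (none, b1, h1, n1) l = false ↔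
      ¬ (incg (s + 1) h2 ((none, b1, h1, n1) : EE B k n) ∧ l ≠ (Sum.inr h2, true)) := by
    intro l
    exact decide_eq_false_iff_not
  simp only [key]
  constructor
  · intro h
    by_cases hinc : incg (s + 1) h2 ((none, b1, h1, n1) : EE B k n)
    · refine ⟨hinc, ?_⟩
      have h3 := h (Sum.inr h2, true) (fun hh => hh.2 rfl)
      exact h3.2 rfl
    · exfalso
      have h3 := h (Sum.inr h2, true) (fun hh => hinc hh.1)
      have h4 := h (Sum.inr h2, false) (fun hh => hinc hh.1)
      have h5 := h4.1 (h3.2 rfl)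
      simp at h5
  · rintro ⟨hinc, hmem⟩ l hl'
    have : l = (Sum.inr h2, true) := by
      by_contra hne
      exact hl' ⟨hinc, hne⟩
    rw [this]
    exact ⟨fun _ => rfl, fun _ => hmem⟩

omit [DecidableEq B] in
/-- leaves of the group of guesses -/
theorem phE_guess (he : Even (s + 1)) {x : BB B k n s × Fin n × Fin k × Fin n → Bool}
    {S : Set (XX B k n)} {e e1 : EE B k n} {L : List (EE B k n)}
    (hL : L.length = s) (hl : (e :: L).getLast? = some e1) (hf : e1.1 = some none) :
    phE x S (e :: L) ↔ ∑ x, e.2.2.1 x = 0 ∧ Sum.inr e.2.2.1 ∈ S := by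
  rw [phE_iff he hL hl]
  obtain ⟨f1, b1, h1, n1⟩ := e1
  obtain ⟨f2, b2, h2, n2⟩ := e
  simp only at hf
  subst hf
  have key : ∀ l, litE x (f2, b2, h2, n2) ⟨L, hL⟩ (some none, b1, h1, n1) l = false ↔
      ¬ (∑ x, h2 x = 0 ∧ l ≠ (Sum.inr h2, true)) := by
    intro l
    exact decide_eq_false_iff_not
  simp only [key]
  constructor
  · intro h
    by_cases hinc : ∑ x, h2 x = 0
    · refine ⟨hinc, ?_⟩
      have h3 := h (Sum.inr h2, true) (fun hh => hh.2 rfl)
      exact h3.2 rfl
    · exfalso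
      have h3 := h (Sum.inr h2, true) (fun hh => hinc hh.1)
      have h4 := h (Sum.inr h2, false) (fun hh => hinc hh.1)
      have h5 := h4.1 (h3.2 rfl)
      simp at h5
  · rintro ⟨hinc, hmem⟩ l hl'
    have : l = (Sum.inr h2, true) := by
      by_contra hne
      exact hl' ⟨hinc, hne⟩
    rw [this]
    exact ⟨fun _ => rfl, fun _ => hmem⟩

omit [DecidableEq B] in
/-- leaves of the group `j0` -/
theorem phE_group (he : Even (s + 1)) {x : BB B k n s × Fin n × Fin k × Fin n → Bool}
    {S : Set (XX B k n)} {e e1 : EE B k n} {L : List (EE B k n)}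
    (hL : L.length = s) (hl : (e :: L).getLast? = some e1) {j0 : Fin k}
    (hf : e1.1 = some (some j0)) :
    phE x S (e :: L) ↔ Sum.inl (j0, e.2.2.2) ∈ S := by
  rw [phE_iff he hL hl]
  obtain ⟨f1, b1, h1, n1⟩ := e1
  obtain ⟨f2, b2, h2, n2⟩ := e
  simp only at hf
  subst hf
  have key : ∀ l, litE x (f2, b2, h2, n2) ⟨L, hL⟩ (some (some j0), b1, h1, n1) l = false ↔
      ¬ (l ≠ (Sum.inl (j0, n2), true)) := by
    intro l
    exact decide_eq_false_iff_not
  simp only [key]
  constructor
  · intro h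
    exact (h (Sum.inl (j0, n2), true) (fun hh => hh rfl)).2 rfl
  · intro hmem l hl'
    rw [ne_eq, not_not] at hl'
    rw [hl']
    exact ⟨fun _ => rfl, fun _ => hmem⟩

omit [Fintype B] [DecidableEq B] in
theorem split_last {M : List (EE B k n)} {e1 : EE B k n} {r : ℕ} (hM : M.length = r) :
    (M ++ [e1]).length = r + 1 ∧ (M ++ [e1]).getLast? = some e1 := by
  refine ⟨by simp [hM], by simp⟩

/-- **planted instances** -/
theorem srcE_X {r : ℕ} (he : Even (r + 1 + 1)) (b0 : B) (hn : 1 ≤ n) (S : Fin k → Fin n)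
    (φ : BB B k n (r + 1) → Fin n) (z : VV B (r + 1) → Bool)
    (hz : bp (bz z) (r + 1 + 1) [] = 0) :
    WSat (treeF (EE B k n) (XX B k n) (r + 1 + 1)) (tabE (XE S φ (zw b0 z))) (k + 1) := by
  obtain ⟨g, hg, hsem⟩ := (parity_guess (bz z) (r + 1)).1 hz
  rw [wsat_tree]
  refine ⟨asg S g, asg_card S g, ?_⟩
  show ev (phE (XE S φ (zw b0 z)) (asg S g)) (r + 1 + 1) []
  have hne : Nonempty (EE B k n) := ⟨(none, b0, fun _ => 0, ⟨0, hn⟩)⟩
  have hodd : ¬ Even (r + 1) := by
    rwa [Nat.even_add_one] at he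
  rw [ev_even (by simp)]
  intro e1
  rcases hf : e1.1 with _ | _ | j0
  · by_cases hinc : incg (r + 1 + 1) g e1
    · refine (ev_const1 (P := True) r [e1] ?_).2 trivial
      intro M hM
      refine ⟨fun _ => trivial, fun _ => ?_⟩
      obtain ⟨h1, h2⟩ := split_last (e1 := e1) hM
      rw [ev_odd (by rw [h1]; exact hodd)]
      refine ⟨(some none, b0, g, ⟨0, hn⟩), ?_⟩
      show phE _ _ _
      rw [phE_some he h1 (getLast_cons' h2) hf (by simp)]
      exact ⟨hinc, mem_asg_inr.2 rfl⟩
    · rw [sem_step_even (by simp)] at hsem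
      have h1 : ∑ x, e1.2.2.1 x = g e1.2.1 + 1 := by
        rw [incg, if_neg (by omega)] at hinc
        simpa using hinc
      have h2 : sem g (bz z) (0 + r) (til b0 [e1]) := by
        rw [Nat.zero_add]
        exact hsem e1.2.1 e1.2.2.1 h1
      have h3 := climbX (r0 := 0) (t := r + 1 + 1) b0
        (φ := phE (XE S φ (zw b0 z)) (asg S g)) (g := g)
        (w := bz z) (C := fun L => L.getLast? = some e1) ?_ ?_ hn r [e1]
        (List.cons_ne_nil _ _) rfl (by simp; omega) h2
      · rw [Nat.zero_add] at h3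
        exact h3
      · intro e L _ hC
        exact getLast_cons' hC
      · intro L hL hC hlen hs0
        have hlen' : L.length = r + 1 := by omega
        have hoL : ¬ Even L.length := by
          rw [hlen']
          exact hodd
        rw [ev_odd hoL]
        rw [sem_odd (by rw [til_length]; exact hoL)] at hs0
        obtain ⟨j, hj⟩ := hs0
        refine ⟨(none, j, fun _ => 0, φ (⟨L, hlen'⟩, (none, j, fun _ => 0))), ?_⟩
        show phE _ _ _
        rw [phE_none he hlen' (getLast_cons' hC) hf rfl]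
        intro i
        rw [XE_iff]
        refine ⟨?_, rfl, rfl⟩
        simp only [zw, decide_eq_true_eq]
        rw [til_pth] at hj
        simp only [bp] at hj
        have h5 := zmod_ne.1 hj
        show bz z (j :: L.map fun e => e.2.1) = cc b0 L j fun _ => 0
        rw [h5, cc, if_neg hL, if_neg hoL, hd_indep g 0 (til_ne b0 hL)]
  · refine (ev_const1 (P := True) r [e1] ?_).2 trivial
    intro M hM
    refine ⟨fun _ => trivial, fun _ => ?_⟩
    obtain ⟨h1, h2⟩ := split_last (e1 := e1) hM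
    rw [ev_odd (by rw [h1]; exact hodd)]
    refine ⟨(none, b0, g, ⟨0, hn⟩), ?_⟩
    show phE _ _ _
    rw [phE_guess he h1 (getLast_cons' h2) hf]
    exact ⟨hg, mem_asg_inr.2 rfl⟩
  · refine (ev_const1 (P := True) r [e1] ?_).2 trivial
    intro M hM
    refine ⟨fun _ => trivial, fun _ => ?_⟩
    obtain ⟨h1, h2⟩ := split_last (e1 := e1) hM
    rw [ev_odd (by rw [h1]; exact hodd)]
    refine ⟨(none, b0, fun _ => 0, S j0), ?_⟩
    show phE _ _ _
    rw [phE_group he h1 (getLast_cons' h2) hf]
    exact mem_asg_inl.2 rfl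

/-- a block of level `s + 1` without noise -/
theorem leafYE {r : ℕ} (he : Even (r + 1 + 1)) (b0 : B)
    {ρ : BB B k n (r + 1) × Fin n × Fin k × Fin n → Bool} {z : VV B (r + 1) → Bool}
    {g : B → ZMod 2} {T : Fin k → Fin n} {e1 : EE B k n} {L : List (EE B k n)}
    (hL : L.length = r + 1) (hC : L.getLast? = some e1) (hf : e1.1 = none)
    (hinc : ¬ incg (r + 1 + 1) g e1)
    (hnoise : ∀ b f, ∃ j, ρ ((⟨L, hL⟩, b), f, j, T j) = false)
    (hev : ev (phE (YE ρ (zw b0 z)) (asg T g)) 1 L) : sem g (bz z) 0 (til b0 L) := by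
  have hoL : ¬ Even L.length := by
    rw [hL]
    rwa [Nat.even_add_one] at he
  have hne : L ≠ [] := by
    rintro rfl
    simp at hL
  rw [ev_odd hoL] at hev
  obtain ⟨e, he'⟩ := hev
  change phE _ _ _ at he'
  rw [sem_odd (by rw [til_length]; exact hoL)]
  by_cases hfe : e.1 = none
  · rw [phE_none he hL (getLast_cons' hC) hf hfe] at he'
    obtain ⟨j, hj⟩ := hnoise (none, e.2.1, e.2.2.1) e.2.2.2
    have h1 := he' j
    rw [YE_iff] at h1
    rcases h1 with h1 | h1
    · refine ⟨e.2.1, ?_⟩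
      rw [til_pth]
      simp only [bp]
      simp only [zw, decide_eq_true_eq] at h1
      change bz z (e.2.1 :: L.map fun e => e.2.1) = cc b0 L e.2.1 e.2.2.1 at h1
      rw [cc, if_neg hne, if_neg hoL] at h1
      rw [zmod_ne, h1, hd_indep g 0 (til_ne b0 hne)]
    · rw [hj] at h1
      simp at h1
  · rw [phE_some he hL (getLast_cons' hC) hf hfe] at he'
    obtain ⟨g1, g2⟩ := he'
    rw [mem_asg_inr] at g2
    rw [g2] at g1
    exact absurd g1 hinc

/-- the copies -/
def copE (r : ℕ) (p : List.Vector (EE B k n) r × (Option (Option (Fin k)) × B × (B → ZMod 2)))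
    (c : Fin n) : List.Vector (EE B k n) (r + 1) :=
  List.Vector.cons (p.2.1, p.2.2.1, p.2.2.2, c) p.1

omit [Fintype B] [DecidableEq B] in
theorem copE_inj (r : ℕ)
    (p : List.Vector (EE B k n) r × (Option (Option (Fin k)) × B × (B → ZMod 2))) :
    Function.Injective (copE r p) := by
  intro c c' h
  have h1 := congrArg List.Vector.head h
  simp only [copE, List.Vector.head_cons, Prod.mk.injEq, true_and] at h1
  exact h1

/-- **noisy instances** -/
theorem srcE_Y {r : ℕ} (he : Even (r + 1 + 1)) (b0 : B) (hn : 1 ≤ n)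
    {ρ : BB B k n (r + 1) × Fin n × Fin k × Fin n → Bool}
    (hρ : ∀ (T : Fin k → Fin n)
      (p : List.Vector (EE B k n) r × (Option (Option (Fin k)) × B × (B → ZMod 2))),
      ∃ c, ∀ b f, ∃ j, ρ ((copE r p c, b), f, j, T j) = false)
    (z : VV B (r + 1) → Bool)
    (h : WSat (treeF (EE B k n) (XX B k n) (r + 1 + 1)) (tabE (YE ρ (zw b0 z))) (k + 1)) :
    bp (bz z) (r + 1 + 1) [] = 0 := by
  rw [wsat_tree] at h
  obtain ⟨S, hS, hev⟩ := h
  change ev (phE (YE ρ (zw b0 z)) S) (r + 1 + 1) [] at hev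
  have hne : Nonempty (EE B k n) := ⟨(none, b0, fun _ => 0, ⟨0, hn⟩)⟩
  have hodd : ¬ Even (r + 1) := by
    rwa [Nat.even_add_one] at he
  have hevr : Even r := by
    rw [Nat.even_add_one, not_not] at hodd
    exact hodd
  rw [ev_even (by simp)] at hev
  have hA : ∀ j0 : Fin k, ∃ v : Fin n, (Sum.inl (j0, v) : XX B k n) ∈ S := by
    intro j0
    refine (ev_const1 r [((some (some j0), b0, fun _ => 0, ⟨0, hn⟩) : EE B k n)] ?_).1 (hev _)
    intro M hM
    obtain ⟨h1, h2⟩ := split_last
      (e1 := ((some (some j0), b0, fun _ => 0, ⟨0, hn⟩) : EE B k n)) hM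
    rw [ev_odd (by rw [h1]; exact hodd)]
    constructor
    · rintro ⟨e, h3⟩
      change phE _ _ _ at h3
      rw [phE_group he h1 (getLast_cons' h2) rfl] at h3
      exact ⟨_, h3⟩
    · rintro ⟨v, hv⟩
      refine ⟨(none, b0, fun _ => 0, v), ?_⟩
      show phE _ _ _
      rw [phE_group he h1 (getLast_cons' h2) rfl]
      exact hv
  have hG : ∃ g : B → ZMod 2, ∑ x, g x = 0 ∧ (Sum.inr g : XX B k n) ∈ S := by
    refine (ev_const1 r [((some none, b0, fun _ => 0, ⟨0, hn⟩) : EE B k n)] ?_).1 (hev _)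
    intro M hM
    obtain ⟨h1, h2⟩ := split_last
      (e1 := ((some none, b0, fun _ => 0, ⟨0, hn⟩) : EE B k n)) hM
    rw [ev_odd (by rw [h1]; exact hodd)]
    constructor
    · rintro ⟨e, h3⟩
      change phE _ _ _ at h3
      rw [phE_guess he h1 (getLast_cons' h2) rfl] at h3
      exact ⟨_, h3⟩
    · rintro ⟨g, hg1, hg2⟩
      refine ⟨(none, b0, g, ⟨0, hn⟩), ?_⟩
      show phE _ _ _
      rw [phE_guess he h1 (getLast_cons' h2) rfl]
      exact ⟨hg1, hg2⟩
  obtain ⟨T, g, hg, rfl⟩ := exists_asg hS hA hG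
  refine (parity_guess (bz z) (r + 1)).2 ⟨g, hg, ?_⟩
  rw [sem_step_even (by simp)]
  intro j h' hs'
  have h2 : ∑ x, h' x = g j + 1 := hs'
  have hcons : ∀ c : Fin n, ¬ incg (r + 1 + 1) g ((none, j, h', c) : EE B k n) := by
    intro c
    rw [incg, if_neg (by omega)]
    simp [h2]
  rcases Nat.eq_zero_or_pos r with hr | hr
  · subst hr
    obtain ⟨c, hc⟩ := hρ T (⟨[], rfl⟩, (none, j, h'))
    exact leafYE he b0 (L := [((none, j, h', c) : EE B k n)]) rfl rfl rfl (hcons c) hc (hev _)
  · obtain ⟨r', rfl⟩ : ∃ r', r = 1 + r' := ⟨r - 1, by omega⟩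
    have h3 := climbY (r0 := 1) (t := 1 + r' + 1 + 1) b0
      (φ := phE (YE ρ (zw b0 z)) (asg T g)) (g := g)
      (w := bz z) (C := fun L => L.getLast? = some ((none, j, h', ⟨0, hn⟩) : EE B k n)) ?_ ?_ hn r'
      [(none, j, h', ⟨0, hn⟩)] (List.cons_ne_nil _ _) rfl (by simp; omega) (hev _)
    · exact h3
    · intro e L _ hC
      exact getLast_cons' hC
    · intro L hL hC hlen hev1
      have hlen' : L.length = 1 + r' := by omega
      have heL : Even L.length := by
        rw [hlen']
        exact hevr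
      rw [ev_even heL] at hev1
      rw [sem_step_even (by rw [til_length]; exact heL)]
      intro i h'' hs''
      obtain ⟨c, hc⟩ := hρ T (⟨L, hlen'⟩, (none, i, h''))
      have h4 := leafYE he b0 (L := ((none, i, h'', c) : EE B k n) :: L)
        (by rw [List.length_cons, hlen']) (getLast_cons' hC) rfl (hcons _) hc (hev1 _)
      rw [til_cons b0 _ hL] at h4
      simp only at h4
      rw [fixp_id] at h4
      · exact h4
      · rw [hs'', hd_indep g 0 (til_ne b0 hL)]

end srce

end Pool.Agent.WSatMon
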