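import Pool.Agent.WSatMon.Src
import Pool.Agent.WSatMon.GadO

/-! The source formulas, odd depth. -/

namespace Pool.Agent.WSatMon

open Finset Pool.Agent.ParityAC

section srco

variable {B : Type} [Fintype B] [DecidableEq B] {k n s : ℕ}

/-- the literals of a clause; `e1` is the first step of the path -/
def litO (x : BB B k n s × Fin n × Fin k × Fin n → Bool) (e : EE B k n)
    (L : List.Vector (EE B k n) s) (e1 : EE B k n) (l : XX B k n × Bool) : Bool :=
  match e1.1 with
  | none => match l with
    | (Sum.inl (j, v), true) => x ((L, (e.1, e.2.1, e.2.2.1)), e.2.2.2, j, v)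
    | (Sum.inr g, true) => decide (incg (s + 1) g e1)
    | (_, false) => false
  | some none => match l with
    | (Sum.inr g, true) => decide (∑ x, g x = 0)
    | (_, _) => false
  | some (some j0) => match l with
    | (Sum.inl (j, _), true) => decide (j = j0)
    | (_, _) => false

/-- the table -/
def tabO (x : BB B k n s × Fin n × Fin k × Fin n → Bool) :
    (treeF (EE B k n) (XX B k n) (s + 1)).Bit 1 → Bool := fun p =>
  match p.1.1 with
  | [] => false
  | e :: L => if hL : L.length = s then
      match (e :: L).getLast? with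
      | none => false
      | some e1 => litO x e ⟨L, hL⟩ e1 (p.2 0)
    else false

omit [DecidableEq B] in
theorem tabO_proj (p : (treeF (EE B k n) (XX B k n) (s + 1)).Bit 1) :
    (∃ c : Prop, ∀ x : BB B k n s × Fin n × Fin k × Fin n → Bool, (tabO x p = true) = c) ∨
      ∃ v, ∀ x : BB B k n s × Fin n × Fin k × Fin n → Bool, tabO x p = x v := by
  obtain ⟨⟨L0, hL0⟩, D⟩ := p
  cases L0 with
  | nil => exact Or.inl ⟨False, fun x => by simp [tabO]⟩
  | cons e L =>
    by_cases hL : L.length = s
    · cases hl : (e :: L).getLast? with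
      | none => exact Or.inl ⟨False, fun x => by simp only [tabO, dif_pos hL, hl]; simp⟩
      | some e1 =>
        have h : ∀ x : BB B k n s × Fin n × Fin k × Fin n → Bool,
            tabO x (⟨e :: L, hL0⟩, D) = litO x e ⟨L, hL⟩ e1 (D 0) := fun x => by
          simp only [tabO, dif_pos hL, hl]
        obtain ⟨f1, b1, h1, n1⟩ := e1
        rcases hD : D 0 with ⟨a, σ⟩
        simp only [h, hD]
        rcases f1 with _ | _ | j0
        · cases σ
          · exact Or.inl ⟨False, fun x => by rcases a with ⟨j, v⟩ | g <;> simp [litO]⟩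
          · rcases a with ⟨j, v⟩ | g
            · exact Or.inr ⟨((⟨L, hL⟩, (e.1, e.2.1, e.2.2.1)), e.2.2.2, j, v), fun x => rfl⟩
            · exact Or.inl ⟨incg (s + 1) g (none, b1, h1, n1), fun x =>
                propext decide_eq_true_iff⟩
        · cases σ
          · exact Or.inl ⟨False, fun x => by rcases a with ⟨j, v⟩ | g <;> simp [litO]⟩
          · rcases a with ⟨j, v⟩ | g
            · exact Or.inl ⟨False, fun x => by simp [litO]⟩
            · exact Or.inl ⟨∑ x, g x = 0, fun x => propext decide_eq_true_iff⟩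
        · cases σ
          · exact Or.inl ⟨False, fun x => by rcases a with ⟨j, v⟩ | g <;> simp [litO]⟩
          · rcases a with ⟨j, v⟩ | g
            · exact Or.inl ⟨j = j0, fun x => propext decide_eq_true_iff⟩
            · exact Or.inl ⟨False, fun x => by simp [litO]⟩
    · exact Or.inl ⟨False, fun x => by simp only [tabO, dif_neg hL]; simp⟩

/-- the value of a leaf -/
def phO (x : BB B k n s × Fin n × Fin k × Fin n → Bool) (S : Set (XX B k n))
    (L : List (EE B k n)) : Prop :=
  ∃ h : L.length ≤ s + 1, sl0 (treeF (EE B k n) (XX B k n) (s + 1)) (tabO x) S ⟨L, h⟩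

omit [DecidableEq B] in
theorem phO_iff (ho : Odd (s + 1)) {x : BB B k n s × Fin n × Fin k × Fin n → Bool}
    {S : Set (XX B k n)} {e e1 : EE B k n} {L : List (EE B k n)} (hL : L.length = s)
    (hl : (e :: L).getLast? = some e1) :
    phO x S (e :: L) ↔ ∃ l, litO x e ⟨L, hL⟩ e1 l = true ∧ litTrue S l := by
  have hlen : (e :: L).length ≤ s + 1 := by rw [List.length_cons, hL]
  have hna : ¬ (treeF (EE B k n) (XX B k n) (s + 1)).isAnd ⟨e :: L, hlen⟩ := by
    show ¬ Even (e :: L).length
    rw [List.length_cons, hL, Nat.not_even_iff_odd]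
    exact ho
  have ht : ∀ D : Fin 1 → XX B k n × Bool, tabO x (⟨e :: L, hlen⟩, D) =
      litO x e ⟨L, hL⟩ e1 (D 0) := fun D => by
    simp only [tabO, dif_pos hL, hl]
  constructor
  · rintro ⟨_, h⟩
    rw [sl0, if_neg hna] at h
    obtain ⟨D, h1, h2⟩ := h
    exact ⟨D 0, by rw [← ht D]; exact h1, h2 0⟩
  · rintro ⟨l, h1, h2⟩
    refine ⟨hlen, ?_⟩
    rw [sl0, if_neg hna]
    exact ⟨fun _ => l, by rw [ht]; exact h1, fun _ => h2⟩

omit [DecidableEq B] in
/-- ordinary leaves -/
theorem phO_none (ho : Odd (s + 1)) {x : BB B k n s × Fin n × Fin k × Fin n → Bool}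
    {S : Set (XX B k n)} {e e1 : EE B k n} {L : List (EE B k n)} (hL : L.length = s)
    (hl : (e :: L).getLast? = some e1) (hf : e1.1 = none) :
    phO x S (e :: L) ↔
      (∃ j v, x ((⟨L, hL⟩, (e.1, e.2.1, e.2.2.1)), e.2.2.2, j, v) = true ∧ Sum.inl (j, v) ∈ S) ∨
      ∃ g, incg (s + 1) g e1 ∧ Sum.inr g ∈ S := by
  rw [phO_iff ho hL hl]
  obtain ⟨f1, b1, h1, n1⟩ := e1
  simp only at hf
  subst hf
  constructor
  · rintro ⟨⟨a, σ⟩, g1, g2⟩
    cases σ
    · simp [litO] at g1
    · rcases a with ⟨j, v⟩ | g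
      · exact Or.inl ⟨j, v, g1, g2.2 rfl⟩
      · exact Or.inr ⟨g, by simpa [litO] using g1, g2.2 rfl⟩
  · rintro (⟨j, v, g1, g2⟩ | ⟨g, g1, g2⟩)
    · exact ⟨(Sum.inl (j, v), true), g1, by simp [litTrue, g2]⟩
    · exact ⟨(Sum.inr g, true), by simpa [litO] using g1, by simp [litTrue, g2]⟩

omit [DecidableEq B] in
/-- leaves of the group of guesses -/
theorem phO_guess (ho : Odd (s + 1)) {x : BB B k n s × Fin n × Fin k × Fin n → Bool}
    {S : Set (XX B k n)} {e e1 : EE B k n} {L : List (EE B k n)} (hL : L.length = s)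
    (hl : (e :: L).getLast? = some e1) (hf : e1.1 = some none) :
    phO x S (e :: L) ↔ ∃ g : B → ZMod 2, ∑ x, g x = 0 ∧ Sum.inr g ∈ S := by
  rw [phO_iff ho hL hl]
  obtain ⟨f1, b1, h1, n1⟩ := e1
  simp only at hf
  subst hf
  constructor
  · rintro ⟨⟨a, σ⟩, g1, g2⟩
    cases σ
    · rcases a with ⟨j, v⟩ | g <;> simp [litO] at g1
    · rcases a with ⟨j, v⟩ | g
      · simp [litO] at g1
      · exact ⟨g, by simpa [litO] using g1, g2.2 rfl⟩
  · rintro ⟨g, g1, g2⟩
    exact ⟨(Sum.inr g, true), by simpa [litO] using g1, by simp [litTrue, g2]⟩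

omit [DecidableEq B] in
/-- leaves of the group `j0` -/
theorem phO_group (ho : Odd (s + 1)) {x : BB B k n s × Fin n × Fin k × Fin n → Bool}
    {S : Set (XX B k n)} {e e1 : EE B k n} {L : List (EE B k n)} (hL : L.length = s)
    (hl : (e :: L).getLast? = some e1) {j0 : Fin k} (hf : e1.1 = some (some j0)) :
    phO x S (e :: L) ↔ ∃ v : Fin n, Sum.inl (j0, v) ∈ S := by
  rw [phO_iff ho hL hl]
  obtain ⟨f1, b1, h1, n1⟩ := e1
  simp only at hf
  subst hf
  constructor
  · rintro ⟨⟨a, σ⟩, g1, g2⟩
    cases σ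
    · rcases a with ⟨j, v⟩ | g <;> simp [litO] at g1
    · rcases a with ⟨j, v⟩ | g
      · have : j = j0 := by simpa [litO] using g1
        subst this
        exact ⟨v, g2.2 rfl⟩
      · simp [litO] at g1
  · rintro ⟨v, g2⟩
    exact ⟨(Sum.inl (j0, v), true), by simp [litO], by simp [litTrue, g2]⟩

omit [Fintype B] [DecidableEq B] in
theorem getLast_app {M : List (EE B k n)} {L : List (EE B k n)} {e1 : EE B k n}
    (h : L.getLast? = some e1) : (M ++ L).getLast? = some e1 := by
  rw [List.getLast?_append, h]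
  rfl

omit [Fintype B] [DecidableEq B] in
theorem getLast_cons' {L : List (EE B k n)} {e e1 : EE B k n}
    (h : L.getLast? = some e1) : (e :: L).getLast? = some e1 :=
  getLast_app (M := [e]) h

/-- a planted block makes the leaf true -/
theorem leafX (ho : Odd (s + 1)) (b0 : B) {S : Fin k → Fin n} {γ : BB B k n s × Fin n → Fin k}
    {z : VV B s → Bool} {g : B → ZMod 2} {e e1 : EE B k n} {L : List (EE B k n)}
    (hL : L.length = s) (hl : (e :: L).getLast? = some e1) (hf : e1.1 = none)
    (h : bz z (e.2.1 :: L.map fun e => e.2.1) = cc b0 L e.2.1 e.2.2.1) :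
    phO (XO S γ (zw b0 z)) (asg S g) (e :: L) := by
  rw [phO_none ho hL hl hf]
  left
  refine ⟨γ ((⟨L, hL⟩, (e.1, e.2.1, e.2.2.1)), e.2.2.2),
    S (γ ((⟨L, hL⟩, (e.1, e.2.1, e.2.2.1)), e.2.2.2)), ?_, mem_asg_inl.2 rfl⟩
  rw [XO_iff]
  refine ⟨?_, rfl, rfl⟩
  simp only [zw, decide_eq_true_eq]
  exact h

/-- a block with a true leaf for every number is planted -/
theorem leafY (ho : Odd (s + 1)) (b0 : B) {r : BB B k n s × Fin n × Fin k × Fin n → Bool}
    (hr : ∀ (b : BB B k n s) (T : Fin k → Fin n), ∃ f, ∀ j, r (b, f, j, T j) = false)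
    {z : VV B s → Bool} {g : B → ZMod 2} {T : Fin k → Fin n} {b : B} {h : B → ZMod 2}
    {L : List (EE B k n)} (hL : L.length = s)
    (hall : ∀ f : Fin n, ∃ e1, (((none, b, h, f) : EE B k n) :: L).getLast? = some e1 ∧
      e1.1 = none ∧ ¬ incg (s + 1) g e1 ∧
      phO (YO r (zw b0 z)) (asg T g) ((none, b, h, f) :: L)) :
    bz z (b :: L.map fun e => e.2.1) = cc b0 L b h := by
  obtain ⟨f, hf⟩ := hr (⟨L, hL⟩, (none, b, h)) T
  obtain ⟨e1, h1, h2, h3, h4⟩ := hall f
  rw [phO_none ho hL h1 h2] at h4
  rcases h4 with ⟨j, v, g1, g2⟩ | ⟨g', g1, g2⟩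
  · rw [mem_asg_inl] at g2
    subst g2
    rw [YO_iff] at g1
    rcases g1 with g1 | g1
    · simp only [zw, decide_eq_true_eq] at g1
      exact g1
    · rw [hf j] at g1
      simp at g1
  · rw [mem_asg_inr] at g2
    subst g2
    exact absurd g1 h3

/-- **planted instances** -/
theorem srcO_X (ho : Odd (s + 1)) (b0 : B) (hn : 1 ≤ n) (S : Fin k → Fin n)
    (γ : BB B k n s × Fin n → Fin k) (z : VV B s → Bool) (hz : bp (bz z) (s + 1) [] = 0) :
    WSat (treeF (EE B k n) (XX B k n) (s + 1)) (tabO (XO S γ (zw b0 z))) (k + 1) := by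
  obtain ⟨g, hg, hsem⟩ := (parity_guess (bz z) s).1 hz
  rw [wsat_tree]
  refine ⟨asg S g, asg_card S g, ?_⟩
  show ev (phO (XO S γ (zw b0 z)) (asg S g)) (s + 1) []
  have hne : Nonempty (EE B k n) := ⟨(none, b0, fun _ => 0, ⟨0, hn⟩)⟩
  rw [ev_even (by simp)]
  intro e1
  rcases hf : e1.1 with _ | _ | j0
  · by_cases hinc : incg (s + 1) g e1
    · -- inconsistent
      refine (ev_const (P := True) s [e1] ?_).2 trivial
      intro M hM
      refine ⟨fun _ => trivial, fun _ => ?_⟩
      obtain ⟨e, L, hL, heq⟩ : ∃ e L, L.length = s ∧ M ++ [e1] = e :: L := by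
        cases h : M ++ [e1] with
        | nil => simp at h
        | cons e L =>
          refine ⟨e, L, ?_, rfl⟩
          have := congrArg List.length h
          simp only [List.length_append, List.length_cons, List.length_nil] at this
          omega
      rw [heq, phO_none ho hL (by rw [← heq]; simp) hf]
      exact Or.inr ⟨g, hinc, mem_asg_inr.2 rfl⟩
    · rcases Nat.eq_zero_or_pos s with hs | hs
      · subst hs
        show phO _ _ [e1]
        apply leafX ho b0 (e1 := e1) rfl rfl hf
        rw [sem_even (by simp)] at hsem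
        have h1 := hsem e1.2.1
        simp only [pth, List.map_nil, bp, hd] at h1
        rw [List.map_nil, h1, cc, if_pos rfl]
        simp only [incg, Nat.zero_add, if_true, ne_eq, not_not] at hinc
        exact hinc.symm
      · obtain ⟨r, rfl⟩ : ∃ r, s = r + 1 := ⟨s - 1, by omega⟩
        rw [sem_step_even (by simp)] at hsem
        have h1 : ∑ x, e1.2.2.1 x = g e1.2.1 + 1 := by
          rw [incg, if_neg (by omega)] at hinc
          simpa using hinc
        have h2 : sem g (bz z) (0 + r) (til b0 [e1]) := by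
          rw [Nat.zero_add]
          exact hsem e1.2.1 e1.2.2.1 h1
        have h3 := climbX (r0 := 0) (t := r + 1 + 1) b0
          (φ := phO (XO S γ (zw b0 z)) (asg S g)) (g := g)
          (w := bz z) (C := fun L => L.getLast? = some e1) ?_ ?_ hn r [e1]
          (List.cons_ne_nil _ _) rfl (by simp; omega) h2
        · rw [Nat.zero_add] at h3
          exact h3
        · intro e L _ hC
          exact getLast_cons' hC
        · intro L hL hC hlen hs0
          have hev : Even L.length := by
            have : Odd (L.length + 1) := by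
              have : L.length + 1 = r + 1 + 1 := by omega
              rw [this]
              exact ho
            rwa [Nat.odd_add_one, Nat.not_odd_iff_even] at this
          rw [ev_even hev]
          intro e
          show phO _ _ (e :: L)
          apply leafX ho b0 (e1 := e1) (by omega) (getLast_cons' hC) hf
          rw [sem_even (by rw [til_length]; exact hev)] at hs0
          have h4 := hs0 e.2.1
          rw [til_pth] at h4
          simp only [bp] at h4
          rw [h4, cc, if_neg hL, if_pos hev, add_zero, hd_indep g 0 (til_ne b0 hL)]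
  · refine (ev_const (P := True) s [e1] ?_).2 trivial
    intro M hM
    refine ⟨fun _ => trivial, fun _ => ?_⟩
    obtain ⟨e, L, hL, heq⟩ : ∃ e L, L.length = s ∧ M ++ [e1] = e :: L := by
      cases h : M ++ [e1] with
      | nil => simp at h
      | cons e L =>
        refine ⟨e, L, ?_, rfl⟩
        have := congrArg List.length h
        simp only [List.length_append, List.length_cons, List.length_nil] at this
        omega
    rw [heq, phO_guess ho hL (by rw [← heq]; simp) hf]
    exact ⟨g, hg, mem_asg_inr.2 rfl⟩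
  · refine (ev_const (P := True) s [e1] ?_).2 trivial
    intro M hM
    refine ⟨fun _ => trivial, fun _ => ?_⟩
    obtain ⟨e, L, hL, heq⟩ : ∃ e L, L.length = s ∧ M ++ [e1] = e :: L := by
      cases h : M ++ [e1] with
      | nil => simp at h
      | cons e L =>
        refine ⟨e, L, ?_, rfl⟩
        have := congrArg List.length h
        simp only [List.length_append, List.length_cons, List.length_nil] at this
        omega
    rw [heq, phO_group ho hL (by rw [← heq]; simp) hf]
    exact ⟨S j0, mem_asg_inl.2 rfl⟩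

/-- **dense instances** -/
theorem srcO_Y (ho : Odd (s + 1)) (b0 : B) (hn : 1 ≤ n)
    {r : BB B k n s × Fin n × Fin k × Fin n → Bool}
    (hr : ∀ (b : BB B k n s) (T : Fin k → Fin n), ∃ f, ∀ j, r (b, f, j, T j) = false)
    (z : VV B s → Bool)
    (h : WSat (treeF (EE B k n) (XX B k n) (s + 1)) (tabO (YO r (zw b0 z))) (k + 1)) :
    bp (bz z) (s + 1) [] = 0 := by
  rw [wsat_tree] at h
  obtain ⟨S, hS, hev⟩ := h
  change ev (phO (YO r (zw b0 z)) S) (s + 1) [] at hev
  have hne : Nonempty (EE B k n) := ⟨(none, b0, fun _ => 0, ⟨0, hn⟩)⟩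
  rw [ev_even (by simp)] at hev
  have hsplit : ∀ (M : List (EE B k n)) (e1 : EE B k n), M.length = s →
      ∃ e L, L.length = s ∧ M ++ [e1] = e :: L := by
    intro M e1 hM
    cases h : M ++ [e1] with
    | nil => simp at h
    | cons e L =>
      refine ⟨e, L, ?_, rfl⟩
      have := congrArg List.length h
      simp only [List.length_append, List.length_cons, List.length_nil] at this
      omega
  have hA : ∀ j0 : Fin k, ∃ v : Fin n, (Sum.inl (j0, v) : XX B k n) ∈ S := by
    intro j0
    refine (ev_const s [((some (some j0), b0, fun _ => 0, ⟨0, hn⟩) : EE B k n)] ?_).1 (hev _)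
    intro M hM
    obtain ⟨e, L, hL, heq⟩ := hsplit M (some (some j0), b0, fun _ => 0, ⟨0, hn⟩) hM
    rw [heq, phO_group ho hL (e1 := (some (some j0), b0, fun _ => 0, ⟨0, hn⟩))
      (by rw [← heq]; simp) rfl]
  have hG : ∃ g : B → ZMod 2, ∑ x, g x = 0 ∧ (Sum.inr g : XX B k n) ∈ S := by
    refine (ev_const s [((some none, b0, fun _ => 0, ⟨0, hn⟩) : EE B k n)] ?_).1 (hev _)
    intro M hM
    obtain ⟨e, L, hL, heq⟩ := hsplit M (some none, b0, fun _ => 0, ⟨0, hn⟩) hM
    rw [heq, phO_guess ho hL (e1 := (some none, b0, fun _ => 0, ⟨0, hn⟩))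
      (by rw [← heq]; simp) rfl]
  obtain ⟨T, g, hg, rfl⟩ := exists_asg hS hA hG
  refine (parity_guess (bz z) s).2 ⟨g, hg, ?_⟩
  rcases Nat.eq_zero_or_pos s with hs | hs
  · subst hs
    rw [sem_even (by simp)]
    intro j
    simp only [pth, List.map_nil, bp, hd]
    have h1 := leafY ho b0 hr (z := z) (g := g) (T := T) (b := j) (h := g) (L := []) rfl ?_
    · rw [List.map_nil, cc, if_pos rfl] at h1
      exact h1
    · intro f
      refine ⟨(none, j, g, f), rfl, rfl, ?_, hev _⟩
      simp [incg]
  · obtain ⟨r', rfl⟩ : ∃ r, s = r + 1 := ⟨s - 1, by omega⟩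
    rw [sem_step_even (by simp)]
    intro j h' hs'
    have h2 : ∑ x, h' x = g j + 1 := hs'
    have h3 := climbY (r0 := 0) (t := r' + 1 + 1) b0
      (φ := phO (YO r (zw b0 z)) (asg T g)) (g := g)
      (w := bz z) (C := fun L => L.getLast? = some ((none, j, h', ⟨0, hn⟩) : EE B k n)) ?_ ?_ hn r'
      [(none, j, h', ⟨0, hn⟩)] (List.cons_ne_nil _ _) rfl (by simp; omega)
      (by rw [Nat.zero_add]; exact hev _)
    · rw [Nat.zero_add] at h3
      exact h3
    · intro e L _ hC
      exact getLast_cons' hC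
    · intro L hL hC hlen hev1
      have hevL : Even L.length := by
        have : Odd (L.length + 1) := by
          have : L.length + 1 = r' + 1 + 1 := by omega
          rw [this]
          exact ho
        rwa [Nat.odd_add_one, Nat.not_odd_iff_even] at this
      rw [ev_even hevL] at hev1
      rw [sem_even (by rw [til_length]; exact hevL)]
      intro i
      rw [til_pth]
      simp only [bp]
      have h1 := leafY ho b0 hr (z := z) (g := g) (T := T) (b := i) (h := g) (L := L) (by omega) ?_
      · rw [h1, cc, if_neg hL, if_pos hevL, add_zero, hd_indep g 0 (til_ne b0 hL)]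
      · intro f
        refine ⟨(none, j, h', ⟨0, hn⟩), getLast_cons' hC, rfl, ?_, hev1 _⟩
        rw [incg, if_neg (by omega)]
        simp [h2]

end srco

end Pool.Agent.WSatMon
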