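import Pool.Agent.WSatMon.Eval
import Pool.Agent.ParityAC.Tree
import Pool.Agent.ParityAC.Parity

/-! Complete alternating trees. -/

namespace Pool.Agent.WSatMon

open Finset Pool.Agent.ParityAC

section tree

/-- the complete tree of depth `t` with branching `E` -/
def treeF (E X : Type) [Finite E] [Finite X] (t : ℕ) : Frame where
  Var := X
  Gate := {L : List E // L.length ≤ t}
  finVar := inferInstance
  finGate := by
    apply Finite.of_injective (fun (L : {L : List E // L.length ≤ t}) (i : Fin t) => L.1[i.1]?)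
    intro L L' h
    apply Subtype.ext
    apply List.ext_getElem?
    intro i
    rcases Nat.lt_or_ge i t with hi | hi
    · exact congrFun h ⟨i, hi⟩
    · rw [List.getElem?_eq_none (L.2.trans hi), List.getElem?_eq_none (L'.2.trans hi)]
  isAnd L := Even L.1.length
  slot L := L.1.length = t
  wire g h := ∃ e, g.1 = e :: h.1
  wf := by
    apply Subrelation.wf (r := InvImage (· < ·) fun L : {L : List E // L.length ≤ t} =>
      t - L.1.length)
    · rintro ⟨g, hg⟩ ⟨h, hh⟩ ⟨e, he⟩
      simp only at he
      subst he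
      simp only [InvImage, List.length_cons] at hg ⊢
      omega
    · exact InvImage.wf _ Nat.lt_wfRel.wf
  out := ⟨[], Nat.zero_le _⟩

variable {E X : Type} [Finite E] [Finite X] {t : ℕ}

theorem treeF_mem : (GAMMA (t + 1) 1).mem (treeF E X t) := by
  refine ⟨?_, fun L => L.1.length + 1, rfl, ?_, ?_⟩
  · rintro ⟨g, _⟩ ⟨h, _⟩ ⟨h', _⟩ ⟨e, he⟩ ⟨e', he'⟩
    simp only at he he'
    rw [he] at he'
    exact Subtype.ext (List.cons.inj he').2
  · rintro ⟨g, _⟩ ⟨h, _⟩ ⟨e, he⟩
    simp only at he
    subst he
    rfl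
  · rintro ⟨L, hL⟩
    refine ⟨Nat.succ_le_succ (Nat.zero_le _), Nat.succ_le_succ hL, ?_, ?_⟩
    · show Even L.length ↔ Odd (L.length + 1)
      rw [Nat.odd_add_one, Nat.not_odd_iff_even]
    · show L.length = t ↔ L.length + 1 = t + 1
      omega

theorem treeF_forest : IsForest (treeF E X t) := treeF_mem.1

theorem treeF_size : (treeF E X t).size ≤ (Nat.card E + 1) ^ t + Nat.card X := by
  unfold Frame.size
  apply Nat.add_le_add_right
  have h : Function.Injective (fun (L : {L : List E // L.length ≤ t}) (i : Fin t) =>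
      L.1[i.1]?) := by
    intro L L' h
    apply Subtype.ext
    apply List.ext_getElem?
    intro i
    rcases Nat.lt_or_ge i t with hi | hi
    · exact congrFun h ⟨i, hi⟩
    · rw [List.getElem?_eq_none (L.2.trans hi), List.getElem?_eq_none (L'.2.trans hi)]
  refine (Nat.card_le_card_of_injective _ h).trans ?_
  rw [Nat.card_fun, Nat.card_fin]
  have : Nat.card (Option E) = Nat.card E + 1 := Finite.card_option
  rw [this]

/-- alternating evaluation -/
def ev (φ : List E → Prop) : ℕ → List E → Prop
  | 0, L => φ L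
  | r + 1, L => if Even L.length then ∀ e, ev φ r (e :: L) else ∃ e, ev φ r (e :: L)

omit [Finite E] in
theorem ev_even {φ : List E → Prop} {r : ℕ} {L : List E} (h : Even L.length) :
    ev φ (r + 1) L ↔ ∀ e, ev φ r (e :: L) := by
  rw [ev, if_pos h]

omit [Finite E] in
theorem ev_odd {φ : List E → Prop} {r : ℕ} {L : List E} (h : ¬ Even L.length) :
    ev φ (r + 1) L ↔ ∃ e, ev φ r (e :: L) := by
  rw [ev, if_neg h]

theorem eval_tree (sl : (treeF E X t).Gate → Prop) : ∀ (r : ℕ) (L : List E) (hL : L.length ≤ t),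
    L.length + r = t →
    (evalF (treeF E X t) sl ⟨L, hL⟩ ↔ ev (fun L => ∃ h : L.length ≤ t, sl ⟨L, h⟩) r L) := by
  intro r
  induction r with
  | zero =>
    intro L hL hr
    have hno : ∀ g, ¬ (treeF E X t).wire g ⟨L, hL⟩ := by
      rintro ⟨g, hg⟩ ⟨e, he⟩
      simp only at he
      subst he
      rw [List.length_cons] at hg
      omega
    have hslot : (treeF E X t).slot ⟨L, hL⟩ := by
      show L.length = t
      omega
    show _ ↔ ∃ h : L.length ≤ t, sl ⟨L, h⟩
    by_cases hga : (treeF E X t).isAnd ⟨L, hL⟩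
    · rw [(evalF_spec _ sl).1 _ hga]
      exact ⟨fun h => ⟨hL, h.2 hslot⟩, fun ⟨_, h⟩ => ⟨fun g hw => absurd hw (hno g), fun _ => h⟩⟩
    · rw [(evalF_spec _ sl).2 _ hga]
      exact ⟨fun h => h.elim (fun ⟨g, hw, _⟩ => absurd hw (hno g)) fun h => ⟨hL, h.2⟩,
        fun ⟨_, h⟩ => Or.inr ⟨hslot, h⟩⟩
  | succ r ih =>
    intro L hL hr
    have hslot : ¬ (treeF E X t).slot ⟨L, hL⟩ := by
      intro h
      have : L.length = t := h
      omega
    have hlen : ∀ e : E, (e :: L).length ≤ t := fun e => by
      rw [List.length_cons]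
      omega
    have ih' := fun e => ih (e :: L) (hlen e) (by rw [List.length_cons]; omega)
    by_cases hga : Even L.length
    · rw [ev_even hga, (evalF_spec (treeF E X t) sl).1 (⟨L, hL⟩ : {L : List E // L.length ≤ t})
        (show (treeF E X t).isAnd ⟨L, hL⟩ from hga)]
      constructor
      · intro h e
        exact (ih' e).1 (h.1 ⟨e :: L, hlen e⟩ ⟨e, rfl⟩)
      · intro h
        refine ⟨?_, fun hs => absurd hs hslot⟩
        rintro ⟨g, hg⟩ ⟨e, he⟩
        simp only at he
        subst he
        exact (ih' e).2 (h e)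
    · rw [ev_odd hga, (evalF_spec (treeF E X t) sl).2 (⟨L, hL⟩ : {L : List E // L.length ≤ t})
        (show ¬ (treeF E X t).isAnd ⟨L, hL⟩ from hga)]
      constructor
      · rintro (⟨⟨g, hg⟩, ⟨e, he⟩, hv⟩ | ⟨hs, _⟩)
        · simp only at he
          subst he
          exact ⟨e, (ih' e).1 hv⟩
        · exact absurd hs hslot
      · rintro ⟨e, he⟩
        exact Or.inl ⟨⟨e :: L, hlen e⟩, ⟨e, rfl⟩, (ih' e).2 he⟩

/-- satisfiability of an instance on the tree -/
theorem wsat_tree {d k : ℕ} (y : (treeF E X t).Bit d → Bool) :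
    WSat (treeF E X t) y k ↔ ∃ S : Set X, Nat.card S = k ∧
      ev (fun L => ∃ h : L.length ≤ t, sl0 (treeF E X t) y S ⟨L, h⟩) t [] := by
  rw [wsat_iff]
  apply exists_congr
  intro S
  apply and_congr_right
  intro _
  exact eval_tree _ t [] (Nat.zero_le _) (by simp)

omit [Finite E] in
/-- a subtree with constant leaves -/
theorem ev_const [Nonempty E] {φ : List E → Prop} {P : Prop} : ∀ (r : ℕ) (L : List E),
    (∀ M : List E, M.length = r → (φ (M ++ L) ↔ P)) → (ev φ r L ↔ P) := by
  intro r
  induction r with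
  | zero =>
    intro L h
    have := h [] rfl
    simpa [ev] using this
  | succ r ih =>
    intro L h
    have ih' : ∀ e, ev φ r (e :: L) ↔ P := fun e => ih (e :: L) fun M hM => by
      have := h (M ++ [e]) (by simp [hM])
      simpa using this
    obtain ⟨e0⟩ := (inferInstance : Nonempty E)
    by_cases hL : Even L.length
    · rw [ev_even hL]
      exact ⟨fun h1 => (ih' e0).1 (h1 e0), fun h1 e => (ih' e).2 h1⟩
    · rw [ev_odd hL]
      exact ⟨fun ⟨e, h1⟩ => (ih' e).1 h1, fun h1 => ⟨e0, (ih' e0).2 h1⟩⟩

omit [Finite E] in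
/-- a subtree with true parents of leaves -/
theorem ev_true [Nonempty E] {φ : List E → Prop} : ∀ (r : ℕ) (L : List E),
    (∀ M : List E, M.length = r → ev φ 1 (M ++ L)) → ev φ (r + 1) L := by
  intro r
  induction r with
  | zero =>
    intro L h
    exact h [] rfl
  | succ r ih =>
    intro L h
    have ih' : ∀ e, ev φ (r + 1) (e :: L) := fun e => ih (e :: L) fun M hM => by
      have := h (M ++ [e]) (by simp [hM])
      simpa using this
    obtain ⟨e0⟩ := (inferInstance : Nonempty E)
    by_cases hL : Even L.length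
    · rw [ev_even hL]
      exact ih'
    · rw [ev_odd hL]
      exact ⟨e0, ih' e0⟩

end tree

section vv

variable {B : Type} {s : ℕ}

/-- the positions of the hidden bits -/
abbrev VV (B : Type) (s : ℕ) : Type := List.Vector B (s + 1)

/-- the hidden bits -/
def bz (x : VV B s → Bool) : List B → ZMod 2 := fun y =>
  if h : y.length = s + 1 then (if x ⟨y, h⟩ then 1 else 0) else 0

theorem bz_update [DecidableEq B] (x : VV B s → Bool) (v : VV B s) :
    bz (Function.update x v (!x v)) = fun y => bz x y + (if y = v.1 then 1 else 0) := by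
  funext y
  by_cases hy : y.length = s + 1
  · simp only [bz, dif_pos hy]
    by_cases hv : y = v.1
    · subst hv
      rw [if_pos rfl]
      have h1 : (⟨v.1, hy⟩ : VV B s) = v := rfl
      rw [h1, Function.update_self]
      cases x v
      · decide
      · decide
    · have h1 : (⟨y, hy⟩ : VV B s) ≠ v := fun h => hv (congrArg Subtype.val h)
      have h2 : Function.update x v (!x v) (⟨y, hy⟩ : VV B s) = x ⟨y, hy⟩ :=
        Function.update_of_ne h1 _ _
      rw [if_neg hv, add_zero]
      exact congrArg (fun b : Bool => if b = true then (1 : ZMod 2) else 0) h2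
  · have hv : y ≠ v.1 := by
      rintro rfl
      exact hy v.2
    simp only [bz, dif_neg hy, if_neg hv, add_zero]

open Classical in
theorem flip_parity [Fintype B] [DecidableEq B] :
    Flip (fun x : VV B s → Bool => decide (bp (bz x) (s + 1) [] = 0)) := by
  intro x v
  show decide (bp (bz (Function.update x v (!x v))) (s + 1) [] = 0) =
    !(decide (bp (bz x) (s + 1) [] = 0))
  have h1 : bp (bz (Function.update x v (!x v))) (s + 1) [] = bp (bz x) (s + 1) [] + 1 := by
    rw [bz_update, bp_add, bp_single, if_pos]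
    exact ⟨v.1, v.2, by simp⟩
  rw [h1]
  generalize bp (bz x) (s + 1) [] = a
  revert a
  decide

end vv

end Pool.Agent.WSatMon
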